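import Mathlib

/-!
Module LF-22 (Loop). Two combinatorial lemmas.

* `loop`: prove, by strong induction on `M - k`, for all `k ≤ M`:
  `g M - g k ≤ Σ_{k ≤ i < M, ¬ bad i} x i + (B + B') #(cell '' {i | k ≤ i < M, bad i})`.
  `k = M`: trivial. `¬ bad k`: add `g (k+1) - g k ≤ x k`. `bad k`: let `k'` be the largest index
  `< M` with `bad k'` and `cell k' = cell k` (so `k ≤ k'`); then
  `g M - g k = (g M - g (k'+1)) + (g (k'+1) - g k') + (g k' - g k)`, the last two are at most `B` and
  `B'`, and the set of cells for `k' + 1` does not contain `cell k`.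
* `blocks`: strong induction on `m - a` for the statement with a general start `a ≤ m`
  (`b 0 = a`): if `a = m` take `M = 0`. Otherwise let `a'` be the least `i > a` with
  `K ≤ t i - t a`, or `m` if there is none `≤ m`; then `t (a' - 1) - t a < K`; continue from `a'`.
-/

namespace Pool.Agent.Helper61.LF

private theorem loop_aux {ι : Type*} [DecidableEq ι] (M : ℕ) (g : ℕ → ℝ) (bad : ℕ → Prop)
    [DecidablePred bad] (cell : ℕ → ι) (x : ℕ → ℝ) (B B' : ℝ) (hx : ∀ k < M, 0 ≤ x k) (hB : 0 ≤ B)
    (hB' : 0 ≤ B') (h1 : ∀ k < M, ¬ bad k → g (k + 1) - g k ≤ x k)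
    (h2 : ∀ k < M, bad k → g (k + 1) - g k ≤ B)
    (h3 : ∀ k k', k ≤ k' → k' < M → bad k → bad k' → cell k = cell k' → g k' - g k ≤ B') :
    ∀ n k : ℕ, k ≤ M → M - k = n →
      g M - g k ≤ ∑ i ∈ (Finset.Ico k M).filter (fun i => ¬ bad i), x i +
      (B + B') * ((((Finset.Ico k M).filter bad).image cell).card : ℝ) := by
  intro n
  induction n using Nat.strong_induction_on with
  | _ n ih =>
    intro k hk hn
    rcases Nat.lt_or_ge k M with hkM | hkM
    · by_cases hb : bad k
      · set S := (Finset.Ico k M).filter (fun i => bad i ∧ cell i = cell k) with hS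
        have hkS : k ∈ S := by
          rw [hS, Finset.mem_filter, Finset.mem_Ico]
          exact ⟨⟨le_rfl, hkM⟩, hb, rfl⟩
        have hne : S.Nonempty := ⟨k, hkS⟩
        set k' := S.max' hne with hk'
        have hk'S : k' ∈ S := S.max'_mem hne
        have hk'2 := hk'S
        rw [hS, Finset.mem_filter, Finset.mem_Ico] at hk'2
        obtain ⟨⟨hkk', hk'M⟩, hbk', hck'⟩ := hk'2
        have hIH := ih (M - (k' + 1)) (by omega) (k' + 1) hk'M rfl
        have hsum : ∑ i ∈ (Finset.Ico (k' + 1) M).filter (fun i => ¬ bad i), x i ≤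
            ∑ i ∈ (Finset.Ico k M).filter (fun i => ¬ bad i), x i := by
          refine Finset.sum_le_sum_of_subset_of_nonneg ?_ ?_
          · intro i hi
            rw [Finset.mem_filter, Finset.mem_Ico] at hi ⊢
            exact ⟨⟨by omega, hi.1.2⟩, hi.2⟩
          · intro i hi _
            rw [Finset.mem_filter, Finset.mem_Ico] at hi
            exact hx i hi.1.2
        have hcard : (((Finset.Ico (k' + 1) M).filter bad).image cell).card + 1 ≤
            (((Finset.Ico k M).filter bad).image cell).card := by
          have hmem : cell k ∈ ((Finset.Ico k M).filter bad).image cell := by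
            rw [Finset.mem_image]
            refine ⟨k, ?_, rfl⟩
            rw [Finset.mem_filter, Finset.mem_Ico]
            exact ⟨⟨le_rfl, hkM⟩, hb⟩
          have hsub : ((Finset.Ico (k' + 1) M).filter bad).image cell ⊆
              (((Finset.Ico k M).filter bad).image cell).erase (cell k) := by
            intro c hc
            rw [Finset.mem_image] at hc
            obtain ⟨i, hi, rfl⟩ := hc
            rw [Finset.mem_filter, Finset.mem_Ico] at hi
            rw [Finset.mem_erase, Finset.mem_image]
            refine ⟨fun hcc => ?_, i, ?_, rfl⟩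
            · have hiS : i ∈ S := by
                rw [hS, Finset.mem_filter, Finset.mem_Ico]
                exact ⟨⟨by omega, hi.1.2⟩, hi.2, hcc⟩
              have := S.le_max' i hiS
              rw [← hk'] at this
              omega
            · rw [Finset.mem_filter, Finset.mem_Ico]
              exact ⟨⟨by omega, hi.1.2⟩, hi.2⟩
          have h4 := Finset.card_le_card hsub
          rw [Finset.card_erase_of_mem hmem] at h4
          have h5 : 1 ≤ (((Finset.Ico k M).filter bad).image cell).card :=
            Finset.card_pos.2 ⟨_, hmem⟩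
          omega
        have hcard' : ((((Finset.Ico (k' + 1) M).filter bad).image cell).card : ℝ) + 1 ≤
            ((((Finset.Ico k M).filter bad).image cell).card : ℝ) := by exact_mod_cast hcard
        have e2 := h2 k' hk'M hbk'
        have e3 := h3 k k' hkk' hk'M hb hbk' hck'.symm
        have e4 := mul_le_mul_of_nonneg_left hcard' (add_nonneg hB hB')
        nlinarith
      · have hIH := ih (M - (k + 1)) (by omega) (k + 1) hkM rfl
        have hIco : Finset.Ico k M = insert k (Finset.Ico (k + 1) M) :=
          (Finset.insert_Ico_succ_left_eq_Ico hkM).symm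
        have e1 := h1 k hkM hb
        rw [hIco, Finset.filter_insert, Finset.filter_insert, if_pos hb, if_neg hb,
          Finset.sum_insert (by simp)]
        linarith
    · have : k = M := le_antisymm hk hkM
      subst this
      simp

theorem loop {ι : Type*} [DecidableEq ι] (M : ℕ) (g : ℕ → ℝ) (bad : ℕ → Prop) [DecidablePred bad]
    (cell : ℕ → ι) (x : ℕ → ℝ) (B B' : ℝ) (hx : ∀ k < M, 0 ≤ x k) (hB : 0 ≤ B) (hB' : 0 ≤ B')
    (h1 : ∀ k < M, ¬ bad k → g (k + 1) - g k ≤ x k) (h2 : ∀ k < M, bad k → g (k + 1) - g k ≤ B)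
    (h3 : ∀ k k', k ≤ k' → k' < M → bad k → bad k' → cell k = cell k' → g k' - g k ≤ B') :
    g M - g 0 ≤ ∑ k ∈ (Finset.range M).filter (fun k => ¬ bad k), x k +
      (B + B') * ((((Finset.range M).filter bad).image cell).card : ℝ) := by
  have := loop_aux M g bad cell x B B' hx hB hB' h1 h2 h3 (M - 0) 0 (Nat.zero_le _) rfl
  rwa [← Finset.range_eq_Ico] at this

private theorem blocks_aux (m : ℕ) (t : ℕ → ℕ) {K : ℕ} (hK : 1 ≤ K) :
    ∀ n a : ℕ, a ≤ m → m - a = n → ∃ (M : ℕ) (b : ℕ → ℕ), (a = m → M = 0) ∧ b 0 = a ∧ b M = m ∧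
      (∀ k < M, b k < b (k + 1)) ∧ (∀ k < M, t (b (k + 1) - 1) - t (b k) < K) ∧
        ∀ k, k + 1 < M → K ≤ t (b (k + 1)) - t (b k) := by
  intro n
  induction n using Nat.strong_induction_on with
  | _ n ih =>
    intro a ha hn
    rcases Nat.lt_or_ge a m with ham | ham
    · have hex : ∃ i, a < i ∧ (K ≤ t i - t a ∨ i = m) := ⟨m, ham, Or.inr rfl⟩
      classical
      obtain ⟨h1, h2⟩ := Nat.find_spec hex
      have h3 : Nat.find hex ≤ m := Nat.find_min' hex ⟨ham, Or.inr rfl⟩
      have h4 : ∀ i < Nat.find hex, ¬ (a < i ∧ (K ≤ t i - t a ∨ i = m)) :=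
        fun i hi => Nat.find_min hex hi
      generalize Nat.find hex = a' at h1 h2 h3 h4
      obtain ⟨M', b', g0, g1, g2, g3, g4, g5⟩ := ih (m - a') (by omega) a' h3 rfl
      refine ⟨M' + 1, fun k => Nat.casesOn k a b', fun h => by omega, rfl, g2, ?_, ?_, ?_⟩
      · intro k hk
        cases k with
        | zero => change a < b' 0; rw [g1]; exact h1
        | succ k => exact g3 k (by omega)
      · intro k hk
        cases k with
        | zero =>
          change t (b' 0 - 1) - t a < K
          rw [g1]
          rcases Nat.eq_or_lt_of_le (Nat.le_sub_one_of_lt h1) with h5 | h5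
          · rw [← h5]; omega
          · have := h4 (a' - 1) (by omega)
            by_contra hcon
            exact this ⟨h5, Or.inl (by omega)⟩
        | succ k => exact g4 k (by omega)
      · intro k hk
        cases k with
        | zero =>
          change K ≤ t (b' 0) - t a
          rw [g1]
          rcases h2 with h2 | h2
          · exact h2
          · have := g0 h2
            omega
        | succ k => exact g5 k (by omega)
    · exact ⟨0, fun _ => m, fun _ => rfl, le_antisymm ham ha, rfl, fun k hk => by omega, fun k hk => by omega,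
        fun k hk => by omega⟩

theorem blocks (m : ℕ) (t : ℕ → ℕ) (ht : ∀ i < m, t i < t (i + 1)) {K : ℕ} (hK : 1 ≤ K) :
    ∃ (M : ℕ) (b : ℕ → ℕ), b 0 = 0 ∧ b M = m ∧ (∀ k < M, b k < b (k + 1)) ∧
      (∀ k < M, t (b (k + 1) - 1) - t (b k) < K) ∧
        ∀ k, k + 1 < M → K ≤ t (b (k + 1)) - t (b k) := by
  obtain ⟨M, b, _, h⟩ := blocks_aux m t hK (m - 0) 0 (Nat.zero_le _) rfl
  exact ⟨M, b, h⟩

end Pool.Agent.Helper61.LF
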