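import Pool.Agent.Helper61.LF.Shape
import Pool.Agent.Helper61.LF.Loop

/-!
Module LF-24 (Acc). The accounting of a chain.

Proof. Write `z i = zs w l i`, `t i = ts w l i`, `m = l.length`; `t` is strictly increasing on
`[0, m]` (`ts_lt`), `nrm (z i' - z i) ≤ t i' - t i` for `i ≤ i'` (`nrm_zs_sub`), and
`|lin f (toR v)| ≤ Φ nrm v`. Take `M, b` from `blocks` (`K ≥ 1` since `1 < κ K`). Let `u k = z (b k)`,
`D k = t (b (k+1)) - t (b k)`, `r k = t (b (k+1)) - t (b (k+1) - 1)` the duration of the last segment of
the block. `D k < K + r k`.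
Call `k < M` of type C if `K ≤ D k` and `r k ≤ H K`; then `D k < (H+1) K`. Call `k` bad if it is of
type C and the cell `c k = cellOf s (u k)` is not good. Apply `loop` to `g k = lin f (toR (u k))`,
`B = Φ (H+1) K`, `B' = Φ d s` (two sites of one cell differ by at most `s` in every coordinate), the cells
`c k`, and for `k` not bad the bound `x k` as follows:
* `D k < K` (only possible for `k = M-1`): `x k = Φ K`.
* `K ≤ D k`, `H K < r k`, last segment not ballistic (`nrm < r/(4Φ)`): displacement at most
  `Φ (K + r/(4Φ)) ≤ r/4 + r/4 ≤ D/2 ≤ (1-σ) D` (`4 Φ ≤ H`, so `Φ K ≤ r/4`); `x k = (1-σ) D k`.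
* `K ≤ D k`, `H K < r k`, last segment ballistic: at most `Φ (K + r) ≤ r/4 + Φ r`;
  `x k = (1-σ) D k + Φ r k`.
* type C, good cell, `b k ∈ wst`: by `hgood` the displacement is `((1+δ) D) • v`, `v ∈ C`,
  `lin f v ≤ 1`: at most `(1+δ) D ≤ (1-σ) D + (σ+δ)(H+1)K =: x k`.
* type C, good cell, `b k ∉ wst`: taking `i' = b (k+1)` in the definition of `wst`,
  `nrm (u (k+1) - u k) ≥ D - 1`; by `hgood` and homogeneity of `hmod` (apply it to
  the vector `v` with `toR (u (k+1) - u k) = ((1+δ) D) • v`): if the displacement were
  `≥ (1-σ) D` then `nrm ≤ (1-κ) D`, so `κ D ≤ 1`, against `κ K > 1`. So it is `≤ (1-σ) D =: x k`.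
Summing: `Σ D k ≤ t m` (telescoping, `t 0 = 0`); the wasteful blocks inject into `wst` by
`k ↦ b k`; the ballistic ones into the terms of `balSum` by `k ↦ b (k+1) - 1`; the bad cells
are in `badC`. All bounds are nonnegative, so the sum over `k` not bad is at most the sum in
the statement.
-/

namespace Pool.Agent.Helper61.LF

private theorem lin_sub' {d : ℕ} (f : Fin d → ℝ) (x y : Site d) :
    lin f (toR x) - lin f (toR y) = lin f (toR (x - y)) := by
  unfold lin toR
  rw [← Finset.sum_sub_distrib]
  refine Finset.sum_congr rfl fun i _ => ?_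
  rw [Pi.sub_apply]
  push_cast
  ring

private theorem lin_smul' {d : ℕ} (f v : Fin d → ℝ) (a : ℝ) : lin f (a • v) = a * lin f v := by
  unfold lin
  rw [Finset.mul_sum]
  refine Finset.sum_congr rfl fun i _ => ?_
  rw [Pi.smul_apply, smul_eq_mul]
  ring

private theorem nrm_cast {d : ℕ} (v : Site d) : ((nrm v : ℕ) : ℝ) = ∑ i, |(v i : ℝ)| := by
  unfold nrm
  push_cast
  refine Finset.sum_congr rfl fun i _ => ?_
  rw [Nat.cast_natAbs]
  push_cast
  rfl

private theorem lin_le_nrm {d : ℕ} {f : Fin d → ℝ} {Φ : ℝ} (hf : ∀ i, |f i| ≤ Φ) (v : Site d) :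
    lin f (toR v) ≤ Φ * nrm v := by
  rw [nrm_cast, Finset.mul_sum]
  unfold lin toR
  refine Finset.sum_le_sum fun i _ => ?_
  calc f i * (v i : ℝ) ≤ |f i * (v i : ℝ)| := le_abs_self _
    _ = |f i| * |(v i : ℝ)| := abs_mul _ _
    _ ≤ Φ * |(v i : ℝ)| := mul_le_mul_of_nonneg_right (hf i) (abs_nonneg _)

private theorem same_cell {d s : ℕ} (hs : 1 ≤ s) {x y : Site d} (h : cellOf s x = cellOf s y) :
    nrm (y - x) ≤ d * s := by
  unfold nrm
  calc ∑ i, ((y - x) i).natAbs ≤ ∑ _i : Fin d, s := by
        refine Finset.sum_le_sum fun i _ => ?_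
        have h1 : x i / (s : ℤ) = y i / (s : ℤ) := congrFun h i
        have hs' : (0 : ℤ) < s := by exact_mod_cast hs
        have h2 := Int.emod_add_mul_ediv (x i) s
        have h3 := Int.emod_add_mul_ediv (y i) s
        have h4 := Int.emod_nonneg (x i) hs'.ne'
        have h5 := Int.emod_nonneg (y i) hs'.ne'
        have h6 := Int.emod_lt_of_pos (x i) hs'
        have h7 := Int.emod_lt_of_pos (y i) hs'
        rw [Pi.sub_apply]
        rw [h1] at h2
        have h8 : y i - x i = y i % s - x i % s := by linarith
        omega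
    _ = d * s := by simp

theorem accounting {d : ℕ} {C : Set (Fin d → ℝ)} {f : Fin d → ℝ} {σ δ κ Φ δg : ℝ}
    {H K s L Km : ℕ} (hσ : 0 < σ) (hσ' : σ ≤ 1 / 2) (hδ : 0 < δ) (hδ' : δ ≤ 1) (hκ : 0 < κ)
    (hΦ : 1 ≤ Φ) (hf : ∀ i, |f i| ≤ Φ) (hH : 4 * Φ ≤ H) (hK : 1 < κ * K) (hs : 1 ≤ s)
    (hC : ∀ v ∈ C, lin f v ≤ 1)
    (hmod : ∀ v ∈ C, 1 - σ ≤ lin f ((1 + δ) • v) → ∑ i, |((1 + δ) • v) i| ≤ 1 - κ)
    (w : Om d) (l : List (ℕ × ℕ))
    (hgood : ∀ i i', i < i' → i' ≤ l.length → Good C δg s L K Km w (cellOf s (zs w l i)) →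
      K ≤ ts w l i' - ts w l i → ts w l i' - ts w l i < (H + 1) * K →
        ∃ v ∈ C, toR (zs w l i' - zs w l i) =
          ((1 + δ) * ((ts w l i' - ts w l i : ℕ) : ℝ)) • v) :
    lin f (toR (zs w l l.length)) ≤ (1 - σ) * ts w l l.length +
      (σ + δ) * ((H + 1) * K) * ((wst ((H + 1) * K) w l).card : ℝ) +
      Φ * balSum (1 / (4 * Φ)) (H * K) w l +
      Φ * ((H + 1) * K + d * s) * ((badC C δg s L K Km w l).card : ℝ) + Φ * K := by
  classical
  have hK0 : 1 ≤ K := by
    rcases Nat.eq_zero_or_pos K with h | h
    · subst h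
      norm_num at hK
    · exact h
  obtain ⟨M, b, hb0, hbM, hblt, hblK, hbK⟩ :=
    blocks l.length (ts w l) (fun i hi => ts_lt w l i hi) hK0
  have hbmono : ∀ n k, k + n ≤ M → b k ≤ b (k + n) := by
    intro n
    induction n with
    | zero => intro k _; exact le_rfl
    | succ n ih =>
      intro k hk
      exact (ih k (by omega)).trans (hblt (k + n) (by omega)).le
  have hble : ∀ k, k ≤ M → b k ≤ l.length := by
    intro k hk
    have := hbmono (M - k) k (by omega)
    rwa [Nat.add_sub_cancel' hk, hbM] at this
  have hbinj : ∀ k k', k < k' → k' ≤ M → b k < b k' := by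
    intro k k' h1 h2
    have h3 := hbmono (k' - (k + 1)) (k + 1) (by omega)
    rw [Nat.add_sub_cancel' (by omega)] at h3
    exact (hblt k (by omega)).trans_le h3
  have hbl : ∀ k, k < M → b k < l.length := fun k hk =>
    (hblt k hk).trans_le (hble (k + 1) hk)
  -- durations
  set D : ℕ → ℕ := fun k => ts w l (b (k + 1)) - ts w l (b k) with hD
  set r : ℕ → ℕ := fun k => ts w l (b (k + 1)) - ts w l (b (k + 1) - 1) with hr
  have htm : ∀ k, k < M → ts w l (b k) ≤ ts w l (b (k + 1) - 1) := fun k hk =>
    ts_mono w l (by have := hblt k hk; omega)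
  have htm' : ∀ k, ts w l (b (k + 1) - 1) ≤ ts w l (b (k + 1)) := fun k =>
    ts_mono w l (Nat.sub_le _ _)
  have hDr : ∀ k, k < M → D k < K + r k := by
    intro k hk
    have h1 := hblK k hk
    have h2 := htm k hk
    have h3 := htm' k
    simp only [hD, hr]
    omega
  have hrD : ∀ k, k < M → r k ≤ D k := by
    intro k hk
    have h2 := htm k hk
    simp only [hD, hr]
    omega
  set bad : ℕ → Prop := fun k => K ≤ D k ∧ r k ≤ H * K ∧
    ¬ Good C δg s L K Km w (cellOf s (zs w l (b k))) with hbad
  set bal : ℕ → Prop := fun k => H * K < r k ∧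
    1 / (4 * Φ) * (r k : ℝ) ≤ nrm (zs w l (b (k + 1)) - zs w l (b (k + 1) - 1)) with hbal
  have hΦ0 : 0 < Φ := by linarith
  have hσ1 : 0 ≤ 1 - σ := by linarith
  have hKr : (1 : ℝ) ≤ K := by exact_mod_cast hK0
  have hHr : (0 : ℝ) ≤ H := Nat.cast_nonneg _
  set x : ℕ → ℝ := fun k => (1 - σ) * D k + (if D k < K then Φ * K else 0) +
    (if bal k then Φ * r k else 0) +
    (if b k ∈ wst ((H + 1) * K) w l then (σ + δ) * ((H + 1) * K) else 0) with hx
  have hn1 : ∀ k, 0 ≤ (1 - σ) * (D k : ℝ) := fun k => mul_nonneg hσ1 (Nat.cast_nonneg _)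
  have hn2 : ∀ k, 0 ≤ (if D k < K then Φ * (K : ℝ) else 0) := by
    intro k
    split_ifs
    · positivity
    · exact le_rfl
  have hn3 : ∀ k, 0 ≤ (if bal k then Φ * (r k : ℝ) else 0) := by
    intro k
    split_ifs
    · positivity
    · exact le_rfl
  have hn4 : ∀ k, 0 ≤ (if b k ∈ wst ((H + 1) * K) w l then (σ + δ) * (((H : ℝ) + 1) * K)
      else 0) := by
    intro k
    split_ifs
    · positivity
    · exact le_rfl
  have hx0 : ∀ k < M, 0 ≤ x k := by
    intro k _
    have h1 := hn1 k
    have h2 := hn2 k
    have h3 := hn3 k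
    have h4 := hn4 k
    simp only [hx]
    linarith
  have hdisp : ∀ k, k < M → (nrm (zs w l (b (k + 1)) - zs w l (b k)) : ℝ) ≤ D k := by
    intro k hk
    have := nrm_zs_sub w l (hblt k hk).le
    exact_mod_cast this
  have hlast : ∀ k, k < M → (nrm (zs w l (b (k + 1)) - zs w l (b k)) : ℝ) ≤
      K + nrm (zs w l (b (k + 1)) - zs w l (b (k + 1) - 1)) := by
    intro k hk
    have h1 : zs w l (b (k + 1)) - zs w l (b k) =
        (zs w l (b (k + 1) - 1) - zs w l (b k)) +
          (zs w l (b (k + 1)) - zs w l (b (k + 1) - 1)) := by abel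
    have h2 := nrm_add_le (zs w l (b (k + 1) - 1) - zs w l (b k))
      (zs w l (b (k + 1)) - zs w l (b (k + 1) - 1))
    rw [← h1] at h2
    have h3 := nrm_zs_sub w l (i := b k) (i' := b (k + 1) - 1) (by have := hblt k hk; omega)
    have h4 := hblK k hk
    have h5 : nrm (zs w l (b (k + 1)) - zs w l (b k)) ≤
        K + nrm (zs w l (b (k + 1)) - zs w l (b (k + 1) - 1)) := by omega
    exact_mod_cast h5
  have hmain := loop M (fun k => lin f (toR (zs w l (b k)))) bad
    (fun k => cellOf s (zs w l (b k))) x (Φ * ((H + 1) * K)) (Φ * (d * s)) hx0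
    (by positivity) (by positivity) ?_ ?_ ?_
  · -- summation
    have e0 : lin f (toR (zs w l (b 0))) = 0 := by
      rw [hb0, zs_zero]
      unfold lin toR
      simp
    rw [hbM, e0, sub_zero] at hmain
    have s1 : ∑ k ∈ (Finset.range M).filter (fun k => ¬ bad k), x k ≤
        ∑ k ∈ Finset.range M, x k :=
      Finset.sum_le_sum_of_subset_of_nonneg (Finset.filter_subset _ _)
        fun k hk _ => hx0 k (Finset.mem_range.1 hk)
    have s2 : ∑ k ∈ Finset.range M, x k = ∑ k ∈ Finset.range M, (1 - σ) * (D k : ℝ) +
        ∑ k ∈ Finset.range M, (if D k < K then Φ * (K : ℝ) else 0) +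
        ∑ k ∈ Finset.range M, (if bal k then Φ * (r k : ℝ) else 0) +
        ∑ k ∈ Finset.range M, (if b k ∈ wst ((H + 1) * K) w l then
          (σ + δ) * (((H : ℝ) + 1) * K) else 0) := by
      simp only [hx, Finset.sum_add_distrib]
    have s3 : ∑ k ∈ Finset.range M, (1 - σ) * (D k : ℝ) = (1 - σ) * ts w l l.length := by
      rw [← Finset.mul_sum]
      congr 1
      have h1 : ∀ n, n ≤ M → ∑ k ∈ Finset.range n, (D k : ℝ) = ts w l (b n) := by
        intro n
        induction n with
        | zero => intro _; rw [hb0, ts_zero]; simp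
        | succ n ih =>
          intro hn
          rw [Finset.sum_range_succ, ih (by omega)]
          have h2 : ts w l (b n) ≤ ts w l (b (n + 1)) := ts_mono w l (hblt n hn).le
          simp only [hD]
          rw [Nat.cast_sub h2]
          ring
      rw [h1 M le_rfl, hbM]
    have s4 : ∑ k ∈ Finset.range M, (if D k < K then Φ * (K : ℝ) else 0) ≤ Φ * K := by
      rcases Nat.eq_zero_or_pos M with hM | hM
      · rw [hM, Finset.range_zero, Finset.sum_empty]
        positivity
      · rw [Finset.sum_eq_single (M - 1)]
        · split_ifs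
          · exact le_rfl
          · positivity
        · intro k hk hkM
          have h1 := Finset.mem_range.1 hk
          have h2 := hbK k (by omega)
          rw [if_neg]
          simp only [hD]
          omega
        · intro h
          exact absurd (Finset.mem_range.2 (by omega)) h
    have s5 : ∑ k ∈ Finset.range M, (if bal k then Φ * (r k : ℝ) else 0) ≤
        Φ * balSum (1 / (4 * Φ)) (H * K) w l := by
      have h1 : ∀ k ∈ Finset.range M, (if bal k then Φ * (r k : ℝ) else 0) =
          Φ * (fun i => if H * K < ts w l (i + 1) - ts w l i ∧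
            1 / (4 * Φ) * ((ts w l (i + 1) - ts w l i : ℕ) : ℝ) ≤
              nrm (zs w l (i + 1) - zs w l i)
            then ((ts w l (i + 1) - ts w l i : ℕ) : ℝ) else 0) (b (k + 1) - 1) := by
        intro k hk
        have h2 : b (k + 1) - 1 + 1 = b (k + 1) := by
          have := hblt k (Finset.mem_range.1 hk)
          omega
        simp only
        rw [h2]
        by_cases h3 : bal k
        · rw [if_pos h3, if_pos h3]
        · rw [if_neg h3, mul_comm, if_neg h3, zero_mul]
      rw [Finset.sum_congr rfl h1, ← Finset.mul_sum]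
      refine mul_le_mul_of_nonneg_left ?_ hΦ0.le
      have hinj : Set.InjOn (fun k => b (k + 1) - 1) (Finset.range M : Set ℕ) := by
        intro k hk k' hk' he
        have g1 := Finset.mem_range.1 (Finset.mem_coe.1 hk)
        have g2 := Finset.mem_range.1 (Finset.mem_coe.1 hk')
        simp only at he
        have g3 := hblt k g1
        have g4 := hblt k' g2
        rcases lt_trichotomy k k' with h | h | h
        · have := hbinj (k + 1) (k' + 1) (by omega) (by omega)
          omega
        · exact h
        · have := hbinj (k' + 1) (k + 1) (by omega) (by omega)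
          omega
      rw [← Finset.sum_image (f := fun i => if H * K < ts w l (i + 1) - ts w l i ∧
            1 / (4 * Φ) * ((ts w l (i + 1) - ts w l i : ℕ) : ℝ) ≤
              nrm (zs w l (i + 1) - zs w l i)
            then ((ts w l (i + 1) - ts w l i : ℕ) : ℝ) else 0) hinj]
      unfold balSum
      refine Finset.sum_le_sum_of_subset_of_nonneg ?_ ?_
      · intro i hi
        obtain ⟨k, hk, rfl⟩ := Finset.mem_image.1 hi
        have g1 := Finset.mem_range.1 hk
        have g2 := hblt k g1
        have g3 := hble (k + 1) g1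
        exact Finset.mem_range.2 (by omega)
      · intro i _ _
        split_ifs
        · exact Nat.cast_nonneg _
        · exact le_rfl
    have s6 : ∑ k ∈ Finset.range M, (if b k ∈ wst ((H + 1) * K) w l then
          (σ + δ) * (((H : ℝ) + 1) * K) else 0) ≤
        (σ + δ) * ((H + 1) * K) * ((wst ((H + 1) * K) w l).card : ℝ) := by
      rw [← Finset.sum_filter, Finset.sum_const, nsmul_eq_mul, mul_comm]
      refine mul_le_mul_of_nonneg_left ?_ (by positivity)
      have h1 : ((Finset.range M).filter fun k => b k ∈ wst ((H + 1) * K) w l).card ≤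
          (wst ((H + 1) * K) w l).card := by
        refine Finset.card_le_card_of_injOn b ?_ ?_
        · intro k hk
          exact (Finset.mem_filter.1 hk).2
        · intro k hk k' hk' he
          have g1 := Finset.mem_range.1 (Finset.mem_filter.1 (Finset.mem_coe.1 hk)).1
          have g2 := Finset.mem_range.1 (Finset.mem_filter.1 (Finset.mem_coe.1 hk')).1
          rcases lt_trichotomy k k' with h | h | h
          · have := hbinj k k' h g2.le
            omega
          · exact h
          · have := hbinj k' k h g1.le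
            omega
      exact_mod_cast h1
    have s7 : ((((Finset.range M).filter bad).image fun k => cellOf s (zs w l (b k))).card : ℝ) ≤
        ((badC C δg s L K Km w l).card : ℝ) := by
      have h1 : ((Finset.range M).filter bad).image (fun k => cellOf s (zs w l (b k))) ⊆
          badC C δg s L K Km w l := by
        intro c hc
        obtain ⟨k, hk, rfl⟩ := Finset.mem_image.1 hc
        obtain ⟨g1, g2⟩ := Finset.mem_filter.1 hk
        have g3 := hbl k (Finset.mem_range.1 g1)
        unfold badC
        rw [Finset.mem_filter]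
        exact ⟨Finset.mem_image.2 ⟨b k, Finset.mem_range.2 g3, rfl⟩, g2.2.2⟩
      exact_mod_cast Finset.card_le_card h1
    have s8 : (Φ * ((H + 1) * K) + Φ * (d * s)) *
        ((((Finset.range M).filter bad).image fun k => cellOf s (zs w l (b k))).card : ℝ) ≤
        Φ * ((H + 1) * K + d * s) * ((badC C δg s L K Km w l).card : ℝ) := by
      rw [← mul_add]
      exact mul_le_mul_of_nonneg_left s7 (by positivity)
    linarith
  · -- not bad
    intro k hk hnb
    rw [lin_sub']
    set v := zs w l (b (k + 1)) - zs w l (b k) with hv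
    have c1 := hn1 k
    have c2 := hn2 k
    have c3 := hn3 k
    have c4 := hn4 k
    have hle := lin_le_nrm hf v
    have hvD := hdisp k hk
    rw [← hv] at hvD
    by_cases hDK : D k < K
    · have h1 : (D k : ℝ) ≤ K := by exact_mod_cast hDK.le
      have h2 : Φ * (nrm v : ℝ) ≤ Φ * K := mul_le_mul_of_nonneg_left (hvD.trans h1) hΦ0.le
      simp only [hx]
      rw [if_pos hDK] at c2 ⊢
      linarith
    · have hKD : K ≤ D k := not_lt.1 hDK
      by_cases hHr' : H * K < r k
      · have hHK : (H : ℝ) * K < r k := by exact_mod_cast hHr'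
        have h4 : Φ * K ≤ (r k : ℝ) / 4 := by
          have : 4 * Φ * K ≤ (H : ℝ) * K := mul_le_mul_of_nonneg_right hH (by positivity)
          linarith
        have hrD' : (r k : ℝ) ≤ D k := by exact_mod_cast hrD k hk
        have hl := hlast k hk
        rw [← hv] at hl
        have hr0 : (0 : ℝ) ≤ r k := Nat.cast_nonneg _
        by_cases hbl' : bal k
        · have h5 : (nrm v : ℝ) ≤ K + r k := by
            have := (hDr k hk).le
            have h6 : (D k : ℝ) ≤ K + r k := by exact_mod_cast this
            linarith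
          have h6 : Φ * (nrm v : ℝ) ≤ Φ * (K + r k) := mul_le_mul_of_nonneg_left h5 hΦ0.le
          simp only [hx]
          rw [if_pos hbl'] at c3 ⊢
          have h7 : (r k : ℝ) / 4 ≤ (1 - σ) * D k := by nlinarith
          rw [mul_add] at h6
          linarith
        · have h5 : (nrm (zs w l (b (k + 1)) - zs w l (b (k + 1) - 1)) : ℝ) <
              1 / (4 * Φ) * r k := by
            by_contra hcon
            exact hbl' ⟨hHr', not_lt.1 hcon⟩
          have h6 : Φ * (nrm v : ℝ) ≤ Φ * (K + 1 / (4 * Φ) * r k) :=
            mul_le_mul_of_nonneg_left (by linarith) hΦ0.le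
          have h7 : Φ * (K + 1 / (4 * Φ) * r k) = Φ * K + r k / 4 := by
            field_simp
          have h8 : (r k : ℝ) / 2 ≤ (1 - σ) * D k := by nlinarith
          simp only [hx]
          linarith
      · have hrH : r k ≤ H * K := not_lt.1 hHr'
        have hGood : Good C δg s L K Km w (cellOf s (zs w l (b k))) := by
          by_contra hcon
          exact hnb ⟨hKD, hrH, hcon⟩
        have hDH : D k < (H + 1) * K := by
          have := hDr k hk
          have h1 : (H + 1) * K = H * K + K := by ring
          omega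
        obtain ⟨v', hv'C, hv'⟩ := hgood (b k) (b (k + 1)) (hblt k hk) (hble (k + 1) hk) hGood
          hKD hDH
        have hv'2 : toR v = ((1 + δ) * (D k : ℝ)) • v' := hv'
        have hlin : lin f (toR v) = (1 + δ) * (D k : ℝ) * lin f v' := by
          rw [hv'2, lin_smul']
        have hD0 : (0 : ℝ) ≤ D k := Nat.cast_nonneg _
        have hDHr : (D k : ℝ) ≤ (H + 1) * K := by exact_mod_cast hDH.le
        by_cases hw : b k ∈ wst ((H + 1) * K) w l
        · have h1 : (1 + δ) * (D k : ℝ) * lin f v' ≤ (1 + δ) * (D k : ℝ) := by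
            have := hC v' hv'C
            have h2 : 0 ≤ (1 + δ) * (D k : ℝ) := by positivity
            nlinarith
          have h3 : (σ + δ) * (D k : ℝ) ≤ (σ + δ) * (((H : ℝ) + 1) * K) :=
            mul_le_mul_of_nonneg_left hDHr (by positivity)
          simp only [hx]
          rw [if_pos hw] at c4 ⊢
          rw [hlin]
          linarith
        · have hgoal : lin f (toR v) ≤ (1 - σ) * D k := by
            by_contra hcon
            have hcon' : (1 - σ) * (D k : ℝ) < lin f (toR v) := not_le.1 hcon
            have hDpos : (0 : ℝ) < D k := by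
              have : (K : ℝ) ≤ D k := by exact_mod_cast hKD
              linarith
            have h1 : lin f ((1 + δ) • v') = (1 + δ) * lin f v' := lin_smul' _ _ _
            have h2 : 1 - σ ≤ lin f ((1 + δ) • v') := by
              rw [h1]
              rw [hlin] at hcon'
              by_contra h3
              have h4 : (1 + δ) * lin f v' < 1 - σ := not_le.1 h3
              nlinarith
            have h3 := hmod v' hv'C h2
            have h4 : (nrm v : ℝ) = D k * ∑ i, |((1 + δ) • v') i| := by
              rw [nrm_cast, Finset.mul_sum]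
              refine Finset.sum_congr rfl fun i _ => ?_
              have h5 : (v i : ℝ) = ((1 + δ) * (D k : ℝ)) * v' i := by
                have := congrFun hv'2 i
                rwa [Pi.smul_apply, smul_eq_mul] at this
              rw [h5, Pi.smul_apply, smul_eq_mul, abs_mul, abs_mul, abs_mul,
                abs_of_nonneg hD0]
              ring
            have h5 : (nrm v : ℝ) ≤ D k * (1 - κ) := by
              rw [h4]
              exact mul_le_mul_of_nonneg_left h3 hD0
            have h6 : D k ≤ nrm v + 1 := by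
              by_contra h7
              refine hw ?_
              unfold wst
              rw [Finset.mem_filter]
              refine ⟨Finset.mem_range.2 (hbl k hk), b (k + 1), hblt k hk, hble (k + 1) hk, ?_, ?_⟩
              · exact hDH.le
              · change nrm v + 2 ≤ D k
                omega
            have h7 : (D k : ℝ) ≤ nrm v + 1 := by exact_mod_cast h6
            have h8 : κ * K ≤ κ * (D k : ℝ) :=
              mul_le_mul_of_nonneg_left (by exact_mod_cast hKD) hκ.le
            nlinarith
          simp only [hx]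
          linarith
  · -- bad
    intro k hk hb
    rw [lin_sub']
    have hle := lin_le_nrm hf (zs w l (b (k + 1)) - zs w l (b k))
    have hvD := hdisp k hk
    have h1 : (D k : ℝ) ≤ (H + 1) * K := by
      have h2 := hDr k hk
      have h3 := hb.2.1
      have h4 : D k ≤ (H + 1) * K := by
        have h5 : (H + 1) * K = H * K + K := by ring
        omega
      exact_mod_cast h4
    exact hle.trans (mul_le_mul_of_nonneg_left (hvD.trans h1) hΦ0.le)
  · intro k k' _ _ _ _ hc
    rw [lin_sub']
    refine (lin_le_nrm hf _).trans (mul_le_mul_of_nonneg_left ?_ hΦ0.le)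
    have := same_cell hs hc
    exact_mod_cast this

end Pool.Agent.Helper61.LF
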