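import Mathlib

/-!
Module LF-16 (Animal). Union bound with exponential moments.

Proof. For a finite set `T` of indices, `u^{#{i ∈ T : ω ∈ B i}} = Π_{i ∈ T} (1 + (u-1) 1_{B i}(ω))
= Σ_{T' ⊆ T} (u-1)^{card T'} 1_{⋂_{i ∈ T'} B i}(ω)` (`Finset.prod_add` / `Finset.prod_one_add`), so its
integral is at most `Σ_{T' ⊆ T} ((u-1) ρ)^{card T'} = (1 + (u-1) ρ)^{card T} ≤ (1 + (u-1) ρ)^M`
(`Finset.sum_pow_mul_eq_add_pow` or `Finset.prod_add` again). Markov's inequality for each `k` and the union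
bound over the finite type `κ`.
-/

namespace Pool.Agent.Helper61.LF

open MeasureTheory

open Classical in
private theorem animal_pw {Ω : Type*} {ι : Type*} (B : ι → Set Ω) (T : Finset ι) (u : ℝ) (ω : Ω) :
    u ^ (T.filter fun i => ω ∈ B i).card =
      ∑ S ∈ T.powerset, (u - 1) ^ S.card * (⋂ i ∈ S, B i).indicator (fun _ => (1 : ℝ)) ω := by
  have h1 : u ^ (T.filter fun i => ω ∈ B i).card =
      ∏ i ∈ T, ((if ω ∈ B i then (u - 1) else 0) + 1) := by
    rw [Finset.card_filter, ← Finset.prod_pow_eq_pow_sum]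
    refine Finset.prod_congr rfl fun i _ => ?_
    by_cases h : ω ∈ B i
    · simp [h]
    · simp [h]
  rw [h1, Finset.prod_add]
  refine Finset.sum_congr rfl fun S _ => ?_
  rw [Finset.prod_const_one, mul_one]
  by_cases h : ω ∈ ⋂ i ∈ S, B i
  · rw [Set.indicator_of_mem h, mul_one]
    have h' : ∀ i ∈ S, ω ∈ B i := by simpa using h
    rw [Finset.prod_congr rfl fun i hi => if_pos (h' i hi), Finset.prod_const]
  · rw [Set.indicator_of_notMem h, mul_zero]
    have h' : ∃ i ∈ S, ω ∉ B i := by simpa using h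
    obtain ⟨i, hi, hn⟩ := h'
    exact Finset.prod_eq_zero hi (if_neg hn)

open Classical in
private theorem animal_int {Ω : Type*} [MeasurableSpace Ω] (μ : Measure Ω) [IsProbabilityMeasure μ]
    {ι : Type*} (B : ι → Set Ω) (hB : ∀ i, MeasurableSet (B i)) {ρ : ℝ}
    (hρ : 0 ≤ ρ) (hind : ∀ S : Finset ι, (μ (⋂ i ∈ S, B i)).toReal ≤ ρ ^ S.card)
    (T : Finset ι) (M : ℕ) (hT : T.card ≤ M) {u : ℝ} (hu : 1 < u) :
    Integrable (fun ω => u ^ (T.filter fun i => ω ∈ B i).card) μ ∧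
      ∫ ω, u ^ (T.filter fun i => ω ∈ B i).card ∂μ ≤ (1 + (u - 1) * ρ) ^ M := by
  have hmeas : ∀ S : Finset ι, MeasurableSet (⋂ i ∈ S, B i) := fun S =>
    Finset.measurableSet_biInter S fun i _ => hB i
  have hi : ∀ S : Finset ι, Integrable
      (fun ω => (u - 1) ^ S.card * (⋂ i ∈ S, B i).indicator (fun _ => (1 : ℝ)) ω) μ := by
    intro S
    refine Integrable.const_mul ?_ _
    exact (integrable_const (1 : ℝ)).indicator (hmeas S)
  have hfun : (fun ω => u ^ (T.filter fun i => ω ∈ B i).card) =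
      fun ω => ∑ S ∈ T.powerset, (u - 1) ^ S.card *
        (⋂ i ∈ S, B i).indicator (fun _ => (1 : ℝ)) ω := by
    funext ω; exact animal_pw B T u ω
  refine ⟨?_, ?_⟩
  · rw [hfun]
    exact integrable_finsetSum _ fun S _ => hi S
  · rw [hfun, integral_finsetSum _ fun S _ => hi S]
    have h2 : ∀ S ∈ T.powerset, ∫ ω, (u - 1) ^ S.card *
        (⋂ i ∈ S, B i).indicator (fun _ => (1 : ℝ)) ω ∂μ ≤ ((u - 1) * ρ) ^ S.card := by
      intro S _
      rw [integral_const_mul, integral_indicator (hmeas S)]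
      simp only [integral_const, MeasurableSet.univ, measureReal_restrict_apply, Set.univ_inter,
        smul_eq_mul, mul_one]
      rw [mul_pow]
      exact mul_le_mul_of_nonneg_left (hind S) (pow_nonneg (by linarith) _)
    refine (Finset.sum_le_sum h2).trans ?_
    have h3 : ∑ S ∈ T.powerset, ((u - 1) * ρ) ^ S.card = ((u - 1) * ρ + 1) ^ T.card := by
      rw [← Finset.sum_pow_mul_eq_add_pow]
      simp
    rw [h3, add_comm ((u - 1) * ρ) 1]
    refine pow_le_pow_right₀ ?_ hT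
    have := mul_nonneg (by linarith : (0 : ℝ) ≤ u - 1) hρ
    linarith

open Classical in
theorem animal {Ω : Type*} [MeasurableSpace Ω] (μ : Measure Ω) [IsProbabilityMeasure μ]
    {ι κ : Type*} [Fintype κ] (B : ι → Set Ω) (hB : ∀ i, MeasurableSet (B i)) {ρ : ℝ}
    (hρ : 0 ≤ ρ) (hind : ∀ S : Finset ι, (μ (⋂ i ∈ S, B i)).toReal ≤ ρ ^ S.card)
    (F : κ → Finset ι) (M : ℕ) (hF : ∀ k, (F k).card ≤ M) {u : ℝ} (hu : 1 < u) (a : ℝ) :
    (μ {ω | ∃ k, a ≤ (((F k).filter fun i => ω ∈ B i).card : ℝ)}).toReal ≤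
      Fintype.card κ * (1 + (u - 1) * ρ) ^ M * u ^ (-a) := by
  have hu0 : (0 : ℝ) < u := by linarith
  have hk : ∀ k : κ, μ.real {ω | a ≤ (((F k).filter fun i => ω ∈ B i).card : ℝ)} ≤
      (1 + (u - 1) * ρ) ^ M * u ^ (-a) := by
    intro k
    obtain ⟨h1, h2⟩ := animal_int μ B hB hρ hind (F k) M (hF k) hu
    have h3 := mul_meas_ge_le_integral_of_nonneg (μ := μ)
      (Filter.Eventually.of_forall fun ω => (pow_pos hu0 _).le) h1 (u ^ a)
    have h4 : {ω | a ≤ (((F k).filter fun i => ω ∈ B i).card : ℝ)} ⊆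
        {ω | u ^ a ≤ u ^ ((F k).filter fun i => ω ∈ B i).card} := by
      intro ω hω
      simp only [Set.mem_setOf_eq] at hω ⊢
      rw [← Real.rpow_natCast]
      exact Real.rpow_le_rpow_of_exponent_le hu.le hω
    have h5 : u ^ a * μ.real {ω | a ≤ (((F k).filter fun i => ω ∈ B i).card : ℝ)} ≤
        (1 + (u - 1) * ρ) ^ M :=
      ((mul_le_mul_of_nonneg_left (measureReal_mono h4) (Real.rpow_pos_of_pos hu0 _).le).trans
        h3).trans h2
    have h6 : (0 : ℝ) < u ^ a := Real.rpow_pos_of_pos hu0 _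
    rw [Real.rpow_neg hu0.le, ← div_eq_mul_inv, le_div_iff₀ h6, mul_comm]
    exact h5
  have hset : {ω | ∃ k, a ≤ (((F k).filter fun i => ω ∈ B i).card : ℝ)} =
      ⋃ k, {ω | a ≤ (((F k).filter fun i => ω ∈ B i).card : ℝ)} := by
    ext ω; simp
  rw [hset]
  refine (measureReal_iUnion_fintype_le (μ := μ)
    (fun k => {ω | a ≤ (((F k).filter fun i => ω ∈ B i).card : ℝ)})).trans ?_
  refine (Finset.sum_le_sum fun k _ => hk k).trans ?_
  rw [Finset.sum_const, nsmul_eq_mul, Finset.card_univ, mul_assoc]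

end Pool.Agent.Helper61.LF
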