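import Pool.Agent.Helper61.LF.Shape

/-!
Module LF-17 (Coarse). Coarse graining of a trajectory.

* `interp`: between consecutive times move one coordinate by one unit at a time. For two sites
  `a, b` with `nrm (b - a) ≤ r` there is `S : ℕ → Site d` with `S 0 = a`, `S r = b` and
  `nrm (S (u+1) - S u) ≤ 1` for all `u` (induction on `nrm (b - a)`, then stay at `b`); concatenate
  along `i < m` (induction on `m`; after time `t m` stay at `z m`).
* `card_cnb`: the image of a set with `(m+1) * 3^d` elements.
* `coarse`: let `S` be given by `interp` and `c k = cellOf s (S (k s))`. Since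
  `|S ((k+1) s) i - S (k s) i| ≤ s`, the coordinates of `c (k+1)` and `c k` differ by at most `1`
  (`⌊(a+b)/s⌋ - ⌊a/s⌋ ∈ {-1,0,1}` for `|b| ≤ s`), so `c k = cpath γ k` for
  `γ j i = c (j+1) i - c j i + 1` (`c 0 = cellOf s 0 = 0`) and `k ≤ m`. For `i ≤ m0` let
  `k = t i / s ≤ m`; then `|S (t i) - S (k s)| ≤ s - 1` in every coordinate, so
  `cellOf s (z i) - c k` has coordinates in `{-1,0,1}`.
-/

namespace Pool.Agent.Helper61.LF

private theorem nrm_zero' {d : ℕ} : nrm (0 : Site d) = 0 := by
  simp [nrm]

private theorem step_exists {d : ℕ} (a b : Site d) (r : ℕ) (h : nrm (b - a) ≤ r + 1) :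
    ∃ a' : Site d, nrm (a' - a) ≤ 1 ∧ nrm (b - a') ≤ r := by
  by_cases h1 : nrm (b - a) ≤ r
  · exact ⟨a, by simp [nrm_zero'], h1⟩
  have hr : nrm (b - a) = r + 1 := by omega
  have hne : ∃ i, ((b - a) i) ≠ 0 := by
    by_contra hcon
    push Not at hcon
    have : nrm (b - a) = 0 := by
      unfold nrm
      exact Finset.sum_eq_zero fun i _ => by rw [hcon i]; rfl
    omega
  obtain ⟨i, hi⟩ := hne
  refine ⟨Function.update a i (a i + Int.sign ((b - a) i)), ?_, ?_⟩
  · unfold nrm
    rw [Finset.sum_eq_single i]
    · have h2 := Int.natAbs_sign_of_ne_zero hi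
      simp only [Pi.sub_apply, Function.update_self]
      rw [add_sub_cancel_left]
      have h3 := h2
      simp only [Pi.sub_apply] at h3
      omega
    · intro j _ hj
      simp [Function.update_of_ne hj]
    · intro h3
      exact absurd (Finset.mem_univ i) h3
  · have h2 : nrm (b - Function.update a i (a i + Int.sign ((b - a) i))) + 1 = nrm (b - a) := by
      unfold nrm
      rw [← Finset.add_sum_erase _ _ (Finset.mem_univ i),
        ← Finset.add_sum_erase (Finset.univ) (fun j => ((b - a) j).natAbs) (Finset.mem_univ i)]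
      have h3 : ∑ j ∈ Finset.univ.erase i,
          ((b - Function.update a i (a i + Int.sign ((b - a) i))) j).natAbs =
          ∑ j ∈ Finset.univ.erase i, ((b - a) j).natAbs := by
        refine Finset.sum_congr rfl fun j hj => ?_
        have hj' := Finset.ne_of_mem_erase hj
        simp [Function.update_of_ne hj']
      rw [h3]
      have h4 : ((b - Function.update a i (a i + Int.sign ((b - a) i))) i).natAbs + 1 =
          ((b - a) i).natAbs := by
        simp only [Pi.sub_apply, Function.update_self] at hi ⊢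
        rcases lt_trichotomy (b i - a i) 0 with h5 | h5 | h5
        · rw [Int.sign_eq_neg_one_of_neg h5]
          omega
        · exact absurd h5 hi
        · rw [Int.sign_eq_one_of_pos h5]
          omega
      omega
    omega

private theorem path_exists {d : ℕ} (r : ℕ) : ∀ (a b : Site d), nrm (b - a) ≤ r →
    ∃ S : ℕ → Site d, S 0 = a ∧ S r = b ∧ ∀ u, nrm (S (u + 1) - S u) ≤ 1 := by
  induction r with
  | zero =>
    intro a b h
    have h1 : b - a = 0 := nrm_eq_zero.1 (by omega)
    have h2 : b = a := sub_eq_zero.1 h1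
    exact ⟨fun _ => a, rfl, h2.symm, fun u => by simp [nrm_zero']⟩
  | succ r ih =>
    intro a b h
    obtain ⟨a', h1, h2⟩ := step_exists a b r h
    obtain ⟨S, hS0, hSr, hS⟩ := ih a' b h2
    refine ⟨fun u => if u = 0 then a else S (u - 1), by simp, by simp [hSr], ?_⟩
    intro u
    rcases Nat.eq_zero_or_pos u with h3 | h3
    · subst h3
      simpa [hS0] using h1
    · have h4 : u ≠ 0 := by omega
      have h5 : u + 1 ≠ 0 := by omega
      simp only [h4, h5, if_false]
      have h6 : u + 1 - 1 = (u - 1) + 1 := by omega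
      rw [h6]
      exact hS _

theorem interp {d : ℕ} (m : ℕ) (z : ℕ → Site d) (t : ℕ → ℕ) (ht0 : t 0 = 0)
    (ht : ∀ i < m, t i < t (i + 1)) (hz : ∀ i < m, nrm (z (i + 1) - z i) ≤ t (i + 1) - t i) :
    ∃ S : ℕ → Site d, (∀ i ≤ m, S (t i) = z i) ∧ ∀ u, nrm (S (u + 1) - S u) ≤ 1 := by
  induction m with
  | zero =>
    refine ⟨fun _ => z 0, ?_, fun u => by simp [nrm_zero']⟩
    intro i hi
    have : i = 0 := by omega
    subst this
    rfl
  | succ m ih =>
    obtain ⟨S, hS, hSn⟩ := ih (fun i hi => ht i (by omega)) (fun i hi => hz i (by omega))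
    obtain ⟨P, hP0, hPr, hP⟩ := path_exists (t (m + 1) - t m) (z m) (z (m + 1))
      (hz m (by omega))
    have hmono : ∀ k, ∀ i, i + k ≤ m → t i ≤ t (i + k) := by
      intro k
      induction k with
      | zero => intro i _; simp
      | succ k ihk =>
        intro i hi
        have h1 := ihk i (by omega)
        have h2 := ht (i + k) (by omega)
        have h3 : i + (k + 1) = i + k + 1 := by ring
        rw [h3]
        omega
    refine ⟨fun u => if u ≤ t m then S u else P (u - t m), ?_, ?_⟩
    · intro i hi
      rcases Nat.lt_or_ge m i with h1 | h1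
      · have h2 : i = m + 1 := by omega
        subst h2
        have h3 := ht m (by omega)
        have h4 : ¬ t (m + 1) ≤ t m := by omega
        simp only [h4, if_false]
        exact hPr
      · have h2 : t i ≤ t m := by
          have := hmono (m - i) i (by omega)
          have h3 : i + (m - i) = m := by omega
          rwa [h3] at this
        simp only [h2, if_true]
        exact hS i h1
    · intro u
      rcases Nat.lt_or_ge u (t m) with h1 | h1
      · have h2 : u + 1 ≤ t m := h1
        have h3 : u ≤ t m := by omega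
        simp only [h2, h3, if_true]
        exact hSn u
      · have h2 : ¬ u + 1 ≤ t m := by omega
        simp only [h2, if_false]
        rcases Nat.eq_or_lt_of_le h1 with h3 | h3
        · have h4 : u ≤ t m := by omega
          simp only [h4, if_true]
          have h5 : S u = P 0 := by
            rw [← h3, hS m le_rfl, hP0]
          have h6 : u + 1 - t m = 0 + 1 := by omega
          rw [h5, h6]
          exact hP 0
        · have h4 : ¬ u ≤ t m := by omega
          simp only [h4, if_false]
          have h6 : u + 1 - t m = (u - t m) + 1 := by omega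
          rw [h6]
          exact hP _

theorem card_cnb {d m : ℕ} (γ : Fin m → Fin d → Fin 3) : (cnb γ).card ≤ (m + 1) * 3 ^ d := by
  unfold cnb
  refine (Finset.card_image_le).trans ?_
  rw [Finset.card_product, Finset.card_range, Finset.card_univ, Fintype.card_fun]
  simp

theorem card_coarse (d m : ℕ) : Fintype.card (Fin m → Fin d → Fin 3) = 3 ^ (d * m) := by
  rw [Fintype.card_fun, Fintype.card_fun, Fintype.card_fin, Fintype.card_fin, Fintype.card_fin,
    ← pow_mul]

private theorem natAbs_le_nrm {d : ℕ} (x : Site d) (i : Fin d) : (x i).natAbs ≤ nrm x := by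
  unfold nrm
  exact Finset.single_le_sum (f := fun j => (x j).natAbs) (fun _ _ => Nat.zero_le _)
    (Finset.mem_univ i)

private theorem coord_le {d : ℕ} (S : ℕ → Site d) (hS : ∀ u, nrm (S (u + 1) - S u) ≤ 1)
    (a : ℕ) (i : Fin d) : ∀ n : ℕ, |S (a + n) i - S a i| ≤ (n : ℤ) := by
  intro n
  induction n with
  | zero => simp
  | succ n ih =>
    have h1 := (natAbs_le_nrm (S (a + n + 1) - S (a + n)) i).trans (hS (a + n))
    simp only [Pi.sub_apply] at h1
    have h2 : a + (n + 1) = a + n + 1 := by ring
    rw [h2]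
    rw [abs_le] at ih ⊢
    push_cast
    omega

private theorem div_close {s : ℤ} (hs : 1 ≤ s) {a b : ℤ} (h : |b - a| ≤ s) :
    0 ≤ b / s - a / s + 1 ∧ b / s - a / s + 1 < 3 := by
  rw [abs_le] at h
  have h1 : b / s ≤ (a + s) / s := Int.ediv_le_ediv (by omega) (by omega)
  have h2 : (a - s) / s ≤ b / s := Int.ediv_le_ediv (by omega) (by omega)
  have h3 : (a + s) / s = a / s + 1 := by
    have := Int.add_mul_ediv_right a 1 (c := s) (by omega)
    simpa using this
  have h4 : (a - s) / s = a / s - 1 := by
    have := Int.add_mul_ediv_right a (-1) (c := s) (by omega)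
    have h5 : a + -1 * s = a - s := by ring
    rw [h5] at this
    rw [this]
    ring
  omega

theorem coarse {d : ℕ} {s : ℕ} (hs : 1 ≤ s) (m m0 : ℕ) (z : ℕ → Site d) (t : ℕ → ℕ)
    (hz0 : z 0 = 0) (ht0 : t 0 = 0) (ht : ∀ i < m0, t i < t (i + 1))
    (hz : ∀ i < m0, nrm (z (i + 1) - z i) ≤ t (i + 1) - t i) (hT : t m0 ≤ s * m) :
    ∃ γ : Fin m → Fin d → Fin 3, ∀ i ≤ m0, cellOf s (z i) ∈ cnb γ := by
  obtain ⟨S, hSt, hS⟩ := interp m0 z t ht0 ht hz
  have hs' : (1 : ℤ) ≤ (s : ℤ) := by exact_mod_cast hs
  have hstep : ∀ (k : ℕ) (i : Fin d), 0 ≤ cellOf s (S ((k + 1) * s)) i - cellOf s (S (k * s)) i + 1 ∧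
      cellOf s (S ((k + 1) * s)) i - cellOf s (S (k * s)) i + 1 < 3 := by
    intro k i
    have h1 := coord_le S hS (k * s) i s
    have h2 : k * s + s = (k + 1) * s := by ring
    rw [h2] at h1
    exact div_close hs' h1
  refine ⟨fun j i => ⟨(cellOf s (S (((j : ℕ) + 1) * s)) i - cellOf s (S ((j : ℕ) * s)) i + 1).toNat,
    ?_⟩, ?_⟩
  · have := hstep (j : ℕ) i
    omega
  have h0 : S 0 = 0 := by
    have := hSt 0 (Nat.zero_le _)
    rw [ht0, hz0] at this
    exact this
  have hcp : ∀ k ≤ m, ∀ i : Fin d, cpath (fun (j : Fin m) (i : Fin d) =>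
      (⟨(cellOf s (S (((j : ℕ) + 1) * s)) i - cellOf s (S ((j : ℕ) * s)) i + 1).toNat, by
        have := hstep (j : ℕ) i
        omega⟩ : Fin 3)) k i = cellOf s (S (k * s)) i := by
    intro k hk i
    unfold cpath
    have h1 : ∀ j : Fin m, (if (j : ℕ) < k then
        (((⟨(cellOf s (S (((j : ℕ) + 1) * s)) i - cellOf s (S ((j : ℕ) * s)) i + 1).toNat, by
          have := hstep (j : ℕ) i
          omega⟩ : Fin 3) : ℕ) : ℤ) - 1 else 0) =
        (fun j : ℕ => if j < k then cellOf s (S ((j + 1) * s)) i - cellOf s (S (j * s)) i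
          else 0) (j : ℕ) := by
      intro j
      have h2 := hstep (j : ℕ) i
      by_cases h3 : (j : ℕ) < k
      · simp only [h3, if_true]
        rw [Int.toNat_of_nonneg h2.1]
        ring
      · simp only [h3, if_false]
    rw [Finset.sum_congr rfl fun j _ => h1 j]
    rw [Fin.sum_univ_eq_sum_range (fun j : ℕ => if j < k then
      cellOf s (S ((j + 1) * s)) i - cellOf s (S (j * s)) i else 0) m]
    rw [← Finset.sum_filter]
    have h4 : (Finset.range m).filter (fun j => j < k) = Finset.range k := by
      ext j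
      simp only [Finset.mem_filter, Finset.mem_range]
      omega
    rw [h4]
    have h5 := Finset.sum_range_sub (fun j : ℕ => cellOf s (S (j * s)) i) k
    rw [h5]
    have h6 : cellOf s (S (0 * s)) i = 0 := by
      rw [zero_mul, h0]
      simp [cellOf]
    rw [h6, sub_zero]
  intro i hi
  have hmono : ∀ k, ∀ i, i + k ≤ m0 → t i ≤ t (i + k) := by
    intro k
    induction k with
    | zero => intro i _; simp
    | succ k ihk =>
      intro i hi
      have h1 := ihk i (by omega)
      have h2 := ht (i + k) (by omega)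
      have h3 : i + (k + 1) = i + k + 1 := by ring
      rw [h3]
      omega
  have hti : t i ≤ s * m := by
    have := hmono (m0 - i) i (by omega)
    have h3 : i + (m0 - i) = m0 := by omega
    rw [h3] at this
    omega
  have hkm : t i / s ≤ m := by
    apply Nat.div_le_of_le_mul
    exact hti
  have hdm := Nat.div_add_mod (t i) s
  have hml := Nat.mod_lt (t i) (show 0 < s by omega)
  have hclose : ∀ j : Fin d, 0 ≤ cellOf s (z i) j - cellOf s (S (t i / s * s)) j + 1 ∧
      cellOf s (z i) j - cellOf s (S (t i / s * s)) j + 1 < 3 := by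
    intro j
    have h1 := coord_le S hS (t i / s * s) j (t i % s)
    have h2 : t i / s * s + t i % s = t i := by
      rw [mul_comm]
      exact hdm
    rw [h2, hSt i hi] at h1
    refine div_close hs' (h1.trans ?_)
    exact_mod_cast hml.le
  unfold cnb
  rw [Finset.mem_image]
  refine ⟨(t i / s, fun j => ⟨(cellOf s (z i) j - cellOf s (S (t i / s * s)) j + 1).toNat, by
    have := hclose j
    omega⟩), ?_, ?_⟩
  · rw [Finset.mem_product]
    exact ⟨Finset.mem_range.2 (by simp only; omega), Finset.mem_univ _⟩
  · funext j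
    simp only [Pi.add_apply]
    rw [hcp _ hkm j, Int.toNat_of_nonneg (hclose j).1]
    ring

/-- The switching sites of a chain from the origin lie in the cells near a coarse path. -/
theorem coarse_chain {d : ℕ} {s : ℕ} (hs : 1 ≤ s) (m : ℕ) (w : Om d) (l : List (ℕ × ℕ))
    (hT : dur gP w 0 l ≤ s * m) :
    ∃ γ : Fin m → Fin d → Fin 3, ∀ i ≤ l.length, cellOf s (zs w l i) ∈ cnb γ := by
  refine coarse hs m l.length (zs w l) (ts w l) (zs_zero w l) (ts_zero w l)
    (fun i hi => ts_lt w l i hi) (fun i _ => nrm_zs_sub w l (Nat.le_succ i)) ?_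
  rw [ts_len]
  exact hT

end Pool.Agent.Helper61.LF
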