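import Pool.Agent.Helper61.LF.BadInd
import Pool.Agent.Helper61.LF.Animal
import Pool.Agent.Helper61.LF.Coarse

/-!
Module LF-18 (BadCells). A chain visits few bad cells.

Proof. `ρ0 = min ρ00 1` with `ρ00` from `good_lim` (for the same `hh`, which may be assumed
`≥ 1`: in the statement `1 ≤ hh`). Fix `ρ ≤ ρ0` and `θ > 0`. For large `K` put `s = ⌊ρ K⌋₊`, so
`1 ≤ s` and `ρ K / 2 ≤ s`, `L = ⌊δ K⌋₊ ≤ hh K`. Let `N = ⌈4 hh / ρ⌉₊ + 2` (independent of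
`K`): `s (N - 1) ≥ (ρ K / 2) (4 hh / ρ + 1) > 2 hh K`. Let `q K = mu {¬ Good … 0} → 0` and
`ρ' K = (q K)^(1/N^d) → 0`.
For given `n` let `m = ⌈2 n / s⌉₊`, so `2 n ≤ s m`. If the chain `l` has `dur gP w 0 l ≤ 2 n`, then by
`coarse_chain` its switching sites lie in the cells of `cnb γ` for some `γ`, so `badC … w l` is contained
in `(cnb γ).filter bad`. Hence the event is contained in `{∃ γ, θ n / K ≤ #(cnb γ).filter bad}`. By
`animal` (with `card_cnb`, `card_coarse`, `bad_inter`) its measure is, for every `U > 1`, at most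
`3^(d m) (1 + (U-1) ρ' K)^((m+1) 3^d) U^(-θ n / K)`.
Since `m ≤ 2n/s + 1 ≤ 4 n / (ρ K) + 1`, if `(U-1) ρ' K ≤ 1` this is at most
`3^d 2^(2·3^d) exp((n/K) ((4/ρ) (d log 3 + 3^d log 2) - θ log U))`. Choose `U` with
`θ log U > (4/ρ) (d log 3 + 3^d log 2)`, then `K0` such that `(U-1) ρ' K ≤ 1` for `K ≥ K0`; for
every such `K` the bound tends to `0` as `n → ∞`.
-/

namespace Pool.Agent.Helper61.LF

open MeasureTheory Filter

private theorem event_bound {d : ℕ} {ν : Measure ℕ} {p p' : ℝ} (h : Par d ν p p')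
    (C : Set (Fin d → ℝ)) (δ : ℝ) {s L K Km N : ℕ} (hs : 1 ≤ s) (hL : L ≤ Km) (hN : 1 ≤ N)
    (hN' : 2 * Km + s < s * N) {U : ℝ} (hU : 1 < U)
    (hq : (U - 1) * ((mu d ν p p' {w | ¬ Good C δ s L K Km w 0}).toReal) ^ (1 / (N : ℝ) ^ d) ≤ 1)
    (a : ℝ) (T m : ℕ) (hT : T ≤ s * m) :
    (mu d ν p p' {w | ∃ l, ok w 0 l ∧ dur gP w 0 l ≤ T ∧
      a ≤ ((badC C δ s L K Km w l).card : ℝ)}).toReal ≤
      ((3 : ℝ) ^ d * 2 ^ 3 ^ d) ^ m * 2 ^ 3 ^ d * U ^ (-a) := by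
  classical
  have := h.hν
  have := h.isProb_pathLaw
  have := h.isProb_stLaw
  have : IsProbabilityMeasure (mu d ν p p') := by
    unfold mu
    infer_instance
  set ρ' := ((mu d ν p p' {w | ¬ Good C δ s L K Km w 0}).toReal) ^ (1 / (N : ℝ) ^ d) with hρ'
  have hρ0 : 0 ≤ ρ' := Real.rpow_nonneg ENNReal.toReal_nonneg _
  have h1 := animal (mu d ν p p') (fun c : Site d => {w | ¬ Good C δ s L K Km w c})
    (fun c => (measurableSet_Good C δ s L K Km c).compl) hρ0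
    (fun S => bad_inter h C δ hs hL hN hN' S)
    (fun γ : Fin m → Fin d → Fin 3 => cnb γ) ((m + 1) * 3 ^ d) (fun γ => card_cnb γ) hU a
  refine le_trans (ENNReal.toReal_mono (measure_ne_top _ _) (measure_mono ?_)) (h1.trans ?_)
  · rintro w ⟨l, -, hl2, hl3⟩
    obtain ⟨γ, hγ⟩ := coarse_chain hs m w l (hl2.trans hT)
    refine ⟨γ, hl3.trans ?_⟩
    refine Nat.cast_le.2 (Finset.card_le_card ?_)
    intro c hc
    unfold badC at hc
    rw [Finset.mem_filter, Finset.mem_image] at hc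
    obtain ⟨⟨i, hi, rfl⟩, hg⟩ := hc
    simp only [Finset.mem_filter]
    exact ⟨hγ i (Finset.mem_range.1 hi).le, hg⟩
  rw [card_coarse]
  have hU0 : (0 : ℝ) ≤ U ^ (-a) := Real.rpow_nonneg (by linarith) _
  refine mul_le_mul_of_nonneg_right ?_ hU0
  have h2 : (1 + (U - 1) * ρ') ^ ((m + 1) * 3 ^ d) ≤ (2 : ℝ) ^ ((m + 1) * 3 ^ d) := by
    refine pow_le_pow_left₀ ?_ (by linarith) _
    have := mul_nonneg (by linarith : (0 : ℝ) ≤ U - 1) hρ0
    linarith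
  calc ((3 ^ (d * m) : ℕ) : ℝ) * (1 + (U - 1) * ρ') ^ ((m + 1) * 3 ^ d)
      ≤ ((3 ^ (d * m) : ℕ) : ℝ) * (2 : ℝ) ^ ((m + 1) * 3 ^ d) :=
        mul_le_mul_of_nonneg_left h2 (by positivity)
    _ = ((3 : ℝ) ^ d * 2 ^ 3 ^ d) ^ m * 2 ^ 3 ^ d := by
        push_cast
        rw [mul_pow, ← pow_mul, ← pow_mul, mul_assoc, ← pow_add]
        congr 2
        ring

theorem badcells_lim {d : ℕ} {ν : Measure ℕ} {p p' : ℝ} (h : Par d ν p p') (hν : ν {0} < 1)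
    {A : Set (Fin d → ℝ)} (hA : ShapeI gP (mu d ν p p') A) {δ : ℝ} (hδ : 0 < δ) (hδ' : δ < 1)
    {hh : ℕ} (hhh : 1 ≤ hh) :
    ∃ ρ0 : ℝ, 0 < ρ0 ∧ ∀ ρ : ℝ, 0 < ρ → ρ ≤ ρ0 → ∀ θ : ℝ, 0 < θ → ∃ K0 : ℕ, ∀ K : ℕ, K0 ≤ K →
      Tendsto (fun n : ℕ => mu d ν p p' {w | ∃ l, ok w 0 l ∧ dur gP w 0 l ≤ 2 * n ∧
        θ * n ≤ K * ((badC (closure A) δ ⌊ρ * K⌋₊ ⌊δ * K⌋₊ K (hh * K) w l).card : ℝ)})
          atTop (nhds 0) := by
  obtain ⟨ρ0, hρ0, hgood⟩ := good_lim h hν hA hδ hδ' hh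
  have := h.hν
  have := h.isProb_pathLaw
  have := h.isProb_stLaw
  have : IsProbabilityMeasure (mu d ν p p') := by
    unfold mu
    infer_instance
  refine ⟨ρ0, hρ0, fun ρ hρ hρ' θ hθ => ?_⟩
  have hlim := hgood ρ hρ hρ'
  set N : ℕ := ⌈4 * (hh : ℝ) / ρ⌉₊ + 2 with hNdef
  have hN1 : 1 ≤ N := by omega
  have hNr : 4 * (hh : ℝ) / ρ + 2 ≤ (N : ℝ) := by
    rw [hNdef]
    push_cast
    have := Nat.le_ceil (4 * (hh : ℝ) / ρ)
    linarith
  -- the constants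
  set D : ℝ := (3 : ℝ) ^ d * 2 ^ 3 ^ d with hD
  have hD1 : 1 ≤ D := by
    have h1 : (1 : ℝ) ≤ (3 : ℝ) ^ d := one_le_pow₀ (by norm_num)
    have h2 : (1 : ℝ) ≤ (2 : ℝ) ^ 3 ^ d := one_le_pow₀ (by norm_num)
    nlinarith
  have hD0 : 0 < D := by linarith
  set V : ℝ := 2 * D ^ (4 / ρ) with hV
  have hDp : 1 ≤ D ^ (4 / ρ) := Real.one_le_rpow hD1 (by positivity)
  have hV1 : 1 < V := by rw [hV]; linarith
  have hV0 : 0 < V := by linarith
  set U : ℝ := V ^ (1 / θ) with hUdef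
  have hU : 1 < U := Real.one_lt_rpow hV1 (by positivity)
  have hU0 : 0 < U := by linarith
  -- the limit of the probabilities
  have hlimr : Tendsto (fun K : ℕ => (U - 1) * ((mu d ν p p'
      {w | ¬ Good (closure A) δ ⌊ρ * K⌋₊ ⌊δ * K⌋₊ K (hh * K) w 0}).toReal) ^ (1 / (N : ℝ) ^ d))
      atTop (nhds 0) := by
    have h1 : Tendsto (fun K : ℕ => (mu d ν p p'
        {w | ¬ Good (closure A) δ ⌊ρ * K⌋₊ ⌊δ * K⌋₊ K (hh * K) w 0}).toReal) atTop (nhds 0) := by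
      have h0 := (ENNReal.tendsto_toReal ENNReal.zero_ne_top).comp hlim
      rw [ENNReal.toReal_zero] at h0
      exact h0
    have hpos : (0 : ℝ) < 1 / (N : ℝ) ^ d := by
      have : (0 : ℝ) < (N : ℝ) := by exact_mod_cast hN1
      positivity
    have h2 := h1.rpow_const (p := 1 / (N : ℝ) ^ d) (Or.inr hpos.le)
    rw [Real.zero_rpow hpos.ne'] at h2
    simpa using h2.const_mul (U - 1)
  obtain ⟨K1, hK1⟩ := Filter.eventually_atTop.1 (hlimr.eventually (gt_mem_nhds zero_lt_one))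
  obtain ⟨K2, hK2⟩ := exists_nat_ge (1 / ρ)
  refine ⟨max K1 (max K2 1), fun K hK => ?_⟩
  have hKK1 : K1 ≤ K := (le_max_left _ _).trans hK
  have hKK2 : K2 ≤ K := ((le_max_left _ _).trans (le_max_right _ _)).trans hK
  have hK1' : 1 ≤ K := ((le_max_right _ _).trans (le_max_right _ _)).trans hK
  have hKr : (1 : ℝ) ≤ (K : ℝ) := by exact_mod_cast hK1'
  have hρK : 1 ≤ ρ * K := by
    have h1 : 1 / ρ ≤ (K : ℝ) := hK2.trans (by exact_mod_cast hKK2)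
    rw [div_le_iff₀ hρ] at h1
    linarith
  set s : ℕ := ⌊ρ * K⌋₊ with hsdef
  have hs : 1 ≤ s := Nat.le_floor (by simpa using hρK)
  have hsr : ρ * K / 2 ≤ (s : ℝ) := by
    have h1 := Nat.lt_floor_add_one (ρ * K)
    have h2 : (1 : ℝ) ≤ (s : ℝ) := by exact_mod_cast hs
    rw [← hsdef] at h1
    linarith
  have hs0 : (0 : ℝ) < (s : ℝ) := by exact_mod_cast hs
  have hL : ⌊δ * K⌋₊ ≤ hh * K := by
    have h1 : ⌊δ * K⌋₊ ≤ K := by
      refine Nat.floor_le_of_le ?_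
      nlinarith
    exact h1.trans (Nat.le_mul_of_pos_left K hhh)
  have hN' : 2 * (hh * K) + s < s * N := by
    have h1 : (2 * ((hh : ℝ) * K) + s) < s * N := by
      have h2 : (s : ℝ) * (4 * (hh : ℝ) / ρ + 2) ≤ s * N := mul_le_mul_of_nonneg_left hNr hs0.le
      have h3 : ρ * K / 2 * (4 * (hh : ℝ) / ρ) ≤ s * (4 * (hh : ℝ) / ρ) :=
        mul_le_mul_of_nonneg_right hsr (by positivity)
      have h4 : ρ * K / 2 * (4 * (hh : ℝ) / ρ) = 2 * (hh * K) := by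
        field_simp
        ring
      nlinarith
    exact_mod_cast h1
  have hbound : ∀ n : ℕ, (mu d ν p p' {w | ∃ l, ok w 0 l ∧ dur gP w 0 l ≤ 2 * n ∧
        θ * n ≤ K * ((badC (closure A) δ s ⌊δ * K⌋₊ K (hh * K) w l).card : ℝ)}).toReal ≤
      D * 2 ^ 3 ^ d * (1 / 2 : ℝ) ^ ((n : ℝ) / K) := by
    intro n
    have hset : {w : Om d | ∃ l, ok w 0 l ∧ dur gP w 0 l ≤ 2 * n ∧
        θ * n ≤ K * ((badC (closure A) δ s ⌊δ * K⌋₊ K (hh * K) w l).card : ℝ)} =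
        {w | ∃ l, ok w 0 l ∧ dur gP w 0 l ≤ 2 * n ∧
        θ * n / K ≤ ((badC (closure A) δ s ⌊δ * K⌋₊ K (hh * K) w l).card : ℝ)} := by
      ext w
      have hK0 : (0 : ℝ) < (K : ℝ) := by linarith
      simp only [Set.mem_ofPred_eq, div_le_iff₀ hK0, mul_comm (K : ℝ)]
    rw [hset]
    set m : ℕ := ⌈2 * (n : ℝ) / s⌉₊ with hm
    have hT : 2 * n ≤ s * m := by
      have h1 : (2 * (n : ℝ)) ≤ s * m := by
        have := Nat.le_ceil (2 * (n : ℝ) / s)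
        rw [div_le_iff₀ hs0] at this
        rw [← hm] at this
        linarith
      exact_mod_cast h1
    refine (event_bound h (closure A) δ hs hL hN1 hN' hU (hK1 K hKK1).le (θ * n / K)
      (2 * n) m hT).trans ?_
    rw [← hD]
    have hmle : (m : ℝ) ≤ 4 / ρ * (n / K) + 1 := by
      have h1 : (m : ℝ) < 2 * (n : ℝ) / s + 1 := Nat.ceil_lt_add_one (by positivity)
      have h2 : 2 * (n : ℝ) / s ≤ 4 / ρ * (n / K) := by
        rw [div_le_iff₀ hs0]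
        have h3 : 4 / ρ * ((n : ℝ) / K) * (ρ * K / 2) = 2 * n := by
          field_simp
          ring
        rw [← h3]
        exact mul_le_mul_of_nonneg_left hsr (by positivity)
      linarith
    have h5 : D ^ m ≤ D * (D ^ (4 / ρ)) ^ ((n : ℝ) / K) := by
      rw [← Real.rpow_natCast, ← Real.rpow_mul hD0.le]
      calc D ^ (m : ℝ) ≤ D ^ (4 / ρ * ((n : ℝ) / K) + 1) :=
            Real.rpow_le_rpow_of_exponent_le hD1 hmle
        _ = D * D ^ (4 / ρ * ((n : ℝ) / K)) := by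
            rw [Real.rpow_add hD0, Real.rpow_one, mul_comm]
    have h6 : U ^ (-(θ * n / K)) = (1 / V) ^ ((n : ℝ) / K) := by
      have h9 : (1 / V) ^ ((n : ℝ) / K) = V ^ (-((n : ℝ) / K)) := by
        rw [one_div, Real.inv_rpow hV0.le, Real.rpow_neg hV0.le]
      rw [hUdef, ← Real.rpow_mul hV0.le, h9]
      congr 1
      field_simp
    rw [h6]
    have h7 : (1 / V) ^ ((n : ℝ) / K) * (D ^ (4 / ρ)) ^ ((n : ℝ) / K) =
        (1 / 2 : ℝ) ^ ((n : ℝ) / K) := by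
      rw [← Real.mul_rpow (by positivity) (by positivity)]
      congr 1
      rw [hV]
      field_simp
    have h8 : (0 : ℝ) ≤ (1 / V) ^ ((n : ℝ) / K) := Real.rpow_nonneg (by positivity) _
    calc D ^ m * 2 ^ 3 ^ d * (1 / V) ^ ((n : ℝ) / K)
        ≤ D * (D ^ (4 / ρ)) ^ ((n : ℝ) / K) * 2 ^ 3 ^ d * (1 / V) ^ ((n : ℝ) / K) := by
          refine mul_le_mul_of_nonneg_right (mul_le_mul_of_nonneg_right h5 (by positivity)) h8
      _ = D * 2 ^ 3 ^ d * ((1 / V) ^ ((n : ℝ) / K) * (D ^ (4 / ρ)) ^ ((n : ℝ) / K)) := by ring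
      _ = D * 2 ^ 3 ^ d * (1 / 2 : ℝ) ^ ((n : ℝ) / K) := by rw [h7]
  have hz : Tendsto (fun n : ℕ => ENNReal.ofReal
      (D * 2 ^ 3 ^ d * (1 / 2 : ℝ) ^ ((n : ℝ) / K))) atTop (nhds 0) := by
    have h1 : Tendsto (fun n : ℕ => (n : ℝ) / K) atTop atTop :=
      tendsto_natCast_atTop_atTop.atTop_div_const (by linarith)
    have h2 : Tendsto (fun x : ℝ => (1 / 2 : ℝ) ^ x) atTop (nhds 0) :=
      tendsto_rpow_atTop_of_base_lt_one _ (by norm_num) (by norm_num)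
    have h3 := (h2.comp h1).const_mul (D * 2 ^ 3 ^ d)
    rw [mul_zero] at h3
    have h4 := (ENNReal.continuous_ofReal.tendsto 0).comp h3
    rw [ENNReal.ofReal_zero] at h4
    exact h4
  refine tendsto_of_tendsto_of_tendsto_of_le_of_le tendsto_const_nhds hz
    (fun n => bot_le) (fun n => ?_)
  rw [← ENNReal.ofReal_toReal (measure_ne_top (mu d ν p p') _)]
  exact ENNReal.ofReal_le_ofReal (hbound n)


end Pool.Agent.Helper61.LF
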