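import Mathlib

/-!
Module LF-14 (Indep). Events that depend on disjoint blocks of coordinates are independent.

Proof. Two blocks: let `B` depend only on the coordinates in `Λ` and `B'` only on those in the
complement of `Λ`. The map `m (w, w') = fun x => if x ∈ Λ then w x else w' x` sends
`(infinitePi P).prod (infinitePi P)` to `infinitePi P` (`eq_infinitePi`: the preimage of a box is
the product of two boxes), and `m (w, w') ∈ B ∩ B'` iff `w ∈ B` and `w' ∈ B'`. So the measure of
`B ∩ B'` is the product. Then induction on the finset `S`, with `Λ` the block of the new index: the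
intersection over the old indices depends only on the complement of `Λ`.
-/

namespace Pool.Agent.Helper61.LF

open MeasureTheory

open Classical in
theorem indep_two {κ X : Type*} [MeasurableSpace X] (P : Measure X)
    [IsProbabilityMeasure P] (Λ : Set κ) (B B' : Set (κ → X)) (hB : MeasurableSet B)
    (hB' : MeasurableSet B') (h : ∀ w w' : κ → X, (∀ x ∈ Λ, w x = w' x) → (w ∈ B ↔ w' ∈ B))
    (h' : ∀ w w' : κ → X, (∀ x, x ∉ Λ → w x = w' x) → (w ∈ B' ↔ w' ∈ B')) :
    Measure.infinitePi (fun _ : κ => P) (B ∩ B') =
      Measure.infinitePi (fun _ : κ => P) B * Measure.infinitePi (fun _ : κ => P) B' := by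
  set μ := Measure.infinitePi (fun _ : κ => P) with hμ
  set m : (κ → X) × (κ → X) → κ → X := fun q x => if x ∈ Λ then q.1 x else q.2 x with hm
  have hmm : Measurable m := by
    refine measurable_pi_lambda _ fun x => ?_
    by_cases hx : x ∈ Λ
    · simp only [hm, if_pos hx]
      exact (measurable_pi_apply x).comp measurable_fst
    · simp only [hm, if_neg hx]
      exact (measurable_pi_apply x).comp measurable_snd
  have key : (μ.prod μ).map m = μ := by
    refine Measure.eq_infinitePi (μ := fun _ : κ => P) fun s t ht => ?_
    have hpre : m ⁻¹' (Set.pi s t) =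
        (Set.pi (s.filter (· ∈ Λ) : Finset κ) t) ×ˢ (Set.pi (s.filter (· ∉ Λ) : Finset κ) t) := by
      ext q
      simp only [Set.mem_preimage, Set.mem_pi, Finset.mem_coe, Set.mem_prod, Finset.mem_filter, hm]
      constructor
      · intro hq
        refine ⟨fun i hi => ?_, fun i hi => ?_⟩
        · have := hq i hi.1
          rwa [if_pos hi.2] at this
        · have := hq i hi.1
          rwa [if_neg hi.2] at this
      · intro hq i hi
        by_cases hx : i ∈ Λ
        · rw [if_pos hx]; exact hq.1 i ⟨hi, hx⟩
        · rw [if_neg hx]; exact hq.2 i ⟨hi, hx⟩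
    rw [Measure.map_apply hmm (MeasurableSet.pi s.countable_toSet fun i _ => ht i), hpre,
      Measure.prod_prod, hμ, Measure.infinitePi_pi, Measure.infinitePi_pi]
    · rw [Finset.prod_filter_mul_prod_filter_not]
    · intro i _
      exact ht i
    · intro i _
      exact ht i
  have hpre2 : m ⁻¹' (B ∩ B') = B ×ˢ B' := by
    ext q
    simp only [Set.mem_preimage, Set.mem_inter_iff, Set.mem_prod]
    rw [h (m q) q.1 (fun x hx => by simp [hm, hx]), h' (m q) q.2 (fun x hx => by simp [hm, hx])]
  calc μ (B ∩ B') = (μ.prod μ).map m (B ∩ B') := by rw [key]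
    _ = (μ.prod μ) (B ×ˢ B') := by rw [Measure.map_apply hmm (hB.inter hB'), hpre2]
    _ = μ B * μ B' := Measure.prod_prod _ _

theorem indep_blocks {κ ι X : Type*} [MeasurableSpace X] (P : Measure X)
    [IsProbabilityMeasure P] (S : Finset ι) (Λ : ι → Set κ)
    (hdis : ∀ i ∈ S, ∀ j ∈ S, i ≠ j → Disjoint (Λ i) (Λ j)) (B : ι → Set (κ → X))
    (hB : ∀ i ∈ S, MeasurableSet (B i))
    (hdep : ∀ i ∈ S, ∀ w w' : κ → X, (∀ x ∈ Λ i, w x = w' x) → (w ∈ B i ↔ w' ∈ B i)) :
    Measure.infinitePi (fun _ : κ => P) (⋂ i ∈ S, B i) =
      ∏ i ∈ S, Measure.infinitePi (fun _ : κ => P) (B i) := by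
  classical
  induction S using Finset.induction_on with
  | empty => simp
  | insert a S ha ih =>
    rw [Finset.set_biInter_insert, Finset.prod_insert ha,
      indep_two P (Λ a) (B a) (⋂ i ∈ S, B i) (hB a (Finset.mem_insert_self a S))
        (Finset.measurableSet_biInter S fun i hi => hB i (Finset.mem_insert_of_mem hi))
        (hdep a (Finset.mem_insert_self a S)), ih]
    · intro i hi j hj hij
      exact hdis i (Finset.mem_insert_of_mem hi) j (Finset.mem_insert_of_mem hj) hij
    · intro i hi
      exact hB i (Finset.mem_insert_of_mem hi)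
    · intro i hi
      exact hdep i (Finset.mem_insert_of_mem hi)
    · intro w w' hw
      simp only [Set.mem_iInter]
      refine forall₂_congr fun i hi => ?_
      refine hdep i (Finset.mem_insert_of_mem hi) w w' fun x hx => hw x ?_
      intro hxa
      have hne : a ≠ i := by
        rintro rfl
        exact ha hi
      exact Set.disjoint_left.1
        (hdis a (Finset.mem_insert_self a S) i (Finset.mem_insert_of_mem hi) hne) hxa hx

end Pool.Agent.Helper61.LF
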