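import Pool.Agent.Helper61.LF.GoodProb
import Pool.Agent.Helper61.LF.Indep

/-!
Module LF-15 (BadInd). Goodness of a cell is a local event; many bad cells are unlikely.

* `Good_congr`: all chains involved start at a site `w0` of the cell and have duration `≤ Km`
  (recall `L ≤ Km`), so by `Rch_congr` they only see sites `z` with `nrm (z - w0) ≤ Km`, in
  particular `|z i - w0 i| ≤ Km`, and `s c i ≤ w0 i ≤ s c i + s - 1`.
* `bad_inter`: `q = mu {¬ Good … 0}` (as a real number) is also the probability that any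
  given cell is bad (`Good_shift`, `mu_shift`, `measurableSet_Good`). Split `S` into the `N^d` classes of
  `c ↦ (c i mod N)_i`; some class `S'` has `N^d * card S' ≥ card S`. Two different cells `c, c'` of one
  class differ by at least `N` in some coordinate `i`, say `c' i ≥ c i + N`, and then the boxes
  `{z | ∀ i, s c i - Km ≤ z i ≤ s c i + s + Km}` are disjoint, because
  `s c' i - Km ≥ s c i + s N - Km > s c i + s + Km`. By `indep_blocks`
  `mu (⋂_{c ∈ S} bad) ≤ mu (⋂_{c ∈ S'} bad) = q^(card S') ≤ (q^(1/N^d))^(card S)`, as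
  `0 ≤ q ≤ 1`.
-/

namespace Pool.Agent.Helper61.LF

open MeasureTheory Filter

private theorem nrm_coord {d : ℕ} (z : Site d) (i : Fin d) : (z i).natAbs ≤ nrm z := by
  unfold nrm
  exact Finset.single_le_sum (f := fun i => (z i).natAbs) (fun j _ => Nat.zero_le _)
    (Finset.mem_univ i)

private theorem cell_bounds {d : ℕ} {s : ℕ} (hs : 1 ≤ s) {c z : Site d} (h : cellOf s z = c)
    (i : Fin d) : (s : ℤ) * c i ≤ z i ∧ z i < (s : ℤ) * c i + s := by
  have h1 : z i / (s : ℤ) = c i := congrFun h i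
  have hs0 : (0 : ℤ) < (s : ℤ) := by exact_mod_cast hs
  have h2 := Int.emod_add_mul_ediv (z i) (s : ℤ)
  have h3 := Int.emod_nonneg (z i) hs0.ne'
  have h4 := Int.emod_lt_of_pos (z i) hs0
  rw [h1] at h2
  constructor <;> linarith

private theorem Good_of {d : ℕ} {C : Set (Fin d → ℝ)} {δ : ℝ} {s L K Km : ℕ} (hs : 1 ≤ s)
    (hL : L ≤ Km) {w w' : Om d} {c : Site d}
    (h : ∀ z : Site d, (∀ i, (s : ℤ) * c i - Km ≤ z i ∧ z i ≤ (s : ℤ) * c i + s + Km) →
      w z = w' z) (hG : Good C δ s L K Km w c) : Good C δ s L K Km w' c := by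
  obtain ⟨w0, h0, h1, h2, h3⟩ := hG
  have hb := cell_bounds hs h0
  have key : ∀ t, t ≤ Km → ∀ z : Site d, nrm (z - w0) ≤ t → w z = w' z := by
    intro t ht z hz
    apply h
    intro i
    have h4 := (nrm_coord (z - w0) i).trans (hz.trans ht)
    have h5 : |z i - w0 i| ≤ (Km : ℤ) := by
      rw [Int.abs_eq_natAbs]
      exact_mod_cast h4
    rw [abs_le] at h5
    have h6 := hb i
    constructor <;> linarith [h5.1, h5.2, h6.1, h6.2]
  refine ⟨w0, h0, ?_, ?_, ?_⟩
  · rw [← key 0 (Nat.zero_le _) w0 (by simp [nrm])]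
    exact h1
  · intro z hz
    exact (Rch_congr (key L hL)).1 (h2 z hz)
  · intro t ht1 ht2 z hz
    exact h3 t ht1 ht2 z ((Rch_congr (key t ht2)).2 hz)

theorem Good_congr {d : ℕ} {C : Set (Fin d → ℝ)} {δ : ℝ} {s L K Km : ℕ} (hs : 1 ≤ s)
    (hL : L ≤ Km) {w w' : Om d} {c : Site d}
    (h : ∀ z : Site d, (∀ i, (s : ℤ) * c i - Km ≤ z i ∧ z i ≤ (s : ℤ) * c i + s + Km) →
      w z = w' z) :
    Good C δ s L K Km w c ↔ Good C δ s L K Km w' c :=
  ⟨Good_of hs hL h, Good_of hs hL fun z hz => (h z hz).symm⟩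

private theorem box_disj {d : ℕ} {s Km N : ℕ} (hs : 1 ≤ s) (hN' : 2 * Km + s < s * N)
    {c c' z : Site d} {i : Fin d} (hc : c i + (N : ℤ) ≤ c' i)
    (h1 : ∀ i, (s : ℤ) * c i - Km ≤ z i ∧ z i ≤ (s : ℤ) * c i + s + Km)
    (h2 : ∀ i, (s : ℤ) * c' i - Km ≤ z i ∧ z i ≤ (s : ℤ) * c' i + s + Km) : False := by
  have h3 := (h1 i).2
  have h4 := (h2 i).1
  have h5 : (2 : ℤ) * Km + s < s * N := by exact_mod_cast hN'
  have hs0 : (0 : ℤ) ≤ (s : ℤ) := Int.natCast_nonneg s
  have h6 : (s : ℤ) * (c i + N) ≤ (s : ℤ) * c' i := mul_le_mul_of_nonneg_left hc hs0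
  have h7 : (s : ℤ) * (c i + N) = (s : ℤ) * c i + s * N := by ring
  linarith

theorem bad_inter {d : ℕ} {ν : Measure ℕ} {p p' : ℝ} (h : Par d ν p p') (C : Set (Fin d → ℝ))
    (δ : ℝ) {s L K Km N : ℕ} (hs : 1 ≤ s) (hL : L ≤ Km) (hN : 1 ≤ N) (hN' : 2 * Km + s < s * N)
    (S : Finset (Site d)) :
    (mu d ν p p' (⋂ c ∈ S, {w | ¬ Good C δ s L K Km w c})).toReal ≤
      (((mu d ν p p' {w | ¬ Good C δ s L K Km w 0}).toReal) ^ (1 / (N : ℝ) ^ d)) ^ S.card := by
  classical
  haveI := h.hν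
  haveI := h.isProb_pathLaw
  haveI := h.isProb_stLaw
  haveI : IsProbabilityMeasure (mu d ν p p') := by
    unfold mu
    infer_instance
  haveI : NeZero N := ⟨by omega⟩
  have hmeas : ∀ c : Site d, MeasurableSet {w : Om d | ¬ Good C δ s L K Km w c} := fun c =>
    (measurableSet_Good C δ s L K Km c).compl
  have heq : ∀ c : Site d, mu d ν p p' {w | ¬ Good C δ s L K Km w c} =
      mu d ν p p' {w | ¬ Good C δ s L K Km w 0} := by
    intro c
    have h1 : {w : Om d | ¬ Good C δ s L K Km w c} =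
        shift (fun i => (s : ℤ) * c i) ⁻¹' {w | ¬ Good C δ s L K Km w 0} := by
      ext w
      simp only [Set.mem_setOf_eq, Set.mem_preimage]
      rw [Good_shift C δ hs L K Km w c]
    rw [h1, ← Measure.map_apply (measurable_shift _) (hmeas 0), mu_shift h]
  have hq0 : 0 ≤ (mu d ν p p' {w | ¬ Good C δ s L K Km w 0}).toReal := ENNReal.toReal_nonneg
  have hq1 : (mu d ν p p' {w | ¬ Good C δ s L K Km w 0}).toReal ≤ 1 := by
    have := prob_le_one (μ := mu d ν p p') (s := {w | ¬ Good C δ s L K Km w 0})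
    exact ENNReal.toReal_le_of_le_ofReal zero_le_one (by simpa using this)
  have hNpos : (0 : ℝ) < (N : ℝ) ^ d := by positivity
  -- pigeonhole
  have hpig : ∃ y ∈ (Finset.univ : Finset (Fin d → ZMod N)),
      (S.card : ℝ) / (N : ℝ) ^ d ≤
        ((S.filter fun c => (fun i => ((c i : ℤ) : ZMod N)) = y).card : ℝ) := by
    refine Finset.exists_le_card_fiber_of_nsmul_le_card_of_maps_to
      (fun c _ => Finset.mem_univ _) Finset.univ_nonempty ?_
    rw [nsmul_eq_mul, Finset.card_univ]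
    have h2 : (Fintype.card (Fin d → ZMod N) : ℝ) = (N : ℝ) ^ d := by
      rw [Fintype.card_fun, ZMod.card, Fintype.card_fin]
      push_cast
      rfl
    rw [h2, mul_div_cancel₀ _ hNpos.ne']
  obtain ⟨y, -, hy⟩ := hpig
  set S' := S.filter fun c => (fun i => ((c i : ℤ) : ZMod N)) = y with hS'
  have hcls : ∀ c ∈ S', ∀ i, ((c i : ℤ) : ZMod N) = y i := by
    intro c hc i
    exact congrFun (Finset.mem_filter.1 hc).2 i
  have hind : mu d ν p p' (⋂ c ∈ S', {w | ¬ Good C δ s L K Km w c}) =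
      ∏ c ∈ S', mu d ν p p' {w | ¬ Good C δ s L K Km w c} := by
    unfold mu
    refine indep_blocks (stLaw d ν p p') S'
      (fun c => {z : Site d | ∀ i, (s : ℤ) * c i - Km ≤ z i ∧ z i ≤ (s : ℤ) * c i + s + Km})
      ?_ (fun c => {w | ¬ Good C δ s L K Km w c}) (fun c _ => hmeas c) ?_
    · intro c hc c' hc' hcc
      rw [Set.disjoint_left]
      intro z hz hz'
      have h3 : ∃ i, c i ≠ c' i := by
        by_contra hcon
        push Not at hcon
        exact hcc (funext hcon)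
      obtain ⟨i, hi⟩ := h3
      have h4 : ((c i : ℤ) : ZMod N) = ((c' i : ℤ) : ZMod N) := by
        rw [hcls c hc i, hcls c' hc' i]
      rw [ZMod.intCast_eq_intCast_iff_dvd_sub] at h4
      obtain ⟨k, hk⟩ := h4
      have hNz : (1 : ℤ) ≤ (N : ℤ) := by exact_mod_cast hN
      rcases lt_trichotomy k 0 with hk0 | hk0 | hk0
      · have h5 : c' i + (N : ℤ) ≤ c i := by nlinarith
        exact box_disj hs hN' h5 hz' hz
      · rw [hk0, mul_zero] at hk
        exact hi (by linarith)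
      · have h5 : c i + (N : ℤ) ≤ c' i := by nlinarith
        exact box_disj hs hN' h5 hz hz'
    · intro c _ w w' hww
      have h6 := Good_congr (C := C) (δ := δ) (K := K) hs hL (w := w) (w' := w') (c := c)
        fun z hz => hww z hz
      simp only [Set.mem_setOf_eq]
      rw [h6]
  have hsub : (⋂ c ∈ S, {w : Om d | ¬ Good C δ s L K Km w c}) ⊆
      ⋂ c ∈ S', {w | ¬ Good C δ s L K Km w c} := by
    intro w hw
    simp only [Set.mem_iInter] at hw ⊢
    exact fun c hc => hw c (Finset.mem_filter.1 hc).1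
  have hle : (mu d ν p p' (⋂ c ∈ S, {w | ¬ Good C δ s L K Km w c})).toReal ≤
      ((mu d ν p p' {w | ¬ Good C δ s L K Km w 0}).toReal) ^ S'.card := by
    have h7 : mu d ν p p' (⋂ c ∈ S, {w | ¬ Good C δ s L K Km w c}) ≤
        (mu d ν p p' {w | ¬ Good C δ s L K Km w 0}) ^ S'.card := by
      refine (measure_mono hsub).trans ?_
      rw [hind, Finset.prod_congr rfl fun c _ => heq c, Finset.prod_const]
    rw [← ENNReal.toReal_pow]
    exact ENNReal.toReal_mono (ENNReal.pow_ne_top (measure_ne_top _ _)) h7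
  refine hle.trans ?_
  rw [← Real.rpow_natCast, ← Real.rpow_natCast, ← Real.rpow_mul hq0]
  refine Real.rpow_le_rpow_of_exponent_ge' hq0 hq1 (by positivity) ?_
  calc 1 / (N : ℝ) ^ d * (S.card : ℝ) = (S.card : ℝ) / (N : ℝ) ^ d := by ring
    _ ≤ (S'.card : ℝ) := hy

end Pool.Agent.Helper61.LF
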