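import Pool.Agent.Helper61.LF.BallScale

/-!
Module LF-21 (Ball). The long ballistic segments of a chain have small total duration.

Proof. `d ≥ 1` and `δ > d`: choose `1 < γ1 < γ2 < δ/d`. Let `Cc` be given by `balst_tail`, so that
`π j := Cc 2^(-δ j)` bounds the probability of `BalSt κ (2^j)`. Put `ℓ j = ⌈(2^j)^γ1⌉₊`, so
`2^(γ1 j) ≤ ℓ j ≤ 2 · 2^(γ1 j)`; `u j = 1 + 1/(π j (ℓ j)^d)`, so
`u j ≥ 1 + 2^((δ - γ1 d) j)/(Cc 2^d) ≥ e` for `j ≥ j1`;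
`A = 4 (d log 3 + 3^d) + 1`, `a j = A n / ℓ j`, `m j = ⌈2 n/ℓ j⌉₊`.
Given `n` let `r = ⌈n^(1/γ2)⌉₊` and `J = Nat.log 2 r`, so `2^J ≤ r < 2^(J+1)`. For `j ≤ J`:
`ℓ j ≤ 2 (2 n^(1/γ2))^γ1 = 2^(1+γ1) n^(γ1/γ2) ≤ n` for large `n`, so `m j + 1 ≤ 2 n/ℓ j + 2 ≤ 4 n/ℓ j`
and `2 n ≤ ℓ j * m j`.
By `ball_scale` and `(1 + (u-1) π)^M ≤ exp ((u-1) π M)`, the event
`E j = {∃ l, …, dur ≤ 2 n, a j ≤ balCnt κ (2^j) w l}` has probability at most
`exp ((4 n/ℓ j)(d log 3 + 3^d) - A n/ℓ j) = exp (-n/ℓ j) ≤ exp (- n^(1-γ1/γ2)/2^(1+γ1))` for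
`j1 ≤ j ≤ J`. The number of these `j` is at most `J + 1 ≤ r + 1 ≤ n + 2`, so the
probability that some `E j` with `j1 ≤ j ≤ J` occurs tends to `0`. By `ball_far` (with `γ2`) the same holds
for the event that some site `z` with `nrm z ≤ 2 n` satisfies `BalSt κ r`.
Outside of these events let `l` be a chain as in the statement. A ballistic segment `i` with
`ts (i+1) - ts i ≥ 2^(J+1) ≥ r` would give `BalSt κ r (w (zs i))` with `nrm (zs i) ≤ 2 n`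
(`nrm_zs_sub`, `ok_occ`), impossible. So `balSum_le` gives, for `j0 ≥ j1`, `2^j0 ≤ R + 1`,
`balSum κ R w l ≤ Σ_{j ≥ j0} 2^(j+1) a j ≤ 2 A n Σ_{j≥j0} 2^(-(γ1-1) j) < θ n`
if `j0` is large (`n ≥ 1`). Take `R0 = 2^j0`.
-/

namespace Pool.Agent.Helper61.LF

open MeasureTheory Filter

/-- The bound at one scale. -/
private theorem ball_one {d : ℕ} {ν : Measure ℕ} {p p' : ℝ} (h : Par d ν p p') (κ : ℝ) (r : ℕ)
    {ℓ : ℕ} (hℓ : 1 ≤ ℓ) {π : ℝ} (hπ0 : 0 < π)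
    (hπ : (stLaw d ν p p' {st | BalSt κ r st}).toReal ≤ π)
    (hu : Real.exp 1 ≤ 1 + 1 / (π * (ℓ : ℝ) ^ d)) {n : ℕ} (hn : ℓ ≤ n) {A : ℝ}
    (hA : 4 * (d * Real.log 3 + 3 ^ d) + 1 ≤ A) :
    mu d ν p p' {w | ∃ l, ok w 0 l ∧ (∀ i i', i < i' → i' < l.length → zs w l i ≠ zs w l i') ∧
      dur gP w 0 l ≤ 2 * n ∧ A * n / ℓ ≤ (balCnt κ r w l : ℝ)} ≤
      ENNReal.ofReal (Real.exp (-((n : ℝ) / ℓ))) := by
  have := h.isProb_mu
  have hℓ0 : (0 : ℝ) < ℓ := by exact_mod_cast hℓ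
  have hℓn : (ℓ : ℝ) ≤ n := by exact_mod_cast hn
  have hq1 : (1 : ℝ) ≤ (n : ℝ) / ℓ := by rw [le_div_iff₀ hℓ0]; linarith
  set q : ℝ := (n : ℝ) / ℓ with hq
  set m : ℕ := ⌈2 * q⌉₊ with hm
  have hm1 : (m : ℝ) < 2 * q + 1 := Nat.ceil_lt_add_one (by linarith)
  have hm2 : 2 * q ≤ m := Nat.le_ceil _
  have hm3 : 2 * n ≤ ℓ * m := by
    have : (2 * n : ℝ) ≤ ℓ * m := by
      have h1 : (ℓ : ℝ) * (2 * q) ≤ ℓ * m := mul_le_mul_of_nonneg_left hm2 hℓ0.le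
      have h2 : (ℓ : ℝ) * (2 * q) = 2 * n := by rw [hq]; field_simp
      linarith
    exact_mod_cast this
  set u : ℝ := 1 + 1 / (π * (ℓ : ℝ) ^ d) with hu'
  have hu1 : 1 < u := by
    have : 0 < 1 / (π * (ℓ : ℝ) ^ d) := by positivity
    linarith
  have hlog : 0 ≤ Real.log 3 := Real.log_nonneg (by norm_num)
  have hA0 : 0 ≤ A := by
    have : 0 ≤ (d : ℝ) * Real.log 3 := mul_nonneg (Nat.cast_nonneg _) hlog
    have h3 : (0 : ℝ) ≤ 3 ^ d := by positivity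
    linarith
  have hAq : A * n / ℓ = A * q := by rw [hq]; ring
  have key := ball_scale h κ r hℓ m hπ hu1 (A * n / ℓ)
  have hsub : {w : Om d | ∃ l, ok w 0 l ∧
      (∀ i i', i < i' → i' < l.length → zs w l i ≠ zs w l i') ∧
      dur gP w 0 l ≤ 2 * n ∧ A * n / ℓ ≤ (balCnt κ r w l : ℝ)} ⊆
      {w | ∃ l, ok w 0 l ∧ (∀ i i', i < i' → i' < l.length → zs w l i ≠ zs w l i') ∧
      dur gP w 0 l ≤ ℓ * m ∧ A * n / ℓ ≤ (balCnt κ r w l : ℝ)} := by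
    rintro w ⟨l, h1, h2, h3, h4⟩
    exact ⟨l, h1, h2, h3.trans hm3, h4⟩
  refine (measure_mono hsub).trans ?_
  rw [ENNReal.le_ofReal_iff_toReal_le (measure_ne_top _ _) (Real.exp_pos _).le]
  refine key.trans ?_
  have e1 : (3 : ℝ) ^ (d * m) = Real.exp (d * m * Real.log 3) := by
    rw [← Real.rpow_natCast, Real.rpow_def_of_pos (by norm_num)]
    push_cast
    ring_nf
  have e2 : (1 + (u - 1) * π) ^ ((m + 1) * 3 ^ d * ℓ ^ d) ≤ Real.exp ((m + 1) * 3 ^ d) := by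
    have h1 : (u - 1) * π = 1 / (ℓ : ℝ) ^ d := by
      rw [hu']; field_simp; ring
    rw [h1]
    have h2 : 1 + 1 / (ℓ : ℝ) ^ d ≤ Real.exp (1 / (ℓ : ℝ) ^ d) := by
      have := Real.add_one_le_exp (1 / (ℓ : ℝ) ^ d)
      linarith
    refine (pow_le_pow_left₀ (by positivity) h2 _).trans ?_
    rw [← Real.exp_nat_mul]
    apply le_of_eq
    congr 1
    push_cast
    field_simp
  have e3 : u ^ (-(A * n / ℓ)) ≤ Real.exp (-(A * q)) := by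
    rw [hAq, Real.rpow_def_of_pos (by linarith)]
    apply Real.exp_le_exp.2
    have h1 : 1 ≤ Real.log u := by
      rw [Real.le_log_iff_exp_le (by linarith)]
      exact hu
    have h2 : 0 ≤ A * q := mul_nonneg hA0 (by linarith)
    nlinarith
  have e4 : (3 : ℝ) ^ (d * m) * (1 + (u - 1) * π) ^ ((m + 1) * 3 ^ d * ℓ ^ d) *
      u ^ (-(A * n / ℓ)) ≤
      Real.exp (d * m * Real.log 3) * Real.exp ((m + 1) * 3 ^ d) * Real.exp (-(A * q)) := by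
    rw [e1]
    have hb : 0 ≤ (1 + (u - 1) * π) ^ ((m + 1) * 3 ^ d * ℓ ^ d) := by
      apply pow_nonneg
      have : 0 ≤ (u - 1) * π := mul_nonneg (by linarith) hπ0.le
      linarith
    apply mul_le_mul _ e3 (Real.rpow_nonneg (by linarith) _) (by positivity)
    exact mul_le_mul_of_nonneg_left e2 (Real.exp_pos _).le
  refine e4.trans ?_
  rw [← Real.exp_add, ← Real.exp_add]
  apply Real.exp_le_exp.2
  have h3 : (0 : ℝ) ≤ 3 ^ d := by positivity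
  have hd0 : (0 : ℝ) ≤ (d : ℝ) * Real.log 3 := mul_nonneg (Nat.cast_nonneg _) hlog
  have hm4 : (m : ℝ) + 1 ≤ 4 * q := by linarith
  have g1 : (d : ℝ) * m * Real.log 3 ≤ 4 * q * (d * Real.log 3) := by
    have : (d : ℝ) * m * Real.log 3 = m * (d * Real.log 3) := by ring
    rw [this]
    apply mul_le_mul_of_nonneg_right _ hd0
    linarith
  have g2 : ((m : ℝ) + 1) * 3 ^ d ≤ 4 * q * 3 ^ d := mul_le_mul_of_nonneg_right hm4 h3
  have g3 : (4 * (d * Real.log 3 + 3 ^ d) + 1) * q ≤ A * q :=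
    mul_le_mul_of_nonneg_right hA (by linarith)
  linarith

/-- The side length of the scale `j`. -/
private noncomputable def ell (γ : ℝ) (j : ℕ) : ℕ := ⌈((2 : ℝ) ^ j) ^ γ⌉₊

private theorem le_ell (γ : ℝ) (j : ℕ) : ((2 : ℝ) ^ j) ^ γ ≤ ell γ j := Nat.le_ceil _

private theorem one_le_base {γ : ℝ} (hγ : 0 ≤ γ) (j : ℕ) : 1 ≤ ((2 : ℝ) ^ j) ^ γ :=
  Real.one_le_rpow (one_le_pow₀ (by norm_num)) hγ

private theorem one_le_ell {γ : ℝ} (hγ : 0 ≤ γ) (j : ℕ) : 1 ≤ ell γ j := by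
  have h1 := (one_le_base hγ j).trans (le_ell γ j)
  exact_mod_cast h1

private theorem ell_le {γ : ℝ} (hγ : 0 ≤ γ) (j : ℕ) : (ell γ j : ℝ) ≤ 2 * ((2 : ℝ) ^ j) ^ γ := by
  exact Nat.ceil_le_two_mul ((by norm_num : (2 : ℝ)⁻¹ ≤ 1).trans (one_le_base hγ j))

/-- For large `j` the parameter `u j` is at least `e`. -/
private theorem u_large {d : ℕ} {γ δ Cc : ℝ} (hγ : 0 ≤ γ) (hγδ : γ * d < δ)
    (hC : 0 < Cc) :
    ∀ᶠ j : ℕ in atTop, Real.exp 1 ≤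
      1 + 1 / (Cc * (((2 ^ j : ℕ) : ℝ)) ^ (-δ) * (ell γ j : ℝ) ^ d) := by
  have h1 : Tendsto (fun j : ℕ => ((2 : ℝ) ^ j) ^ (δ - γ * d)) atTop atTop :=
    (tendsto_rpow_atTop (by linarith)).comp (tendsto_pow_atTop_atTop_of_one_lt (by norm_num))
  filter_upwards [h1.eventually_ge_atTop (Cc * 2 ^ d * Real.exp 1)] with j hj
  have hb : (0 : ℝ) < (2 : ℝ) ^ j := by positivity
  have hc : (((2 ^ j : ℕ) : ℝ)) = (2 : ℝ) ^ j := by push_cast; rfl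
  rw [hc]
  have hell0 : (0 : ℝ) < ell γ j := by exact_mod_cast one_le_ell hγ j
  have hD : Cc * ((2 : ℝ) ^ j) ^ (-δ) * (ell γ j : ℝ) ^ d ≤
      Cc * 2 ^ d / ((2 : ℝ) ^ j) ^ (δ - γ * d) := by
    have h2 : (ell γ j : ℝ) ^ d ≤ (2 * ((2 : ℝ) ^ j) ^ γ) ^ d :=
      pow_le_pow_left₀ hell0.le (ell_le hγ j) d
    have h3 : (2 * ((2 : ℝ) ^ j) ^ γ) ^ d = 2 ^ d * ((2 : ℝ) ^ j) ^ (γ * d) := by
      rw [mul_pow, Real.rpow_mul hb.le, Real.rpow_natCast]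
    rw [h3] at h2
    have h4 : Cc * ((2 : ℝ) ^ j) ^ (-δ) * (ell γ j : ℝ) ^ d ≤
        Cc * ((2 : ℝ) ^ j) ^ (-δ) * (2 ^ d * ((2 : ℝ) ^ j) ^ (γ * d)) :=
      mul_le_mul_of_nonneg_left h2 (by positivity)
    refine h4.trans (le_of_eq ?_)
    have h5 : ((2 : ℝ) ^ j) ^ (δ - γ * d) =
        (((2 : ℝ) ^ j) ^ (-δ))⁻¹ * (((2 : ℝ) ^ j) ^ (γ * d))⁻¹ := by
      rw [← Real.rpow_neg hb.le, ← Real.rpow_neg hb.le, ← Real.rpow_add hb]
      congr 1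
      ring
    have p1 : 0 < ((2 : ℝ) ^ j) ^ (-δ) := Real.rpow_pos_of_pos hb _
    have p2 : 0 < ((2 : ℝ) ^ j) ^ (γ * (d : ℝ)) := Real.rpow_pos_of_pos hb _
    rw [h5]
    field_simp
  have hpos : 0 < Cc * ((2 : ℝ) ^ j) ^ (-δ) * (ell γ j : ℝ) ^ d := by positivity
  have hpos2 : 0 < ((2 : ℝ) ^ j) ^ (δ - γ * d) := Real.rpow_pos_of_pos hb _
  have h6 : Real.exp 1 ≤ 1 / (Cc * ((2 : ℝ) ^ j) ^ (-δ) * (ell γ j : ℝ) ^ d) := by
    rw [le_div_iff₀ hpos]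
    have h7 : Real.exp 1 * (Cc * ((2 : ℝ) ^ j) ^ (-δ) * (ell γ j : ℝ) ^ d) ≤
        Real.exp 1 * (Cc * 2 ^ d / ((2 : ℝ) ^ j) ^ (δ - γ * d)) :=
      mul_le_mul_of_nonneg_left hD (Real.exp_pos _).le
    refine h7.trans ?_
    rw [mul_div_assoc', div_le_one hpos2]
    linarith
  linarith

/-- A stretched exponential beats a linear factor. -/
private theorem lim_exp {s c : ℝ} (hs : 0 < s) (hc : 0 < c) :
    Tendsto (fun n : ℕ => ((n : ℝ) + 1) * Real.exp (-((n : ℝ) ^ s / c))) atTop (nhds 0) := by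
  have h1 : Tendsto (fun n : ℕ => (n : ℝ) ^ s) atTop atTop :=
    (tendsto_rpow_atTop hs).comp tendsto_natCast_atTop_atTop
  have h2 := (tendsto_rpow_mul_exp_neg_mul_atTop_nhds_zero (1 / s) (1 / c) (by positivity)).comp h1
  have h3 := (tendsto_rpow_mul_exp_neg_mul_atTop_nhds_zero 0 (1 / c) (by positivity)).comp h1
  have h4 := h2.add h3
  rw [add_zero] at h4
  refine h4.congr ?_
  intro n
  simp only [Function.comp]
  have h5 : ((n : ℝ) ^ s) ^ (1 / s) = n := by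
    rw [← Real.rpow_mul (Nat.cast_nonneg _), mul_one_div_cancel hs.ne', Real.rpow_one]
  rw [h5, Real.rpow_zero, ← add_mul]
  congr 2
  ring

/-- The geometric sum. -/
private theorem sum_geo {γ A : ℝ} (hγ : 1 < γ) (hA : 0 ≤ A) (x : ℝ) (hx : 0 ≤ x) (j0 J : ℕ) :
    ∑ j ∈ Finset.Icc j0 J, (2 : ℝ) ^ (j + 1) * (A * x / ell γ j) ≤
      2 * A * x * (((2 : ℝ) ^ (1 - γ)) ^ j0 / (1 - (2 : ℝ) ^ (1 - γ))) := by
  have hρ : (2 : ℝ) ^ (1 - γ) < 1 := by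
    apply Real.rpow_lt_one_of_one_lt_of_neg (by norm_num) (by linarith)
  have hρ0 : (0 : ℝ) ≤ (2 : ℝ) ^ (1 - γ) := by positivity
  have h1 : ∀ j ∈ Finset.Icc j0 J, (2 : ℝ) ^ (j + 1) * (A * x / ell γ j) ≤
      2 * A * x * ((2 : ℝ) ^ (1 - γ)) ^ j := by
    intro j _
    have hb : (0 : ℝ) < (2 : ℝ) ^ j := by positivity
    have hp : (0 : ℝ) < ((2 : ℝ) ^ j) ^ γ := Real.rpow_pos_of_pos hb _
    have h2 : A * x / ell γ j ≤ A * x / ((2 : ℝ) ^ j) ^ γ :=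
      div_le_div_of_nonneg_left (mul_nonneg hA hx) hp (le_ell γ j)
    have h3 : ((2 : ℝ) ^ (1 - γ)) ^ j = (2 : ℝ) ^ j / ((2 : ℝ) ^ j) ^ γ := by
      rw [← Real.rpow_natCast, ← Real.rpow_mul (by norm_num), mul_comm,
        Real.rpow_mul (by norm_num), Real.rpow_natCast, Real.rpow_sub hb, Real.rpow_one]
    rw [h3]
    calc (2 : ℝ) ^ (j + 1) * (A * x / ell γ j) ≤ (2 : ℝ) ^ (j + 1) * (A * x / ((2 : ℝ) ^ j) ^ γ) :=
          mul_le_mul_of_nonneg_left h2 (by positivity)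
      _ = 2 * A * x * ((2 : ℝ) ^ j / ((2 : ℝ) ^ j) ^ γ) := by rw [pow_succ]; ring
  refine (Finset.sum_le_sum h1).trans ?_
  rw [← Finset.mul_sum]
  apply mul_le_mul_of_nonneg_left _ (by positivity)
  have h4 : Finset.Icc j0 J = Finset.Ico j0 (J + 1) := by
    ext j; simp
  rw [h4]
  exact geom_sum_Ico_le_of_lt_one hρ0 hρ

theorem ball_lim {d : ℕ} {ν : Measure ℕ} {p p' : ℝ} (h : Par d ν p p') {δ : ℝ} (hδ : (d : ℝ) < δ)
    (hm : ∫⁻ k : ℕ, ENNReal.ofReal (Real.log (1 + k) ^ δ) ∂ν < ⊤) {κ : ℝ} (hκ : 0 < κ) {θ : ℝ}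
    (hθ : 0 < θ) :
    ∃ R0 : ℕ, ∀ R : ℕ, R0 ≤ R →
      Tendsto (fun n : ℕ => mu d ν p p' {w | ∃ l, ok w 0 l ∧
        (∀ i i', i < i' → i' < l.length → zs w l i ≠ zs w l i') ∧ dur gP w 0 l ≤ 2 * n ∧
          θ * n ≤ balSum κ R w l}) atTop (nhds 0) := by
  have := h.isProb_mu
  have hd1 : (1 : ℝ) ≤ d := by exact_mod_cast h.hd
  have hδ1 : 1 < δ / d := by rw [lt_div_iff₀ (by linarith)]; linarith
  obtain ⟨γ1, hγ1, hγ1'⟩ := exists_between hδ1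
  obtain ⟨γ2, hγ2, hγ2'⟩ := exists_between hγ1'
  have hγ1d : γ1 * d < δ := by rwa [lt_div_iff₀ (by linarith)] at hγ1'
  have hγ2d : γ2 * d < δ := by rwa [lt_div_iff₀ (by linarith)] at hγ2'
  have hγ10 : 0 ≤ γ1 := by linarith
  have hγ20 : 0 < γ2 := by linarith
  obtain ⟨Cc, hCc, hbal⟩ := balst_tail h (by linarith : 0 < δ) hm hκ
  obtain ⟨A, hA⟩ : ∃ A : ℝ, A = 4 * (d * Real.log 3 + 3 ^ d) + 1 := ⟨_, rfl⟩
  have hA0 : 0 < A := by
    have : 0 ≤ (d : ℝ) * Real.log 3 := mul_nonneg (Nat.cast_nonneg _) (Real.log_nonneg (by norm_num))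
    have h3 : (0 : ℝ) ≤ 3 ^ d := by positivity
    linarith
  obtain ⟨j1, hj1⟩ := eventually_atTop.1 (u_large hγ10 hγ1d hCc)
  -- choice of `j0`
  have hρ : (2 : ℝ) ^ (1 - γ1) < 1 := by
    apply Real.rpow_lt_one_of_one_lt_of_neg (by norm_num) (by linarith)
  have hρ0 : (0 : ℝ) ≤ (2 : ℝ) ^ (1 - γ1) := by positivity
  have hlim : Tendsto (fun j : ℕ => 2 * A * (((2 : ℝ) ^ (1 - γ1)) ^ j / (1 - (2 : ℝ) ^ (1 - γ1))))
      atTop (nhds 0) := by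
    have := ((tendsto_pow_atTop_nhds_zero_of_lt_one hρ0 hρ).div_const
      (1 - (2 : ℝ) ^ (1 - γ1))).const_mul (2 * A)
    simpa using this
  obtain ⟨j0, hj0, hj0'⟩ := ((hlim.eventually (gt_mem_nhds hθ)).and
    (eventually_ge_atTop j1)).exists
  refine ⟨2 ^ j0, fun R hR => ?_⟩
  -- scale parameters
  have hβ : 0 < 1 - γ1 / γ2 := by
    have : γ1 / γ2 < 1 := by rw [div_lt_one hγ20]; exact hγ2
    linarith
  obtain ⟨c, hc⟩ : ∃ c : ℝ, c = 2 * 2 ^ γ1 := ⟨_, rfl⟩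
  have hc0 : 0 < c := by rw [hc]; positivity
  have hfar := ball_far h hδ hm hκ hγ20 hγ2d
  have hsum := (lim_exp hβ hc0)
  have hsum' : Tendsto (fun n : ℕ => ENNReal.ofReal
      (((n : ℝ) + 1) * Real.exp (-((n : ℝ) ^ (1 - γ1 / γ2) / c)))) atTop (nhds 0) := by
    have := ENNReal.tendsto_ofReal hsum
    simpa using this
  have htot := hfar.add hsum'
  rw [add_zero] at htot
  refine tendsto_of_tendsto_of_tendsto_of_le_of_le' tendsto_const_nhds htot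
    (Eventually.of_forall fun n => bot_le) ?_
  have hbig : Tendsto (fun n : ℕ => (n : ℝ) ^ (1 - γ1 / γ2)) atTop atTop :=
    (tendsto_rpow_atTop hβ).comp tendsto_natCast_atTop_atTop
  filter_upwards [hbig.eventually_ge_atTop c, eventually_ge_atTop 1] with n hnc hn1
  have hnR : (1 : ℝ) ≤ n := by exact_mod_cast hn1
  have hn0 : (0 : ℝ) < n := by linarith
  obtain ⟨r, hr⟩ : ∃ r : ℕ, r = ⌈(n : ℝ) ^ (1 / γ2)⌉₊ := ⟨_, rfl⟩
  have hx1 : (1 : ℝ) ≤ (n : ℝ) ^ (1 / γ2) := Real.one_le_rpow hnR (by positivity)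
  have hr1 : (n : ℝ) ^ (1 / γ2) ≤ r := by rw [hr]; exact Nat.le_ceil _
  have hr2 : (r : ℝ) ≤ 2 * (n : ℝ) ^ (1 / γ2) := by
    rw [hr]
    exact Nat.ceil_le_two_mul ((by norm_num : (2 : ℝ)⁻¹ ≤ 1).trans hx1)
  have hr0 : r ≠ 0 := by
    intro h0
    rw [h0, Nat.cast_zero] at hr1
    linarith
  have hrn : r ≤ n := by
    rw [hr]
    apply Nat.ceil_le.2
    calc (n : ℝ) ^ (1 / γ2) ≤ (n : ℝ) ^ (1 : ℝ) := by
          apply Real.rpow_le_rpow_of_exponent_le hnR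
          rw [div_le_one hγ20]; linarith
      _ = n := Real.rpow_one _
  obtain ⟨N, hJ⟩ : ∃ N : ℕ, N = Nat.log 2 r := ⟨_, rfl⟩
  have hJ1 : 2 ^ N ≤ r := by rw [hJ]; exact Nat.pow_log_le_self 2 hr0
  have hJ2 : r < 2 ^ (N + 1) := by rw [hJ]; exact Nat.lt_pow_succ_log_self (by norm_num) r
  have hJ3 : N < r := by rw [hJ]; exact Nat.log_lt_self 2 hr0
  -- the side lengths
  have hell : ∀ j ≤ N, (ell γ1 j : ℝ) ≤ c * (n : ℝ) ^ (γ1 / γ2) := by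
    intro j hj
    refine (ell_le hγ10 j).trans ?_
    have h1 : (2 : ℝ) ^ j ≤ 2 * (n : ℝ) ^ (1 / γ2) := by
      refine le_trans ?_ hr2
      have : 2 ^ j ≤ r := (Nat.pow_le_pow_right (by norm_num) hj).trans hJ1
      exact_mod_cast this
    have h2 : ((2 : ℝ) ^ j) ^ γ1 ≤ (2 * (n : ℝ) ^ (1 / γ2)) ^ γ1 :=
      Real.rpow_le_rpow (by positivity) h1 hγ10
    have h3 : (2 * (n : ℝ) ^ (1 / γ2)) ^ γ1 = 2 ^ γ1 * (n : ℝ) ^ (γ1 / γ2) := by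
      rw [Real.mul_rpow (by norm_num) (by positivity), ← Real.rpow_mul hn0.le]
      congr 2
      ring
    rw [h3] at h2
    rw [hc]
    linarith
  have hsplit : (n : ℝ) ^ (1 - γ1 / γ2) * (n : ℝ) ^ (γ1 / γ2) = n := by
    rw [← Real.rpow_add hn0]
    have : 1 - γ1 / γ2 + γ1 / γ2 = 1 := by ring
    rw [this, Real.rpow_one]
  have hnβ : 0 < (n : ℝ) ^ (γ1 / γ2) := Real.rpow_pos_of_pos hn0 _
  have helln : ∀ j ≤ N, ell γ1 j ≤ n := by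
    intro j hj
    have h1 := hell j hj
    have h2 : c * (n : ℝ) ^ (γ1 / γ2) ≤ n := by
      calc c * (n : ℝ) ^ (γ1 / γ2) ≤ (n : ℝ) ^ (1 - γ1 / γ2) * (n : ℝ) ^ (γ1 / γ2) :=
            mul_le_mul_of_nonneg_right hnc hnβ.le
        _ = n := hsplit
    exact_mod_cast h1.trans h2
  -- the events
  have hE : ∀ j ∈ Finset.Icc j1 N, mu d ν p p' {w | ∃ l, ok w 0 l ∧
      (∀ i i', i < i' → i' < l.length → zs w l i ≠ zs w l i') ∧
      dur gP w 0 l ≤ 2 * n ∧ A * n / (ell γ1 j : ℝ) ≤ (balCnt κ (2 ^ j) w l : ℝ)} ≤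
      ENNReal.ofReal (Real.exp (-((n : ℝ) ^ (1 - γ1 / γ2) / c))) := by
    intro j hj
    rw [Finset.mem_Icc] at hj
    have h1 := ball_one h κ (2 ^ j) (one_le_ell hγ10 j)
      (π := Cc * (((2 ^ j : ℕ) : ℝ)) ^ (-δ)) (by positivity) (hbal _ Nat.one_le_two_pow)
      (hj1 j hj.1) (helln j hj.2) (A := A) hA.ge
    refine h1.trans (ENNReal.ofReal_le_ofReal (Real.exp_le_exp.2 ?_))
    apply neg_le_neg
    have he0 : (0 : ℝ) < ell γ1 j := by exact_mod_cast one_le_ell hγ10 j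
    rw [div_le_div_iff₀ hc0 he0]
    calc (n : ℝ) ^ (1 - γ1 / γ2) * ell γ1 j ≤
          (n : ℝ) ^ (1 - γ1 / γ2) * (c * (n : ℝ) ^ (γ1 / γ2)) :=
          mul_le_mul_of_nonneg_left (hell j hj.2) (by positivity)
      _ = (n : ℝ) ^ (1 - γ1 / γ2) * (n : ℝ) ^ (γ1 / γ2) * c := by ring
      _ = n * c := by rw [hsplit]
  have hcover : {w : Om d | ∃ l, ok w 0 l ∧
        (∀ i i', i < i' → i' < l.length → zs w l i ≠ zs w l i') ∧ dur gP w 0 l ≤ 2 * n ∧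
          θ * n ≤ balSum κ R w l} ⊆
      {w | ∃ z : Site d, nrm z ≤ 2 * n ∧ BalSt κ ⌈(n : ℝ) ^ (1 / γ2)⌉₊ (w z)} ∪
      ⋃ j ∈ Finset.Icc j1 N, {w | ∃ l, ok w 0 l ∧
        (∀ i i', i < i' → i' < l.length → zs w l i ≠ zs w l i') ∧
        dur gP w 0 l ≤ 2 * n ∧ A * n / (ell γ1 j : ℝ) ≤ (balCnt κ (2 ^ j) w l : ℝ)} := by
    rintro w ⟨l, k1, k2, k3, k4⟩
    by_contra hcon
    rw [Set.mem_union, not_or] at hcon
    obtain ⟨hc1, hc2⟩ := hcon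
    have hlow : ∀ j ∈ Finset.Icc j1 N, (balCnt κ (2 ^ j) w l : ℝ) < A * n / (ell γ1 j : ℝ) := by
      intro j hj
      by_contra hge
      push Not at hge
      exact hc2 (Set.mem_biUnion hj ⟨l, k1, k2, k3, hge⟩)
    have hup : ∀ i < l.length,
        κ * ((ts w l (i + 1) - ts w l i : ℕ) : ℝ) ≤ nrm (zs w l (i + 1) - zs w l i) →
        ts w l (i + 1) - ts w l i < 2 ^ (N + 1) := by
      intro i hi hbi
      by_contra hge
      push Not at hge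
      apply hc1
      have e1 : ts w l (i + 1) - ts w l i =
          tau gP ((w (zs w l i)).2 (l[i]).1) ((l[i]).2 + 1) := by
        rw [ts_succ w l i hi]; omega
      have e2 : zs w l (i + 1) - zs w l i = J ((w (zs w l i)).2 (l[i]).1) ((l[i]).2 + 1) := by
        rw [zs_succ w l i hi]; abel
      refine ⟨zs w l i, ?_, (l[i]).1, ok_occ w l k1 i hi, (l[i]).2 + 1, ?_, ?_⟩
      · have h1 := nrm_zs_sub w l (Nat.zero_le i)
        rw [zs_zero, sub_zero, ts_zero, Nat.sub_zero] at h1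
        have h2 : ts w l i ≤ ts w l l.length := ts_mono w l hi.le
        rw [ts_len] at h2
        omega
      · rw [← hr, ← e1]; omega
      · rw [← e1, ← e2]; exact hbi
    have hS := balSum_le κ R w l j0 N (by omega) hup
    have hS2 : ∑ j ∈ Finset.Icc j0 N, 2 ^ (j + 1) * (balCnt κ (2 ^ j) w l : ℝ) ≤
        ∑ j ∈ Finset.Icc j0 N, (2 : ℝ) ^ (j + 1) * (A * n / ell γ1 j) := by
      apply Finset.sum_le_sum
      intro j hj
      rw [Finset.mem_Icc] at hj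
      exact mul_le_mul_of_nonneg_left
        (hlow j (Finset.mem_Icc.2 ⟨hj0'.trans hj.1, hj.2⟩)).le (by positivity)
    have hS3 := sum_geo hγ1 hA0.le (n : ℝ) hn0.le j0 N
    have hS4 : 2 * A * (n : ℝ) * (((2 : ℝ) ^ (1 - γ1)) ^ j0 / (1 - (2 : ℝ) ^ (1 - γ1))) < θ * n := by
      have : 2 * A * (n : ℝ) * (((2 : ℝ) ^ (1 - γ1)) ^ j0 / (1 - (2 : ℝ) ^ (1 - γ1))) =
        2 * A * (((2 : ℝ) ^ (1 - γ1)) ^ j0 / (1 - (2 : ℝ) ^ (1 - γ1))) * n := by ring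
      rw [this]
      exact mul_lt_mul_of_pos_right hj0 hn0
    linarith
  refine (measure_mono hcover).trans ((measure_union_le _ _).trans ?_)
  apply add_le_add le_rfl
  refine (measure_biUnion_finset_le _ _).trans ?_
  refine (Finset.sum_le_sum hE).trans ?_
  rw [Finset.sum_const, nsmul_eq_mul, ENNReal.ofReal_mul (by positivity)]
  apply mul_le_mul_left
  rw [← ENNReal.ofReal_natCast]
  apply ENNReal.ofReal_le_ofReal
  have : (Finset.Icc j1 N).card ≤ n + 1 := by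
    rw [Nat.card_Icc]; omega
  exact_mod_cast this

end Pool.Agent.Helper61.LF
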