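import Pool.Agent.Helper61.LF.Tail
import Pool.Agent.Helper61.LF.Animal
import Pool.Agent.Helper61.LF.Coarse

/-!
Module LF-20 (BallScale). Long ballistic segments at one scale.

* `ball_scale`: by `coarse_chain` (side `ℓ`) there is `γ : Fin m → Fin d → Fin 3` such that all
  switching sites lie in the finite set `F γ` of the sites `z` with `cellOf ℓ z ∈ cnb γ`, which has at
  most `(m+1) 3^d ℓ^d` elements. If the segment `i` is counted, then with `j = (l[i]).1`,
  `k = (l[i]).2 + 1` (`ok_occ`, `zs_succ`, `ts_succ`) the state `w (zs i)` satisfies `BalSt κ r`; the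
  sites `zs i` are distinct, so the number of counted `i` is at most `#{z ∈ F γ : BalSt κ r (w z)}`.
  Apply `animal` with `B z = {w | BalSt κ r (w z)}`: by `infinitePi_pi`,
  `mu (⋂_{z ∈ S} B z) = (stLaw {BalSt κ r})^(card S) ≤ π^(card S)`; number of `γ`: `card_coarse`.
* `ball_far`: at most `(4n+1)^d` sites have `nrm z ≤ 2n`; each has the property with probability at most
  `Cc r^(-δ)` with `r = ⌈n^(1/γ)⌉₊ ≥ n^(1/γ)` (`balst_tail`), and `(4n+1)^d n^(-δ/γ) → 0` since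
  `γ d < δ`.
* `balSum_le`: a segment that contributes to `balSum` has duration `r_i > R`, so `r_i ≥ 2^j0`, and
  `r_i < 2^(J+1)`; with `j = Nat.log 2 r_i ∈ [j0, J]` one has `2^j ≤ r_i < 2^(j+1)` and it is counted in
  `balCnt κ (2^j)`.
-/

namespace Pool.Agent.Helper61.LF

open MeasureTheory Filter

open Classical in
/-- Number of the ballistic segments of duration at least `r`. -/
noncomputable def balCnt {d : ℕ} (κ : ℝ) (r : ℕ) (w : Om d) (l : List (ℕ × ℕ)) : ℕ :=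
  ((Finset.range l.length).filter fun i => r ≤ ts w l (i + 1) - ts w l i ∧
    κ * ((ts w l (i + 1) - ts w l i : ℕ) : ℝ) ≤ nrm (zs w l (i + 1) - zs w l i)).card

private theorem seg_bal {d : ℕ} {κ : ℝ} {r : ℕ} (w : Om d) (l : List (ℕ × ℕ))
    (hok : ok w 0 l) (i : ℕ) (hi : i < l.length) (h1 : r ≤ ts w l (i + 1) - ts w l i)
    (h2 : κ * ((ts w l (i + 1) - ts w l i : ℕ) : ℝ) ≤ nrm (zs w l (i + 1) - zs w l i)) :
    BalSt κ r (w (zs w l i)) := by
  have hz := zs_succ w l i hi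
  have ht := ts_succ w l i hi
  have ht' : ts w l (i + 1) - ts w l i
      = tau gP ((w (zs w l i)).2 (l[i]).1) ((l[i]).2 + 1) := by omega
  have hz' : zs w l (i + 1) - zs w l i
      = J ((w (zs w l i)).2 (l[i]).1) ((l[i]).2 + 1) := by
    rw [hz]; abel
  refine ⟨(l[i]).1, ok_occ w l hok i hi, (l[i]).2 + 1, ?_, ?_⟩
  · rw [← ht']; exact h1
  · rw [← ht', ← hz']; exact h2

/-- Sites of the cells near a coarse path. -/
private noncomputable def Fs {d m : ℕ} (ℓ : ℕ) (γ : Fin m → Fin d → Fin 3) :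
    Finset (Site d) :=
  (cnb γ ×ˢ (Finset.univ : Finset (Fin d → Fin ℓ))).image
    fun q i => q.1 i * (ℓ : ℤ) + ((q.2 i : ℕ) : ℤ)

private theorem card_Fs {d m : ℕ} (ℓ : ℕ) (γ : Fin m → Fin d → Fin 3) :
    (Fs ℓ γ).card ≤ (m + 1) * 3 ^ d * ℓ ^ d := by
  unfold Fs
  refine Finset.card_image_le.trans ?_
  rw [Finset.card_product, Finset.card_univ, Fintype.card_fun, Fintype.card_fin,
    Fintype.card_fin]
  exact Nat.mul_le_mul_right _ (card_cnb γ)

private theorem mem_Fs {d m : ℕ} {ℓ : ℕ} (hℓ : 1 ≤ ℓ) (γ : Fin m → Fin d → Fin 3) (z : Site d)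
    (h : cellOf ℓ z ∈ cnb γ) : z ∈ Fs ℓ γ := by
  have hp : (0 : ℤ) < (ℓ : ℤ) := by exact_mod_cast hℓ
  unfold Fs
  rw [Finset.mem_image]
  refine ⟨(cellOf ℓ z, fun i => ⟨(z i % (ℓ : ℤ)).toNat, ?_⟩), ?_, ?_⟩
  · have h1 := Int.emod_nonneg (z i) hp.ne'
    have h2 := Int.emod_lt_of_pos (z i) hp
    omega
  · rw [Finset.mem_product]
    exact ⟨h, Finset.mem_univ _⟩
  · funext i
    have h1 := Int.emod_nonneg (z i) hp.ne'
    have h3 := Int.mul_ediv_add_emod (z i) (ℓ : ℤ)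
    simp only [cellOf]
    rw [Int.toNat_of_nonneg h1, mul_comm]
    exact h3

theorem ball_scale {d : ℕ} {ν : Measure ℕ} {p p' : ℝ} (h : Par d ν p p') (κ : ℝ) (r : ℕ)
    {ℓ : ℕ} (hℓ : 1 ≤ ℓ) (m : ℕ) {π : ℝ}
    (hπ : (stLaw d ν p p' {st | BalSt κ r st}).toReal ≤ π) {u : ℝ} (hu : 1 < u) (a : ℝ) :
    (mu d ν p p' {w | ∃ l, ok w 0 l ∧ (∀ i i', i < i' → i' < l.length → zs w l i ≠ zs w l i') ∧
      dur gP w 0 l ≤ ℓ * m ∧ a ≤ (balCnt κ r w l : ℝ)}).toReal ≤
      3 ^ (d * m) * (1 + (u - 1) * π) ^ ((m + 1) * 3 ^ d * ℓ ^ d) * u ^ (-a) := by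
  classical
  haveI := h.isProb_stLaw
  haveI := h.isProb_mu
  have hπ0 : 0 ≤ π := ENNReal.toReal_nonneg.trans hπ
  have hB : ∀ z : Site d, MeasurableSet {w : Om d | BalSt κ r (w z)} := by
    intro z
    have h0 : Measurable (fun w : Om d => w z) := measurable_pi_apply z
    exact h0 (measurableSet_BalSt κ r)
  have hind : ∀ S : Finset (Site d),
      (mu d ν p p' (⋂ z ∈ S, {w : Om d | BalSt κ r (w z)})).toReal ≤ π ^ S.card := by
    intro S
    have h1 : (⋂ z ∈ S, {w : Om d | BalSt κ r (w z)})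
        = Set.pi (S : Set (Site d)) (fun _ => {st : St d | BalSt κ r st}) := by
      ext w
      simp [Set.mem_pi]
    rw [h1]
    unfold mu
    rw [Measure.infinitePi_pi (fun _ : Site d => stLaw d ν p p')
      (fun _ _ => measurableSet_BalSt κ r), Finset.prod_const, ENNReal.toReal_pow]
    exact pow_le_pow_left₀ ENNReal.toReal_nonneg hπ _
  have hmain := animal (mu d ν p p') (fun z : Site d => {w : Om d | BalSt κ r (w z)}) hB hπ0
    hind (fun γ : Fin m → Fin d → Fin 3 => Fs ℓ γ) ((m + 1) * 3 ^ d * ℓ ^ d)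
    (fun γ => card_Fs ℓ γ) hu a
  refine le_trans (ENNReal.toReal_mono (measure_ne_top _ _) (measure_mono ?_))
    (hmain.trans (le_of_eq ?_))
  · rintro w ⟨l, hok, hdist, hdur, ha⟩
    obtain ⟨γ, hγ⟩ := coarse_chain hℓ m w l hdur
    refine ⟨γ, ha.trans ?_⟩
    have hcard : balCnt κ r w l
        ≤ ((Fs ℓ γ).filter fun z => w ∈ {w : Om d | BalSt κ r (w z)}).card := by
      unfold balCnt
      refine Finset.card_le_card_of_injOn (fun i => zs w l i) ?_ ?_
      · intro i hi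
        rw [Finset.mem_coe, Finset.mem_filter, Finset.mem_range] at hi
        rw [Finset.mem_coe, Finset.mem_filter]
        exact ⟨mem_Fs hℓ γ _ (hγ i hi.1.le), seg_bal w l hok i hi.1 hi.2.1 hi.2.2⟩
      · intro i hi i' hi' heq
        rw [Finset.mem_coe, Finset.mem_filter, Finset.mem_range] at hi hi'
        rcases lt_trichotomy i i' with h1 | h1 | h1
        · exact absurd heq (hdist i i' h1 hi'.1)
        · exact h1
        · exact absurd heq.symm (hdist i' i h1 hi.1)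
    exact_mod_cast hcard
  · rw [card_coarse]
    push_cast
    rfl

theorem ball_far {d : ℕ} {ν : Measure ℕ} {p p' : ℝ} (h : Par d ν p p') {δ : ℝ} (hδ : (d : ℝ) < δ)
    (hm : ∫⁻ k : ℕ, ENNReal.ofReal (Real.log (1 + k) ^ δ) ∂ν < ⊤) {κ : ℝ} (hκ : 0 < κ) {γ : ℝ}
    (hγ : 0 < γ) (hγ' : γ * d < δ) :
    Tendsto (fun n : ℕ => mu d ν p p' {w | ∃ z : Site d, nrm z ≤ 2 * n ∧
      BalSt κ ⌈(n : ℝ) ^ (1 / γ)⌉₊ (w z)}) atTop (nhds 0) := by
  classical
  haveI := h.isProb_stLaw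
  haveI := h.isProb_mu
  have hδ0 : 0 < δ := lt_of_le_of_lt (Nat.cast_nonneg d) hδ
  obtain ⟨Cc, hCc, hb⟩ := balst_tail h hδ0 hm hκ
  have hbound : ∀ n : ℕ, 1 ≤ n → mu d ν p p' {w | ∃ z : Site d, nrm z ≤ 2 * n ∧
      BalSt κ ⌈(n : ℝ) ^ (1 / γ)⌉₊ (w z)} ≤
      ENNReal.ofReal (5 ^ d * Cc * (n : ℝ) ^ ((d : ℝ) - δ / γ)) := by
    intro n hn
    have hn' : (1 : ℝ) ≤ (n : ℝ) := by exact_mod_cast hn
    have hn0 : (0 : ℝ) < (n : ℝ) := by linarith
    set r : ℕ := ⌈(n : ℝ) ^ (1 / γ)⌉₊ with hr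
    have hpow1 : (1 : ℝ) ≤ (n : ℝ) ^ (1 / γ) := Real.one_le_rpow hn' (by positivity)
    have hrle : (n : ℝ) ^ (1 / γ) ≤ (r : ℝ) := Nat.le_ceil _
    have hr1 : 1 ≤ r := by
      have : (1 : ℝ) ≤ (r : ℝ) := hpow1.trans hrle
      exact_mod_cast this
    set Z : Finset (Site d) := Fintype.piFinset (fun _ : Fin d =>
      Finset.Icc (-(2 * n : ℤ)) (2 * n)) with hZ
    have hZc : Z.card = (4 * n + 1) ^ d := by
      rw [hZ, Fintype.card_piFinset]
      simp only [Int.card_Icc, Finset.prod_const, Finset.card_univ, Fintype.card_fin]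
      congr 1
      omega
    have hsub : {w : Om d | ∃ z : Site d, nrm z ≤ 2 * n ∧ BalSt κ r (w z)} ⊆
        ⋃ z ∈ Z, {w : Om d | BalSt κ r (w z)} := by
      rintro w ⟨z, hz, hw⟩
      rw [Set.mem_iUnion₂]
      refine ⟨z, ?_, hw⟩
      rw [hZ, Fintype.mem_piFinset]
      intro i
      have h1 : (z i).natAbs ≤ nrm z := by
        unfold nrm
        exact Finset.single_le_sum (f := fun i => (z i).natAbs) (fun _ _ => Nat.zero_le _)
          (Finset.mem_univ i)
      rw [Finset.mem_Icc]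
      omega
    have hone : ∀ z : Site d, mu d ν p p' {w : Om d | BalSt κ r (w z)} ≤
        ENNReal.ofReal (Cc * (r : ℝ) ^ (-δ)) := by
      intro z
      have h1 : mu d ν p p' {w : Om d | BalSt κ r (w z)}
          = stLaw d ν p p' {st | BalSt κ r st} := by
        unfold mu
        exact (measurePreserving_eval_infinitePi (fun _ : Site d => stLaw d ν p p')
          z).measure_preimage (measurableSet_BalSt κ r).nullMeasurableSet
      rw [h1, ← ENNReal.ofReal_toReal (measure_ne_top (stLaw d ν p p') _)]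
      exact ENNReal.ofReal_le_ofReal (hb r hr1)
    calc mu d ν p p' {w : Om d | ∃ z : Site d, nrm z ≤ 2 * n ∧ BalSt κ r (w z)}
        ≤ mu d ν p p' (⋃ z ∈ Z, {w : Om d | BalSt κ r (w z)}) := measure_mono hsub
      _ ≤ ∑ z ∈ Z, mu d ν p p' {w : Om d | BalSt κ r (w z)} := measure_biUnion_finset_le _ _
      _ ≤ ∑ _z ∈ Z, ENNReal.ofReal (Cc * (r : ℝ) ^ (-δ)) := Finset.sum_le_sum fun z _ => hone z
      _ = ENNReal.ofReal (((4 * n + 1 : ℕ) : ℝ) ^ d * (Cc * (r : ℝ) ^ (-δ))) := by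
          rw [Finset.sum_const, hZc, nsmul_eq_mul,
            ENNReal.ofReal_mul (p := ((4 * n + 1 : ℕ) : ℝ) ^ d) (by positivity),
            ENNReal.ofReal_pow (by positivity), ENNReal.ofReal_natCast, Nat.cast_pow]
      _ ≤ ENNReal.ofReal (5 ^ d * Cc * (n : ℝ) ^ ((d : ℝ) - δ / γ)) := by
          apply ENNReal.ofReal_le_ofReal
          have e1 : ((4 * n + 1 : ℕ) : ℝ) ^ d ≤ (5 * (n : ℝ)) ^ d := by
            apply pow_le_pow_left₀ (by positivity)
            push_cast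
            linarith
          have e2 : (r : ℝ) ^ (-δ) ≤ (n : ℝ) ^ (-(δ / γ)) := by
            have e3 : (r : ℝ) ^ (-δ) ≤ ((n : ℝ) ^ (1 / γ)) ^ (-δ) :=
              Real.rpow_le_rpow_of_nonpos (by positivity) hrle (by linarith)
            refine e3.trans (le_of_eq ?_)
            rw [← Real.rpow_mul hn0.le]
            congr 1
            field_simp
          have e4 : (n : ℝ) ^ ((d : ℝ) - δ / γ) = (n : ℝ) ^ d * (n : ℝ) ^ (-(δ / γ)) := by
            rw [sub_eq_add_neg, Real.rpow_add hn0, Real.rpow_natCast]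
          rw [e4]
          calc ((4 * n + 1 : ℕ) : ℝ) ^ d * (Cc * (r : ℝ) ^ (-δ))
              ≤ (5 * (n : ℝ)) ^ d * (Cc * (n : ℝ) ^ (-(δ / γ))) := by
                apply mul_le_mul e1 _ (by positivity) (by positivity)
                exact mul_le_mul_of_nonneg_left e2 hCc.le
            _ = 5 ^ d * Cc * ((n : ℝ) ^ d * (n : ℝ) ^ (-(δ / γ))) := by
                rw [mul_pow]; ring
  have hlim : Tendsto (fun n : ℕ => ENNReal.ofReal (5 ^ d * Cc * (n : ℝ) ^ ((d : ℝ) - δ / γ)))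
      atTop (nhds 0) := by
    rw [← ENNReal.ofReal_zero]
    apply ENNReal.tendsto_ofReal
    have hpos : 0 < δ / γ - d := by
      rw [sub_pos, lt_div_iff₀ hγ]
      linarith
    have h1 : Tendsto (fun n : ℕ => (n : ℝ) ^ ((d : ℝ) - δ / γ)) atTop (nhds 0) := by
      have h2 := (tendsto_rpow_neg_atTop hpos).comp tendsto_natCast_atTop_atTop
      refine h2.congr fun n => ?_
      simp only [Function.comp]
      congr 1
      ring
    have h3 := h1.const_mul (5 ^ d * Cc)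
    rwa [mul_zero] at h3
  exact tendsto_of_tendsto_of_tendsto_of_le_of_le' tendsto_const_nhds hlim
    (Eventually.of_forall fun _ => zero_le) (eventually_atTop.2 ⟨1, hbound⟩)

theorem balSum_le {d : ℕ} (κ : ℝ) (R : ℕ) (w : Om d) (l : List (ℕ × ℕ)) (j0 J : ℕ)
    (hR : 2 ^ j0 ≤ R + 1)
    (hJ : ∀ i < l.length,
      κ * ((ts w l (i + 1) - ts w l i : ℕ) : ℝ) ≤ nrm (zs w l (i + 1) - zs w l i) →
        ts w l (i + 1) - ts w l i < 2 ^ (J + 1)) :
    balSum κ R w l ≤ ∑ j ∈ Finset.Icc j0 J, 2 ^ (j + 1) * (balCnt κ (2 ^ j) w l : ℝ) := by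
  classical
  have key : ∀ i ∈ Finset.range l.length,
      (if R < ts w l (i + 1) - ts w l i ∧
          κ * ((ts w l (i + 1) - ts w l i : ℕ) : ℝ) ≤ nrm (zs w l (i + 1) - zs w l i)
        then ((ts w l (i + 1) - ts w l i : ℕ) : ℝ) else 0) ≤
      ∑ j ∈ Finset.Icc j0 J, (if 2 ^ j ≤ ts w l (i + 1) - ts w l i ∧
          κ * ((ts w l (i + 1) - ts w l i : ℕ) : ℝ) ≤ nrm (zs w l (i + 1) - zs w l i)
        then (2 : ℝ) ^ (j + 1) else 0) := by
    intro i hi
    have hnn : ∀ j ∈ Finset.Icc j0 J, (0 : ℝ) ≤ (if 2 ^ j ≤ ts w l (i + 1) - ts w l i ∧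
          κ * ((ts w l (i + 1) - ts w l i : ℕ) : ℝ) ≤ nrm (zs w l (i + 1) - zs w l i)
        then (2 : ℝ) ^ (j + 1) else 0) := by
      intro j _
      split_ifs <;> positivity
    by_cases hc : R < ts w l (i + 1) - ts w l i ∧
          κ * ((ts w l (i + 1) - ts w l i : ℕ) : ℝ) ≤ nrm (zs w l (i + 1) - zs w l i)
    · rw [if_pos hc]
      have hlt := hJ i (Finset.mem_range.1 hi) hc.2
      set q : ℕ := ts w l (i + 1) - ts w l i with hq
      have hq0 : q ≠ 0 := by omega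
      have hlow : 2 ^ Nat.log 2 q ≤ q := Nat.pow_log_le_self 2 hq0
      have hupp : q < 2 ^ (Nat.log 2 q + 1) := Nat.lt_pow_succ_log_self (by norm_num) q
      have hj0 : j0 ≤ Nat.log 2 q := by
        apply Nat.le_log_of_pow_le (by norm_num)
        omega
      have hjJ : Nat.log 2 q ≤ J := by
        have := Nat.log_lt_of_lt_pow hq0 hlt
        omega
      have hmem : Nat.log 2 q ∈ Finset.Icc j0 J := Finset.mem_Icc.2 ⟨hj0, hjJ⟩
      refine le_trans ?_ (Finset.single_le_sum hnn hmem)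
      rw [if_pos ⟨hlow, hc.2⟩]
      exact_mod_cast hupp.le
    · rw [if_neg hc]
      exact Finset.sum_nonneg hnn
  unfold balSum
  refine (Finset.sum_le_sum key).trans (le_of_eq ?_)
  rw [Finset.sum_comm]
  refine Finset.sum_congr rfl fun j _ => ?_
  unfold balCnt
  rw [Finset.card_filter]
  push_cast
  rw [Finset.mul_sum]
  refine Finset.sum_congr rfl fun i _ => ?_
  split_ifs <;> simp

end Pool.Agent.Helper61.LF
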