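import Pool.Agent.Helper61.LF.BallM1
import Pool.Agent.Helper61.LF.BallScale

/-!
Module LF-35 (BallM). The long ballistic segments of a chain have small total duration, under the
condition `∫_0^∞ P(log(1+η) ≥ r)^(1/d) dr < ∞` (compare Ball.lean, which treats a stronger moment
condition by the same method).

Proof. For every `j` let `π j = P(BalSt κ (2^j)) + 4^(-d j)`, so `0 < π j`,
`t j := 2^j (π j)^(1/d) ≤ 2^j P(BalSt κ (2^j))^(1/d) + 2^(-j)` is summable (`balst_summable`),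
`ℓ j = ⌈(π j)^(-1/d)⌉₊`. We may discard finitely many `j` and assume `π j ≤ 1`, so that
`1 ≤ π j (ℓ j)^d ≤ 2^d` and `2^j/ℓ j ≤ t j`. Let `u = 1 + 2^(-d)`, so `(u - 1) π j (ℓ j)^d ≤ 1`, and
`m = ⌈2 n/ℓ j⌉₊`, so `2 n ≤ ℓ j m` and `m ≤ 2n/ℓ j + 1`. By `ball_scale`, for every real `a` the event
`{∃ l, …, dur ≤ 2n, a ≤ balCnt κ (2^j) w l}` has probability at most
`3^(d m) exp ((m+1) 3^d) u^(-a)`. Let `B ≥ 1` with `u^B ≥ 3^d exp (3^d)` and `c'` with `u^(c') = 2`. With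
`a j = B (m+1) + b + c' (J - j)` this is at most `u^(-b) 2^(j-J)`.
Let `θ > 0`. Choose `j0` with `π j ≤ 1` for `j ≥ j0` and `4 B Σ_{j ≥ j0} t j < θ/4`; `R0 = 2^j0`. Let
`R ≥ R0` and `η > 0`. Choose `b ≥ 0` with `2 u^(-b) < η/2`, then `ε ∈ (0,1)` such that
`(8 B + 4 b + 8 c') ε < θ/4`. For `n` large let `J = Nat.log 2 ⌊ε n⌋₊`, so `2^J ≤ ε n` and
`⌊ε n⌋₊ < 2^(J+1)`. The probability that one of the events `j0 ≤ j ≤ J` with the above `a j`
occurs is at most `2 u^(-b) < η/2`, and by `ball_far_m` the probability that some site `z` with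
`nrm z ≤ 2n` satisfies `BalSt κ ⌊ε n⌋₊` is `< η/2` for large `n`. Outside of these events let `l` be a
chain as in the statement. No ballistic segment has duration `≥ 2^(J+1) > ⌊ε n⌋₊` (`ok_occ`,
`zs_succ`, `ts_succ`, `nrm_zs_sub`), so `balSum_le` gives
`balSum κ R w l ≤ Σ_{j=j0}^J 2^(j+1) a j ≤ Σ_j 2^(j+1) (B (2n/ℓ j + 2) + b + c' (J-j))
≤ 4 B n Σ_{j≥j0} t j + (8 B + 4 b + 8 c') 2^J < θ n/2`
(`Σ_{j ≤ J} 2^(j+1) ≤ 2^(J+2)`, `Σ_{j≤J} 2^(j+1) (J-j) ≤ 2^(J+3)`). So the probability in the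
statement is `< η` for large `n`.
-/

namespace Pool.Agent.Helper61.LF

open MeasureTheory Filter

/-- The bound at one scale. -/
private theorem scale_bound {d : ℕ} {ν : Measure ℕ} {p p' : ℝ} (h : Par d ν p p') (κ : ℝ) (r : ℕ)
    {s : ℝ} (hs0 : 0 < s) (hs1 : s ≤ 1)
    (hs : (stLaw d ν p p' {st | BalSt κ r st}).toReal ≤ s ^ d)
    {u B : ℝ} (hu : u = 1 + (1 / 2) ^ d) (hB : d * Real.log 3 + 3 ^ d ≤ B * Real.log u)
    (n : ℕ) (x : ℝ) :
    mu d ν p p' {w | ∃ l, ok w 0 l ∧ (∀ i i', i < i' → i' < l.length → zs w l i ≠ zs w l i') ∧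
      dur gP w 0 l ≤ 2 * n ∧ B * (2 * n * s + 2) + x ≤ (balCnt κ r w l : ℝ)} ≤
      ENNReal.ofReal (Real.exp (-(x * Real.log u))) := by
  have := h.isProb_mu
  have hs1' : 1 ≤ 1 / s := by rw [le_div_iff₀ hs0]; linarith
  set ℓ : ℕ := ⌈1 / s⌉₊ with hℓ'
  have hℓa : 1 / s ≤ (ℓ : ℝ) := Nat.le_ceil _
  have hℓb : (ℓ : ℝ) < 1 / s + 1 := Nat.ceil_lt_add_one (by positivity)
  have hℓ : 1 ≤ ℓ := by
    have : (1 : ℝ) ≤ (ℓ : ℝ) := hs1'.trans hℓa
    exact_mod_cast this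
  set m : ℕ := ⌈2 * (n : ℝ) * s⌉₊ with hm
  have hm0 : (0 : ℝ) ≤ 2 * (n : ℝ) * s := by positivity
  have hm1 : (m : ℝ) < 2 * n * s + 1 := Nat.ceil_lt_add_one hm0
  have hm2 : 2 * (n : ℝ) * s ≤ m := Nat.le_ceil _
  have hm3 : 2 * n ≤ ℓ * m := by
    have : (2 * n : ℝ) ≤ ℓ * m := by
      calc (2 * n : ℝ) = 1 / s * (2 * n * s) := by field_simp
        _ ≤ ℓ * m := mul_le_mul hℓa hm2 hm0 (by positivity)
    exact_mod_cast this
  have hu1 : 1 < u := by
    have : (0 : ℝ) < (1 / 2) ^ d := by positivity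
    linarith
  have hLu : 0 < Real.log u := Real.log_pos hu1
  have hπ0 : (0 : ℝ) < s ^ d := by positivity
  have key := ball_scale h κ r hℓ m hs hu1 (B * (2 * n * s + 2) + x)
  have hsub : {w : Om d | ∃ l, ok w 0 l ∧
      (∀ i i', i < i' → i' < l.length → zs w l i ≠ zs w l i') ∧
      dur gP w 0 l ≤ 2 * n ∧ B * (2 * n * s + 2) + x ≤ (balCnt κ r w l : ℝ)} ⊆
      {w | ∃ l, ok w 0 l ∧ (∀ i i', i < i' → i' < l.length → zs w l i ≠ zs w l i') ∧
      dur gP w 0 l ≤ ℓ * m ∧ B * (2 * n * s + 2) + x ≤ (balCnt κ r w l : ℝ)} := by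
    rintro w ⟨l, h1, h2, h3, h4⟩
    exact ⟨l, h1, h2, h3.trans hm3, h4⟩
  refine (measure_mono hsub).trans ?_
  rw [ENNReal.le_ofReal_iff_toReal_le (measure_ne_top _ _) (Real.exp_pos _).le]
  refine key.trans ?_
  have e1 : (3 : ℝ) ^ (d * m) = Real.exp (d * m * Real.log 3) := by
    rw [← Real.rpow_natCast, Real.rpow_def_of_pos (by norm_num)]
    push_cast
    ring_nf
  have e2 : (1 + (u - 1) * s ^ d) ^ ((m + 1) * 3 ^ d * ℓ ^ d) ≤ Real.exp ((m + 1) * 3 ^ d) := by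
    have h1 : (u - 1) * s ^ d = (s / 2) ^ d := by
      rw [hu, div_pow, div_pow, one_pow]; ring
    rw [h1]
    have h2 : 1 + (s / 2) ^ d ≤ Real.exp ((s / 2) ^ d) := by
      have := Real.add_one_le_exp ((s / 2) ^ d)
      linarith
    refine (pow_le_pow_left₀ (by positivity) h2 _).trans ?_
    rw [← Real.exp_nat_mul]
    apply Real.exp_le_exp.2
    push_cast
    have h3 : ((ℓ : ℝ) * (s / 2)) ^ d ≤ 1 := by
      apply pow_le_one₀ (by positivity)
      have h4 : (ℓ : ℝ) * s ≤ (1 / s + 1) * s := mul_le_mul_of_nonneg_right hℓb.le hs0.le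
      have h5 : (1 / s + 1) * s = 1 + s := by field_simp
      rw [h5] at h4
      linarith
    have h6 : (m + 1 : ℝ) * 3 ^ d * ℓ ^ d * (s / 2) ^ d =
        (m + 1) * 3 ^ d * ((ℓ : ℝ) * (s / 2)) ^ d := by rw [mul_pow]; ring
    rw [h6]
    calc (m + 1 : ℝ) * 3 ^ d * ((ℓ : ℝ) * (s / 2)) ^ d ≤ (m + 1) * 3 ^ d * 1 :=
          mul_le_mul_of_nonneg_left h3 (by positivity)
      _ = (m + 1) * 3 ^ d := mul_one _
  have e3 : u ^ (-(B * (2 * n * s + 2) + x)) =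
      Real.exp (-((B * (2 * n * s + 2) + x) * Real.log u)) := by
    rw [Real.rpow_def_of_pos (by linarith)]
    congr 1
    ring
  rw [e1, e3]
  have e4 : Real.exp (d * m * Real.log 3) * (1 + (u - 1) * s ^ d) ^ ((m + 1) * 3 ^ d * ℓ ^ d) *
      Real.exp (-((B * (2 * n * s + 2) + x) * Real.log u)) ≤
      Real.exp (d * m * Real.log 3) * Real.exp ((m + 1) * 3 ^ d) *
      Real.exp (-((B * (2 * n * s + 2) + x) * Real.log u)) := by
    apply mul_le_mul_of_nonneg_right _ (Real.exp_pos _).le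
    exact mul_le_mul_of_nonneg_left e2 (Real.exp_pos _).le
  refine e4.trans ?_
  rw [← Real.exp_add, ← Real.exp_add]
  apply Real.exp_le_exp.2
  have hlog3 : 0 ≤ Real.log 3 := Real.log_nonneg (by norm_num)
  have hd0 : (0 : ℝ) ≤ (d : ℝ) * Real.log 3 := mul_nonneg (Nat.cast_nonneg _) hlog3
  have h3 : (0 : ℝ) ≤ 3 ^ d := by positivity
  have g1 : (d : ℝ) * m * Real.log 3 + (m + 1) * 3 ^ d ≤ (m + 1) * (d * Real.log 3 + 3 ^ d) := by
    nlinarith
  have g2 : ((m : ℝ) + 1) * (d * Real.log 3 + 3 ^ d) ≤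
      (2 * n * s + 2) * (d * Real.log 3 + 3 ^ d) :=
    mul_le_mul_of_nonneg_right (by linarith) (by linarith)
  have g3 : (2 * n * s + 2) * (d * Real.log 3 + 3 ^ d) ≤
      (2 * n * s + 2) * (B * Real.log u) :=
    mul_le_mul_of_nonneg_left hB (by linarith)
  nlinarith

private theorem sum_two (J : ℕ) :
    ∑ j ∈ Finset.range (J + 1), (2 : ℝ) ^ (j + 1) = 2 ^ (J + 2) - 2 := by
  induction J with
  | zero => norm_num
  | succ J ih =>
    rw [Finset.sum_range_succ, ih]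
    ring

private theorem sum_lin (J : ℕ) :
    ∑ j ∈ Finset.range (J + 1), (2 : ℝ) ^ (j + 1) * ((J : ℝ) - j) = 2 ^ (J + 2) - 2 * J - 4 := by
  induction J with
  | zero => norm_num
  | succ J ih =>
    rw [Finset.sum_range_succ]
    have h1 : ∑ j ∈ Finset.range (J + 1), (2 : ℝ) ^ (j + 1) * (((J + 1 : ℕ) : ℝ) - j) =
        ∑ j ∈ Finset.range (J + 1), (2 : ℝ) ^ (j + 1) * ((J : ℝ) - j) +
          ∑ j ∈ Finset.range (J + 1), (2 : ℝ) ^ (j + 1) := by
      rw [← Finset.sum_add_distrib]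
      refine Finset.sum_congr rfl fun j _ => ?_
      push_cast
      ring
    rw [h1, ih, sum_two]
    push_cast
    ring

theorem ball_lim_m {d : ℕ} {ν : Measure ℕ} {p p' : ℝ} (h : Par d ν p p')
    (hm : ∫⁻ r in Set.Ioi (0 : ℝ), (ν {k : ℕ | r ≤ Real.log (1 + k)}) ^ (1 / (d : ℝ)) < ⊤)
    {κ : ℝ} (hκ : 0 < κ) {θ : ℝ} (hθ : 0 < θ) :
    ∃ R0 : ℕ, ∀ R : ℕ, R0 ≤ R →
      Tendsto (fun n : ℕ => mu d ν p p' {w | ∃ l, ok w 0 l ∧
        (∀ i i', i < i' → i' < l.length → zs w l i ≠ zs w l i') ∧ dur gP w 0 l ≤ 2 * n ∧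
          θ * n ≤ balSum κ R w l}) atTop (nhds 0) := by
  have := h.isProb_mu
  have hd1 : (1 : ℝ) ≤ d := by exact_mod_cast h.hd
  have hdne : d ≠ 0 := by
    intro h0
    rw [h0, Nat.cast_zero] at hd1
    linarith
  obtain ⟨P, hP⟩ : ∃ P : ℕ → ℝ, P = fun j => (stLaw d ν p p' {st | BalSt κ (2 ^ j) st}).toReal :=
    ⟨_, rfl⟩
  have hP0 : ∀ j, 0 ≤ P j := fun j => by rw [hP]; exact ENNReal.toReal_nonneg
  have hPs : Summable fun j => (2 : ℝ) ^ j * P j ^ (1 / (d : ℝ)) := by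
    rw [hP]; exact balst_summable h hm hκ
  obtain ⟨s, hs⟩ : ∃ s : ℕ → ℝ, s = fun j => P j ^ (1 / (d : ℝ)) + (1 / 4) ^ j := ⟨_, rfl⟩
  have hs0 : ∀ j, 0 < s j := by
    intro j
    rw [hs]
    have h1 := Real.rpow_nonneg (hP0 j) (1 / (d : ℝ))
    have h2 : (0 : ℝ) < (1 / 4) ^ j := by positivity
    exact add_pos_of_nonneg_of_pos h1 h2
  have hPd : ∀ j, P j ≤ s j ^ d := by
    intro j
    have h1 : P j = (P j ^ (1 / (d : ℝ))) ^ d := by
      rw [one_div, Real.rpow_inv_natCast_pow (hP0 j) hdne]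
    rw [h1]
    apply pow_le_pow_left₀ (Real.rpow_nonneg (hP0 j) _)
    rw [hs]
    have h2 : (0 : ℝ) ≤ (1 / 4) ^ j := by positivity
    have h3 : P j ^ (1 / (d : ℝ)) ≤ P j ^ (1 / (d : ℝ)) + (1 / 4) ^ j := by linarith
    exact h3
  have hts : Summable fun j => (2 : ℝ) ^ j * s j := by
    have h1 : Summable fun j : ℕ => ((1 : ℝ) / 2) ^ j :=
      summable_geometric_of_lt_one (by norm_num) (by norm_num)
    refine (hPs.add h1).congr fun j => ?_
    rw [hs]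
    have : ((1 : ℝ) / 2) ^ j = 2 ^ j * (1 / 4) ^ j := by
      rw [← mul_pow]; norm_num
    rw [this]
    ring
  obtain ⟨u, hu⟩ : ∃ u : ℝ, u = 1 + (1 / 2) ^ d := ⟨_, rfl⟩
  have hu1 : 1 < u := by
    have : (0 : ℝ) < (1 / 2) ^ d := by positivity
    linarith
  have hLu : 0 < Real.log u := Real.log_pos hu1
  obtain ⟨B, hB⟩ : ∃ B : ℝ, B = (d * Real.log 3 + 3 ^ d) / Real.log u := ⟨_, rfl⟩
  have hB1 : d * Real.log 3 + 3 ^ d ≤ B * Real.log u := by
    rw [hB, div_mul_cancel₀ _ hLu.ne']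
  have hB0 : 0 ≤ B := by
    rw [hB]
    have : 0 ≤ (d : ℝ) * Real.log 3 := mul_nonneg (Nat.cast_nonneg _) (Real.log_nonneg (by norm_num))
    positivity
  obtain ⟨c', hc'⟩ : ∃ c' : ℝ, c' = Real.log 2 / Real.log u := ⟨_, rfl⟩
  have hlog2 : 0 ≤ Real.log 2 := Real.log_nonneg (by norm_num)
  have hc0 : 0 ≤ c' := by rw [hc']; positivity
  have hc1 : c' * Real.log u = Real.log 2 := by rw [hc', div_mul_cancel₀ _ hLu.ne']
  -- choice of j0
  obtain ⟨j1, hj1⟩ := eventually_atTop.1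
    (hts.tendsto_atTop_zero.eventually (gt_mem_nhds (zero_lt_one)))
  obtain ⟨τ, hτ⟩ : ∃ τ : ℝ, τ = θ / (4 * (4 * B + 1)) := ⟨_, rfl⟩
  have hτ0 : 0 < τ := by rw [hτ]; positivity
  obtain ⟨S, hS⟩ := summable_iff_vanishing_norm.1 hts τ hτ0
  obtain ⟨j0, hj0⟩ : ∃ j0 : ℕ, j0 = max j1 (S.sup id + 1) := ⟨_, rfl⟩
  have hj0a : j1 ≤ j0 := by rw [hj0]; exact le_max_left _ _
  have hj0b : S.sup id + 1 ≤ j0 := by rw [hj0]; exact le_max_right _ _
  have hs1 : ∀ j, j0 ≤ j → s j ≤ 1 := by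
    intro j hj
    have h1 := hj1 j (hj0a.trans hj)
    have h2 : (1 : ℝ) ≤ 2 ^ j := one_le_pow₀ (by norm_num)
    have h3 := hs0 j
    nlinarith
  have htail : ∀ N : ℕ, ∑ j ∈ Finset.Icc j0 N, (2 : ℝ) ^ j * s j < τ := by
    intro N
    have h1 := hS (Finset.Icc j0 N) (by
      rw [Finset.disjoint_left]
      intro a ha hb
      rw [Finset.mem_Icc] at ha
      have h2 : a ≤ S.sup id := Finset.le_sup (f := id) hb
      omega)
    exact lt_of_le_of_lt (le_abs_self _) h1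
  refine ⟨2 ^ j0, fun R hR => ?_⟩
  rw [ENNReal.tendsto_nhds_zero]
  intro η hη
  obtain ⟨η', hη0, hη'⟩ : ∃ η' : ℝ, 0 < η' ∧ ENNReal.ofReal η' ≤ η := by
    rcases eq_or_ne η ⊤ with h1 | h1
    · exact ⟨1, one_pos, by rw [h1]; exact le_top⟩
    · exact ⟨η.toReal, ENNReal.toReal_pos hη.ne' h1, by rw [ENNReal.ofReal_toReal h1]⟩
  -- choice of b and ε
  obtain ⟨b, hb⟩ : ∃ b : ℝ, b = |Real.log (η' / 4)| / Real.log u := ⟨_, rfl⟩
  have hb0 : 0 ≤ b := by rw [hb]; positivity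
  have hb1 : Real.exp (-(b * Real.log u)) ≤ η' / 4 := by
    rw [hb, div_mul_cancel₀ _ hLu.ne', ← Real.le_log_iff_exp_le (by positivity)]
    have := neg_abs_le (Real.log (η' / 4))
    linarith
  obtain ⟨Q, hQ⟩ : ∃ Q : ℝ, Q = 8 * B + 4 * b + 4 * c' := ⟨_, rfl⟩
  have hQ0 : 0 ≤ Q := by rw [hQ]; positivity
  obtain ⟨ε, hε⟩ : ∃ ε : ℝ, ε = θ / (4 * (Q + 1)) := ⟨_, rfl⟩
  have hε0 : 0 < ε := by rw [hε]; positivity
  have hQε : Q * ε ≤ θ / 4 := by
    rw [hε]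
    have h1 : Q * (θ / (4 * (Q + 1))) = θ / 4 * (Q / (Q + 1)) := by field_simp
    rw [h1]
    have h2 : Q / (Q + 1) ≤ 1 := by rw [div_le_one (by linarith)]; linarith
    have h3 : (0 : ℝ) ≤ θ / 4 := by positivity
    nlinarith
  have hfar := ball_far_m h hm hκ hε0
  rw [ENNReal.tendsto_nhds_zero] at hfar
  have hfar' := hfar (ENNReal.ofReal (η' / 2)) (by rw [gt_iff_lt, ENNReal.ofReal_pos]; positivity)
  have hfloor : Tendsto (fun n : ℕ => ε * (n : ℝ)) atTop atTop :=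
    tendsto_natCast_atTop_atTop.const_mul_atTop hε0
  filter_upwards [hfar', hfloor.eventually_ge_atTop 1, eventually_ge_atTop 1] with n hn1 hn2 hn3
  have hn0 : (0 : ℝ) < n := by exact_mod_cast hn3
  obtain ⟨r, hr⟩ : ∃ r : ℕ, r = ⌊ε * (n : ℝ)⌋₊ := ⟨_, rfl⟩
  have hr1 : 1 ≤ r := by rw [hr]; exact Nat.le_floor (by simpa using hn2)
  have hr2 : (r : ℝ) ≤ ε * n := by rw [hr]; exact Nat.floor_le (by positivity)
  have hr0 : r ≠ 0 := by omega
  rw [← hr] at hn1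
  obtain ⟨N, hJ⟩ : ∃ N : ℕ, N = Nat.log 2 r := ⟨_, rfl⟩
  have hJ1 : 2 ^ N ≤ r := by rw [hJ]; exact Nat.pow_log_le_self 2 hr0
  have hJ2 : r < 2 ^ (N + 1) := by rw [hJ]; exact Nat.lt_pow_succ_log_self (by norm_num) r
  have hJ3 : (2 : ℝ) ^ N ≤ ε * n := by
    refine le_trans ?_ hr2
    exact_mod_cast hJ1
  -- the events
  have hE : ∀ j ∈ Finset.Icc j0 N, mu d ν p p' {w | ∃ l, ok w 0 l ∧
      (∀ i i', i < i' → i' < l.length → zs w l i ≠ zs w l i') ∧
      dur gP w 0 l ≤ 2 * n ∧ B * (2 * n * s j + 2) + (b + c' * ((N : ℝ) - j)) ≤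
        (balCnt κ (2 ^ j) w l : ℝ)} ≤
      ENNReal.ofReal (η' / 4 * (2 ^ j / 2 ^ N)) := by
    intro j hj
    rw [Finset.mem_Icc] at hj
    have h1 := scale_bound h κ (2 ^ j) (hs0 j) (hs1 j hj.1) (by
      have := hPd j
      rw [hP] at this
      exact this) hu hB1 n (b + c' * ((N : ℝ) - j))
    refine h1.trans (ENNReal.ofReal_le_ofReal ?_)
    have h2 : -((b + c' * ((N : ℝ) - j)) * Real.log u) =
        -(b * Real.log u) + (j * Real.log 2 - N * Real.log 2) := by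
      rw [← hc1]; ring
    rw [h2, Real.exp_add, Real.exp_sub, Real.exp_nat_mul, Real.exp_nat_mul,
      Real.exp_log (by norm_num)]
    exact mul_le_mul_of_nonneg_right hb1 (by positivity)
  have hcover : {w : Om d | ∃ l, ok w 0 l ∧
        (∀ i i', i < i' → i' < l.length → zs w l i ≠ zs w l i') ∧ dur gP w 0 l ≤ 2 * n ∧
          θ * n ≤ balSum κ R w l} ⊆
      {w | ∃ z : Site d, nrm z ≤ 2 * n ∧ BalSt κ r (w z)} ∪
      ⋃ j ∈ Finset.Icc j0 N, {w | ∃ l, ok w 0 l ∧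
        (∀ i i', i < i' → i' < l.length → zs w l i ≠ zs w l i') ∧
        dur gP w 0 l ≤ 2 * n ∧ B * (2 * n * s j + 2) + (b + c' * ((N : ℝ) - j)) ≤
          (balCnt κ (2 ^ j) w l : ℝ)} := by
    rintro w ⟨l, k1, k2, k3, k4⟩
    by_contra hcon
    rw [Set.mem_union, not_or] at hcon
    obtain ⟨hc1', hc2⟩ := hcon
    have hlow : ∀ j ∈ Finset.Icc j0 N, (balCnt κ (2 ^ j) w l : ℝ) <
        B * (2 * n * s j + 2) + (b + c' * ((N : ℝ) - j)) := by
      intro j hj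
      by_contra hge
      push Not at hge
      exact hc2 (Set.mem_biUnion hj ⟨l, k1, k2, k3, hge⟩)
    have hup : ∀ i < l.length,
        κ * ((ts w l (i + 1) - ts w l i : ℕ) : ℝ) ≤ nrm (zs w l (i + 1) - zs w l i) →
        ts w l (i + 1) - ts w l i < 2 ^ (N + 1) := by
      intro i hi hbi
      by_contra hge
      push Not at hge
      apply hc1'
      have e1 : ts w l (i + 1) - ts w l i =
          tau gP ((w (zs w l i)).2 (l[i]).1) ((l[i]).2 + 1) := by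
        rw [ts_succ w l i hi]; omega
      have e2 : zs w l (i + 1) - zs w l i = J ((w (zs w l i)).2 (l[i]).1) ((l[i]).2 + 1) := by
        rw [zs_succ w l i hi]; abel
      refine ⟨zs w l i, ?_, (l[i]).1, ok_occ w l k1 i hi, (l[i]).2 + 1, ?_, ?_⟩
      · have h1 := nrm_zs_sub w l (Nat.zero_le i)
        rw [zs_zero, sub_zero, ts_zero, Nat.sub_zero] at h1
        have h2 : ts w l i ≤ ts w l l.length := ts_mono w l hi.le
        rw [ts_len] at h2
        omega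
      · rw [← e1]; omega
      · rw [← e1, ← e2]; exact hbi
    have hSS := balSum_le κ R w l j0 N (by omega) hup
    have hS2 : ∑ j ∈ Finset.Icc j0 N, 2 ^ (j + 1) * (balCnt κ (2 ^ j) w l : ℝ) ≤
        ∑ j ∈ Finset.Icc j0 N, (2 : ℝ) ^ (j + 1) *
          (B * (2 * n * s j + 2) + (b + c' * ((N : ℝ) - j))) := by
      apply Finset.sum_le_sum
      intro j hj
      exact mul_le_mul_of_nonneg_left (hlow j hj).le (by positivity)
    have hS3 : ∑ j ∈ Finset.Icc j0 N, (2 : ℝ) ^ (j + 1) *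
          (B * (2 * n * s j + 2) + (b + c' * ((N : ℝ) - j))) =
        4 * B * n * ∑ j ∈ Finset.Icc j0 N, (2 : ℝ) ^ j * s j +
          (2 * B + b) * ∑ j ∈ Finset.Icc j0 N, (2 : ℝ) ^ (j + 1) +
          c' * ∑ j ∈ Finset.Icc j0 N, (2 : ℝ) ^ (j + 1) * ((N : ℝ) - j) := by
      rw [Finset.mul_sum, Finset.mul_sum, Finset.mul_sum, ← Finset.sum_add_distrib,
        ← Finset.sum_add_distrib]
      refine Finset.sum_congr rfl fun j _ => ?_
      rw [pow_succ]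
      ring
    have hsubr : Finset.Icc j0 N ⊆ Finset.range (N + 1) := by
      intro j hj
      rw [Finset.mem_Icc] at hj
      rw [Finset.mem_range]
      omega
    have hS4 : ∑ j ∈ Finset.Icc j0 N, (2 : ℝ) ^ (j + 1) ≤ 2 ^ (N + 2) := by
      refine (Finset.sum_le_sum_of_subset_of_nonneg hsubr fun j _ _ => by positivity).trans ?_
      rw [sum_two]
      linarith
    have hS5 : ∑ j ∈ Finset.Icc j0 N, (2 : ℝ) ^ (j + 1) * ((N : ℝ) - j) ≤ 2 ^ (N + 2) := by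
      refine (Finset.sum_le_sum_of_subset_of_nonneg hsubr fun j hj _ => ?_).trans ?_
      · rw [Finset.mem_range] at hj
        have : (j : ℝ) ≤ N := by exact_mod_cast Nat.lt_succ_iff.1 hj
        apply mul_nonneg (by positivity)
        linarith
      · rw [sum_lin]
        have : (0 : ℝ) ≤ N := Nat.cast_nonneg _
        linarith
    have hS6 : 4 * B * n * ∑ j ∈ Finset.Icc j0 N, (2 : ℝ) ^ j * s j ≤ θ / 4 * n := by
      have h1 : 4 * B * (n : ℝ) * ∑ j ∈ Finset.Icc j0 N, (2 : ℝ) ^ j * s j ≤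
          4 * B * n * τ := mul_le_mul_of_nonneg_left (htail N).le (by positivity)
      have h2 : 4 * B * τ ≤ θ / 4 := by
        rw [hτ]
        have h3 : 4 * B * (θ / (4 * (4 * B + 1))) = θ / 4 * (4 * B / (4 * B + 1)) := by field_simp
        rw [h3]
        have h4 : 4 * B / (4 * B + 1) ≤ 1 := by rw [div_le_one (by linarith)]; linarith
        have h5 : (0 : ℝ) ≤ θ / 4 := by positivity
        nlinarith
      have h6 : 4 * B * (n : ℝ) * τ = 4 * B * τ * n := by ring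
      rw [h6] at h1
      exact h1.trans (mul_le_mul_of_nonneg_right h2 hn0.le)
    have hS7 : (2 * B + b) * ∑ j ∈ Finset.Icc j0 N, (2 : ℝ) ^ (j + 1) +
          c' * ∑ j ∈ Finset.Icc j0 N, (2 : ℝ) ^ (j + 1) * ((N : ℝ) - j) ≤ θ / 4 * n := by
      have h1 : (2 * B + b) * ∑ j ∈ Finset.Icc j0 N, (2 : ℝ) ^ (j + 1) ≤
          (2 * B + b) * 2 ^ (N + 2) := mul_le_mul_of_nonneg_left hS4 (by positivity)
      have h2 := mul_le_mul_of_nonneg_left hS5 hc0
      have h3 : (2 * B + b) * 2 ^ (N + 2) + c' * 2 ^ (N + 2) = Q * 2 ^ N := by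
        rw [hQ]; ring
      have h4 : Q * 2 ^ N ≤ Q * (ε * n) := mul_le_mul_of_nonneg_left hJ3 hQ0
      have h5 : Q * (ε * n) = Q * ε * n := by ring
      have h6 : Q * ε * n ≤ θ / 4 * n := mul_le_mul_of_nonneg_right hQε hn0.le
      linarith
    have hfin : θ * n ≤ θ / 4 * n + θ / 4 * n := by
      refine k4.trans (hSS.trans (hS2.trans ?_))
      rw [hS3, add_assoc]
      exact add_le_add hS6 hS7
    have hpos : 0 < θ * n := mul_pos hθ hn0
    have heq : θ / 4 * n + θ / 4 * n = θ * n / 2 := by ring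
    rw [heq] at hfin
    linarith
  refine (measure_mono hcover).trans ((measure_union_le _ _).trans ?_)
  have hsumE : mu d ν p p' (⋃ j ∈ Finset.Icc j0 N, {w | ∃ l, ok w 0 l ∧
        (∀ i i', i < i' → i' < l.length → zs w l i ≠ zs w l i') ∧
        dur gP w 0 l ≤ 2 * n ∧ B * (2 * n * s j + 2) + (b + c' * ((N : ℝ) - j)) ≤
          (balCnt κ (2 ^ j) w l : ℝ)}) ≤ ENNReal.ofReal (η' / 2) := by
    refine (measure_biUnion_finset_le _ _).trans ?_
    refine (Finset.sum_le_sum hE).trans ?_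
    rw [← ENNReal.ofReal_sum_of_nonneg fun j _ => by positivity]
    apply ENNReal.ofReal_le_ofReal
    rw [← Finset.mul_sum]
    have hsubr : Finset.Icc j0 N ⊆ Finset.range (N + 1) := by
      intro j hj
      rw [Finset.mem_Icc] at hj
      rw [Finset.mem_range]
      omega
    have h1 : ∑ j ∈ Finset.Icc j0 N, (2 : ℝ) ^ j / 2 ^ N ≤ 2 := by
      refine (Finset.sum_le_sum_of_subset_of_nonneg hsubr fun j _ _ => by positivity).trans ?_
      rw [← Finset.sum_div, div_le_iff₀ (by positivity)]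
      have h2 := sum_two N
      have h3 : ∑ j ∈ Finset.range (N + 1), (2 : ℝ) ^ (j + 1) =
          2 * ∑ j ∈ Finset.range (N + 1), (2 : ℝ) ^ j := by
        rw [Finset.mul_sum]
        refine Finset.sum_congr rfl fun j _ => ?_
        rw [pow_succ]; ring
      have h4 : (2 : ℝ) ^ (N + 2) = 4 * 2 ^ N := by ring
      linarith
    calc η' / 4 * ∑ j ∈ Finset.Icc j0 N, (2 : ℝ) ^ j / 2 ^ N ≤ η' / 4 * 2 :=
          mul_le_mul_of_nonneg_left h1 (by positivity)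
      _ = η' / 2 := by ring
  refine (add_le_add hn1 hsumE).trans ?_
  rw [← ENNReal.ofReal_add (by positivity) (by positivity)]
  refine le_trans (le_of_eq ?_) hη'
  congr 1
  ring

end Pool.Agent.Helper61.LF
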