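import Pool.Agent.Helper61.LF.Tail

/-!
Module LF-34 (BallM1). Probabilities of long ballistic frogs under the condition
`∫_0^∞ P(log(1+η) ≥ r)^(1/d) dr < ∞`.

* `balst_summable`: let `c, Cc` be given by `path_tail`. As in `balst_tail` (split at
  `st.1 ≤ exp (c r/2)`), `P(BalSt κ r) ≤ F (c r / 2) + Cc exp (-c r/2)` with
  `F t = ν {k | t ≤ log (1 + k)}`, `r ≥ 1`. Since `(x+y)^(1/d) ≤ x^(1/d) + y^(1/d)` (`d ≥ 1`), it is enough
  that `Σ_j 2^j F(c 2^j/2)^(1/d) < ∞` and `Σ_j 2^j exp (-c 2^j/(2d)) < ∞`. The first: `F` is decreasing, so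
  `2^(j-1) (c/2) F(c 2^j / 2)^(1/d) ≤ ∫ over (c 2^(j-1)/2, c 2^j/2] of F^(1/d)`, and these intervals
  are disjoint.
* `balst_pow_lim`: by monotonicity of `r ↦ P(BalSt κ r)` and `2^j P(BalSt κ (2^j))^(1/d) → 0`: for
  `2^j ≤ r < 2^(j+1)` one has `r^d P(BalSt κ r) ≤ 2^d (2^j P(BalSt κ 2^j)^(1/d))^d`.
* `ball_far_m`: at most `(4n+1)^d` sites have `nrm z ≤ 2n`; each has the property for
  `r = ⌊ε n⌋₊` with probability `P(BalSt κ r)`, and `(4n+1)^d P(BalSt κ ⌊ε n⌋₊) → 0` by `balst_pow_lim`.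
* `logint_of_moment`: Markov, `F t ≤ E(log(1+η))^δ / t^δ`, and `t^(-δ/d)` is integrable on `(1, ∞)`;
  `F ≤ 1` on `(0,1]`.
-/

namespace Pool.Agent.Helper61.LF

open MeasureTheory Filter

private theorem measAU1 {d : ℕ} (κ : ℝ) (r : ℕ) :
    MeasurableSet {s : Path d | ∃ k, r ≤ tau gP s k ∧ κ * tau gP s k ≤ (nrm (J s k) : ℝ)} := by
  have : {s : Path d | ∃ k, r ≤ tau gP s k ∧ κ * tau gP s k ≤ (nrm (J s k) : ℝ)} =
      ⋃ k, {s : Path d | r ≤ tau gP s k ∧ κ * tau gP s k ≤ (nrm (J s k) : ℝ)} := by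
    ext s
    simp
  rw [this]
  refine MeasurableSet.iUnion fun k => ?_
  have h0 : Measurable fun s : Path d => nrm (J s k) :=
    (Measurable.of_discrete (f := fun z : Site d => nrm z)).comp (measurable_J k)
  have h1 : Measurable fun s : Path d => (tau gP s k, nrm (J s k)) :=
    (measurable_tau gP k).prodMk h0
  exact h1 (MeasurableSet.of_discrete (s := {q : ℕ × ℕ | r ≤ q.1 ∧ κ * q.1 ≤ (q.2 : ℝ)}))

private theorem bal_split {d : ℕ} {ν : Measure ℕ} {p p' : ℝ} (h : Par d ν p p')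
    {κ : ℝ} (hκ : 0 < κ) :
    ∃ c C0 : ℝ, 0 < c ∧ 0 < C0 ∧ ∀ r : ℕ, stLaw d ν p p' {st | BalSt κ r st} ≤
      ν {k : ℕ | c * r / 2 ≤ Real.log (1 + k)} +
        ENNReal.ofReal (C0 * Real.exp (-(c * r / 2))) := by
  have := h.isProb_pathLaw
  have := h.isProb_stLaw
  have := h.hν
  obtain ⟨c, C0, hc, hC0, hp0⟩ := path_tail h hκ
  refine ⟨c, C0, hc, hC0, fun r => ?_⟩
  set M : ℝ := Real.exp (c * r / 2) with hM
  have hM0 : 0 < M := Real.exp_pos _
  have hsub : {st : St d | BalSt κ r st} ⊆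
      (Prod.fst ⁻¹' {k : ℕ | c * r / 2 ≤ Real.log (1 + k)}) ∪
      ⋃ j ∈ Finset.range ⌊M⌋₊, {st : St d | ∃ k, r ≤ tau gP (st.2 j) k ∧
        κ * tau gP (st.2 j) k ≤ (nrm (J (st.2 j) k) : ℝ)} := by
    intro st hst
    obtain ⟨j, hj, hk⟩ := hst
    by_cases hcase : M < 1 + (st.1 : ℝ)
    · left
      change c * r / 2 ≤ Real.log (1 + (st.1 : ℝ))
      rw [Real.le_log_iff_exp_le (by positivity)]
      exact hcase.le
    · right
      push Not at hcase
      have h3 : j < ⌊M⌋₊ := by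
        have h4 : (j : ℝ) + 1 ≤ st.1 := by exact_mod_cast hj
        have h5 : ((j + 1 : ℕ) : ℝ) ≤ M := by
          push_cast
          linarith
        have h6 := Nat.le_floor h5
        omega
      simp only [Set.mem_iUnion]
      exact ⟨j, Finset.mem_range.mpr h3, hk⟩
  have hfst : (stLaw d ν p p') (Prod.fst ⁻¹' {k : ℕ | c * r / 2 ≤ Real.log (1 + k)}) =
      ν {k : ℕ | c * r / 2 ≤ Real.log (1 + k)} := by
    unfold stLaw
    exact measurePreserving_fst.measure_preimage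
      (MeasurableSet.of_discrete).nullMeasurableSet
  have hsnd : ∀ j : ℕ, (stLaw d ν p p') {st : St d | ∃ k, r ≤ tau gP (st.2 j) k ∧
        κ * tau gP (st.2 j) k ≤ (nrm (J (st.2 j) k) : ℝ)} ≤
          ENNReal.ofReal (C0 * Real.exp (-(c * r))) := by
    intro j
    have h3 : (stLaw d ν p p') {st : St d | ∃ k, r ≤ tau gP (st.2 j) k ∧
        κ * tau gP (st.2 j) k ≤ (nrm (J (st.2 j) k) : ℝ)} =
        pathLaw d p p' {s : Path d | ∃ k, r ≤ tau gP s k ∧
          κ * tau gP s k ≤ (nrm (J s k) : ℝ)} := by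
      have h4 : MeasurePreserving (fun st : St d => st.2 j) (stLaw d ν p p')
          (pathLaw d p p') := by
        unfold stLaw
        exact (measurePreserving_eval_infinitePi (fun _ : ℕ => pathLaw d p p') j).comp
          measurePreserving_snd
      exact h4.measure_preimage (measAU1 κ r).nullMeasurableSet
    rw [h3, ENNReal.le_ofReal_iff_toReal_le (measure_ne_top _ _) (by positivity)]
    exact hp0 r
  refine (measure_mono hsub).trans ((measure_union_le _ _).trans ?_)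
  rw [hfst]
  refine add_le_add le_rfl ?_
  refine (measure_biUnion_finset_le _ _).trans ?_
  refine (Finset.sum_le_sum fun j _ => hsnd j).trans ?_
  rw [Finset.sum_const, Finset.card_range, nsmul_eq_mul, ← ENNReal.ofReal_natCast,
    ← ENNReal.ofReal_mul (Nat.cast_nonneg _)]
  apply ENNReal.ofReal_le_ofReal
  have h3 : (⌊M⌋₊ : ℝ) ≤ M := Nat.floor_le hM0.le
  refine (mul_le_mul_of_nonneg_right h3 (by positivity)).trans (le_of_eq ?_)
  rw [hM, mul_left_comm, ← Real.exp_add]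
  congr 2
  ring

/-- Dyadic sums of a decreasing function with finite integral. -/
private theorem dyadic_sum {G : ℝ → ENNReal} (hG : Antitone G)
    (hm : ∫⁻ r in Set.Ioi (0 : ℝ), G r < ⊤) {c : ℝ} (hc : 0 < c) :
    ∑' j : ℕ, ENNReal.ofReal (2 ^ j) * G (c * 2 ^ j / 2) < ⊤ := by
  have hpos : ∀ j : ℕ, 0 < c * 2 ^ j / 4 := fun j => by positivity
  have hI : ∀ j : ℕ, ENNReal.ofReal (c / 4) * (ENNReal.ofReal (2 ^ j) * G (c * 2 ^ j / 2)) ≤
      ∫⁻ r in Set.Ioc (c * 2 ^ j / 4) (c * 2 ^ j / 2), G r := by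
    intro j
    have h1 : ∫⁻ _r in Set.Ioc (c * 2 ^ j / 4) (c * 2 ^ j / 2), G (c * 2 ^ j / 2) =
        ENNReal.ofReal (c / 4) * (ENNReal.ofReal (2 ^ j) * G (c * 2 ^ j / 2)) := by
      rw [setLIntegral_const, Real.volume_Ioc, ← mul_assoc,
        ← ENNReal.ofReal_mul (by positivity), mul_comm]
      congr 2
      ring
    rw [← h1]
    exact setLIntegral_mono' measurableSet_Ioc fun r hr => hG hr.2
  have hdisj : Pairwise (Function.onFun Disjoint
      fun j : ℕ => Set.Ioc (c * 2 ^ j / 4) (c * 2 ^ j / 2)) := by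
    intro i j hij
    change Disjoint (Set.Ioc (c * 2 ^ i / 4) (c * 2 ^ i / 2))
      (Set.Ioc (c * 2 ^ j / 4) (c * 2 ^ j / 2))
    have key : ∀ i j : ℕ, i < j → c * 2 ^ i / 2 ≤ c * 2 ^ j / 4 := by
      intro i j hij
      have h1 : (2 : ℝ) ^ (i + 1) ≤ 2 ^ j := pow_le_pow_right₀ (by norm_num) hij
      have h2 : c * 2 ^ (i + 1) ≤ c * 2 ^ j := mul_le_mul_of_nonneg_left h1 hc.le
      rw [pow_succ] at h2
      linarith
    rw [Set.disjoint_left]
    intro x hx hy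
    rcases lt_or_gt_of_ne hij with h1 | h1
    · exact absurd (lt_of_lt_of_le hy.1 hx.2) (not_lt.mpr (key i j h1))
    · exact absurd (lt_of_lt_of_le hx.1 hy.2) (not_lt.mpr (key j i h1))
  have hU : ∑' j : ℕ, ∫⁻ r in Set.Ioc (c * 2 ^ j / 4) (c * 2 ^ j / 2), G r ≤
      ∫⁻ r in Set.Ioi (0 : ℝ), G r := by
    rw [← lintegral_iUnion (fun _ => measurableSet_Ioc) hdisj]
    refine lintegral_mono_set ?_
    intro x hx
    obtain ⟨j, hj⟩ := Set.mem_iUnion.mp hx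
    exact (hpos j).trans hj.1
  have h2 : ENNReal.ofReal (c / 4) * ∑' j : ℕ, ENNReal.ofReal (2 ^ j) * G (c * 2 ^ j / 2) < ⊤ := by
    rw [← ENNReal.tsum_mul_left]
    exact lt_of_le_of_lt ((ENNReal.tsum_le_tsum hI).trans hU) hm
  rcases ENNReal.mul_lt_top_iff.mp h2 with h3 | h3 | h3
  · exact h3.2
  · rw [ENNReal.ofReal_eq_zero] at h3
    linarith
  · rw [h3]
    exact ENNReal.zero_lt_top

/-- The exponential part. -/
private theorem exp_sum {a : ℝ} (ha : 0 < a) :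
    Summable fun j : ℕ => (2 : ℝ) ^ j * Real.exp (-(a * 2 ^ j)) := by
  have h1 : Summable fun j : ℕ => 2 / a ^ 2 * ((1 : ℝ) / 2) ^ j :=
    (summable_geometric_of_lt_one (by norm_num) (by norm_num)).mul_left _
  refine Summable.of_nonneg_of_le (fun j => by positivity) (fun j => ?_) h1
  have h2 : (0 : ℝ) < 2 ^ j := by positivity
  have h3 := Real.quadratic_le_exp_of_nonneg (x := a * 2 ^ j) (by positivity)
  have h4 : (a * 2 ^ j) ^ 2 / 2 ≤ Real.exp (a * 2 ^ j) := by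
    have : 0 ≤ a * 2 ^ j := by positivity
    linarith
  rw [Real.exp_neg]
  have h5 : (Real.exp (a * 2 ^ j))⁻¹ ≤ ((a * 2 ^ j) ^ 2 / 2)⁻¹ :=
    inv_anti₀ (by positivity) h4
  refine (mul_le_mul_of_nonneg_left h5 h2.le).trans (le_of_eq ?_)
  rw [div_pow, one_pow]
  field_simp

private theorem BalSt_mono1 {d : ℕ} {κ : ℝ} {r r' : ℕ} (hr : r ≤ r') {st : St d}
    (h : BalSt κ r' st) : BalSt κ r st := by
  obtain ⟨j, hj, k, h1, h2⟩ := h
  exact ⟨j, hj, k, hr.trans h1, h2⟩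

theorem balst_summable {d : ℕ} {ν : Measure ℕ} {p p' : ℝ} (h : Par d ν p p')
    (hm : ∫⁻ r in Set.Ioi (0 : ℝ), (ν {k : ℕ | r ≤ Real.log (1 + k)}) ^ (1 / (d : ℝ)) < ⊤)
    {κ : ℝ} (hκ : 0 < κ) :
    Summable fun j : ℕ => (2 : ℝ) ^ j *
      (stLaw d ν p p' {st | BalSt κ (2 ^ j) st}).toReal ^ (1 / (d : ℝ)) := by
  have := h.isProb_stLaw
  have := h.hν
  have hd : (1 : ℝ) ≤ d := by exact_mod_cast h.hd
  have hd0 : (0 : ℝ) < d := by linarith
  have he0 : (0 : ℝ) ≤ 1 / d := by positivity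
  have he1 : 1 / (d : ℝ) ≤ 1 := by
    rw [div_le_one hd0]
    exact hd
  obtain ⟨c, C0, hc, hC0, hsp⟩ := bal_split h hκ
  obtain ⟨G, hGd⟩ : ∃ G : ℝ → ENNReal,
      G = fun r => (ν {k : ℕ | r ≤ Real.log (1 + k)}) ^ (1 / (d : ℝ)) := ⟨_, rfl⟩
  have hG : Antitone G := by
    intro x y hxy
    rw [hGd]
    refine ENNReal.rpow_le_rpow (measure_mono fun k hk => ?_) he0
    exact hxy.trans hk
  have hm' : ∫⁻ r in Set.Ioi (0 : ℝ), G r < ⊤ := by
    rw [hGd]
    exact hm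
  have hS1 := dyadic_sum hG hm' hc
  have hS2 : ∑' j : ℕ, ENNReal.ofReal (2 ^ j * (C0 ^ (1 / (d : ℝ)) *
      Real.exp (-(c / (2 * d) * 2 ^ j)))) < ⊤ := by
    have h1 : Summable fun j : ℕ => (2 : ℝ) ^ j * (C0 ^ (1 / (d : ℝ)) *
        Real.exp (-(c / (2 * d) * 2 ^ j))) := by
      refine ((exp_sum (a := c / (2 * d)) (by positivity)).mul_left
        (C0 ^ (1 / (d : ℝ)))).congr fun j => ?_
      ring
    have hnn : ∀ j : ℕ, 0 ≤ (2 : ℝ) ^ j * (C0 ^ (1 / (d : ℝ)) *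
        Real.exp (-(c / (2 * d) * 2 ^ j))) := fun j => by
      have := Real.rpow_nonneg hC0.le (1 / (d : ℝ))
      positivity
    rw [← ENNReal.ofReal_tsum_of_nonneg hnn h1]
    exact ENNReal.ofReal_lt_top
  have hterm : ∀ j : ℕ, ENNReal.ofReal (2 ^ j) *
      (stLaw d ν p p' {st | BalSt κ (2 ^ j) st}) ^ (1 / (d : ℝ)) ≤
      ENNReal.ofReal (2 ^ j) * G (c * 2 ^ j / 2) + ENNReal.ofReal (2 ^ j * (C0 ^ (1 / (d : ℝ)) *
        Real.exp (-(c / (2 * d) * 2 ^ j)))) := by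
    intro j
    have h1 := hsp (2 ^ j)
    push_cast at h1
    have h2 := ENNReal.rpow_le_rpow h1 he0
    have h3 := h2.trans (ENNReal.rpow_add_le_add_rpow _ _ he0 he1)
    have h4 : ENNReal.ofReal (C0 * Real.exp (-(c * 2 ^ j / 2))) ^ (1 / (d : ℝ)) =
        ENNReal.ofReal (C0 ^ (1 / (d : ℝ)) * Real.exp (-(c / (2 * d) * 2 ^ j))) := by
      rw [ENNReal.ofReal_rpow_of_nonneg (by positivity) he0,
        Real.mul_rpow hC0.le (Real.exp_pos _).le, ← Real.exp_mul]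
      congr 3
      field_simp
    rw [h4] at h3
    rw [ENNReal.ofReal_mul (by positivity), ← mul_add]
    refine mul_le_mul_right ?_ _
    rw [hGd]
    exact h3
  have htop : ∑' j : ℕ, ENNReal.ofReal (2 ^ j) *
      (stLaw d ν p p' {st | BalSt κ (2 ^ j) st}) ^ (1 / (d : ℝ)) ≠ ⊤ := by
    refine (lt_of_le_of_lt (ENNReal.tsum_le_tsum hterm) ?_).ne
    rw [ENNReal.tsum_add]
    exact ENNReal.add_lt_top.mpr ⟨hS1, hS2⟩
  refine (ENNReal.summable_toReal htop).congr fun j => ?_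
  rw [ENNReal.toReal_mul, ENNReal.toReal_ofReal (by positivity), ENNReal.toReal_rpow]

theorem balst_pow_lim {d : ℕ} {ν : Measure ℕ} {p p' : ℝ} (h : Par d ν p p')
    (hm : ∫⁻ r in Set.Ioi (0 : ℝ), (ν {k : ℕ | r ≤ Real.log (1 + k)}) ^ (1 / (d : ℝ)) < ⊤)
    {κ : ℝ} (hκ : 0 < κ) :
    Tendsto (fun r : ℕ => (r : ℝ) ^ d * (stLaw d ν p p' {st | BalSt κ r st}).toReal)
      atTop (nhds 0) := by
  have := h.isProb_stLaw
  have hdne : d ≠ 0 := by
    have := h.hd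
    omega
  obtain ⟨P, hP⟩ : ∃ P : ℕ → ℝ, P = fun r => (stLaw d ν p p' {st | BalSt κ r st}).toReal :=
    ⟨_, rfl⟩
  have hP0 : ∀ r, 0 ≤ P r := fun r => by rw [hP]; exact ENNReal.toReal_nonneg
  have hPm : ∀ r r' : ℕ, r ≤ r' → P r' ≤ P r := by
    intro r r' hr
    rw [hP]
    exact ENNReal.toReal_mono (measure_ne_top _ _) (measure_mono fun st hst => BalSt_mono1 hr hst)
  have hs : Tendsto (fun j : ℕ => (2 : ℝ) ^ j * P (2 ^ j) ^ (1 / (d : ℝ))) atTop (nhds 0) := by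
    rw [hP]
    exact (balst_summable h hm hκ).tendsto_atTop_zero
  have hs2 : Tendsto (fun j : ℕ => (2 * ((2 : ℝ) ^ j * P (2 ^ j) ^ (1 / (d : ℝ)))) ^ d)
      atTop (nhds 0) := by
    have h1 := (hs.const_mul 2).pow d
    rwa [mul_zero, zero_pow hdne] at h1
  have hs3 : ∀ j : ℕ, (2 * ((2 : ℝ) ^ j * P (2 ^ j) ^ (1 / (d : ℝ)))) ^ d =
      (2 ^ (j + 1)) ^ d * P (2 ^ j) := by
    intro j
    rw [← mul_assoc, mul_pow, one_div, Real.rpow_inv_natCast_pow (hP0 _) hdne]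
    congr 2
    ring
  change Tendsto (fun r : ℕ => (r : ℝ) ^ d * (stLaw d ν p p' {st | BalSt κ r st}).toReal)
      atTop (nhds 0)
  have hgoal : Tendsto (fun r : ℕ => (r : ℝ) ^ d * P r) atTop (nhds 0) := by
    rw [Metric.tendsto_atTop]
    intro ε hε
    rw [Metric.tendsto_atTop] at hs2
    obtain ⟨J0, hJ0⟩ := hs2 ε hε
    refine ⟨2 ^ J0, fun r hr => ?_⟩
    have hr0 : r ≠ 0 := by
      have : 0 < 2 ^ J0 := by positivity
      omega
    have h1 : J0 ≤ Nat.log 2 r := Nat.le_log_of_pow_le (by norm_num) hr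
    have h2 : 2 ^ Nat.log 2 r ≤ r := Nat.pow_log_le_self 2 hr0
    have h3 : r < 2 ^ (Nat.log 2 r + 1) := Nat.lt_pow_succ_log_self (by norm_num) r
    have h4 := hJ0 _ h1
    rw [Real.dist_eq, sub_zero] at h4 ⊢
    have h5 : 0 ≤ (r : ℝ) ^ d * P r := mul_nonneg (by positivity) (hP0 r)
    rw [abs_of_nonneg h5]
    refine lt_of_le_of_lt ?_ (lt_of_le_of_lt (le_abs_self _) h4)
    rw [hs3]
    refine mul_le_mul (pow_le_pow_left₀ (by positivity) ?_ d) (hPm _ _ h2) (hP0 r) (by positivity)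
    exact_mod_cast h3.le
  rw [hP] at hgoal
  exact hgoal

theorem ball_far_m {d : ℕ} {ν : Measure ℕ} {p p' : ℝ} (h : Par d ν p p')
    (hm : ∫⁻ r in Set.Ioi (0 : ℝ), (ν {k : ℕ | r ≤ Real.log (1 + k)}) ^ (1 / (d : ℝ)) < ⊤)
    {κ : ℝ} (hκ : 0 < κ) {ε : ℝ} (hε : 0 < ε) :
    Tendsto (fun n : ℕ => mu d ν p p' {w | ∃ z : Site d, nrm z ≤ 2 * n ∧
      BalSt κ ⌊ε * n⌋₊ (w z)}) atTop (nhds 0) := by
  classical
  have := h.isProb_stLaw
  have := h.isProb_mu
  obtain ⟨P, hP⟩ : ∃ P : ℕ → ℝ, P = fun r => (stLaw d ν p p' {st | BalSt κ r st}).toReal :=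
    ⟨_, rfl⟩
  have hP0 : ∀ r, 0 ≤ P r := fun r => by rw [hP]; exact ENNReal.toReal_nonneg
  have hlim0 : Tendsto (fun r : ℕ => (r : ℝ) ^ d * P r) atTop (nhds 0) := by
    rw [hP]
    exact balst_pow_lim h hm hκ
  have hfl : Tendsto (fun n : ℕ => ε * (n : ℝ)) atTop atTop :=
    tendsto_natCast_atTop_atTop.const_mul_atTop hε
  have hfloor : Tendsto (fun n : ℕ => ⌊ε * (n : ℝ)⌋₊) atTop atTop :=
    tendsto_nat_floor_atTop.comp hfl
  have hlim1 : Tendsto (fun n : ℕ => ENNReal.ofReal ((10 / ε) ^ d *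
      ((⌊ε * (n : ℝ)⌋₊ : ℝ) ^ d * P ⌊ε * (n : ℝ)⌋₊))) atTop (nhds 0) := by
    rw [← ENNReal.ofReal_zero]
    apply ENNReal.tendsto_ofReal
    have h1 := (hlim0.comp hfloor).const_mul ((10 / ε) ^ d)
    rwa [mul_zero] at h1
  have hbound : ∀ n : ℕ, 1 ≤ n → 2 ≤ ε * (n : ℝ) →
      mu d ν p p' {w | ∃ z : Site d, nrm z ≤ 2 * n ∧ BalSt κ ⌊ε * n⌋₊ (w z)} ≤
        ENNReal.ofReal ((10 / ε) ^ d * ((⌊ε * (n : ℝ)⌋₊ : ℝ) ^ d * P ⌊ε * (n : ℝ)⌋₊)) := by
    intro n hn hn2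
    have hn' : (1 : ℝ) ≤ (n : ℝ) := by exact_mod_cast hn
    set r : ℕ := ⌊ε * (n : ℝ)⌋₊ with hr
    have hr1 : ε * (n : ℝ) < r + 1 := Nat.lt_floor_add_one _
    set Z : Finset (Site d) := Fintype.piFinset (fun _ : Fin d =>
      Finset.Icc (-(2 * n : ℤ)) (2 * n)) with hZ
    have hZc : Z.card = (4 * n + 1) ^ d := by
      rw [hZ, Fintype.card_piFinset]
      simp only [Int.card_Icc, Finset.prod_const, Finset.card_univ, Fintype.card_fin]
      congr 1
      omega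
    have hsub : {w : Om d | ∃ z : Site d, nrm z ≤ 2 * n ∧ BalSt κ r (w z)} ⊆
        ⋃ z ∈ Z, {w : Om d | BalSt κ r (w z)} := by
      rintro w ⟨z, hz, hw⟩
      rw [Set.mem_iUnion₂]
      refine ⟨z, ?_, hw⟩
      rw [hZ, Fintype.mem_piFinset]
      intro i
      have h1 : (z i).natAbs ≤ nrm z := by
        unfold nrm
        exact Finset.single_le_sum (f := fun i => (z i).natAbs) (fun _ _ => Nat.zero_le _)
          (Finset.mem_univ i)
      rw [Finset.mem_Icc]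
      omega
    have hone : ∀ z : Site d, mu d ν p p' {w : Om d | BalSt κ r (w z)} ≤
        ENNReal.ofReal (P r) := by
      intro z
      have h1 : mu d ν p p' {w : Om d | BalSt κ r (w z)}
          = stLaw d ν p p' {st | BalSt κ r st} := by
        unfold mu
        exact (measurePreserving_eval_infinitePi (fun _ : Site d => stLaw d ν p p')
          z).measure_preimage (measurableSet_BalSt κ r).nullMeasurableSet
      rw [h1, hP]
      change stLaw d ν p p' {st | BalSt κ r st} ≤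
        ENNReal.ofReal (stLaw d ν p p' {st | BalSt κ r st}).toReal
      rw [ENNReal.ofReal_toReal (measure_ne_top (stLaw d ν p p') _)]
    calc mu d ν p p' {w : Om d | ∃ z : Site d, nrm z ≤ 2 * n ∧ BalSt κ r (w z)}
        ≤ mu d ν p p' (⋃ z ∈ Z, {w : Om d | BalSt κ r (w z)}) := measure_mono hsub
      _ ≤ ∑ z ∈ Z, mu d ν p p' {w : Om d | BalSt κ r (w z)} := measure_biUnion_finset_le _ _
      _ ≤ ∑ _z ∈ Z, ENNReal.ofReal (P r) := Finset.sum_le_sum fun z _ => hone z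
      _ = ENNReal.ofReal (((4 * n + 1 : ℕ) : ℝ) ^ d * P r) := by
          rw [Finset.sum_const, hZc, nsmul_eq_mul,
            ENNReal.ofReal_mul (p := ((4 * n + 1 : ℕ) : ℝ) ^ d) (by positivity),
            ENNReal.ofReal_pow (by positivity), ENNReal.ofReal_natCast, Nat.cast_pow]
      _ ≤ ENNReal.ofReal ((10 / ε) ^ d * ((r : ℝ) ^ d * P r)) := by
          apply ENNReal.ofReal_le_ofReal
          rw [← mul_assoc, ← mul_pow]
          refine mul_le_mul_of_nonneg_right (pow_le_pow_left₀ (by positivity) ?_ d) (hP0 r)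
          push_cast
          have h1 : ε * (n : ℝ) ≤ 2 * r := by linarith
          have h2 : (n : ℝ) ≤ 2 * r / ε := by
            rw [le_div_iff₀ hε]
            linarith
          have h3 : 10 / ε * (r : ℝ) = 5 * (2 * r / ε) := by ring
          rw [h3]
          linarith
  refine tendsto_of_tendsto_of_tendsto_of_le_of_le' tendsto_const_nhds hlim1
    (Eventually.of_forall fun _ => bot_le) ?_
  filter_upwards [eventually_ge_atTop 1, hfl.eventually_ge_atTop 2] with n hn1 hn2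
  exact hbound n hn1 hn2

theorem logint_of_moment {d : ℕ} (hd : 1 ≤ d) {ν : Measure ℕ} [IsProbabilityMeasure ν] {δ : ℝ}
    (hδ : (d : ℝ) < δ) (hm : ∫⁻ k : ℕ, ENNReal.ofReal (Real.log (1 + k) ^ δ) ∂ν < ⊤) :
    ∫⁻ r in Set.Ioi (0 : ℝ), (ν {k : ℕ | r ≤ Real.log (1 + k)}) ^ (1 / (d : ℝ)) < ⊤ := by
  have hd1 : (1 : ℝ) ≤ d := by exact_mod_cast hd
  have hd0 : (0 : ℝ) < d := by linarith
  have he0 : (0 : ℝ) ≤ 1 / d := by positivity
  have hδ0 : 0 < δ := hd0.trans hδ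
  set E : ENNReal := ∫⁻ k : ℕ, ENNReal.ofReal (Real.log (1 + k) ^ δ) ∂ν with hE
  have hsplit : Set.Ioi (0 : ℝ) = Set.Ioc 0 1 ∪ Set.Ioi 1 := by
    rw [Set.Ioc_union_Ioi_eq_Ioi zero_le_one]
  rw [hsplit]
  refine lt_of_le_of_lt (lintegral_union_le _ _ _) ?_
  refine ENNReal.add_lt_top.mpr ⟨?_, ?_⟩
  · refine lt_of_le_of_lt (setLIntegral_mono' (g := fun _ => (1 : ENNReal)) measurableSet_Ioc
      fun r _ => ENNReal.rpow_le_one prob_le_one he0) ?_
    rw [setLIntegral_const, Real.volume_Ioc]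
    simp
  · have hb : ∀ r ∈ Set.Ioi (1 : ℝ), (ν {k : ℕ | r ≤ Real.log (1 + k)}) ^ (1 / (d : ℝ)) ≤
        E ^ (1 / (d : ℝ)) * ENNReal.ofReal (r ^ (-(δ / d))) := by
      intro r hr
      have hr0 : (0 : ℝ) < r := lt_trans zero_lt_one hr
      have hpos : 0 < r ^ δ := Real.rpow_pos_of_pos hr0 _
      have h4 : ν {k : ℕ | r ≤ Real.log (1 + k)} ≤
          ν {k : ℕ | ENNReal.ofReal (r ^ δ) ≤ ENNReal.ofReal (Real.log (1 + k) ^ δ)} := by
        refine measure_mono fun k hk => ?_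
        exact ENNReal.ofReal_le_ofReal (Real.rpow_le_rpow hr0.le hk hδ0.le)
      have h5 := meas_ge_le_lintegral_div (μ := ν)
        (f := fun k : ℕ => ENNReal.ofReal (Real.log (1 + k) ^ δ))
        (Measurable.of_discrete.aemeasurable)
        (ε := ENNReal.ofReal (r ^ δ))
        (by
          rw [Ne, ENNReal.ofReal_eq_zero, not_le]
          exact hpos) ENNReal.ofReal_ne_top
      have h6 := h4.trans h5
      rw [← hE, div_eq_mul_inv, ← ENNReal.ofReal_inv_of_pos hpos] at h6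
      refine (ENNReal.rpow_le_rpow h6 he0).trans (le_of_eq ?_)
      rw [ENNReal.mul_rpow_of_nonneg _ _ he0, ENNReal.ofReal_rpow_of_nonneg (by positivity) he0,
        ← Real.rpow_neg hr0.le, ← Real.rpow_mul hr0.le]
      congr 3
      ring
    refine lt_of_le_of_lt (setLIntegral_mono' measurableSet_Ioi hb) ?_
    rw [lintegral_const_mul' _ _ (ENNReal.rpow_ne_top_of_nonneg he0 hm.ne)]
    refine ENNReal.mul_lt_top (ENNReal.rpow_lt_top_of_nonneg he0 hm.ne) ?_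
    have h1 : IntegrableOn (fun t : ℝ => t ^ (-(δ / d))) (Set.Ioi 1) :=
      integrableOn_Ioi_rpow_of_lt (by
        rw [neg_lt_neg_iff, lt_div_iff₀ hd0]
        linarith) zero_lt_one
    exact h1.lintegral_lt_top

end Pool.Agent.Helper61.LF
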