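import Pool.Agent.Helper61.LF.Tail

/-!
Module LF-29 (BallOne). Dimension one: long ballistic segments, under the optimal moment condition.

* `sum_balst`: let `c, Cc` be given by `path_tail`. As in `balst_tail`, for `r ≥ 1`
  `P(BalSt κ r) ≤ ν {k | c r / 2 ≤ log (1 + k)} + Cc exp (-c r / 2)` (split at `st.1 ≤ exp (c r/2)`), and
  `Σ_r ν {k | c r/2 ≤ log(1+k)} ≤ (2/c) ∫ log(1+k) dν < ⊤` (for each `k` the number of `r ≥ 1` with
  `r ≤ (2/c) log(1+k)` is at most `(2/c) log (1+k)`).
* `ball_lim_one`: let `Y st = sup {r | BalSt κ r st}` in `[0, ⊤]`, that is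
  `Y st = Σ'_{r ≥ 1} 1[BalSt κ r st]` (the sets decrease in `r`), measurable with
  `∫ Y dstLaw = Σ_{r≥1} P(BalSt κ r) < ⊤`; so `Y < ⊤` almost surely and `∫ Y 1[Y > R] → 0` as
  `R → ∞` (dominated convergence). Choose `R0` with `∫ Y 1[Y > R] < θ/5` for `R ≥ R0`. For a chain with
  distinct switching sites and `dur ≤ 2n`, a ballistic segment `i` of duration `r_i > R` gives
  `BalSt κ r_i (w (zs i))` (`ok_occ`, `zs_succ`, `ts_succ`), so `r_i ≤ Y (w (zs i))`, `Y > R`, and
  `|zs i 0| ≤ 2n`; so `balSum κ R w l ≤ Σ_{|z| ≤ 2n} Y 1[Y > R] (w z)`. By the law of large numbers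
  (`ProbabilityTheory.strong_law_ae_real`, applied to the two sequences `z = 0, 1, 2, …` and
  `z = -1, -2, …` of independent identically distributed integrable variables `(Y 1[Y>R]).toReal`), this sum
  divided by `n` converges almost surely to `4 ∫ Y 1[Y > R] < (4/5) θ`, so the probability that it
  is at least `θ n` tends to `0`.
-/

namespace Pool.Agent.Helper61.LF

open MeasureTheory Filter

private theorem measAU {d : ℕ} (κ : ℝ) (r : ℕ) :
    MeasurableSet {s : Path d | ∃ k, r ≤ tau gP s k ∧ κ * tau gP s k ≤ (nrm (J s k) : ℝ)} := by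
  have : {s : Path d | ∃ k, r ≤ tau gP s k ∧ κ * tau gP s k ≤ (nrm (J s k) : ℝ)} =
      ⋃ k, {s : Path d | r ≤ tau gP s k ∧ κ * tau gP s k ≤ (nrm (J s k) : ℝ)} := by
    ext s
    simp
  rw [this]
  refine MeasurableSet.iUnion fun k => ?_
  have h0 : Measurable fun s : Path d => nrm (J s k) :=
    (Measurable.of_discrete (f := fun z : Site d => nrm z)).comp (measurable_J k)
  have h1 : Measurable fun s : Path d => (tau gP s k, nrm (J s k)) :=
    (measurable_tau gP k).prodMk h0
  exact h1 (MeasurableSet.of_discrete (s := {q : ℕ × ℕ | r ≤ q.1 ∧ κ * q.1 ≤ (q.2 : ℝ)}))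

/-- The number of `r` with `r + 1 < x` is at most `x`. -/
private theorem tsum_ind_le (x : ℝ) :
    ∑' r : ℕ, (if ((r : ℝ) + 1) < x then (1 : ENNReal) else 0) ≤ ENNReal.ofReal x := by
  rw [tsum_eq_sum (s := Finset.range ⌊x⌋₊)]
  · refine (Finset.sum_le_sum (g := fun _ => (1 : ENNReal)) fun r _ => ?_).trans ?_
    · split_ifs
      · exact le_rfl
      · exact zero_le_one
    · rw [Finset.sum_const, Finset.card_range, nsmul_eq_mul, mul_one]
      rcases le_total 0 x with hx | hx
      · rw [← ENNReal.ofReal_natCast]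
        exact ENNReal.ofReal_le_ofReal (Nat.floor_le hx)
      · rw [Nat.floor_of_nonpos hx]
        simp
  · intro r hr
    rw [if_neg]
    intro hlt
    apply hr
    rw [Finset.mem_range]
    have h1 : ((r + 1 : ℕ) : ℝ) ≤ x := by
      push_cast
      exact hlt.le
    have := Nat.le_floor h1
    omega

theorem sum_balst {d : ℕ} {ν : Measure ℕ} {p p' : ℝ} (h : Par d ν p p')
    (hm : ∫⁻ k : ℕ, ENNReal.ofReal (Real.log (1 + k)) ∂ν < ⊤) {κ : ℝ} (hκ : 0 < κ) :
    ∑' r : ℕ, stLaw d ν p p' {st | BalSt κ (r + 1) st} < ⊤ := by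
  have := h.isProb_pathLaw
  have := h.isProb_stLaw
  have := h.hν
  obtain ⟨c, C0, hc, hC0, hp0⟩ := path_tail h hκ
  have hmain : ∀ r : ℕ, stLaw d ν p p' {st | BalSt κ (r + 1) st} ≤
      ν {k : ℕ | Real.exp (c * ((r : ℝ) + 1) / 2) < 1 + (k : ℝ)} +
        ENNReal.ofReal (C0 * Real.exp (-(c * ((r : ℝ) + 1) / 2))) := by
    intro r
    set M : ℝ := Real.exp (c * ((r : ℝ) + 1) / 2) with hM
    have hsub : {st : St d | BalSt κ (r + 1) st} ⊆
        (Prod.fst ⁻¹' {k : ℕ | M < 1 + (k : ℝ)}) ∪
        ⋃ j ∈ Finset.range ⌊M⌋₊, {st : St d | ∃ k, (r + 1) ≤ tau gP (st.2 j) k ∧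
          κ * tau gP (st.2 j) k ≤ (nrm (J (st.2 j) k) : ℝ)} := by
      intro st hst
      obtain ⟨j, hj, hk⟩ := hst
      by_cases hcase : M < 1 + (st.1 : ℝ)
      · left
        exact hcase
      · right
        push Not at hcase
        have h3 : j < ⌊M⌋₊ := by
          have h4 : (j : ℝ) + 1 ≤ st.1 := by exact_mod_cast hj
          have h5 : ((j + 1 : ℕ) : ℝ) ≤ M := by
            push_cast
            linarith
          have h6 := Nat.le_floor h5
          omega
        simp only [Set.mem_iUnion]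
        exact ⟨j, Finset.mem_range.mpr h3, hk⟩
    have hfst : (stLaw d ν p p') (Prod.fst ⁻¹' {k : ℕ | M < 1 + (k : ℝ)}) =
        ν {k : ℕ | M < 1 + (k : ℝ)} := by
      unfold stLaw
      exact measurePreserving_fst.measure_preimage
        (MeasurableSet.of_discrete).nullMeasurableSet
    have hsnd : ∀ j : ℕ, (stLaw d ν p p') {st : St d | ∃ k, (r + 1) ≤ tau gP (st.2 j) k ∧
          κ * tau gP (st.2 j) k ≤ (nrm (J (st.2 j) k) : ℝ)} ≤
            ENNReal.ofReal (C0 * Real.exp (-(c * ((r : ℝ) + 1)))) := by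
      intro j
      have h3 : (stLaw d ν p p') {st : St d | ∃ k, (r + 1) ≤ tau gP (st.2 j) k ∧
          κ * tau gP (st.2 j) k ≤ (nrm (J (st.2 j) k) : ℝ)} =
          pathLaw d p p' {s : Path d | ∃ k, (r + 1) ≤ tau gP s k ∧
            κ * tau gP s k ≤ (nrm (J s k) : ℝ)} := by
        have h4 : MeasurePreserving (fun st : St d => st.2 j) (stLaw d ν p p')
            (pathLaw d p p') := by
          unfold stLaw
          exact (measurePreserving_eval_infinitePi (fun _ : ℕ => pathLaw d p p') j).comp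
            measurePreserving_snd
        exact h4.measure_preimage (measAU κ (r + 1)).nullMeasurableSet
      rw [h3, ENNReal.le_ofReal_iff_toReal_le (measure_ne_top _ _) (by positivity)]
      refine (hp0 (r + 1)).trans (le_of_eq ?_)
      push_cast
      rfl
    refine (measure_mono hsub).trans ((measure_union_le _ _).trans ?_)
    rw [hfst]
    refine add_le_add le_rfl ?_
    refine (measure_biUnion_finset_le _ _).trans ?_
    refine (Finset.sum_le_sum fun j _ => hsnd j).trans ?_
    rw [Finset.sum_const, Finset.card_range, nsmul_eq_mul, ← ENNReal.ofReal_natCast,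
      ← ENNReal.ofReal_mul (Nat.cast_nonneg _)]
    apply ENNReal.ofReal_le_ofReal
    have hM0 : 0 < M := Real.exp_pos _
    have h3 : (⌊M⌋₊ : ℝ) ≤ M := Nat.floor_le hM0.le
    refine (mul_le_mul_of_nonneg_right h3 (by positivity)).trans (le_of_eq ?_)
    rw [hM, mul_left_comm, ← Real.exp_add]
    congr 2
    ring
  refine lt_of_le_of_lt (ENNReal.tsum_le_tsum hmain) ?_
  rw [ENNReal.tsum_add]
  refine ENNReal.add_lt_top.mpr ⟨?_, ?_⟩
  · -- the number of particles
    have h1 : ∀ r : ℕ, ν {k : ℕ | Real.exp (c * ((r : ℝ) + 1) / 2) < 1 + (k : ℝ)} =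
        ∫⁻ k : ℕ, (if ((r : ℝ) + 1) < 2 / c * Real.log (1 + k) then (1 : ENNReal) else 0) ∂ν := by
      intro r
      have h2 : MeasurableSet {k : ℕ | Real.exp (c * ((r : ℝ) + 1) / 2) < 1 + (k : ℝ)} :=
        MeasurableSet.of_discrete
      rw [← lintegral_indicator_one h2]
      refine lintegral_congr fun k => ?_
      have h3 : (Real.exp (c * ((r : ℝ) + 1) / 2) < 1 + (k : ℝ)) ↔
          ((r : ℝ) + 1) < 2 / c * Real.log (1 + k) := by
        rw [← Real.lt_log_iff_exp_lt (by positivity)]
        have e : 2 / c * Real.log (1 + (k : ℝ)) = (Real.log (1 + (k : ℝ))) / (c / 2) := by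
          field_simp
        rw [e, lt_div_iff₀ (by positivity)]
        constructor <;> intro h4 <;> linarith
      by_cases h4 : ((r : ℝ) + 1) < 2 / c * Real.log (1 + k)
      · rw [if_pos h4]
        exact Set.indicator_of_mem
          (s := {k : ℕ | Real.exp (c * ((r : ℝ) + 1) / 2) < 1 + (k : ℝ)}) (h3.mpr h4) _
      · rw [if_neg h4]
        exact Set.indicator_of_notMem
          (s := {k : ℕ | Real.exp (c * ((r : ℝ) + 1) / 2) < 1 + (k : ℝ)})
          (fun h5 => h4 (h3.mp h5)) _
    rw [tsum_congr h1, ← lintegral_tsum fun r => Measurable.of_discrete.aemeasurable]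
    refine lt_of_le_of_lt (lintegral_mono fun k => tsum_ind_le _) ?_
    have h5 : ∀ k : ℕ, ENNReal.ofReal (2 / c * Real.log (1 + k)) =
        ENNReal.ofReal (2 / c) * ENNReal.ofReal (Real.log (1 + k)) := fun k =>
      ENNReal.ofReal_mul (by positivity)
    rw [lintegral_congr h5, lintegral_const_mul _ Measurable.of_discrete]
    exact ENNReal.mul_lt_top ENNReal.ofReal_lt_top hm
  · -- the geometric part
    have hq1 : Real.exp (-(c / 2)) < 1 := Real.exp_lt_one_iff.mpr (by linarith)
    have h6 : ∀ r : ℕ, C0 * Real.exp (-(c * ((r : ℝ) + 1) / 2)) =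
        C0 * Real.exp (-(c / 2)) * Real.exp (-(c / 2)) ^ r := by
      intro r
      rw [← Real.exp_nat_mul, mul_assoc, ← Real.exp_add]
      congr 2
      ring
    have hsum : Summable fun r : ℕ => C0 * Real.exp (-(c * ((r : ℝ) + 1) / 2)) := by
      simp only [h6]
      exact (summable_geometric_of_lt_one (Real.exp_pos _).le hq1).mul_left _
    rw [← ENNReal.ofReal_tsum_of_nonneg (fun r => by positivity) hsum]
    exact ENNReal.ofReal_lt_top

/-- The largest duration of a ballistic frog of the site. -/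
private noncomputable def Yf {d : ℕ} (κ : ℝ) (st : St d) : ENNReal :=
  ∑' r : ℕ, Set.indicator {st | BalSt κ (r + 1) st} (fun _ => (1 : ENNReal)) st

private theorem measurable_Yf {d : ℕ} (κ : ℝ) : Measurable (Yf κ : St d → ENNReal) := by
  unfold Yf
  exact Measurable.tsum fun r => measurable_const.indicator (measurableSet_BalSt κ (r + 1))

private theorem lintegral_Yf {d : ℕ} {ν : Measure ℕ} {p p' : ℝ} (κ : ℝ) :
    ∫⁻ st, Yf κ st ∂(stLaw d ν p p') = ∑' r : ℕ, stLaw d ν p p' {st | BalSt κ (r + 1) st} := by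
  unfold Yf
  rw [lintegral_tsum fun r =>
    (measurable_const.indicator (measurableSet_BalSt κ (r + 1))).aemeasurable]
  refine tsum_congr fun r => ?_
  rw [lintegral_indicator (measurableSet_BalSt κ (r + 1)), lintegral_const, one_mul,
    Measure.restrict_apply_univ]

private theorem BalSt_mono {d : ℕ} {κ : ℝ} {r r' : ℕ} (hr : r ≤ r') {st : St d}
    (h : BalSt κ r' st) : BalSt κ r st := by
  obtain ⟨j, hj, k, h1, h2⟩ := h
  exact ⟨j, hj, k, hr.trans h1, h2⟩

private theorem le_Yf {d : ℕ} {κ : ℝ} {r : ℕ} {st : St d} (h : BalSt κ r st) :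
    (r : ENNReal) ≤ Yf κ st := by
  unfold Yf
  have h1 := ENNReal.sum_le_tsum (f := fun r : ℕ =>
    Set.indicator {st : St d | BalSt κ (r + 1) st} (fun _ => (1 : ENNReal)) st) (Finset.range r)
  refine le_trans ?_ h1
  have h2 : ∀ i ∈ Finset.range r,
      Set.indicator {st : St d | BalSt κ (i + 1) st} (fun _ => (1 : ENNReal)) st = 1 := by
    intro i hi
    rw [Finset.mem_range] at hi
    exact Set.indicator_of_mem (s := {st : St d | BalSt κ (i + 1) st})
      (BalSt_mono (Nat.succ_le_of_lt hi) h) _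
  rw [Finset.sum_congr rfl h2, Finset.sum_const, Finset.card_range, nsmul_eq_mul, mul_one]

/-- The truncated variable. -/
private noncomputable def Zf {d : ℕ} (κ : ℝ) (R : ℕ) (st : St d) : ENNReal :=
  Set.indicator {st | (R : ENNReal) < Yf κ st} (Yf κ) st

private theorem measurable_Zf {d : ℕ} (κ : ℝ) (R : ℕ) : Measurable (Zf κ R : St d → ENNReal) :=
  (measurable_Yf κ).indicator (measurableSet_lt measurable_const (measurable_Yf κ))

private theorem Zf_le {d : ℕ} (κ : ℝ) (R : ℕ) (st : St d) : Zf κ R st ≤ Yf κ st :=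
  Set.indicator_le_self _ _ _

private theorem lim_Zf {d : ℕ} {ν : Measure ℕ} {p p' : ℝ} {κ : ℝ} [IsProbabilityMeasure (stLaw d ν p p')]
    (hY : ∫⁻ st, Yf κ st ∂(stLaw d ν p p') ≠ ⊤) :
    Tendsto (fun R : ℕ => ∫⁻ st, Zf κ R st ∂(stLaw d ν p p')) atTop (nhds 0) := by
  have h1 : ∀ R : ℕ, ∫⁻ st, Zf κ R st ∂(stLaw d ν p p') =
      ∫⁻ st in {st | (R : ENNReal) < Yf κ st}, Yf κ st ∂(stLaw d ν p p') := by
    intro R
    unfold Zf
    exact lintegral_indicator (measurableSet_lt measurable_const (measurable_Yf κ)) _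
  simp only [h1]
  refine tendsto_setLIntegral_zero hY ?_
  have h2 : Tendsto (fun R : ℕ => (∫⁻ st, Yf κ st ∂(stLaw d ν p p')) / (R : ENNReal)) atTop
      (nhds 0) := by
    have := ENNReal.Tendsto.const_div (a := ∫⁻ st, Yf κ st ∂(stLaw d ν p p'))
      ENNReal.tendsto_nat_nhds_top (Or.inr hY)
    simpa using this
  refine tendsto_of_tendsto_of_tendsto_of_le_of_le' tendsto_const_nhds h2
    (Eventually.of_forall fun n => bot_le) ?_
  filter_upwards [eventually_ge_atTop 1] with R hR
  refine le_trans (measure_mono fun st (hst : (R : ENNReal) < Yf κ st) => hst.le) ?_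
  exact meas_ge_le_lintegral_div (measurable_Yf κ).aemeasurable
    (by simp; omega) (ENNReal.natCast_ne_top R)

/-- The law of large numbers for the truncated variables along an injective sequence of sites. -/
private theorem lln {ν : Measure ℕ} {p p' : ℝ} (h : Par 1 ν p p') (X : St 1 → ℝ)
    (hX : Measurable X) (hint : Integrable X (stLaw 1 ν p p')) (g : ℕ → Site 1)
    (hg : Function.Injective g) :
    ∀ᵐ w ∂(mu 1 ν p p'), Tendsto (fun n : ℕ => (∑ i ∈ Finset.range n, X (w (g i))) / n) atTop
      (nhds (∫ st, X st ∂(stLaw 1 ν p p'))) := by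
  have := h.isProb_stLaw
  have := h.isProb_mu
  have hmp : ∀ z : Site 1, MeasurePreserving (fun w : Om 1 => w z) (mu 1 ν p p')
      (stLaw 1 ν p p') := fun z =>
    measurePreserving_eval_infinitePi (fun _ : Site 1 => stLaw 1 ν p p') z
  have hind : ProbabilityTheory.iIndepFun (fun (z : Site 1) (w : Om 1) => X (w z))
      (mu 1 ν p p') := by
    unfold mu
    exact ProbabilityTheory.iIndepFun_infinitePi (X := fun _ st => X st) fun _ => hX
  have hind2 := hind.precomp hg
  have hmean : ∫ w, X (w (g 0)) ∂(mu 1 ν p p') = ∫ st, X st ∂(stLaw 1 ν p p') := by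
    rw [← (hmp (g 0)).map_eq, integral_map (measurable_pi_apply (g 0)).aemeasurable
      hX.aestronglyMeasurable]
  have := ProbabilityTheory.strong_law_ae_real (μ := mu 1 ν p p')
    (fun (i : ℕ) (w : Om 1) => X (w (g i)))
    ((hmp (g 0)).integrable_comp_of_integrable hint)
    (fun i j hij => hind2.indepFun hij)
    (fun i => by
      refine ⟨(hX.comp (measurable_pi_apply (g i))).aemeasurable,
        (hX.comp (measurable_pi_apply (g 0))).aemeasurable, ?_⟩
      change Measure.map (X ∘ fun w : Om 1 => w (g i)) (mu 1 ν p p') =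
        Measure.map (X ∘ fun w : Om 1 => w (g 0)) (mu 1 ν p p')
      rw [← Measure.map_map hX (measurable_pi_apply (g i)),
        ← Measure.map_map hX (measurable_pi_apply (g 0)), (hmp (g i)).map_eq, (hmp (g 0)).map_eq])
  rw [hmean] at this
  exact this

/-- The sites of the half lines. -/
private def gA (i : ℕ) : Site 1 := fun _ => (i : ℤ)

private def gB (i : ℕ) : Site 1 := fun _ => -(i : ℤ) - 1

private theorem gA_inj : Function.Injective gA := by
  intro i j hij
  have := congrFun hij 0
  simpa [gA] using this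

private theorem gB_inj : Function.Injective gB := by
  intro i j hij
  have := congrFun hij 0
  simp only [gB] at this
  omega

private theorem seg_balst {d : ℕ} {κ : ℝ} {r : ℕ} (w : Om d) (l : List (ℕ × ℕ))
    (hok : ok w 0 l) (i : ℕ) (hi : i < l.length) (h1 : r ≤ ts w l (i + 1) - ts w l i)
    (h2 : κ * ((ts w l (i + 1) - ts w l i : ℕ) : ℝ) ≤ nrm (zs w l (i + 1) - zs w l i)) :
    BalSt κ r (w (zs w l i)) := by
  have hz := zs_succ w l i hi
  have ht := ts_succ w l i hi
  have ht' : ts w l (i + 1) - ts w l i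
      = tau gP ((w (zs w l i)).2 (l[i]).1) ((l[i]).2 + 1) := by omega
  have hz' : zs w l (i + 1) - zs w l i
      = J ((w (zs w l i)).2 (l[i]).1) ((l[i]).2 + 1) := by
    rw [hz]; abel
  refine ⟨(l[i]).1, ok_occ w l hok i hi, (l[i]).2 + 1, ?_, ?_⟩
  · rw [← ht']; exact h1
  · rw [← ht', ← hz']; exact h2

/-- The deterministic estimate. -/
private theorem balSum_le_sum {κ : ℝ} {R : ℕ} {w : Om 1} (hw : ∀ z, Yf κ (w z) < ⊤)
    {l : List (ℕ × ℕ)} (hok : ok w 0 l)
    (hinj : ∀ i i', i < i' → i' < l.length → zs w l i ≠ zs w l i') {n : ℕ}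
    (hdur : dur gP w 0 l ≤ 2 * n) :
    balSum κ R w l ≤ (∑ i ∈ Finset.range (2 * n + 1), (Zf κ R (w (gA i))).toReal) +
      ∑ i ∈ Finset.range (2 * n + 1), (Zf κ R (w (gB i))).toReal := by
  classical
  have h1 : balSum κ R w l ≤ ∑ i ∈ Finset.range l.length, (Zf κ R (w (zs w l i))).toReal := by
    unfold balSum
    refine Finset.sum_le_sum fun i hi => ?_
    rw [Finset.mem_range] at hi
    split_ifs with hc
    · have h2 := seg_balst (r := ts w l (i + 1) - ts w l i) w l hok i hi le_rfl hc.2
      have h3 := le_Yf h2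
      have h4 : (R : ENNReal) < Yf κ (w (zs w l i)) :=
        lt_of_lt_of_le (by exact_mod_cast hc.1) h3
      have h5 : Zf κ R (w (zs w l i)) = Yf κ (w (zs w l i)) :=
        Set.indicator_of_mem (s := {st | (R : ENNReal) < Yf κ st}) h4 _
      rw [h5]
      have h6 := ENNReal.toReal_mono (hw _).ne h3
      rwa [ENNReal.toReal_natCast] at h6
    · exact ENNReal.toReal_nonneg
  refine h1.trans ?_
  have hinj' : Set.InjOn (fun i => zs w l i) (Finset.range l.length : Set ℕ) := by
    intro i hi i' hi' he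
    simp only [Finset.coe_range, Set.mem_Iio] at hi hi'
    by_contra hne
    rcases Nat.lt_or_gt_of_ne hne with hlt | hlt
    · exact hinj i i' hlt hi' he
    · exact hinj i' i hlt hi he.symm
  have h2 : ∑ i ∈ Finset.range l.length, (Zf κ R (w (zs w l i))).toReal =
      ∑ z ∈ (Finset.range l.length).image (fun i => zs w l i), (Zf κ R (w z)).toReal := by
    rw [Finset.sum_image hinj']
  have h3 : (Finset.range l.length).image (fun i => zs w l i) ⊆
      (Finset.range (2 * n + 1)).image gA ∪ (Finset.range (2 * n + 1)).image gB := by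
    intro z hz
    rw [Finset.mem_image] at hz
    obtain ⟨i, hi, rfl⟩ := hz
    rw [Finset.mem_range] at hi
    have h4 := nrm_zs_sub w l (Nat.zero_le i)
    rw [zs_zero, sub_zero, ts_zero, Nat.sub_zero] at h4
    have h5 : ts w l i ≤ ts w l l.length := ts_mono w l hi.le
    rw [ts_len] at h5
    have h6 : nrm (zs w l i) = (zs w l i 0).natAbs := by
      unfold nrm
      rw [Fin.sum_univ_one]
    have h7 : (zs w l i 0).natAbs ≤ 2 * n := by omega
    rw [Finset.mem_union, Finset.mem_image, Finset.mem_image]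
    rcases le_or_gt 0 (zs w l i 0) with hpos | hneg
    · left
      refine ⟨(zs w l i 0).toNat, Finset.mem_range.mpr (by omega), ?_⟩
      funext q
      have hq : q = 0 := Subsingleton.elim _ _
      subst hq
      unfold gA
      omega
    · right
      refine ⟨(-(zs w l i 0) - 1).toNat, Finset.mem_range.mpr (by omega), ?_⟩
      funext q
      have hq : q = 0 := Subsingleton.elim _ _
      subst hq
      unfold gB
      omega
  rw [h2]
  refine (Finset.sum_le_sum_of_subset_of_nonneg h3 fun z _ _ => ENNReal.toReal_nonneg).trans ?_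
  rw [← Finset.sum_image (s := Finset.range (2 * n + 1)) (g := gA)
      (f := fun z => (Zf κ R (w z)).toReal) (fun i _ j _ hij => gA_inj hij),
    ← Finset.sum_image (s := Finset.range (2 * n + 1)) (g := gB)
      (f := fun z => (Zf κ R (w z)).toReal) (fun i _ j _ hij => gB_inj hij)]
  have h8 := Finset.sum_union_inter (s₁ := (Finset.range (2 * n + 1)).image gA)
    (s₂ := (Finset.range (2 * n + 1)).image gB) (f := fun z => (Zf κ R (w z)).toReal)
  have h9 : 0 ≤ ∑ z ∈ (Finset.range (2 * n + 1)).image gA ∩ (Finset.range (2 * n + 1)).image gB,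
      (Zf κ R (w z)).toReal := Finset.sum_nonneg fun z _ => ENNReal.toReal_nonneg
  linarith

theorem ball_lim_one {ν : Measure ℕ} {p p' : ℝ} (h : Par 1 ν p p')
    (hm : ∫⁻ k : ℕ, ENNReal.ofReal (Real.log (1 + k)) ∂ν < ⊤) {κ : ℝ} (hκ : 0 < κ) {θ : ℝ}
    (hθ : 0 < θ) :
    ∃ R0 : ℕ, ∀ R : ℕ, R0 ≤ R →
      Tendsto (fun n : ℕ => mu 1 ν p p' {w | ∃ l, ok w 0 l ∧
        (∀ i i', i < i' → i' < l.length → zs w l i ≠ zs w l i') ∧ dur gP w 0 l ≤ 2 * n ∧
          θ * n ≤ balSum κ R w l}) atTop (nhds 0) := by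
  have := h.isProb_stLaw
  have := h.isProb_mu
  have hY : ∫⁻ st, Yf κ st ∂(stLaw 1 ν p p') ≠ ⊤ := by
    rw [lintegral_Yf]
    exact (sum_balst h hm hκ).ne
  have hlim := lim_Zf hY
  have hev := hlim.eventually (gt_mem_nhds (show (0 : ENNReal) < ENNReal.ofReal (θ / 5) by
    rw [ENNReal.ofReal_pos]
    positivity))
  obtain ⟨R0, hR0⟩ := eventually_atTop.1 hev
  refine ⟨R0, fun R hR => ?_⟩
  have hZ := hR0 R hR
  set X : St 1 → ℝ := fun st => (Zf κ R st).toReal with hXdef
  have hX : Measurable X := (measurable_Zf κ R).ennreal_toReal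
  have hZtop : ∫⁻ st, Zf κ R st ∂(stLaw 1 ν p p') ≠ ⊤ := (hZ.trans ENNReal.ofReal_lt_top).ne
  have hint : Integrable X (stLaw 1 ν p p') :=
    integrable_toReal_of_lintegral_ne_top (measurable_Zf κ R).aemeasurable hZtop
  have hmean : ∫ st, X st ∂(stLaw 1 ν p p') < θ / 5 := by
    rw [hXdef, integral_toReal (measurable_Zf κ R).aemeasurable
      (ae_lt_top (measurable_Zf κ R) hZtop)]
    have h1 := (ENNReal.toReal_lt_toReal hZtop ENNReal.ofReal_ne_top).mpr hZ
    rwa [ENNReal.toReal_ofReal (by positivity)] at h1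
  set m : ℝ := ∫ st, X st ∂(stLaw 1 ν p p') with hmdef
  have hA := lln h X hX hint gA gA_inj
  have hB := lln h X hX hint gB gB_inj
  have hfin : ∀ᵐ w ∂(mu 1 ν p p'), ∀ z : Site 1, Yf κ (w z) < ⊤ := by
    rw [ae_all_iff]
    intro z
    have h1 := ae_lt_top (measurable_Yf κ) hY
    exact (measurePreserving_eval_infinitePi (fun _ : Site 1 => stLaw 1 ν p p')
      z).quasiMeasurePreserving.ae h1
  -- the measurable majorant
  set S : ℕ → Om 1 → ℝ := fun n w => (∑ i ∈ Finset.range (2 * n + 1), X (w (gA i))) +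
      ∑ i ∈ Finset.range (2 * n + 1), X (w (gB i)) with hS
  have hSmeas : ∀ n, Measurable (S n) := by
    intro n
    refine Measurable.add ?_ ?_
    · exact Finset.measurable_fun_sum _ fun i _ => hX.comp (measurable_pi_apply (gA i))
    · exact Finset.measurable_fun_sum _ fun i _ => hX.comp (measurable_pi_apply (gB i))
  have hmaj : Tendsto (fun n : ℕ => mu 1 ν p p' {w | θ * n ≤ S n w}) atTop (nhds 0) := by
    have key := tendsto_measure_of_ae_tendsto_indicator_of_isFiniteMeasure (μ := mu 1 ν p p')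
      (A := (∅ : Set (Om 1))) atTop (As := fun n : ℕ => {w | θ * n ≤ S n w})
      MeasurableSet.empty (fun n => measurableSet_le measurable_const (hSmeas n)) (by
        filter_upwards [hA, hB] with w hAw hBw
        have hN : Tendsto (fun n : ℕ => 2 * n + 1) atTop atTop :=
          tendsto_atTop_mono (fun n => by simp only [id]; omega) tendsto_id
        have h1 := (hAw.comp hN).add (hBw.comp hN)
        have h2 : Tendsto (fun n : ℕ => θ * n / ((2 * n + 1 : ℕ) : ℝ)) atTop (nhds (θ / 2)) := by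
          have h3 : Tendsto (fun n : ℕ => θ / 2 - θ / 2 * (1 / ((2 * n + 1 : ℕ) : ℝ))) atTop
              (nhds (θ / 2 - θ / 2 * 0)) := by
            refine Tendsto.sub tendsto_const_nhds (Tendsto.const_mul _ ?_)
            exact (tendsto_one_div_atTop_nhds_zero_nat (𝕜 := ℝ)).comp hN
          rw [mul_zero, sub_zero] at h3
          refine h3.congr fun n => ?_
          have h4 : ((2 * n + 1 : ℕ) : ℝ) ≠ 0 := by positivity
          field_simp
          push_cast
          ring
        have h5 := h1.eventually_lt h2 (by linarith)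
        filter_upwards [h5] with n hn
        simp only [Set.mem_empty_iff_false, iff_false, not_le]
        simp only [Function.comp] at hn
        have h6 : (0 : ℝ) < ((2 * n + 1 : ℕ) : ℝ) := by positivity
        rw [← add_div, div_lt_div_iff_of_pos_right h6] at hn
        exact hn)
    simpa using key
  refine tendsto_of_tendsto_of_tendsto_of_le_of_le tendsto_const_nhds hmaj
    (fun n => bot_le) fun n => ?_
  refine measure_mono_ae ?_
  filter_upwards [hfin] with w hw hmem
  obtain ⟨l, h1, h2, h3, h4⟩ := hmem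
  exact h4.trans (balSum_le_sum hw h1 h2 h3)

end Pool.Agent.Helper61.LF
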