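import Pool.Agent.Helper61.LF.Chain

/-!
Module LF-05 (BridgeDet). The discovered set of the problem in terms of chains.

Proof. For a path `s`, `Σ_{i<t} steps g s i = J s k` where `k` is the number of `k'` with
`tau g s (k'+1) ≤ t`, that is, the largest `k` with `tau g s k ≤ t` (`tau g s` is strictly
increasing, `tau g s k ≥ k`, `tau g s 0 = 0`). Prove by induction on `t` that there is `k` with
`tau g s k ≤ t < tau g s (k+1)` and `Σ_{i<t} steps g s i = J s k`: in `steps g s t` at most one
term, the one with `tau g s (k'+1) = t+1`, is present.
Left to right: induction on `Disc`. For `zero` take the empty chain. For `step`: the chain to `x`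
of duration `≤ m`, followed by nothing if `k = 0` and by `(j, k-1)` if `k ≥ 1`; duration
`≤ m + tau g s k ≤ m + t`.
Right to left: `Disc W m y` and `m ≤ n` imply `Disc W n y` (induction on `Disc`); and
`Disc W m x`, `ok w x c` imply `Disc W (m + dur g w x c) (ep w x c)` (induction on `c`), because at
time `t = tau g s (k+1)` the position is `x + J s (k+1)`.
-/

namespace Pool.Agent.Helper61.LF

private theorem tau_strictMono {d : ℕ} (g : Ent d → ℕ) (s : Path d) : StrictMono (tau g s) := by
  apply strictMono_nat_of_lt_succ
  intro n
  unfold tau
  rw [Finset.sum_range_succ]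
  omega

private theorem sum_steps {d : ℕ} (g : Ent d → ℕ) (s : Path d) (t : ℕ) :
    ∃ k, tau g s k ≤ t ∧ t < tau g s (k + 1) ∧
      ∑ i ∈ Finset.range t, steps g s i = J s k := by
  induction t with
  | zero =>
    refine ⟨0, ?_, ?_, ?_⟩
    · simp [tau]
    · simp [tau]
    · simp [J]
  | succ t ih =>
    obtain ⟨k, h1, h2, h3⟩ := ih
    by_cases hk : tau g s (k + 1) = t + 1
    · refine ⟨k + 1, le_of_eq hk, ?_, ?_⟩
      · rw [← hk]
        exact tau_strictMono g s (Nat.lt_succ_self _)
      · rw [Finset.sum_range_succ, h3]
        have hJ : J s (k + 1) = J s k + vec (s k).1 := by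
          unfold J
          rw [Finset.sum_range_succ]
        rw [hJ]
        congr 1
        unfold steps
        rw [Finset.sum_eq_single k]
        · rw [if_pos hk]
        · intro b _ hb
          rw [if_neg]
          intro hb2
          rw [← hk] at hb2
          have := (tau_strictMono g s).injective hb2
          omega
        · intro hnot
          exfalso
          apply hnot
          rw [Finset.mem_range]
          have := (tau_strictMono g s).id_le k
          simp only [id] at this
          omega
    · refine ⟨k, by omega, by omega, ?_⟩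
      rw [Finset.sum_range_succ, h3]
      have h0 : steps g s t = 0 := by
        unfold steps
        apply Finset.sum_eq_zero
        intro b _
        rw [if_neg]
        intro hb
        rcases lt_or_ge b k with hbk | hbk
        · have : tau g s (b + 1) ≤ tau g s k := (tau_strictMono g s).monotone hbk
          omega
        · have : tau g s (k + 1) ≤ tau g s (b + 1) :=
            (tau_strictMono g s).monotone (by omega)
          omega
      rw [h0, add_zero]

private theorem sum_steps_tau {d : ℕ} (g : Ent d → ℕ) (s : Path d) (k : ℕ) :
    ∑ i ∈ Finset.range (tau g s k), steps g s i = J s k := by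
  obtain ⟨k', h1, h2, h3⟩ := sum_steps g s (tau g s k)
  have h4 : k' ≤ k := (tau_strictMono g s).le_iff_le.mp h1
  have h5 : k < k' + 1 := (tau_strictMono g s).lt_iff_lt.mp h2
  have : k' = k := by omega
  rw [h3, this]

private theorem disc_mono {d : ℕ} {W : Conf d} {m : ℕ} {y : Site d} (h : Disc W m y) :
    ∀ n, m ≤ n → Disc W n y := by
  induction h with
  | zero m => intro n _; exact Disc.zero n
  | @step m x j t _ hj ih =>
    intro n hn
    have h1 : Disc W (n - t) x := ih (n - t) (by omega)
    have h2 := Disc.step j t h1 hj
    have h3 : n - t + t = n := by omega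
    rw [h3] at h2
    exact h2

private theorem disc_chain {d : ℕ} (g : Ent d → ℕ) (w : Om d) (c : List (ℕ × ℕ)) :
    ∀ (m : ℕ) (x : Site d), Disc (toConf g w) m x → ok w x c →
      Disc (toConf g w) (m + dur g w x c) (ep w x c) := by
  induction c with
  | nil =>
    intro m x h _
    simpa [dur, ep] using h
  | cons a c ih =>
    obtain ⟨j, k⟩ := a
    intro m x h hok
    obtain ⟨hj, hok'⟩ := hok
    have h1 : Disc (toConf g w) (m + tau g ((w x).2 j) (k + 1))
        (pos (toConf g w) x j (tau g ((w x).2 j) (k + 1))) := Disc.step j _ h hj
    have h2 : pos (toConf g w) x j (tau g ((w x).2 j) (k + 1)) =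
        x + J ((w x).2 j) (k + 1) := by
      unfold pos toConf
      simp only
      rw [sum_steps_tau]
    rw [h2] at h1
    have h3 := ih _ _ h1 hok'
    have h4 : m + dur g w x ((j, k) :: c) = m + tau g ((w x).2 j) (k + 1) +
        dur g w (x + J ((w x).2 j) (k + 1)) c := by
      simp only [dur]
      omega
    rw [h4]
    exact h3

theorem disc_iff {d : ℕ} (g : Ent d → ℕ) (w : Om d) (n : ℕ) (y : Site d) :
    Disc (toConf g w) n y ↔ Rch g w 0 n y := by
  constructor
  · intro h
    induction h with
    | zero n => exact Rch_refl g w 0 n
    | @step m x j t _ hj ih =>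
      obtain ⟨k, h1, _, h3⟩ := sum_steps g ((w x).2 j) t
      have hpos : pos (toConf g w) x j t = x + J ((w x).2 j) k := by
        unfold pos toConf
        simp only
        rw [h3]
      rw [hpos]
      refine Rch_trans ih ?_
      rcases k with _ | k
      · have : J ((w x).2 j) 0 = 0 := by simp [J]
        rw [this, add_zero]
        exact Rch_refl g w x t
      · refine ⟨[(j, k)], ⟨hj, trivial⟩, rfl, ?_⟩
        simpa [dur] using h1
  · rintro ⟨c, hok, hep, hdur⟩
    have h := disc_chain g w c 0 0 (Disc.zero 0) hok
    rw [hep] at h
    exact disc_mono h n (by omega)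

end Pool.Agent.Helper61.LF
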