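import Pool.Agent.Helper61.LF.Chain

/-!
Module LF-02 (Meas). Measurability.

* `J`, `tau`: finite sums of measurable functions of coordinates (`Ent d` is countable with
  measurable singletons, so every function on it is measurable).
* `ep`, `dur`, `ok`: induction on the chain. For the step one needs joint measurability in the
  configuration and the start site: for a countable type `Site d` with measurable singletons, a
  function `(w, x) ↦ F w x` is measurable as soon as every `F · x` is
  (`measurable_from_prod_countable_left` or `_right`), and then it can be composed with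
  `w ↦ (w, x + J ((w x).2 j) (k+1))`. For `ok` use the indicator function or the set version.
* `Rch`: countable union over the chains (`List (ℕ × ℕ)` is countable).
* `Opt`: `ok ∧ ep = y ∧ ∀ c', ok → ep = y → dur ≤ dur`, countable intersection.
* `sel`: `sel y w = c` iff (`Opt w 0 y c` and no `c'` of smaller code is optimal) or
  (`c = []` and no chain is optimal).
* `zs`, `ts`: as `ep`, `dur`.
* `Good`: countable unions and intersections; for fixed `t`, `z` the event `Rch gP w w0 t z` is
  measurable and `∃ v ∈ C, …` does not depend on `w`.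
* `upd`: a coordinate of `upd w x j s` is either a coordinate of `w` or of `s`.
-/

namespace Pool.Agent.Helper61.LF

open MeasureTheory

private theorem mcomp {Ω Z β : Type*} [MeasurableSpace Ω] [MeasurableSpace Z] [Countable Z]
    [MeasurableSingletonClass Z] [MeasurableSpace β] {F : Ω → Z → β} {G : Ω → Z}
    (hF : ∀ z, Measurable fun w => F w z) (hG : Measurable G) :
    Measurable fun w => F w (G w) := by
  intro s hs
  have : (fun w => F w (G w)) ⁻¹' s = ⋃ z, (G ⁻¹' {z}) ∩ ((fun w => F w z) ⁻¹' s) := by
    ext w
    simp
  rw [this]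
  exact MeasurableSet.iUnion fun z => (hG (measurableSet_singleton z)).inter (hF z hs)

private theorem mpred {Ω Z : Type*} [MeasurableSpace Ω] [MeasurableSpace Z] [Countable Z]
    [MeasurableSingletonClass Z] {F : Ω → Z → Prop} {G : Ω → Z}
    (hF : ∀ z, MeasurableSet {w | F w z}) (hG : Measurable G) :
    MeasurableSet {w | F w (G w)} := by
  have : {w | F w (G w)} = ⋃ z, (G ⁻¹' {z}) ∩ {w | F w z} := by
    ext w
    simp
  rw [this]
  exact MeasurableSet.iUnion fun z => (hG (measurableSet_singleton z)).inter (hF z)

theorem measurable_J {d : ℕ} (k : ℕ) : Measurable fun s : Path d => J s k := by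
  unfold J
  exact Finset.measurable_sum _ fun i _ =>
    (measurable_of_countable (fun e : Ent d => vec e.1)).comp (measurable_pi_apply i)

theorem measurable_tau {d : ℕ} (g : Ent d → ℕ) (k : ℕ) : Measurable fun s : Path d => tau g s k := by
  unfold tau
  exact Finset.measurable_sum _ fun i _ =>
    (measurable_of_countable (fun e : Ent d => g e + 1)).comp (measurable_pi_apply i)

private theorem mfrog {d : ℕ} (x : Site d) (j : ℕ) : Measurable fun w : Om d => (w x).2 j :=
  (measurable_pi_apply j).comp (measurable_snd.comp (measurable_pi_apply x))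

private theorem mnext {d : ℕ} (x : Site d) (j k : ℕ) :
    Measurable fun w : Om d => x + J ((w x).2 j) (k + 1) :=
  ((measurable_of_countable fun z : Site d => x + z).comp (measurable_J (k + 1))).comp (mfrog x j)

theorem measurable_ep {d : ℕ} (x : Site d) (c : List (ℕ × ℕ)) :
    Measurable fun w : Om d => ep w x c := by
  induction c generalizing x with
  | nil => exact measurable_const
  | cons a c ih =>
    exact mcomp (F := fun (w : Om d) z => ep w z c) ih (mnext x a.1 a.2)

theorem measurable_dur {d : ℕ} (g : Ent d → ℕ) (x : Site d) (c : List (ℕ × ℕ)) :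
    Measurable fun w : Om d => dur g w x c := by
  induction c generalizing x with
  | nil => exact measurable_const
  | cons a c ih =>
    exact ((measurable_tau g (a.2 + 1)).comp (mfrog x a.1)).add
      (mcomp (F := fun (w : Om d) z => dur g w z c) ih (mnext x a.1 a.2))

theorem measurableSet_ok {d : ℕ} (x : Site d) (c : List (ℕ × ℕ)) :
    MeasurableSet {w : Om d | ok w x c} := by
  induction c generalizing x with
  | nil => exact MeasurableSet.const _
  | cons a c ih =>
    have h1 : MeasurableSet {w : Om d | a.1 < (w x).1} :=
      measurableSet_lt measurable_const (measurable_fst.comp (measurable_pi_apply x))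
    exact h1.inter (mpred (F := fun (w : Om d) z => ok w z c) ih (mnext x a.1 a.2))

private theorem mset_ep {d : ℕ} (x : Site d) (c : List (ℕ × ℕ)) (y : Site d) :
    MeasurableSet {w : Om d | ep w x c = y} :=
  measurable_ep x c (measurableSet_singleton y)

theorem measurableSet_Rch {d : ℕ} (g : Ent d → ℕ) (x : Site d) (t : ℕ) (y : Site d) :
    MeasurableSet {w : Om d | Rch g w x t y} := by
  have : {w : Om d | Rch g w x t y} = ⋃ c : List (ℕ × ℕ),
      {w | ok w x c} ∩ ({w | ep w x c = y} ∩ {w | dur g w x c ≤ t}) := by
    ext w
    simp [Rch]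
  rw [this]
  exact MeasurableSet.iUnion fun c => (measurableSet_ok x c).inter
    ((mset_ep x c y).inter (measurableSet_le (measurable_dur g x c) measurable_const))

private theorem mimp {Ω : Type*} [MeasurableSpace Ω] {p q : Ω → Prop}
    (hp : MeasurableSet {w | p w}) (hq : MeasurableSet {w | q w}) :
    MeasurableSet {w | p w → q w} :=
  measurableSet_setOfPred.2 (Measurable.imp (measurableSet_setOfPred.1 hp) (measurableSet_setOfPred.1 hq))

private theorem mall {Ω ι : Type*} [MeasurableSpace Ω] [Countable ι] {p : ι → Ω → Prop}
    (hp : ∀ i, MeasurableSet {w | p i w}) : MeasurableSet {w | ∀ i, p i w} :=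
  measurableSet_setOfPred.2 (Measurable.forall fun i => measurableSet_setOfPred.1 (hp i))

private theorem mex {Ω ι : Type*} [MeasurableSpace Ω] [Countable ι] {p : ι → Ω → Prop}
    (hp : ∀ i, MeasurableSet {w | p i w}) : MeasurableSet {w | ∃ i, p i w} :=
  measurableSet_setOfPred.2 (Measurable.exists fun i => measurableSet_setOfPred.1 (hp i))

private theorem mand {Ω : Type*} [MeasurableSpace Ω] {p q : Ω → Prop}
    (hp : MeasurableSet {w | p w}) (hq : MeasurableSet {w | q w}) :
    MeasurableSet {w | p w ∧ q w} := hp.inter hq

private theorem mnot {Ω : Type*} [MeasurableSpace Ω] {p : Ω → Prop}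
    (hp : MeasurableSet {w | p w}) : MeasurableSet {w | ¬ p w} := hp.compl

private theorem mcon {Ω : Type*} [MeasurableSpace Ω] (p : Prop) :
    MeasurableSet {_w : Ω | p} := MeasurableSet.const p

theorem measurableSet_Opt {d : ℕ} (x y : Site d) (c : List (ℕ × ℕ)) :
    MeasurableSet {w : Om d | Opt w x y c} := by
  unfold Opt
  exact mand (measurableSet_ok x c) (mand (mset_ep x c y) (mall fun c' =>
    mimp (measurableSet_ok x c') (mimp (mset_ep x c' y)
      (measurableSet_le (measurable_dur gP x c) (measurable_dur gP x c')))))

theorem sel_eq_iff {d : ℕ} (y : Site d) (w : Om d) (c : List (ℕ × ℕ)) :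
    sel y w = c ↔ (Opt w 0 y c ∧ ∀ c', Encodable.encode c' < Encodable.encode c → ¬ Opt w 0 y c') ∨
      (c = [] ∧ ∀ c', ¬ Opt w 0 y c') := by
  classical
  by_cases hex : ∃ n : ℕ, ∃ c : List (ℕ × ℕ), Encodable.encode c = n ∧ Opt w 0 y c
  · have hs : sel y w = (Nat.find_spec hex).choose := by
      unfold sel
      rw [dif_pos hex]
    have h1 := (Nat.find_spec hex).choose_spec
    rw [← hs] at h1
    constructor
    · intro hc
      rw [hc] at h1
      left
      refine ⟨h1.2, fun c' hc' ho => ?_⟩
      rw [h1.1] at hc'
      exact Nat.find_min hex hc' ⟨c', rfl, ho⟩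
    · rintro (⟨h2, h3⟩ | ⟨h2, h3⟩)
      · apply Encodable.encode_injective
        apply le_antisymm
        · rw [h1.1]
          exact Nat.find_min' hex ⟨c, rfl, h2⟩
        · by_contra hlt
          push Not at hlt
          exact h3 _ hlt h1.2
      · exact absurd h1.2 (h3 _)
  · have hs : sel y w = [] := by
      unfold sel
      rw [dif_neg hex]
    have h4 : ∀ c', ¬ Opt w 0 y c' := fun c' ho => hex ⟨_, c', rfl, ho⟩
    constructor
    · intro hc
      right
      exact ⟨by rw [← hc, hs], h4⟩
    · rintro (⟨h2, h3⟩ | ⟨h2, h3⟩)
      · exact absurd h2 (h4 _)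
      · rw [hs, h2]

theorem measurableSet_sel {d : ℕ} (y : Site d) (c : List (ℕ × ℕ)) :
    MeasurableSet {w : Om d | sel y w = c} := by
  have : {w : Om d | sel y w = c} =
      {w | Opt w 0 y c ∧ ∀ c', Encodable.encode c' < Encodable.encode c → ¬ Opt w 0 y c'} ∪
      {w | c = [] ∧ ∀ c', ¬ Opt w 0 y c'} := by
    ext w
    exact sel_eq_iff y w c
  rw [this]
  refine MeasurableSet.union ?_ ?_
  · exact mand (measurableSet_Opt 0 y c) (mall fun c' => mimp (mcon _)
      (mnot (measurableSet_Opt 0 y c')))
  · exact mand (mcon _) (mall fun c' => mnot (measurableSet_Opt 0 y c'))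

theorem measurable_zs {d : ℕ} (c : List (ℕ × ℕ)) (i : ℕ) : Measurable fun w : Om d => zs w c i :=
  measurable_ep 0 (c.take i)

theorem measurable_ts {d : ℕ} (c : List (ℕ × ℕ)) (i : ℕ) : Measurable fun w : Om d => ts w c i :=
  measurable_dur gP 0 (c.take i)

theorem measurableSet_mem_uses {d : ℕ} (x : Site d) (c : List (ℕ × ℕ)) (q : Site d × ℕ) :
    MeasurableSet {w : Om d | q ∈ uses w x c} := by
  induction c generalizing x with
  | nil =>
    have : {w : Om d | q ∈ uses w x []} = ∅ := by
      ext w
      simp [uses]
    rw [this]
    exact MeasurableSet.empty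
  | cons a c ih =>
    have : {w : Om d | q ∈ uses w x (a :: c)} = {w : Om d | q = (x, a.1)} ∪
        {w : Om d | q ∈ uses w (x + J ((w x).2 a.1) (a.2 + 1)) c} := by
      ext w
      exact List.mem_cons
    rw [this]
    exact (MeasurableSet.const _).union
      (mpred (F := fun (w : Om d) z => q ∈ uses w z c) ih (mnext x a.1 a.2))

theorem measurableSet_Good {d : ℕ} (C : Set (Fin d → ℝ)) (δ : ℝ) (s L K Km : ℕ) (c : Site d) :
    MeasurableSet {w : Om d | Good C δ s L K Km w c} := by
  unfold Good
  exact mex fun w0 => mand (MeasurableSet.const _) (mand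
    (measurableSet_le measurable_const (measurable_fst.comp (measurable_pi_apply w0)))
    (mand (mall fun z => mimp (MeasurableSet.const _) (measurableSet_Rch gP w0 L z))
      (mall fun t => mimp (MeasurableSet.const _) (mimp (MeasurableSet.const _)
        (mall fun z => mimp (measurableSet_Rch gP w0 t z) (MeasurableSet.const _))))))

theorem measurable_shift {d : ℕ} (a : Site d) : Measurable (shift a : Om d → Om d) :=
  measurable_pi_lambda _ fun x => measurable_pi_apply (x + a)

theorem measurable_upd {d : ℕ} (x : Site d) (j : ℕ) :
    Measurable fun q : Om d × Path d => upd q.1 x j q.2 := by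
  refine measurable_pi_lambda _ fun z => ?_
  by_cases hz : z = x
  · subst hz
    have h1 : (fun q : Om d × Path d => upd q.1 z j q.2 z) =
        fun q => ((q.1 z).1, Function.update (q.1 z).2 j q.2) := by
      funext q
      simp [upd]
    rw [h1]
    refine Measurable.prodMk (measurable_fst.comp ((measurable_pi_apply z).comp measurable_fst)) ?_
    refine measurable_pi_lambda _ fun i => ?_
    by_cases hi : i = j
    · subst hi
      have h2 : (fun q : Om d × Path d => Function.update (q.1 z).2 i q.2 i) = fun q => q.2 := by
        funext q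
        simp
      rw [h2]
      exact measurable_snd
    · have h2 : (fun q : Om d × Path d => Function.update (q.1 z).2 j q.2 i) =
          fun q => (q.1 z).2 i := by
        funext q
        rw [Function.update_of_ne hi]
      rw [h2]
      exact (mfrog z i).comp measurable_fst
  · have h1 : (fun q : Om d × Path d => upd q.1 x j q.2 z) = fun q => q.1 z := by
      funext q
      unfold upd
      rw [Function.update_of_ne hz]
    rw [h1]
    exact (measurable_pi_apply z).comp measurable_fst

theorem measurable_steps {d : ℕ} (g : Ent d → ℕ) : Measurable (steps g : Path d → ℕ → Site d) := by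
  refine measurable_pi_lambda _ fun t => ?_
  unfold steps
  refine Finset.measurable_sum _ fun k _ => ?_
  refine Measurable.ite ?_ ?_ measurable_const
  · exact measurable_tau g (k + 1) (measurableSet_singleton (t + 1))
  · exact (measurable_of_countable (fun e : Ent d => vec e.1)).comp (measurable_pi_apply k)

theorem measurable_toConf {d : ℕ} (g : Ent d → ℕ) : Measurable (toConf g : Om d → Conf d) := by
  refine measurable_pi_lambda _ fun x => ?_
  refine Measurable.prodMk (measurable_fst.comp (measurable_pi_apply x)) ?_
  refine measurable_pi_lambda _ fun j => ?_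
  exact (measurable_steps g).comp (mfrog x j)

/-- An event that depends on the selected chain. -/
private theorem msel {d : ℕ} (y : Site d) {F : Om d → List (ℕ × ℕ) → Prop}
    (hF : ∀ l, MeasurableSet {w | F w l}) : MeasurableSet {w : Om d | F w (sel y w)} := by
  have : {w : Om d | F w (sel y w)} = ⋃ l : List (ℕ × ℕ), {w | sel y w = l} ∩ {w | F w l} := by
    ext w
    simp
  rw [this]
  exact MeasurableSet.iUnion fun l => (measurableSet_sel y l).inter (hF l)

private theorem mnrm {d : ℕ} : Measurable (nrm : Site d → ℕ) := measurable_of_countable _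

private theorem mzsd {d : ℕ} (l : List (ℕ × ℕ)) (i i' : ℕ) :
    Measurable fun w : Om d => zs w l i' - zs w l i :=
  (measurable_of_countable fun q : Site d × Site d => q.1 - q.2).comp
    ((measurable_zs l i').prodMk (measurable_zs l i))

private theorem mtsd {d : ℕ} (l : List (ℕ × ℕ)) (i i' : ℕ) :
    Measurable fun w : Om d => ts w l i' - ts w l i :=
  (measurable_of_countable fun q : ℕ × ℕ => q.1 - q.2).comp
    ((measurable_ts l i').prodMk (measurable_ts l i))

private theorem mmem_wst {d : ℕ} (Kc : ℕ) (l : List (ℕ × ℕ)) (i : ℕ) :
    MeasurableSet {w : Om d | i ∈ wst Kc w l} := by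
  have : {w : Om d | i ∈ wst Kc w l} = {w : Om d | i < l.length ∧ ∃ i', i < i' ∧ i' ≤ l.length ∧
    ts w l i' - ts w l i ≤ Kc ∧ nrm (zs w l i' - zs w l i) + 2 ≤ ts w l i' - ts w l i} := by
    ext w
    simp [wst]
  rw [this]
  refine mand (MeasurableSet.const _) (mex fun i' => mand (MeasurableSet.const _)
    (mand (MeasurableSet.const _) (mand (measurableSet_le (mtsd l i i') measurable_const)
      (measurableSet_le ?_ (mtsd l i i')))))
  exact (measurable_of_countable fun n : ℕ => n + 2).comp (mnrm.comp (mzsd l i i'))

/-- Decompose according to the value of `sel y w`. -/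
theorem measurableSet_wasteful {d : ℕ} (y : Site d) (Kc : ℕ) (r : ℝ) :
    MeasurableSet {w : Om d | r ≤ ((wst Kc w (sel y w)).card : ℝ)} := by
  classical
  refine msel y (F := fun w l => r ≤ ((wst Kc w l).card : ℝ)) fun l => ?_
  have h1 : Measurable fun w : Om d => (wst Kc w l).card := by
    have h2 : (fun w : Om d => (wst Kc w l).card) = fun w =>
        ∑ i ∈ Finset.range l.length, if i ∈ wst Kc w l then 1 else 0 := by
      funext w
      rw [Finset.sum_ite_mem, Finset.sum_const, smul_eq_mul, mul_one]
      congr 1
      symm
      apply Finset.inter_eq_right.2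
      unfold wst
      exact Finset.filter_subset _ _
    rw [h2]
    exact Finset.measurable_sum _ fun i _ => Measurable.ite (mmem_wst Kc l i) measurable_const
      measurable_const
  exact measurableSet_le measurable_const
    ((measurable_of_countable fun n : ℕ => (n : ℝ)).comp h1)

theorem measurableSet_evA {d : ℕ} (y x : Site d) (j : ℕ) (v : Site d) :
    MeasurableSet {w : Om d | evA y x j v w} := by
  unfold evA
  refine msel y (F := fun w l => ∃ i i', i < i' ∧ i' ≤ l.length ∧ ∃ h : i < l.length,
    zs w l i = x ∧ (l[i]).1 = j ∧ zs w l i' = x + v ∧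
      nrm v + 2 ≤ ts w l i' - ts w l i) fun l => ?_
  refine mex fun i => mex fun i' => mand (MeasurableSet.const _) (mand (MeasurableSet.const _) ?_)
  by_cases h : i < l.length
  · have : {w : Om d | ∃ h : i < l.length, zs w l i = x ∧ (l[i]).1 = j ∧ zs w l i' = x + v ∧
        nrm v + 2 ≤ ts w l i' - ts w l i} = {w : Om d | zs w l i = x ∧ (l[i]).1 = j ∧
          zs w l i' = x + v ∧ nrm v + 2 ≤ ts w l i' - ts w l i} := by
      ext w
      simp [h]
    rw [this]
    exact mand (measurable_zs l i (measurableSet_singleton x))
      (mand (mcon _) (mand (measurable_zs l i' (measurableSet_singleton (x + v)))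
        (measurableSet_le measurable_const (mtsd l i i'))))
  · have : {w : Om d | ∃ h : i < l.length, zs w l i = x ∧ (l[i]).1 = j ∧ zs w l i' = x + v ∧
        nrm v + 2 ≤ ts w l i' - ts w l i} = ∅ := by
      ext w
      simp [h]
    rw [this]
    exact MeasurableSet.empty

theorem measurableSet_evU {d : ℕ} (y x : Site d) (j : ℕ) :
    MeasurableSet {w : Om d | evU y x j w} := by
  unfold evU
  refine mand (mall fun c => mimp (measurableSet_Opt 0 y c) (measurableSet_mem_uses 0 c (x, j))) ?_
  exact measurableSet_le measurable_const
    ((measurable_of_countable fun e : Ent d => e.2.2).comp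
      ((measurable_pi_apply 0).comp (mfrog x j)))

end Pool.Agent.Helper61.LF
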