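import Pool.Agent.Helper61.LF.Defs

/-!
Module LF-03 (Law). The laws are probability measures, and their basic values.

* `dirLaw`: `2d` atoms of weight `1/(2d)`. `geoLaw r`: `Σ r (1-r)^k = 1` for `0 < r ≤ 1`.
  `addLaw`: `p/p' + (p/p')(p'-p) Σ_k (1-p)^k = p/p' + (p'-p)/p' = 1`.
* `conv`: the sum `a + b` with `a` of law `geoLaw p'` and `b` of law `addLaw p p'` independent has
  law `geoLaw p`: the weight at `n` is `p'(1-p')^n p/p' + Σ_{a<n} p'(1-p')^a (p/p')(p'-p)(1-p)^{n-1-a}`
  `= p [ (1-p')^n + (p'-p) Σ_{a<n} (1-p')^a (1-p)^{n-1-a} ] = p (1-p)^n`, because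
  `((1-p) - (1-p')) Σ_{a<n} (1-p')^a (1-p)^{n-1-a} = (1-p)^n - (1-p')^n`
  (`Commute.geom_sum₂_mul` or induction on `n`: with `S n` the sum,
  `S (n+1) = (1-p) S n + (1-p')^n`).
-/

namespace Pool.Agent.Helper61.LF

open MeasureTheory

/-- Standing assumptions on the parameters. -/
structure Par (d : ℕ) (ν : Measure ℕ) (p p' : ℝ) : Prop where
  hd : 1 ≤ d
  hν : IsProbabilityMeasure ν
  hp : 0 < p
  hpp : p < p'
  hp' : p' ≤ 1

private theorem dirLaw_singleton {d : ℕ} (e : Fin d × Bool) :
    dirLaw d {e} = ENNReal.ofReal (1 / (2 * d)) := by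
  classical
  unfold dirLaw
  rw [Measure.finset_sum_apply]
  simp only [Measure.smul_apply, smul_eq_mul, Measure.dirac_apply' _ (measurableSet_singleton e)]
  rw [Finset.sum_eq_single e]
  · simp
  · intro b _ hb
    simp [hb]
  · simp

theorem isProb_dirLaw {d : ℕ} (hd : 1 ≤ d) : IsProbabilityMeasure (dirLaw d) := by
  constructor
  have hd' : (0 : ℝ) < d := by exact_mod_cast hd
  unfold dirLaw
  rw [Measure.finset_sum_apply]
  simp only [Measure.smul_apply, smul_eq_mul, measure_univ, mul_one, Finset.sum_const,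
    Finset.card_univ, Fintype.card_prod, Fintype.card_fin, Fintype.card_bool, nsmul_eq_mul]
  rw [← ENNReal.ofReal_natCast, ← ENNReal.ofReal_mul (Nat.cast_nonneg _), ← ENNReal.ofReal_one]
  congr 1
  push_cast
  field_simp

private theorem sum_univ (w : ℕ → ℝ) (hw : ∀ k, 0 ≤ w k) (g : ℕ → ℕ) {S : ℝ} (h : HasSum w S) :
    (Measure.sum fun k : ℕ => ENNReal.ofReal (w k) • Measure.dirac (g k)) Set.univ
      = ENNReal.ofReal S := by
  rw [Measure.sum_apply _ MeasurableSet.univ]
  simp only [Measure.smul_apply, smul_eq_mul, measure_univ, mul_one]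
  rw [← ENNReal.ofReal_tsum_of_nonneg hw h.summable, h.tsum_eq]

theorem isProb_geoLaw {r : ℝ} (h : 0 < r) (h' : r ≤ 1) : IsProbabilityMeasure (geoLaw r) := by
  constructor
  have h1 : 0 ≤ 1 - r := by linarith
  have hs : HasSum (fun k : ℕ => r * (1 - r) ^ k) (r * (1 - (1 - r))⁻¹) :=
    (hasSum_geometric_of_lt_one h1 (by linarith)).mul_left r
  unfold geoLaw
  rw [sum_univ _ (fun k => mul_nonneg h.le (pow_nonneg h1 k)) (fun k => k) hs,
    ← ENNReal.ofReal_one]
  congr 1
  rw [sub_sub_cancel, mul_inv_cancel₀ h.ne']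

theorem isProb_addLaw {p p' : ℝ} (hp : 0 < p) (hpp : p < p') (hp' : p' ≤ 1) :
    IsProbabilityMeasure (addLaw p p') := by
  constructor
  have h1 : 0 ≤ 1 - p := by linarith
  have hp'0 : 0 < p' := by linarith
  have hq : 0 ≤ p / p' * (p' - p) :=
    mul_nonneg (div_nonneg hp.le hp'0.le) (by linarith)
  have hs : HasSum (fun k : ℕ => p / p' * (p' - p) * (1 - p) ^ k)
      (p / p' * (p' - p) * (1 - (1 - p))⁻¹) :=
    (hasSum_geometric_of_lt_one h1 (by linarith)).mul_left _
  unfold addLaw
  rw [Measure.add_apply, sum_univ _ (fun k => mul_nonneg hq (pow_nonneg h1 k))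
    (fun k => k + 1) hs, Measure.smul_apply, smul_eq_mul, measure_univ, mul_one,
    ← ENNReal.ofReal_add (div_nonneg hp.le hp'0.le)
      (mul_nonneg hq (by rw [sub_sub_cancel]; positivity)), ← ENNReal.ofReal_one]
  congr 1
  rw [sub_sub_cancel]
  field_simp
  ring

theorem isProb_stepLaw {d : ℕ} (hd : 1 ≤ d) {r : ℝ} (h : 0 < r) (h' : r ≤ 1) :
    IsProbabilityMeasure (stepLaw d r) := by
  constructor
  have hd' : (0 : ℝ) < d := by exact_mod_cast hd
  unfold stepLaw
  rw [Measure.add_apply, Measure.finset_sum_apply]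
  simp only [Measure.smul_apply, Measure.add_apply, smul_eq_mul, measure_univ, mul_one,
    Finset.sum_const, Finset.card_univ, Fintype.card_fin, nsmul_eq_mul]
  have e : (1 + 1 : ENNReal) = ENNReal.ofReal 2 := by
    rw [ENNReal.ofReal_ofNat]; norm_num
  rw [e, ← ENNReal.ofReal_natCast, ← ENNReal.ofReal_mul (by positivity),
    ← ENNReal.ofReal_mul (Nat.cast_nonneg _), ← ENNReal.ofReal_add (by linarith) (by positivity),
    ← ENNReal.ofReal_one]
  congr 1
  field_simp
  ring

theorem Par.isProb_entLaw {d : ℕ} {ν : Measure ℕ} {p p' : ℝ} (h : Par d ν p p') :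
    IsProbabilityMeasure (entLaw d p p') := by
  haveI := isProb_dirLaw h.hd
  haveI := isProb_geoLaw (h.hp.trans h.hpp) h.hp'
  haveI := isProb_addLaw h.hp h.hpp h.hp'
  unfold entLaw
  infer_instance

theorem Par.isProb_pathLaw {d : ℕ} {ν : Measure ℕ} {p p' : ℝ} (h : Par d ν p p') :
    IsProbabilityMeasure (pathLaw d p p') := by
  haveI := h.isProb_entLaw
  unfold pathLaw
  infer_instance

theorem Par.isProb_stLaw {d : ℕ} {ν : Measure ℕ} {p p' : ℝ} (h : Par d ν p p') :
    IsProbabilityMeasure (stLaw d ν p p') := by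
  haveI := h.hν
  haveI := h.isProb_pathLaw
  unfold stLaw
  infer_instance

theorem Par.isProb_mu {d : ℕ} {ν : Measure ℕ} {p p' : ℝ} (h : Par d ν p p') :
    IsProbabilityMeasure (mu d ν p p') := by
  haveI := h.isProb_stLaw
  unfold mu
  infer_instance

theorem geoLaw_singleton {r : ℝ} (k : ℕ) : geoLaw r {k} = ENNReal.ofReal (r * (1 - r) ^ k) := by
  unfold geoLaw
  rw [Measure.sum_apply _ (measurableSet_singleton k)]
  simp only [Measure.smul_apply, smul_eq_mul, Measure.dirac_apply' _ (measurableSet_singleton k)]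
  rw [tsum_eq_single k]
  · simp
  · intro b hb
    simp [hb]

private theorem addLaw_zero {p p' : ℝ} : addLaw p p' {0} = ENNReal.ofReal (p / p') := by
  unfold addLaw
  rw [Measure.add_apply, Measure.sum_apply _ (measurableSet_singleton 0)]
  simp only [Measure.smul_apply, smul_eq_mul, Measure.dirac_apply' _ (measurableSet_singleton 0)]
  simp

private theorem addLaw_succ {p p' : ℝ} (k : ℕ) :
    addLaw p p' {k + 1} = ENNReal.ofReal (p / p' * (p' - p) * (1 - p) ^ k) := by
  unfold addLaw
  rw [Measure.add_apply, Measure.sum_apply _ (measurableSet_singleton (k + 1))]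
  simp only [Measure.smul_apply, smul_eq_mul,
    Measure.dirac_apply' _ (measurableSet_singleton (k + 1))]
  rw [tsum_eq_single k]
  · simp
  · intro b hb
    simp [hb]

/-- the weights of the additional holding time -/
private noncomputable def addW (p p' : ℝ) : ℕ → ℝ
  | 0 => p / p'
  | k + 1 => p / p' * (p' - p) * (1 - p) ^ k

private theorem addLaw_singleton {p p' : ℝ} (k : ℕ) :
    addLaw p p' {k} = ENNReal.ofReal (addW p p' k) := by
  cases k with
  | zero => exact addLaw_zero
  | succ k => exact addLaw_succ k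

private theorem addW_nonneg {p p' : ℝ} (hp : 0 < p) (hpp : p < p') (hp' : p' ≤ 1) (k : ℕ) :
    0 ≤ addW p p' k := by
  have hp'0 : 0 < p' := by linarith
  cases k with
  | zero => exact div_nonneg hp.le hp'0.le
  | succ k =>
    exact mul_nonneg (mul_nonneg (div_nonneg hp.le hp'0.le) (by linarith))
      (pow_nonneg (by linarith) k)

private theorem conv_real {p p' : ℝ} (hp' : p' ≠ 0) (n : ℕ) :
    ∑ q ∈ Finset.HasAntidiagonal.antidiagonal n, p' * (1 - p') ^ q.1 * addW p p' q.2 = p * (1 - p) ^ n := by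
  induction n with
  | zero =>
    simp only [Finset.Nat.antidiagonal_zero, Finset.sum_singleton, pow_zero, mul_one, addW]
    field_simp
  | succ n ih =>
    rw [Finset.Nat.sum_antidiagonal_succ]
    have e : ∀ q : ℕ × ℕ, p' * (1 - p') ^ (q.1 + 1) * addW p p' q.2 =
        (1 - p') * (p' * (1 - p') ^ q.1 * addW p p' q.2) := by
      intro q; ring
    simp only [e]
    rw [← Finset.mul_sum, ih]
    simp only [pow_zero, mul_one, addW]
    field_simp
    ring

/-- The sum of the two holding times is geometric. -/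
theorem conv {p p' : ℝ} (hp : 0 < p) (hpp : p < p') (hp' : p' ≤ 1) :
    Measure.map (fun q : ℕ × ℕ => q.1 + q.2) ((geoLaw p').prod (addLaw p p')) = geoLaw p := by
  haveI := isProb_geoLaw (hp.trans hpp) hp'
  haveI := isProb_addLaw hp hpp hp'
  refine Measure.ext_of_singleton fun n => ?_
  rw [Measure.map_apply (Measurable.of_discrete) (measurableSet_singleton n), geoLaw_singleton]
  have e : (fun q : ℕ × ℕ => q.1 + q.2) ⁻¹' {n} =
      (Finset.HasAntidiagonal.antidiagonal n : Finset (ℕ × ℕ)) := by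
    ext q
    simp
  rw [e, ← sum_measure_singleton]
  have e2 : ∀ q : ℕ × ℕ, ((geoLaw p').prod (addLaw p p')) {q} =
      ENNReal.ofReal (p' * (1 - p') ^ q.1 * addW p p' q.2) := by
    rintro ⟨a, b⟩
    rw [← Set.singleton_prod_singleton, Measure.prod_prod, geoLaw_singleton, addLaw_singleton,
      ENNReal.ofReal_mul (mul_nonneg (hp.trans hpp).le (pow_nonneg (by linarith) a))]
  rw [Finset.sum_congr rfl fun q _ => e2 q, ← ENNReal.ofReal_sum_of_nonneg, conv_real]
  · exact (hp.trans hpp).ne'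
  · intro q _
    exact mul_nonneg (mul_nonneg (hp.trans hpp).le (pow_nonneg (by linarith) _))
      (addW_nonneg hp hpp hp' _)

private theorem entLaw_singleton {d : ℕ} {ν : Measure ℕ} {p p' : ℝ} (h : Par d ν p p')
    (e : Fin d × Bool) (b : ℕ) :
    entLaw d p p' {(e, 0, b)} = ENNReal.ofReal (1 / (2 * d) * (p' * addW p p' b)) := by
  haveI := isProb_dirLaw h.hd
  haveI := isProb_geoLaw (h.hp.trans h.hpp) h.hp'
  haveI := isProb_addLaw h.hp h.hpp h.hp'
  unfold entLaw
  rw [show ({(e, 0, b)} : Set (Ent d)) = {e} ×ˢ ({0} ×ˢ {b}) by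
      rw [Set.singleton_prod_singleton, Set.singleton_prod_singleton], Measure.prod_prod,
    Measure.prod_prod, dirLaw_singleton, geoLaw_singleton, addLaw_singleton, pow_zero, mul_one,
    ENNReal.ofReal_mul (by positivity), ENNReal.ofReal_mul (h.hp.trans h.hpp).le]

theorem entLaw_zero {d : ℕ} {ν : Measure ℕ} {p p' : ℝ} (h : Par d ν p p') (e : Fin d × Bool) :
    entLaw d p p' {(e, 0, 0)} = ENNReal.ofReal (p / (2 * d)) := by
  have hd' : (0 : ℝ) < d := by exact_mod_cast h.hd
  have hp'0 : 0 < p' := h.hp.trans h.hpp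
  rw [entLaw_singleton h]
  congr 1
  simp only [addW]
  field_simp

theorem entLaw_one {d : ℕ} {ν : Measure ℕ} {p p' : ℝ} (h : Par d ν p p') (e : Fin d × Bool) :
    entLaw d p p' {(e, 0, 1)} = ENNReal.ofReal (p / (2 * d) * (p' - p)) := by
  have hd' : (0 : ℝ) < d := by exact_mod_cast h.hd
  have hp'0 : 0 < p' := h.hp.trans h.hpp
  rw [entLaw_singleton h]
  congr 1
  simp only [addW, pow_zero, mul_one]
  field_simp

theorem map_entLaw_gP {d : ℕ} {ν : Measure ℕ} {p p' : ℝ} (h : Par d ν p p') :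
    Measure.map (fun e : Ent d => (e.1, gP e)) (entLaw d p p') = (dirLaw d).prod (geoLaw p) := by
  haveI := isProb_dirLaw h.hd
  haveI := isProb_geoLaw (h.hp.trans h.hpp) h.hp'
  haveI := isProb_addLaw h.hp h.hpp h.hp'
  rw [← conv h.hp h.hpp h.hp', entLaw]
  conv_rhs => rw [← Measure.map_id (μ := dirLaw d)]
  rw [Measure.map_prod_map _ _ measurable_id Measurable.of_discrete]
  rfl

theorem map_entLaw_gQ {d : ℕ} {ν : Measure ℕ} {p p' : ℝ} (h : Par d ν p p') :
    Measure.map (fun e : Ent d => (e.1, gQ e)) (entLaw d p p') = (dirLaw d).prod (geoLaw p') := by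
  haveI := isProb_dirLaw h.hd
  haveI := isProb_geoLaw (h.hp.trans h.hpp) h.hp'
  haveI := isProb_addLaw h.hp h.hpp h.hp'
  have e : Measure.map Prod.fst ((geoLaw p').prod (addLaw p p')) = geoLaw p' := by
    rw [Measure.map_fst_prod, measure_univ, one_smul]
  conv_rhs => rw [← e, ← Measure.map_id (μ := dirLaw d)]
  rw [Measure.map_prod_map _ _ measurable_id measurable_fst]
  rfl

theorem map_entLaw_fst {d : ℕ} {ν : Measure ℕ} {p p' : ℝ} (h : Par d ν p p') :
    Measure.map (fun e : Ent d => e.1) (entLaw d p p') = dirLaw d := by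
  haveI := isProb_dirLaw h.hd
  haveI := isProb_geoLaw (h.hp.trans h.hpp) h.hp'
  haveI := isProb_addLaw h.hp h.hpp h.hp'
  have e := Measure.map_fst_prod (μ := dirLaw d) (ν := (geoLaw p').prod (addLaw p p'))
  rw [measure_univ, one_smul] at e
  exact e

end Pool.Agent.Helper61.LF
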