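import Pool.Agent.Helper61.LF.Chain
import Pool.Agent.Helper61.LF.Law

/-!
Definitions for the shape in the internal model (no proofs here).
-/

namespace Pool.Agent.Helper61.LF

open MeasureTheory Filter
open scoped Pointwise

/-- The defining property of the shape, in the internal model with the clock `g`. -/
def ShapeI {d : ℕ} (g : Ent d → ℕ) (m : Measure (Om d)) (A : Set (Fin d → ℝ)) : Prop :=
  A.Nonempty ∧ Convex ℝ A ∧ ∀ ε ∈ Set.Ioo (0 : ℝ) 1, ∀ᵐ w ∂m, 1 ≤ (w 0).1 →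
    ∀ᶠ n : ℕ in atTop, (1 - ε) • A ⊆ (1 / (n : ℝ)) • bar {y | Rch g w 0 n y} ∧
      (1 / (n : ℝ)) • bar {y | Rch g w 0 n y} ⊆ (1 + ε) • A

/-- The site whose cube contains `n x`. -/
noncomputable def near {d : ℕ} (x : Fin d → ℝ) (n : ℕ) : Site d :=
  fun i => ⌈(n : ℝ) * x i - 1 / 2⌉

/-- Local control around the origin at the scale `K`. -/
def LocOK {d : ℕ} (C : Set (Fin d → ℝ)) (δ ρ : ℝ) (K : ℕ) (w : Om d) : Prop :=
  (∀ z : Site d, (∀ i, |z i| ≤ (⌊ρ * K⌋₊ : ℤ)) → Rch gP w 0 ⌊δ * K⌋₊ z) ∧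
    ∀ t, K ≤ t → ∀ z, Rch gP w 0 t z → ∃ v ∈ C, toR z = ((1 + δ) * t) • v

/-- A long ballistic frog at a site: it makes, in time `t ≥ r`, a displacement `≥ κ t`. -/
def BalSt {d : ℕ} (κ : ℝ) (r : ℕ) (st : St d) : Prop :=
  ∃ j < st.1, ∃ k, r ≤ tau gP (st.2 j) k ∧ κ * tau gP (st.2 j) k ≤ nrm (J (st.2 j) k)

/-- Sum of the durations of the long ballistic segments of a chain. -/
noncomputable def balSum {d : ℕ} (κ : ℝ) (R : ℕ) (w : Om d) (l : List (ℕ × ℕ)) : ℝ :=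
  ∑ i ∈ Finset.range l.length,
    if R < ts w l (i + 1) - ts w l i ∧
        κ * ((ts w l (i + 1) - ts w l i : ℕ) : ℝ) ≤ nrm (zs w l (i + 1) - zs w l i)
      then ((ts w l (i + 1) - ts w l i : ℕ) : ℝ) else 0

open Classical in
/-- The bad cells visited by the switching sites of a chain. -/
noncomputable def badC {d : ℕ} (C : Set (Fin d → ℝ)) (δ : ℝ) (s L K Km : ℕ) (w : Om d)
    (l : List (ℕ × ℕ)) : Finset (Site d) :=
  ((Finset.range l.length).image fun i => cellOf s (zs w l i)).filter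
    fun c => ¬ Good C δ s L K Km w c

/-- Coarse path: the increments are in `{-1, 0, 1}^d`. -/
def cpath {d m : ℕ} (γ : Fin m → Fin d → Fin 3) (k : ℕ) : Site d :=
  fun i => ∑ j : Fin m, if (j : ℕ) < k then ((γ j i : ℕ) : ℤ) - 1 else 0

/-- The cells at distance at most one of a coarse path. -/
def cnb {d m : ℕ} (γ : Fin m → Fin d → Fin 3) : Finset (Site d) :=
  (Finset.range (m + 1) ×ˢ (Finset.univ : Finset (Fin d → Fin 3))).image
    fun q => cpath γ q.1 + fun i => ((q.2 i : ℕ) : ℤ) - 1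

end Pool.Agent.Helper61.LF
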