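import Pool.Agent.Helper61.LF.Expand
import Pool.Agent.Helper61.LF.BridgeDet
import Pool.Agent.Helper61.LF.Meas
import Pool.Agent.Helper61.LF.Shape

/-!
Module LF-06 (Bridge). The internal configuration with the slow clock has, after `toConf gP`, the
law `law d ν p`, and after `toConf gQ` the law `law d ν p'`.

Proof. `toConf g` acts site by site as `id × (frog by frog steps g)`. `infinitePi_map_pi` for the
sites; for one site the image of `ν.prod (infinitePi pathLaw)` under `Prod.map id _` is
`ν.prod (infinitePi (map (steps g) pathLaw))` (`Measure.map_prod_map`, `infinitePi_map_pi`), and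
`map (steps g) pathLaw = infinitePi stepLaw` by `map_steps` with `map_entLaw_gP`, `map_entLaw_gQ`.
`shapeI_P`, `shapeI_Q`: `ae_of_ae_map` (measurability of `toConf`), and `disc_iff` rewrites the
discovered set; `(toConf g w 0).1 = (w 0).1`.
-/

namespace Pool.Agent.Helper61.LF

open MeasureTheory

private theorem map_toConf_gen {d : ℕ} {ν : Measure ℕ} {p p' : ℝ} (h : Par d ν p p')
    (g : Ent d → ℕ) {r : ℝ} (hr : 0 < r) (hr' : r ≤ 1)
    (hg : Measure.map (fun e : Ent d => (e.1, g e)) (entLaw d p p') =
      (dirLaw d).prod (geoLaw r)) :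
    Measure.map (toConf g) (mu d ν p p') = law d ν r := by
  have := h.hν
  have := h.isProb_entLaw
  have := h.isProb_pathLaw
  have := h.isProb_stLaw
  have := isProb_stepLaw h.hd hr hr'
  have hst : Measurable (steps g : Path d → ℕ → Site d) := measurable_steps g
  have hst' : Measurable fun (s : ℕ → Path d) (j : ℕ) => steps g (s j) :=
    measurable_pi_lambda _ fun j => hst.comp (measurable_pi_apply j)
  have e1 : Measure.map (fun (s : ℕ → Path d) (j : ℕ) => steps g (s j))
      (Measure.infinitePi fun _ : ℕ => pathLaw d p p') =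
      Measure.infinitePi fun _ : ℕ => Measure.infinitePi fun _ : ℕ => stepLaw d r := by
    have := Measure.infinitePi_map_pi (μ := fun _ : ℕ => pathLaw d p p')
      (f := fun _ : ℕ => (steps g : Path d → ℕ → Site d)) fun _ => hst
    rw [this]
    have hp : Measure.map (steps g) (pathLaw d p p') =
        Measure.infinitePi fun _ : ℕ => stepLaw d r :=
      map_steps h.hd hr hr' (entLaw d p p') g hg
    simp only [hp]
  have e2 : Measure.map (fun st : St d => (st.1, fun j => steps g (st.2 j))) (stLaw d ν p p') =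
      ν.prod (Measure.infinitePi fun _ : ℕ => Measure.infinitePi fun _ : ℕ => stepLaw d r) := by
    unfold stLaw
    have := Measure.map_prod_map (f := fun n : ℕ => n)
      (g := fun (s : ℕ → Path d) (j : ℕ) => steps g (s j)) ν
      (Measure.infinitePi fun _ : ℕ => pathLaw d p p') measurable_id hst'
    rw [e1] at this
    have hid : Measure.map (fun n : ℕ => n) ν = ν := Measure.map_id
    rw [hid] at this
    rw [this]
    rfl
  have hf : Measurable fun st : St d => ((st.1, fun j => steps g (st.2 j)) :
      ℕ × (ℕ → ℕ → Site d)) := measurable_fst.prodMk (hst'.comp measurable_snd)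
  have e3 := Measure.infinitePi_map_pi (μ := fun _ : Site d => stLaw d ν p p')
    (f := fun _ : Site d => fun st : St d => ((st.1, fun j => steps g (st.2 j)) :
      ℕ × (ℕ → ℕ → Site d))) fun _ => hf
  unfold mu law
  have e4 : (toConf g : Om d → Conf d) = fun w i => ((w i).1, fun j => steps g ((w i).2 j)) := rfl
  rw [e4, e3]
  simp only [e2]

theorem map_toConf_gP {d : ℕ} {ν : Measure ℕ} {p p' : ℝ} (h : Par d ν p p') :
    Measure.map (toConf gP) (mu d ν p p') = law d ν p :=
  map_toConf_gen h gP h.hp (h.hpp.le.trans h.hp') (map_entLaw_gP h)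

theorem map_toConf_gQ {d : ℕ} {ν : Measure ℕ} {p p' : ℝ} (h : Par d ν p p') :
    Measure.map (toConf gQ) (mu d ν p p') = law d ν p' :=
  map_toConf_gen h gQ (h.hp.trans h.hpp) h.hp' (map_entLaw_gQ h)

private theorem shapeI_gen {d : ℕ} {m : Measure (Om d)} {ν : Measure ℕ} {r : ℝ} (g : Ent d → ℕ)
    (hm : Measure.map (toConf g) m = law d ν r) {A : Set (Fin d → ℝ)} (hA : IsShape ν r A) :
    ShapeI g m A := by
  obtain ⟨h1, h2, h3⟩ := hA
  refine ⟨h1, h2, fun ε hε => ?_⟩
  have h4 := h3 ε hε
  rw [← hm] at h4
  have h5 := ae_of_ae_map (measurable_toConf g).aemeasurable h4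
  filter_upwards [h5] with w hw hw1
  have h6 := hw hw1
  have h7 : ∀ n, {y | Disc (toConf g w) n y} = {y | Rch g w 0 n y} := fun n => by
    ext y
    exact disc_iff g w n y
  simpa only [h7] using h6

theorem shapeI_P {d : ℕ} {ν : Measure ℕ} {p p' : ℝ} (h : Par d ν p p') {A : Set (Fin d → ℝ)}
    (hA : IsShape ν p A) : ShapeI gP (mu d ν p p') A :=
  shapeI_gen gP (map_toConf_gP h) hA

theorem shapeI_Q {d : ℕ} {ν : Measure ℕ} {p p' : ℝ} (h : Par d ν p p') {A : Set (Fin d → ℝ)}
    (hA : IsShape ν p' A) : ShapeI gQ (mu d ν p p') A :=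
  shapeI_gen gQ (map_toConf_gQ h) hA

end Pool.Agent.Helper61.LF
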