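import Pool.Agent.Helper61.LF.Meas
import Pool.Agent.Helper61.LF.Law

/-!
Module LF-25 (Upd). Resampling the path of one frog preserves the law; straight paths.

* `map_update`: for a box over a finset `T` with sides `t i` (`eq_infinitePi`), if `a ∉ T` the preimage is
  the box times everything; if `a ∈ T` it is the product of the box over `T \ {a}` and of the event
  `F (w a, y) ∈ t a`, which are independent: evaluate with Fubini in `y`: for fixed `y` the
  preimage is a box in `w` with the side `{x | F (x, y) ∈ t a}` at `a`, of measure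
  `Π_{i ∈ T \ {a}} P (t i) * P {x | F (x, y) ∈ t a}`; integrate over `y` and use `hF`.
* `upd_law`: `upd w x j s = Function.update w x (F (w x, s))` with
  `F ((k, f), s) = (k, Function.update f j s)`, and `F` maps `(stLaw).prod pathLaw` to `stLaw` by
  `map_update` for the paths (with `F (_, s) = s`) and the product with `ν` (rearrange
  `(ν.prod I).prod Q` to `ν.prod (I.prod Q)`).
* `straight_tau`: the sum of the `gP + 1` is `2 + (nrm v - 1)`.
* `straight_prob`: choose a list of `m = nrm v ≥ 1` directions `e 0, …, e (m-1)` with sum of the unit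
  vectors `v` (induction on `nrm v`: if `v i > 0` subtract the unit vector `i`, if `v i < 0` add
  it). The set contains the box `{s | s 0 = (e 0, 0, 1), s k = (e k, 0, 0) for 1 ≤ k < m}`, of measure
  `(p/(2d)) (p'-p) (p/(2d))^(m-1)` (`infinitePi_pi`, `entLaw_zero`, `entLaw_one`).
-/

namespace Pool.Agent.Helper61.LF

open MeasureTheory

open Classical in
theorem map_update {κ X Y : Type*} [MeasurableSpace X] [MeasurableSpace Y] (P : Measure X)
    [IsProbabilityMeasure P] (Q : Measure Y) [IsProbabilityMeasure Q] (a : κ) {F : X × Y → X}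
    (hFm : Measurable F) (hF : Measure.map F (P.prod Q) = P) :
    Measure.map (fun q : (κ → X) × Y => Function.update q.1 a (F (q.1 a, q.2)))
      ((Measure.infinitePi fun _ : κ => P).prod Q) = Measure.infinitePi fun _ : κ => P := by
  have hG : Measurable (fun q : (κ → X) × Y => Function.update q.1 a (F (q.1 a, q.2))) := by
    refine measurable_pi_lambda _ fun i => ?_
    by_cases hi : i = a
    · subst hi
      simp only [Function.update_self]
      exact hFm.comp (((measurable_pi_apply i).comp measurable_fst).prodMk measurable_snd)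
    · simp only [Function.update_of_ne hi]
      exact (measurable_pi_apply i).comp measurable_fst
  refine Measure.eq_infinitePi _ fun s t ht => ?_
  have hms : MeasurableSet (Set.pi (s : Set κ) t) :=
    MeasurableSet.pi s.countable_toSet fun i _ => ht i
  rw [Measure.map_apply hG hms, Measure.prod_apply_symm (hG hms)]
  have hsec : ∀ y : Y, (fun w : κ → X => (w, y)) ⁻¹'
      ((fun q : (κ → X) × Y => Function.update q.1 a (F (q.1 a, q.2))) ⁻¹' Set.pi (s : Set κ) t) =
      Set.pi (s : Set κ) (fun i => if i = a then {x | F (x, y) ∈ t a} else t i) := by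
    intro y
    ext w
    simp only [Set.mem_preimage, Set.mem_pi]
    refine forall₂_congr fun i _ => ?_
    by_cases hi : i = a
    · subst hi
      simp
    · simp [hi]
  have hmy : ∀ y : Y, MeasurableSet {x | F (x, y) ∈ t a} := fun y =>
    (hFm.comp measurable_prodMk_right) (ht a)
  have hv : ∀ y : Y, (Measure.infinitePi fun _ : κ => P)
      (Set.pi (s : Set κ) (fun i => if i = a then {x | F (x, y) ∈ t a} else t i)) =
      ∏ i ∈ s, P (if i = a then {x | F (x, y) ∈ t a} else t i) := by
    intro y
    refine Measure.infinitePi_pi _ fun i _ => ?_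
    split_ifs
    · exact hmy y
    · exact ht i
  have hprod : ∀ y : Y, (Measure.infinitePi fun _ : κ => P) ((fun w : κ → X => (w, y)) ⁻¹'
      ((fun q : (κ → X) × Y => Function.update q.1 a (F (q.1 a, q.2))) ⁻¹' Set.pi (s : Set κ) t)) =
      ∏ i ∈ s, P (if i = a then {x | F (x, y) ∈ t a} else t i) := fun y => by
    rw [hsec y, hv y]
  rw [lintegral_congr hprod]
  by_cases ha : a ∈ s
  · have h1 : ∀ y : Y, ∏ i ∈ s, P (if i = a then {x | F (x, y) ∈ t a} else t i) =
        P {x | F (x, y) ∈ t a} * ∏ i ∈ s.erase a, P (t i) := by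
      intro y
      rw [← Finset.mul_prod_erase s _ ha, if_pos rfl]
      congr 1
      refine Finset.prod_congr rfl fun i hi => ?_
      rw [if_neg (Finset.ne_of_mem_erase hi)]
    rw [lintegral_congr h1]
    have h2 : Measurable fun y : Y => P {x | F (x, y) ∈ t a} :=
      measurable_measure_prodMk_right (hFm (ht a))
    rw [lintegral_mul_const _ h2]
    have h3 : ∫⁻ y, P {x | F (x, y) ∈ t a} ∂Q = P (t a) := by
      conv_rhs => rw [← hF, Measure.map_apply hFm (ht a), Measure.prod_apply_symm (hFm (ht a))]
      rfl
    rw [h3, Finset.mul_prod_erase s (fun i => P (t i)) ha]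
  · have h1 : ∀ y : Y, ∏ i ∈ s, P (if i = a then {x | F (x, y) ∈ t a} else t i) =
        ∏ i ∈ s, P (t i) := by
      intro y
      refine Finset.prod_congr rfl fun i hi => ?_
      rw [if_neg (fun h : i = a => ha (h ▸ hi))]
    rw [lintegral_congr h1]
    simp

private theorem update_inst {κ X : Type*} (i1 i2 : DecidableEq κ) (f : κ → X) (a : κ) (v : X) :
    @Function.update κ (fun _ => X) i1 f a v = @Function.update κ (fun _ => X) i2 f a v := by
  rw [Subsingleton.elim i1 i2]

theorem upd_law {d : ℕ} {ν : Measure ℕ} {p p' : ℝ} (h : Par d ν p p') (x : Site d) (j : ℕ) :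
    Measure.map (fun q : Om d × Path d => upd q.1 x j q.2)
      ((mu d ν p p').prod (pathLaw d p p')) = mu d ν p p' := by
  haveI := h.hν
  haveI := h.isProb_pathLaw
  haveI := h.isProb_stLaw
  haveI := h.isProb_mu
  have hG1 : Measure.map (fun q : (ℕ → Path d) × Path d => Function.update q.1 j q.2)
      ((Measure.infinitePi fun _ : ℕ => pathLaw d p p').prod (pathLaw d p p')) =
      Measure.infinitePi fun _ : ℕ => pathLaw d p p' := by
    have h1 := map_update (κ := ℕ) (pathLaw d p p') (pathLaw d p p') j
      (F := fun q : Path d × Path d => q.2) measurable_snd (by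
        have := Measure.map_snd_prod (μ := pathLaw d p p') (ν := pathLaw d p p')
        rw [measure_univ, one_smul] at this
        exact this)
    convert h1 using 3
    exact update_inst _ _ _ _ _
  have hGm : Measurable (fun q : (ℕ → Path d) × Path d => Function.update q.1 j q.2) := by
    refine measurable_pi_lambda _ fun i => ?_
    by_cases hi : i = j
    · subst hi
      simp only [Function.update_self]
      exact measurable_snd
    · simp only [Function.update_of_ne hi]
      exact (measurable_pi_apply i).comp measurable_fst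
  have hFm : Measurable (fun q : St d × Path d => ((q.1.1, Function.update q.1.2 j q.2) : St d)) :=
    (measurable_fst.comp measurable_fst).prodMk
      (hGm.comp ((measurable_snd.comp measurable_fst).prodMk measurable_snd))
  have hF : Measure.map (fun q : St d × Path d => ((q.1.1, Function.update q.1.2 j q.2) : St d))
      ((stLaw d ν p p').prod (pathLaw d p p')) = stLaw d ν p p' := by
    have h1 : (fun q : St d × Path d => ((q.1.1, Function.update q.1.2 j q.2) : St d)) =
        (Prod.map id (fun q : (ℕ → Path d) × Path d => Function.update q.1 j q.2)) ∘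
          (MeasurableEquiv.prodAssoc : (ℕ × (ℕ → Path d)) × Path d ≃ᵐ _) := by
      funext q
      rfl
    rw [h1, ← Measure.map_map (measurable_id.prodMap hGm) (MeasurableEquiv.measurable _)]
    have h2 : Measure.map (MeasurableEquiv.prodAssoc : (ℕ × (ℕ → Path d)) × Path d ≃ᵐ _)
        ((stLaw d ν p p').prod (pathLaw d p p')) =
        ν.prod ((Measure.infinitePi fun _ : ℕ => pathLaw d p p').prod (pathLaw d p p')) := by
      unfold stLaw
      exact Measure.prodAssoc_prod
    rw [h2, ← Measure.map_prod_map _ _ measurable_id hGm, Measure.map_id, hG1]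
    rfl
  have h3 := map_update (κ := Site d) (stLaw d ν p p') (pathLaw d p p') x hFm hF
  unfold mu
  convert h3 using 3
  exact update_inst _ _ _ _ _

/-- A straight path to `v` with exactly one unit of additional holding time, at the beginning. -/
def Straight {d : ℕ} (v : Site d) (s : Path d) : Prop :=
  J s (nrm v) = v ∧ (s 0).2 = (0, 1) ∧ ∀ k, 1 ≤ k → k < nrm v → (s k).2 = (0, 0)

theorem measurableSet_Straight {d : ℕ} (v : Site d) : MeasurableSet {s : Path d | Straight v s} := by
  have h1 : MeasurableSet {s : Path d | J s (nrm v) = v} :=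
    (measurable_J (nrm v)) (measurableSet_singleton v)
  have h2 : ∀ k (c : ℕ × ℕ), MeasurableSet {s : Path d | (s k).2 = c} := fun k c =>
    (measurable_snd.comp (measurable_pi_apply k)) (measurableSet_singleton c)
  have h3 : MeasurableSet {s : Path d | ∀ k, 1 ≤ k → k < nrm v → (s k).2 = (0, 0)} := by
    simp only [Set.ofPred_forall]
    exact MeasurableSet.iInter fun k => MeasurableSet.iInter fun _ => MeasurableSet.iInter
      fun _ => h2 k _
  exact h1.inter ((h2 0 _).inter h3)

private theorem nrm_pos {d : ℕ} {v : Site d} (hv : v ≠ 0) : 1 ≤ nrm v := by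
  by_contra h
  apply hv
  have h0 : nrm v = 0 := by omega
  unfold nrm at h0
  rw [Finset.sum_eq_zero_iff] at h0
  funext i
  have := h0 i (Finset.mem_univ i)
  simpa using this

theorem straight_tau {d : ℕ} {v : Site d} (hv : v ≠ 0) {s : Path d} (hs : Straight v s) :
    tau gP s (nrm v) = nrm v + 1 := by
  have hn := nrm_pos hv
  obtain ⟨_, h0, h1⟩ := hs
  unfold tau
  obtain ⟨m, hm⟩ : ∃ m, nrm v = m + 1 := ⟨nrm v - 1, by omega⟩
  rw [hm, Finset.sum_range_succ']
  have e0 : gP (s 0) = 1 := by
    unfold gP
    simp [h0]
  rw [e0, Finset.sum_congr rfl (g := fun _ => 1)]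
  · simp
  · intro k hk
    rw [Finset.mem_range] at hk
    have := h1 (k + 1) (by omega) (by omega)
    unfold gP
    simp [this]

private theorem exists_dirs {d : ℕ} (e₀ : Fin d × Bool) : ∀ (n : ℕ) (v : Site d), nrm v = n →
    ∃ e : ℕ → Fin d × Bool, ∑ k ∈ Finset.range n, vec (e k) = v := by
  intro n
  induction n with
  | zero =>
    intro v hv
    refine ⟨fun _ => e₀, ?_⟩
    by_contra h
    have h2 : v ≠ 0 := fun h3 => h (by rw [h3]; rfl)
    have := nrm_pos h2
    omega
  | succ n ih =>
    intro v hv
    have hne : ∃ i, v i ≠ 0 := by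
      by_contra hcon
      push Not at hcon
      have : nrm v = 0 := by
        unfold nrm
        exact Finset.sum_eq_zero fun i _ => by rw [hcon i]; rfl
      omega
    obtain ⟨i, hi⟩ := hne
    obtain ⟨b, hb⟩ : ∃ b : Bool, (v i - (if b then (1 : ℤ) else -1)).natAbs + 1 = (v i).natAbs := by
      rcases lt_or_gt_of_ne hi with h | h
      · exact ⟨false, by simp only [Bool.false_eq_true, if_false]; omega⟩
      · exact ⟨true, by simp only [if_true]; omega⟩
    have hn : nrm (v - vec (i, b)) = n := by
      unfold nrm at hv ⊢
      rw [← Finset.add_sum_erase _ _ (Finset.mem_univ i)] at hv ⊢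
      have e1 : ((v - vec (i, b)) i) = v i - (if b then (1 : ℤ) else -1) := by
        simp [vec]
      have e2 : ∀ j ∈ Finset.univ.erase i, ((v - vec (i, b)) j).natAbs = (v j).natAbs := by
        intro j hj
        have hj' := Finset.ne_of_mem_erase hj
        simp [vec, hj']
      rw [e1, Finset.sum_congr rfl e2]
      omega
    obtain ⟨e, he⟩ := ih _ hn
    refine ⟨fun k => if k < n then e k else (i, b), ?_⟩
    rw [Finset.sum_range_succ]
    have e3 : ∑ k ∈ Finset.range n, vec (if k < n then e k else (i, b)) =
        ∑ k ∈ Finset.range n, vec (e k) := by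
      refine Finset.sum_congr rfl fun k hk => ?_
      rw [if_pos (Finset.mem_range.1 hk)]
    have e4 : (if n < n then e n else (i, b)) = (i, b) := if_neg (lt_irrefl n)
    have e5 : ∑ k ∈ Finset.range n, vec ((fun k => if k < n then e k else (i, b)) k) +
        vec ((fun k => if k < n then e k else (i, b)) n) =
        ∑ k ∈ Finset.range n, vec (if k < n then e k else (i, b)) +
        vec (if n < n then e n else (i, b)) := rfl
    rw [e5, e3, he, e4]
    abel

theorem straight_prob {d : ℕ} {ν : Measure ℕ} {p p' : ℝ} (h : Par d ν p p') {v : Site d}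
    (hv : v ≠ 0) :
    ENNReal.ofReal ((p / (2 * d)) ^ nrm v * (p' - p)) ≤ pathLaw d p p' {s | Straight v s} := by
  haveI := h.isProb_entLaw
  have hn := nrm_pos hv
  have hd := h.hd
  have hp := h.hp
  have hpp := h.hpp
  have hd' : (0 : ℝ) < d := by exact_mod_cast hd
  obtain ⟨e, he⟩ := exists_dirs ((⟨0, by omega⟩, true) : Fin d × Bool) (nrm v) v rfl
  obtain ⟨m, hm⟩ : ∃ m, nrm v = m + 1 := ⟨nrm v - 1, by omega⟩
  have hsub : Set.pi (Finset.range (nrm v) : Set ℕ)
      (fun k => ({(e k, 0, if k = 0 then 1 else 0)} : Set (Ent d))) ⊆ {s | Straight v s} := by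
    intro s hs
    rw [Set.mem_pi] at hs
    have hs' : ∀ k, k < nrm v → s k = (e k, 0, if k = 0 then 1 else 0) := fun k hk =>
      hs k (by simpa using hk)
    refine ⟨?_, ?_, ?_⟩
    · unfold J
      conv_rhs => rw [← he]
      refine Finset.sum_congr rfl fun k hk => ?_
      rw [hs' k (Finset.mem_range.1 hk)]
    · rw [hs' 0 (by omega), if_pos rfl]
    · intro k h1 h2
      rw [hs' k h2, if_neg (by omega)]
  refine le_trans ?_ (measure_mono hsub)
  unfold pathLaw
  rw [Measure.infinitePi_pi _ fun i _ => measurableSet_singleton _, hm, Finset.prod_range_succ']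
  have e1 : ∀ k ∈ Finset.range m, entLaw d p p' {(e (k + 1), 0, if k + 1 = 0 then 1 else 0)} =
      ENNReal.ofReal (p / (2 * d)) := by
    intro k _
    rw [if_neg (by omega), entLaw_zero h]
  rw [Finset.prod_congr rfl e1, if_pos rfl, entLaw_one h, Finset.prod_const, Finset.card_range,
    ← ENNReal.ofReal_pow (by positivity), ← ENNReal.ofReal_mul (by positivity)]
  apply le_of_eq
  congr 1
  ring

end Pool.Agent.Helper61.LF
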