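import Pool.Agent.Helper61.LF.CFW
import Pool.Agent.Helper61.LF.Upd

/-!
Module LF-32 (CFSum). Expected total weight of the self-avoiding chains.

Write `m = (∫ n dν) Σ_k q^(k+1)`. For a list `l` call the chain from `x` self-avoiding if
`((uses w x l).map Prod.fst).Nodup`. Prove by induction on `N`, for all finite sets `S` and all `x ∉ S`:
the integral of the sum over the lists `l` of length `N` with `ok w x l`, switching sites
(`(uses w x l).map Prod.fst`) without repetition and not in `S`, of
`wt s θ u (dur gQ w x l) (ep w x l - x)` is at most `m^N`. `N = 0`: only the empty list, weight `1`.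
Step: a list of length `N + 1` is `(j, k) :: l'`; with `y = x + J ((w x).2 j) (k+1)` the weight is
`wt (tau …) (J …) * wt (dur gQ w y l') (ep w y l' - y)` (`wt_mul`, `nrm_J_le`, `le_tau`,
`nrm_ep_sub_le`), and the chain `l'` from `y` avoids `S ∪ {x}`; for `N = 0` there is no condition on
`y`, and for `N ≥ 1` the site `y` itself is a switching site, so `y ∉ S ∪ {x}` (otherwise the term is
`0`). The sum over `l'` does not depend on `w x` (a chain whose switching sites are different from `x`
does not look at `w x`). By `map_update` with `F (_, st) = st` the integral of a function `f w` is the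
double integral of `f (Function.update w x st)`; integrate over `w` first, use the induction hypothesis
for each value of `y` (sum over `y`), then over `st` with `site_sum`: the result is at most `m * m^N`.
Finally sum over `N` (`Σ m^N = (1 - m)⁻¹`, `ENNReal.tsum_geometric`) with `S = ∅`, `x = 0`; the lists are the
disjoint union over their lengths.
-/

namespace Pool.Agent.Helper61.LF

open MeasureTheory

private theorem mcomp' {Ω Z β : Type*} [MeasurableSpace Ω] [MeasurableSpace Z] [Countable Z]
    [MeasurableSingletonClass Z] [MeasurableSpace β] {F : Ω → Z → β} {G : Ω → Z}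
    (hF : ∀ z, Measurable fun w => F w z) (hG : Measurable G) :
    Measurable fun w => F w (G w) := by
  intro s hs
  have : (fun w => F w (G w)) ⁻¹' s = ⋃ z, (G ⁻¹' {z}) ∩ ((fun w => F w z) ⁻¹' s) := by
    ext w
    simp
  rw [this]
  exact MeasurableSet.iUnion fun z => (hG (measurableSet_singleton z)).inter (hF z hs)

private theorem update_inst' {κ X : Type*} (i1 i2 : DecidableEq κ) (f : κ → X) (a : κ) (v : X) :
    @Function.update κ (fun _ => X) i1 f a v = @Function.update κ (fun _ => X) i2 f a v := by
  rw [Subsingleton.elim i1 i2]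

open Classical in
/-- Total weight of the self-avoiding chains of length `N` from `x` whose switching sites are not
in `S`. -/
private noncomputable def A {d : ℕ} (s : Fin d → Bool) (θ u : ℝ) :
    ℕ → Set (Site d) → Site d → Om d → ENNReal
  | 0, _, _, _ => 1
  | N + 1, S, x, w => if x ∈ S then 0 else ∑' j : ℕ, ∑' k : ℕ, (if j < (w x).1 then
      wt s θ u (tau gQ ((w x).2 j) (k + 1)) (J ((w x).2 j) (k + 1)) *
        A s θ u N (insert x S) (x + J ((w x).2 j) (k + 1)) w else 0)

/-- Weight of one segment. -/
private noncomputable def sg {d : ℕ} (s : Fin d → Bool) (θ u : ℝ) (j k : ℕ) (st : St d) :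
    ENNReal :=
  if j < st.1 then wt s θ u (tau gQ (st.2 j) (k + 1)) (J (st.2 j) (k + 1)) else 0

private theorem A_succ {d : ℕ} (s : Fin d → Bool) (θ u : ℝ) (N : ℕ) {S : Set (Site d)}
    {x : Site d} (hx : x ∉ S) (w : Om d) :
    A s θ u (N + 1) S x w = ∑' j : ℕ, ∑' k : ℕ, sg s θ u j k (w x) *
      A s θ u N (insert x S) (x + J ((w x).2 j) (k + 1)) w := by
  rw [A, if_neg hx]
  refine tsum_congr fun j => tsum_congr fun k => ?_
  unfold sg
  split_ifs
  · rfl
  · rw [zero_mul]

private theorem A_mem {d : ℕ} (s : Fin d → Bool) (θ u : ℝ) (N : ℕ) {S : Set (Site d)}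
    {x : Site d} (hx : x ∈ S) (w : Om d) : A s θ u (N + 1) S x w = 0 := by
  rw [A, if_pos hx]

private theorem measurable_sg {d : ℕ} (s : Fin d → Bool) (θ u : ℝ) (j k : ℕ) :
    Measurable (sg s θ u j k : St d → ENNReal) := by
  unfold sg
  have hf : Measurable fun st : St d => st.2 j := (measurable_pi_apply j).comp measurable_snd
  refine Measurable.ite (measurableSet_lt measurable_const measurable_fst) ?_ measurable_const
  have h1 : Measurable fun q : ℕ × Site d => wt s θ u q.1 q.2 := measurable_of_countable _
  exact h1.comp (((measurable_tau gQ (k + 1)).comp hf).prodMk ((measurable_J (k + 1)).comp hf))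

private theorem measurable_A {d : ℕ} (s : Fin d → Bool) (θ u : ℝ) (N : ℕ) :
    ∀ (S : Set (Site d)) (x : Site d), Measurable (A s θ u N S x) := by
  induction N with
  | zero =>
    intro S x
    have : A s θ u 0 S x = fun _ => 1 := by
      funext w
      rw [A]
    rw [this]
    exact measurable_const
  | succ N ih =>
    intro S x
    by_cases hx : x ∈ S
    · have : A s θ u (N + 1) S x = fun _ => 0 := by
        funext w
        exact A_mem s θ u N hx w
      rw [this]
      exact measurable_const
    · have : A s θ u (N + 1) S x = fun w => ∑' j : ℕ, ∑' k : ℕ, sg s θ u j k (w x) *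
          A s θ u N (insert x S) (x + J ((w x).2 j) (k + 1)) w := by
        funext w
        exact A_succ s θ u N hx w
      rw [this]
      refine Measurable.tsum fun j => Measurable.tsum fun k => ?_
      have hw : Measurable fun w : Om d => w x := measurable_pi_apply x
      have hf : Measurable fun w : Om d => (w x).2 j :=
        (measurable_pi_apply j).comp (measurable_snd.comp hw)
      refine ((measurable_sg s θ u j k).comp hw).mul ?_
      exact mcomp' (F := fun w y => A s θ u N (insert x S) y w) (fun y => ih _ y)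
        (measurable_const.add ((measurable_J (k + 1)).comp hf))

private theorem A_congr {d : ℕ} (s : Fin d → Bool) (θ u : ℝ) (N : ℕ) :
    ∀ (S : Set (Site d)) (x : Site d) (w w' : Om d), (∀ z, z ∉ S → w z = w' z) →
      A s θ u N S x w = A s θ u N S x w' := by
  induction N with
  | zero =>
    intro S x w w' _
    rw [A, A]
  | succ N ih =>
    intro S x w w' h
    by_cases hx : x ∈ S
    · rw [A_mem s θ u N hx, A_mem s θ u N hx]
    · rw [A_succ s θ u N hx, A_succ s θ u N hx, h x hx]
      refine tsum_congr fun j => tsum_congr fun k => ?_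
      congr 1
      exact ih _ _ _ _ fun z hz => h z fun hz' => hz (Set.mem_insert_of_mem _ hz')

private theorem wt_zero {d : ℕ} (s : Fin d → Bool) (θ u : ℝ) : wt s θ u 0 (0 : Site d) = 1 := by
  unfold wt
  have : psi s (0 : Site d) = 0 := by
    unfold psi
    simp
  rw [this]
  simp

open Classical in
/-- The weight of a list in the sum over the lists of length `N`. -/
private noncomputable def lw {d : ℕ} (s : Fin d → Bool) (θ u : ℝ) (N : ℕ) (S : Set (Site d))
    (x : Site d) (w : Om d) (l : List (ℕ × ℕ)) : ENNReal :=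
  if l.length = N ∧ ok w x l ∧ ((uses w x l).map Prod.fst).Nodup ∧
    (∀ z ∈ (uses w x l).map Prod.fst, z ∉ S) then wt s θ u (dur gQ w x l) (ep w x l - x) else 0

private theorem lw_cons {d : ℕ} (s : Fin d → Bool) {θ u : ℝ} (hθ : 1 ≤ θ) (hu : 0 < u) (N : ℕ)
    (S : Set (Site d)) (x : Site d) (w : Om d) (j k : ℕ) (l : List (ℕ × ℕ)) (hx : x ∉ S) :
    lw s θ u (N + 1) S x w ((j, k) :: l) = sg s θ u j k (w x) *
      lw s θ u N (insert x S) (x + J ((w x).2 j) (k + 1)) w l := by
  classical
  have hdur : dur gQ w x ((j, k) :: l) =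
      tau gQ ((w x).2 j) (k + 1) + dur gQ w (x + J ((w x).2 j) (k + 1)) l := rfl
  have hep : ep w x ((j, k) :: l) = ep w (x + J ((w x).2 j) (k + 1)) l := rfl
  have hok : ok w x ((j, k) :: l) ↔ j < (w x).1 ∧ ok w (x + J ((w x).2 j) (k + 1)) l := Iff.rfl
  have huses : (uses w x ((j, k) :: l)).map Prod.fst =
      x :: (uses w (x + J ((w x).2 j) (k + 1)) l).map Prod.fst := rfl
  unfold lw sg
  by_cases hj : j < (w x).1
  · rw [if_pos hj]
    by_cases hc : l.length = N ∧ ok w (x + J ((w x).2 j) (k + 1)) l ∧
        ((uses w (x + J ((w x).2 j) (k + 1)) l).map Prod.fst).Nodup ∧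
        (∀ z ∈ (uses w (x + J ((w x).2 j) (k + 1)) l).map Prod.fst, z ∉ insert x S)
    · rw [if_pos hc]
      obtain ⟨h1, h2, h3, h4⟩ := hc
      rw [if_pos]
      · rw [hdur, hep]
        have e1 : ep w (x + J ((w x).2 j) (k + 1)) l - x = J ((w x).2 j) (k + 1) +
            (ep w (x + J ((w x).2 j) (k + 1)) l - (x + J ((w x).2 j) (k + 1))) := by abel
        rw [e1]
        exact wt_mul s (by linarith) hu.le ((nrm_J_le _ _).trans (le_tau _ _ _))
          (nrm_ep_sub_le _ _ _ _)
      · refine ⟨?_, ?_, ?_, ?_⟩
        · rw [List.length_cons, h1]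
        · exact hok.2 ⟨hj, h2⟩
        · rw [huses, List.nodup_cons]
          exact ⟨fun hm => h4 x hm (Set.mem_insert _ _), h3⟩
        · rw [huses]
          intro z hz hzS
          rcases List.mem_cons.1 hz with rfl | hz
          · exact hx hzS
          · exact h4 z hz (Set.mem_insert_of_mem _ hzS)
    · rw [if_neg hc, mul_zero, if_neg]
      rintro ⟨h1, h2, h3, h4⟩
      apply hc
      rw [huses] at h3 h4
      refine ⟨?_, (hok.1 h2).2, (List.nodup_cons.1 h3).2, ?_⟩
      · rw [List.length_cons] at h1
        omega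
      · intro z hz hzS
        rcases Set.mem_insert_iff.1 hzS with rfl | hzS
        · exact (List.nodup_cons.1 h3).1 hz
        · exact h4 z (List.mem_cons_of_mem _ hz) hzS
  · rw [if_neg hj, zero_mul, if_neg]
    rintro ⟨_, h2, _, _⟩
    exact hj (hok.1 h2).1

private theorem lw_sum {d : ℕ} (s : Fin d → Bool) {θ u : ℝ} (hθ : 1 ≤ θ) (hu : 0 < u) (N : ℕ) :
    ∀ (S : Set (Site d)) (x : Site d) (w : Om d),
      ∑' l : List (ℕ × ℕ), lw s θ u N S x w l ≤ A s θ u N S x w := by
  classical
  induction N with
  | zero =>
    intro S x w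
    rw [tsum_eq_single ([] : List (ℕ × ℕ)), A]
    · unfold lw
      split_ifs
      · have e1 : dur gQ w x [] = 0 := rfl
        have e2 : ep w x [] - x = 0 := sub_self x
        rw [e1, e2, wt_zero]
      · exact zero_le
    · intro l hl
      unfold lw
      rw [if_neg]
      rintro ⟨h1, _⟩
      exact hl (List.length_eq_zero_iff.1 h1)
  | succ N ih =>
    intro S x w
    have hinj : Function.Injective fun q : (ℕ × ℕ) × List (ℕ × ℕ) => q.1 :: q.2 := by
      intro a b hab
      have := List.cons.inj hab
      exact Prod.ext this.1 this.2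
    have hsupp : Function.support (lw s θ u (N + 1) S x w) ⊆
        Set.range fun q : (ℕ × ℕ) × List (ℕ × ℕ) => q.1 :: q.2 := by
      intro l hl
      rcases l with _ | ⟨a, l⟩
      · exfalso
        apply hl
        unfold lw
        rw [if_neg]
        rintro ⟨h1, _⟩
        simp at h1
      · exact ⟨(a, l), rfl⟩
    rw [← hinj.tsum_eq hsupp, ENNReal.tsum_prod', ENNReal.tsum_prod']
    by_cases hx : x ∈ S
    · rw [A_mem s θ u N hx]
      have h0 : ∀ (j k : ℕ) (l : List (ℕ × ℕ)), lw s θ u (N + 1) S x w ((j, k) :: l) = 0 := by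
        intro j k l
        unfold lw
        rw [if_neg]
        rintro ⟨_, _, _, h4⟩
        exact h4 x List.mem_cons_self hx
      simp only [h0, tsum_zero, le_refl]
    · rw [A_succ s θ u N hx]
      refine ENNReal.tsum_le_tsum fun j => ENNReal.tsum_le_tsum fun k => ?_
      have h1 : ∀ l : List (ℕ × ℕ), lw s θ u (N + 1) S x w ((j, k) :: l) =
          sg s θ u j k (w x) * lw s θ u N (insert x S) (x + J ((w x).2 j) (k + 1)) w l :=
        fun l => lw_cons s hθ hu N S x w j k l hx
      calc ∑' l : List (ℕ × ℕ), lw s θ u (N + 1) S x w ((j, k) :: l)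
          = ∑' l : List (ℕ × ℕ), sg s θ u j k (w x) *
              lw s θ u N (insert x S) (x + J ((w x).2 j) (k + 1)) w l := tsum_congr h1
        _ = sg s θ u j k (w x) * ∑' l : List (ℕ × ℕ),
              lw s θ u N (insert x S) (x + J ((w x).2 j) (k + 1)) w l := ENNReal.tsum_mul_left
        _ ≤ _ := mul_le_mul_right (ih _ _ _) _

private theorem int_A {d : ℕ} {ν : Measure ℕ} {p p' : ℝ} (h : Par d ν p p') (s : Fin d → Bool)
    {θ u : ℝ} (hθ : 1 ≤ θ) (hu : 0 < u) (N : ℕ) : ∀ (S : Set (Site d)) (x : Site d),
    ∫⁻ w, A s θ u N S x w ∂(mu d ν p p') ≤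
      ((∫⁻ n : ℕ, (n : ENNReal) ∂ν) * ∑' k : ℕ, qw d p p' s θ u ^ (k + 1)) ^ N := by
  have := h.isProb_stLaw
  have := h.isProb_mu
  induction N with
  | zero =>
    intro S x
    have : ∀ w, A s θ u 0 S x w = 1 := fun w => by rw [A]
    simp only [this, pow_zero, lintegral_one, measure_univ, le_refl]
  | succ N ih =>
    intro S x
    set m := (∫⁻ n : ℕ, (n : ENNReal) ∂ν) * ∑' k : ℕ, qw d p p' s θ u ^ (k + 1) with hm
    by_cases hx : x ∈ S
    · have : ∀ w, A s θ u (N + 1) S x w = 0 := fun w => A_mem s θ u N hx w
      simp only [this, lintegral_zero]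
      exact zero_le
    · have hmap := map_update (κ := Site d) (stLaw d ν p p') (stLaw d ν p p') x
        (F := fun q : St d × St d => q.2) measurable_snd (by
          have := Measure.map_snd_prod (μ := stLaw d ν p p') (ν := stLaw d ν p p')
          rw [measure_univ, one_smul] at this
          exact this)
      have hG : Measurable (fun q : Om d × St d => Function.update q.1 x q.2) := by
        refine measurable_pi_lambda _ fun i => ?_
        by_cases hi : i = x
        · subst hi
          simp only [Function.update_self]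
          exact measurable_snd
        · simp only [Function.update_of_ne hi]
          exact (measurable_pi_apply i).comp measurable_fst
      have hmu : mu d ν p p' = Measure.map (fun q : Om d × St d => Function.update q.1 x q.2)
          ((mu d ν p p').prod (stLaw d ν p p')) := by
        conv_lhs => unfold mu
        rw [← hmap]
        unfold mu
        congr 1
        funext q
        exact update_inst' _ _ _ _ _
      rw [hmu, lintegral_map (measurable_A s θ u (N + 1) S x) hG,
        lintegral_prod_symm (fun q : Om d × St d =>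
          A s θ u (N + 1) S x (Function.update q.1 x q.2))
          ((measurable_A s θ u (N + 1) S x).comp hG).aemeasurable]
      have hin : ∀ st : St d, ∫⁻ w, A s θ u (N + 1) S x (Function.update w x st)
          ∂(mu d ν p p') ≤ (∑' j : ℕ, ∑' k : ℕ, sg s θ u j k st) * m ^ N := by
        intro st
        have h1 : ∀ w : Om d, A s θ u (N + 1) S x (Function.update w x st) =
            ∑' j : ℕ, ∑' k : ℕ, sg s θ u j k st *
              A s θ u N (insert x S) (x + J (st.2 j) (k + 1)) w := by
          intro w
          rw [A_succ s θ u N hx]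
          refine tsum_congr fun j => tsum_congr fun k => ?_
          rw [Function.update_self]
          congr 1
          refine A_congr s θ u N _ _ _ _ fun z hz => ?_
          rw [Function.update_of_ne]
          rintro rfl
          exact hz (Set.mem_insert _ _)
        rw [lintegral_congr h1, lintegral_tsum fun j => (Measurable.tsum fun k =>
          (measurable_A s θ u N _ _).const_mul _).aemeasurable, ← ENNReal.tsum_mul_right]
        refine ENNReal.tsum_le_tsum fun j => ?_
        rw [lintegral_tsum fun k => ((measurable_A s θ u N _ _).const_mul _).aemeasurable,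
          ← ENNReal.tsum_mul_right]
        refine ENNReal.tsum_le_tsum fun k => ?_
        rw [lintegral_const_mul _ (measurable_A s θ u N _ _)]
        exact mul_le_mul_right (ih _ _) _
      refine (lintegral_mono hin).trans ?_
      rw [lintegral_mul_const _ (Measurable.tsum fun j => Measurable.tsum fun k =>
        measurable_sg s θ u j k)]
      have hs : ∫⁻ st, ∑' j : ℕ, ∑' k : ℕ, sg s θ u j k st ∂(stLaw d ν p p') = m :=
        site_sum h s hθ hu
      rw [hs, pow_succ, mul_comm]

open Classical in
theorem chain_sum {d : ℕ} {ν : Measure ℕ} {p p' : ℝ} (h : Par d ν p p') (s : Fin d → Bool)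
    {θ u : ℝ} (hθ : 1 ≤ θ) (hu : 0 < u) :
    ∫⁻ w, ∑' l : List (ℕ × ℕ), (if ok w 0 l ∧ ((uses w 0 l).map Prod.fst).Nodup then
      wt s θ u (dur gQ w 0 l) (ep w 0 l) else 0) ∂(mu d ν p p') ≤
      (1 - (∫⁻ n : ℕ, (n : ENNReal) ∂ν) * ∑' k : ℕ, qw d p p' s θ u ^ (k + 1))⁻¹ := by
  rw [← ENNReal.tsum_geometric]
  have h1 : ∀ w : Om d, ∑' l : List (ℕ × ℕ),
      (if ok w 0 l ∧ ((uses w 0 l).map Prod.fst).Nodup then
        wt s θ u (dur gQ w 0 l) (ep w 0 l) else 0) ≤ ∑' N : ℕ, A s θ u N ∅ 0 w := by
    intro w
    have h2 : ∀ l : List (ℕ × ℕ), (if ok w 0 l ∧ ((uses w 0 l).map Prod.fst).Nodup then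
        wt s θ u (dur gQ w 0 l) (ep w 0 l) else 0) = ∑' N : ℕ, lw s θ u N ∅ 0 w l := by
      intro l
      rw [tsum_eq_single l.length]
      · unfold lw
        rw [sub_zero]
        by_cases hc : ok w 0 l ∧ ((uses w 0 l).map Prod.fst).Nodup
        · rw [if_pos hc, if_pos ⟨rfl, hc.1, hc.2, fun z _ hz => hz⟩]
        · rw [if_neg hc, if_neg fun hc' => hc ⟨hc'.2.1, hc'.2.2.1⟩]
      · intro N hN
        unfold lw
        rw [if_neg fun hc => hN hc.1.symm]
    rw [tsum_congr h2, ENNReal.tsum_comm]
    exact ENNReal.tsum_le_tsum fun N => lw_sum s hθ hu N ∅ 0 w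
  refine (lintegral_mono h1).trans ?_
  rw [lintegral_tsum fun N => (measurable_A s θ u N ∅ 0).aemeasurable]
  exact ENNReal.tsum_le_tsum fun N => int_A h s hθ hu N ∅ 0

end Pool.Agent.Helper61.LF
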