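import Pool.Agent.Helper61.LF.Meas
import Pool.Agent.Helper61.LF.Law

/-!
Module LF-31 (CFW). Weights of the segments of one site.

Let `q` be the integral of `θ^(a+1) u^(a+1-ψ(e))` over an entry (`ψ` a sign functional, `a` the
holding time of the fast clock, `e` the direction). The sign functional of a unit vector is `1` for `d` of
the `2d` directions and `-1` for the other `d`.
* `q_eq`: `q = Σ_a p' (1-p')^a θ^(a+1) u^a * (1/2 + u^2/2) = θ p' (1+u^2)/(2 (1 - (1-p') θ u))`
  (geometric series, `(1-p') θ u < 1`).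
* `psi_J_le`: `|ψ (J s k)| ≤ k ≤ tau gQ s k`.
* `site_sum`: for one path, `θ^(tau) u^(tau - ψ(J))` at `k+1` jumps is the product over the `k+1`
  entries of `θ^(a+1) u^(a+1-ψ(e))` (`(tau - ψ).toNat` is the sum of the `toNat`s since every summand is
  nonnegative), so its integral over `pathLaw` is `q^(k+1)` (independence; `infinitePi` restricted to
  `Finset.range (k+1)`, or induction on `k` with a shift). Sum over `k` (`lintegral_tsum`) and over the
  frogs `j < st.1`: the number of frogs and the paths are independent, and `Σ_j 1[j < n] = n`.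
-/

namespace Pool.Agent.Helper61.LF

open MeasureTheory

/-- Sign functional. -/
def psi {d : ℕ} (s : Fin d → Bool) (z : Site d) : ℤ := ∑ i, if s i then z i else -z i

/-- Weight of a displacement `z` in time `t`. -/
noncomputable def wt {d : ℕ} (s : Fin d → Bool) (θ u : ℝ) (t : ℕ) (z : Site d) : ENNReal :=
  ENNReal.ofReal (θ ^ t * u ^ (((t : ℤ) - psi s z).toNat))

/-- Integral of the weight of one entry. -/
noncomputable def qw (d : ℕ) (p p' : ℝ) (s : Fin d → Bool) (θ u : ℝ) : ENNReal :=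
  ∫⁻ e, wt s θ u (gQ e + 1) (vec e.1) ∂(entLaw d p p')

theorem psi_add {d : ℕ} (s : Fin d → Bool) (x y : Site d) : psi s (x + y) = psi s x + psi s y := by
  unfold psi
  rw [← Finset.sum_add_distrib]
  refine Finset.sum_congr rfl fun i _ => ?_
  simp only [Pi.add_apply]
  split_ifs
  · rfl
  · ring

theorem psi_le {d : ℕ} (s : Fin d → Bool) (z : Site d) : |psi s z| ≤ (nrm z : ℤ) := by
  unfold psi nrm
  refine (Finset.abs_sum_le_sum_abs _ _).trans ?_
  rw [Nat.cast_sum]
  refine Finset.sum_le_sum fun i _ => ?_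
  rw [Int.natCast_natAbs]
  split_ifs
  · exact le_rfl
  · rw [abs_neg]

/-- Multiplicativity of the weight, as long as both parts are not faster than speed one. -/
theorem wt_mul {d : ℕ} (s : Fin d → Bool) {θ u : ℝ} (hθ : 0 ≤ θ) (hu : 0 ≤ u) {t t' : ℕ}
    {z z' : Site d} (h : nrm z ≤ t) (h' : nrm z' ≤ t') :
    wt s θ u (t + t') (z + z') = wt s θ u t z * wt s θ u t' z' := by
  have h1 : (0 : ℤ) ≤ (t : ℤ) - psi s z := by
    have := (le_abs_self _).trans (psi_le s z)
    have h2 : (nrm z : ℤ) ≤ t := by exact_mod_cast h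
    linarith
  have h2 : (0 : ℤ) ≤ (t' : ℤ) - psi s z' := by
    have := (le_abs_self _).trans (psi_le s z')
    have h2 : (nrm z' : ℤ) ≤ t' := by exact_mod_cast h'
    linarith
  have h3 : (((t + t' : ℕ) : ℤ) - psi s (z + z')).toNat =
      ((t : ℤ) - psi s z).toNat + ((t' : ℤ) - psi s z').toNat := by
    rw [← Int.toNat_add h1 h2, psi_add]
    congr 1
    push_cast
    ring
  unfold wt
  rw [h3, pow_add, pow_add, ← ENNReal.ofReal_mul (by positivity)]
  congr 1
  ring

private theorem psi_vec {d : ℕ} (s : Fin d → Bool) (e : Fin d × Bool) :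
    psi s (vec e) = if s e.1 = e.2 then 1 else -1 := by
  unfold psi
  rw [Finset.sum_eq_single e.1]
  · unfold vec
    rw [Pi.single_eq_same]
    cases s e.1 <;> cases e.2 <;> simp
  · intro b _ hb
    unfold vec
    rw [Pi.single_eq_of_ne hb]
    simp
  · simp

private theorem lint_geo {r : ℝ} (f : ℕ → ENNReal) :
    ∫⁻ a, f a ∂(geoLaw r) = ∑' k : ℕ, ENNReal.ofReal (r * (1 - r) ^ k) * f k := by
  unfold geoLaw
  rw [lintegral_sum_measure]
  refine tsum_congr fun k => ?_
  rw [lintegral_smul_measure, lintegral_dirac, smul_eq_mul]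

private theorem lint_dir {d : ℕ} (f : Fin d × Bool → ENNReal) :
    ∫⁻ a, f a ∂(dirLaw d) = ∑ e, ENNReal.ofReal (1 / (2 * d)) * f e := by
  unfold dirLaw
  rw [lintegral_finsetSum_measure]
  refine Finset.sum_congr rfl fun e _ => ?_
  rw [lintegral_smul_measure, lintegral_dirac, smul_eq_mul]

private theorem geo_wt {r θ u : ℝ} (hr : 0 < r) (hr1 : r ≤ 1) (hθ : 1 ≤ θ) (hu : 0 < u)
    (hθu : θ * u < 1) (m : ℕ) :
    ∑' k : ℕ, ENNReal.ofReal (r * (1 - r) ^ k) * ENNReal.ofReal (θ ^ (k + 1) * u ^ (k + m)) =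
      ENNReal.ofReal (θ * r * u ^ m / (1 - (1 - r) * θ * u)) := by
  have hθ0 : 0 < θ := by linarith
  have h1 : 0 ≤ 1 - r := by linarith
  have hx0 : 0 ≤ (1 - r) * (θ * u) := mul_nonneg h1 (mul_pos hθ0 hu).le
  have hx1 : (1 - r) * (θ * u) < 1 := by
    have : (1 - r) * (θ * u) ≤ 1 * (θ * u) :=
      mul_le_mul_of_nonneg_right (by linarith) (mul_pos hθ0 hu).le
    linarith
  have hs : HasSum (fun k : ℕ => θ * r * u ^ m * ((1 - r) * (θ * u)) ^ k)
      (θ * r * u ^ m * (1 - (1 - r) * (θ * u))⁻¹) :=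
    (hasSum_geometric_of_lt_one hx0 hx1).mul_left _
  have hnn : ∀ k : ℕ, 0 ≤ θ * r * u ^ m * ((1 - r) * (θ * u)) ^ k := fun k => by positivity
  rw [div_eq_mul_inv, mul_assoc (1 - r) θ u, ← hs.tsum_eq, ENNReal.ofReal_tsum_of_nonneg hnn hs.summable]
  refine tsum_congr fun k => ?_
  rw [← ENNReal.ofReal_mul (by positivity)]
  congr 1
  rw [mul_pow, mul_pow, pow_succ, pow_add]
  ring

theorem q_eq {d : ℕ} {ν : Measure ℕ} {p p' : ℝ} (h : Par d ν p p') (s : Fin d → Bool) {θ u : ℝ}
    (hθ : 1 ≤ θ) (hu : 0 < u) (hθu : θ * u < 1) :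
    qw d p p' s θ u = ENNReal.ofReal (θ * p' * (1 + u ^ 2) / (2 * (1 - (1 - p') * θ * u))) := by
  have hp'0 : 0 < p' := h.hp.trans h.hpp
  have hd0 : (0 : ℝ) < d := by exact_mod_cast h.hd
  have hprob1 := isProb_dirLaw h.hd
  have hprob2 := isProb_geoLaw hp'0 h.hp'
  have hθ0 : 0 < θ := by linarith
  have h1 : 0 ≤ 1 - p' := by linarith [h.hp']
  have hD : 0 < 1 - (1 - p') * θ * u := by
    have : (1 - p') * (θ * u) ≤ 1 * (θ * u) :=
      mul_le_mul_of_nonneg_right (by linarith) (mul_pos hθ0 hu).le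
    have h2 : (1 - p') * θ * u = (1 - p') * (θ * u) := by ring
    linarith
  set F : (Fin d × Bool) × ℕ → ENNReal := fun y => wt s θ u (y.2 + 1) (vec y.1) with hF
  have hFm : Measurable F := measurable_of_countable F
  have e1 : qw d p p' s θ u = ∫⁻ y, F y ∂((dirLaw d).prod (geoLaw p')) := by
    rw [← map_entLaw_gQ h, lintegral_map hFm (measurable_of_countable _)]
    rfl
  rw [e1, lintegral_prod _ hFm.aemeasurable, lint_dir]
  set A : ℝ := θ * p' * u ^ 0 / (1 - (1 - p') * θ * u) with hA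
  set B : ℝ := θ * p' * u ^ 2 / (1 - (1 - p') * θ * u) with hB
  have hA0 : 0 ≤ A := by positivity
  have hB0 : 0 ≤ B := by positivity
  have e2 : ∀ e : Fin d × Bool, ∫⁻ a, F (e, a) ∂(geoLaw p') =
      if s e.1 = e.2 then ENNReal.ofReal A else ENNReal.ofReal B := by
    intro e
    rw [lint_geo]
    split_ifs with he
    · rw [hA, ← geo_wt hp'0 h.hp' hθ hu hθu 0]
      refine tsum_congr fun k => ?_
      congr 1
      simp only [hF, wt, psi_vec, if_pos he]
      congr 3
      push_cast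
      omega
    · rw [hB, ← geo_wt hp'0 h.hp' hθ hu hθu 2]
      refine tsum_congr fun k => ?_
      congr 1
      simp only [hF, wt, psi_vec, if_neg he]
      congr 3
  simp only [e2]
  rw [Fintype.sum_prod_type]
  have e3 : ∀ i : Fin d, (∑ b : Bool, ENNReal.ofReal (1 / (2 * d)) *
      (if s i = b then ENNReal.ofReal A else ENNReal.ofReal B)) =
      ENNReal.ofReal (1 / (2 * d) * (A + B)) := by
    intro i
    rw [Fintype.sum_bool, ENNReal.ofReal_mul (by positivity), ENNReal.ofReal_add hA0 hB0, mul_add]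
    cases s i
    · simp
      rw [add_comm]
    · simp
  simp only [e3]
  rw [Finset.sum_const, Finset.card_univ, Fintype.card_fin, nsmul_eq_mul, ← ENNReal.ofReal_natCast,
    ← ENNReal.ofReal_mul (Nat.cast_nonneg _)]
  congr 1
  rw [hA, hB]
  field_simp

private theorem wt_path {d : ℕ} (s : Fin d → Bool) {θ u : ℝ} (hθ : 1 ≤ θ) (hu : 0 < u)
    (w : Path d) (k : ℕ) :
    wt s θ u (tau gQ w k) (J w k) =
      ∏ i ∈ Finset.range k, wt s θ u (gQ (w i) + 1) (vec (w i).1) := by
  induction k with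
  | zero =>
    simp [wt, tau, J, psi]
  | succ k ih =>
    rw [Finset.prod_range_succ, ← ih, ← wt_mul s (by linarith) hu.le
      ((nrm_J_le w k).trans (le_tau gQ w k)) (by rw [nrm_vec]; omega)]
    unfold tau J
    rw [Finset.sum_range_succ, Finset.sum_range_succ]

private theorem lint_path {d : ℕ} {ν : Measure ℕ} {p p' : ℝ} (h : Par d ν p p') (s : Fin d → Bool)
    {θ u : ℝ} (hθ : 1 ≤ θ) (hu : 0 < u) (k : ℕ) :
    ∫⁻ w, wt s θ u (tau gQ w k) (J w k) ∂(pathLaw d p p') = qw d p p' s θ u ^ k := by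
  have hp := h.isProb_entLaw
  simp only [wt_path s hθ hu]
  have hm : Measurable fun e : Ent d => wt s θ u (gQ e + 1) (vec e.1) := measurable_of_countable _
  unfold pathLaw
  rw [ProbabilityTheory.lintegral_prod_eq_prod_lintegral_of_indepFun (Finset.range k)
    (fun i (w : Path d) => wt s θ u (gQ (w i) + 1) (vec (w i).1))
    (ProbabilityTheory.iIndepFun_infinitePi
      (X := fun _ (e : Ent d) => wt s θ u (gQ e + 1) (vec e.1)) fun _ => hm)
    (fun i => hm.comp (measurable_pi_apply i))]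
  have e : ∀ i : ℕ, ∫⁻ w : Path d, wt s θ u (gQ (w i) + 1) (vec (w i).1)
      ∂(Measure.infinitePi fun _ : ℕ => entLaw d p p') = qw d p p' s θ u := by
    intro i
    unfold qw
    exact (measurePreserving_eval_infinitePi (fun _ : ℕ => entLaw d p p') i).lintegral_comp hm
  rw [Finset.prod_congr rfl fun i _ => e i, Finset.prod_const, Finset.card_range]

theorem site_sum {d : ℕ} {ν : Measure ℕ} {p p' : ℝ} (h : Par d ν p p') (s : Fin d → Bool)
    {θ u : ℝ} (hθ : 1 ≤ θ) (hu : 0 < u) :
    ∫⁻ st, ∑' j : ℕ, ∑' k : ℕ, (if j < st.1 then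
      wt s θ u (tau gQ (st.2 j) (k + 1)) (J (st.2 j) (k + 1)) else 0) ∂(stLaw d ν p p') =
      (∫⁻ n : ℕ, (n : ENNReal) ∂ν) * ∑' k : ℕ, qw d p p' s θ u ^ (k + 1) := by
  have hν := h.hν
  have hpl := h.isProb_pathLaw
  have hst := h.isProb_stLaw
  have hwm : Measurable fun y : ℕ × Site d => wt s θ u y.1 y.2 := measurable_of_countable _
  have hW : ∀ k : ℕ, Measurable fun w : Path d => wt s θ u (tau gQ w k) (J w k) := fun k =>
    hwm.comp ((measurable_tau gQ k).prodMk (measurable_J k))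
  have hm : ∀ j k : ℕ, Measurable fun st : St d => (if j < st.1 then
      wt s θ u (tau gQ (st.2 j) (k + 1)) (J (st.2 j) (k + 1)) else 0) := by
    intro j k
    refine Measurable.ite (measurableSet_lt measurable_const measurable_fst) ?_ measurable_const
    exact (hW (k + 1)).comp ((measurable_pi_apply j).comp measurable_snd)
  have hone : ∀ j k : ℕ, ∫⁻ st : St d, (if j < st.1 then
      wt s θ u (tau gQ (st.2 j) (k + 1)) (J (st.2 j) (k + 1)) else 0) ∂(stLaw d ν p p') =
      (∫⁻ n, (if j < n then 1 else 0) ∂ν) * qw d p p' s θ u ^ (k + 1) := by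
    intro j k
    unfold stLaw
    rw [lintegral_prod _ (hm j k).aemeasurable]
    have e : ∀ n : ℕ, ∫⁻ y : ℕ → Path d, (if j < (n, y).1 then
        wt s θ u (tau gQ ((n, y).2 j) (k + 1)) (J ((n, y).2 j) (k + 1)) else 0)
        ∂(Measure.infinitePi fun _ : ℕ => pathLaw d p p') =
        (if j < n then 1 else 0) * qw d p p' s θ u ^ (k + 1) := by
      intro n
      by_cases hj : j < n
      · simp only [if_pos hj, one_mul]
        rw [← lint_path h s hθ hu (k + 1)]
        exact (measurePreserving_eval_infinitePi (fun _ : ℕ => pathLaw d p p') j).lintegral_comp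
          (hW (k + 1))
      · simp only [if_neg hj, zero_mul, lintegral_zero]
    rw [lintegral_congr e, lintegral_mul_const _ (measurable_of_countable _)]
  rw [lintegral_tsum fun j => (Measurable.tsum fun k => hm j k).aemeasurable]
  have e2 : ∀ j : ℕ, ∫⁻ st : St d, ∑' k : ℕ, (if j < st.1 then
      wt s θ u (tau gQ (st.2 j) (k + 1)) (J (st.2 j) (k + 1)) else 0) ∂(stLaw d ν p p') =
      (∫⁻ n, (if j < n then 1 else 0) ∂ν) * ∑' k : ℕ, qw d p p' s θ u ^ (k + 1) := by
    intro j
    rw [lintegral_tsum fun k => (hm j k).aemeasurable, ← ENNReal.tsum_mul_left]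
    exact tsum_congr fun k => hone j k
  rw [tsum_congr e2, ENNReal.tsum_mul_right]
  congr 1
  rw [← lintegral_tsum fun j => (measurable_of_countable _).aemeasurable]
  refine lintegral_congr fun n => ?_
  rw [tsum_eq_sum (s := Finset.range n)]
  · rw [Finset.sum_congr rfl fun j hj => if_pos (Finset.mem_range.1 hj)]
    simp
  · intro j hj
    rw [if_neg]
    simpa using hj

end Pool.Agent.Helper61.LF
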