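import Pool.Agent.Helper61.LF.ShapeBasic

/-!
Module LF-10 (ShapeInner). Points of the closed shape are reached in time `(1 + ε) n`.

Proof. Let `ε1 ∈ (0,1)` with `(1 + ε) (1 - ε1) > 1`. For almost every `w` with `1 ≤ (w 0).1` there
is `m0` with `(1 - ε1) • A ⊆ (1/m) • bar {y | Rch gP w 0 m y}` for `m ≥ m0`. Let
`m = ⌊(1+ε) n⌋₊`; `n/m → 1/(1+ε) < 1 - ε1`, so for large `n` the number
`r = (n/m)/(1-ε1)` is in `(0,1)` and `r • x ∈ interior A ⊆ A` (`x ∈ closure A`, `0 ∈ interior A`,
`A` convex: `Convex.combo_closure_interior_mem_interior` or `openSegment` versions). Hence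
`(n/m) • x ∈ (1-ε1) • A ⊆ (1/m) • bar …`, i.e. `n • x ∈ bar {y | Rch gP w 0 m y}`. A site `y` with
`y i - 1/2 < n x i ≤ y i + 1/2` for all `i` is `near x n` (`Int.ceil` characterisation), so
`Rch gP w 0 m (near x n)`. So for almost every `w` the configuration `w` is in the set only for
finitely many `n`; the sets are measurable (`measurableSet_Rch`), and the measures tend to `0`
(for instance `tendsto_measure_of_ae_tendsto_indicator`, or: the measure of
`⋃_{m ≥ n} E m` decreases to the measure of the limsup, which is `0`).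
`near_lin`: `|near x n i - n x i| ≤ 1/2`.
-/

namespace Pool.Agent.Helper61.LF

open MeasureTheory Filter
open scoped Pointwise

theorem near_spec {d : ℕ} (x : Fin d → ℝ) (n : ℕ) (y : Site d) :
    (∀ i, (y i : ℝ) - 1 / 2 < (n : ℝ) * x i ∧ (n : ℝ) * x i ≤ y i + 1 / 2) ↔ y = near x n := by
  constructor
  · intro h
    funext i
    obtain ⟨h1, h2⟩ := h i
    have : near x n i = y i := by
      unfold near
      rw [Int.ceil_eq_iff]
      constructor <;> linarith
    exact this.symm
  · rintro rfl i
    have h1 := Int.ceil_lt_add_one ((n : ℝ) * x i - 1 / 2)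
    have h2 := Int.le_ceil ((n : ℝ) * x i - 1 / 2)
    unfold near
    constructor <;> linarith

theorem near_lin {d : ℕ} (f x : Fin d → ℝ) (Φ : ℝ) (hf : ∀ i, |f i| ≤ Φ) (n : ℕ) :
    |lin f (toR (near x n)) - n * lin f x| ≤ Φ * d := by
  have h : ∀ i, |((near x n i : ℤ) : ℝ) - n * x i| ≤ 1 := by
    intro i
    have h0 := ((near_spec x n (near x n)).2 rfl) i
    rw [abs_le]
    constructor <;> linarith [h0.1, h0.2]
  have he : lin f (toR (near x n)) - n * lin f x =
      ∑ i, f i * (((near x n i : ℤ) : ℝ) - n * x i) := by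
    unfold lin toR
    rw [Finset.mul_sum, ← Finset.sum_sub_distrib]
    refine Finset.sum_congr rfl fun i _ => ?_
    ring
  rw [he]
  calc |∑ i, f i * (((near x n i : ℤ) : ℝ) - n * x i)|
      ≤ ∑ i, |f i * (((near x n i : ℤ) : ℝ) - n * x i)| := Finset.abs_sum_le_sum_abs _ _
    _ ≤ ∑ _i : Fin d, Φ := by
        refine Finset.sum_le_sum fun i _ => ?_
        rw [abs_mul]
        calc |f i| * |((near x n i : ℤ) : ℝ) - n * x i| ≤ |f i| * 1 :=
              mul_le_mul_of_nonneg_left (h i) (abs_nonneg _)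
          _ ≤ Φ := by rw [mul_one]; exact hf i
    _ = Φ * d := by
        rw [Finset.sum_const, Finset.card_univ, Fintype.card_fin, nsmul_eq_mul, mul_comm]

theorem inner_lim {d : ℕ} {ν : Measure ℕ} {p p' : ℝ} (h : Par d ν p p') (hν : ν {0} < 1)
    {A : Set (Fin d → ℝ)} (hA : ShapeI gP (mu d ν p p') A) {x : Fin d → ℝ} (hx : x ∈ closure A)
    {ε : ℝ} (hε : 0 < ε) :
    Tendsto (fun n : ℕ => mu d ν p p' {w | 1 ≤ (w 0).1 ∧
      ¬ Rch gP w 0 ⌊(1 + ε) * n⌋₊ (near x n)}) atTop (nhds 0) := by
  have : IsProbabilityMeasure (mu d ν p p') := h.isProb_mu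
  have hocc : MeasurableSet {w : Om d | 1 ≤ (w 0).1} :=
    measurableSet_le measurable_const (measurable_pi_apply (0 : Site d)).fst
  have hmeas : ∀ n : ℕ, MeasurableSet {w : Om d | 1 ≤ (w 0).1 ∧
      ¬ Rch gP w 0 ⌊(1 + ε) * n⌋₊ (near x n)} := fun n =>
    hocc.inter (measurableSet_Rch gP 0 _ _).compl
  have h0 : (0 : Fin d → ℝ) ∈ interior A := ShapeI.zero_mem h hν hA
  have hconv : Convex ℝ A := hA.2.1
  set ε1 : ℝ := ε / (2 * (1 + ε)) with hε1
  have hε1pos : 0 < ε1 := by positivity
  have hε1lt : ε1 < 1 := by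
    rw [hε1, div_lt_one (by positivity)]
    linarith
  have hprod : (1 + ε) * (1 - ε1) = 1 + ε / 2 := by
    rw [hε1]
    field_simp
    ring
  have key : ∀ᵐ w ∂(mu d ν p p'), ∀ᶠ n : ℕ in atTop,
      (w ∈ {w : Om d | 1 ≤ (w 0).1 ∧ ¬ Rch gP w 0 ⌊(1 + ε) * n⌋₊ (near x n)} ↔
        w ∈ (∅ : Set (Om d))) := by
    filter_upwards [hA.2.2 ε1 ⟨hε1pos, hε1lt⟩] with w hw
    by_cases hocc1 : 1 ≤ (w 0).1
    · obtain ⟨m0, hm0⟩ := eventually_atTop.1 (hw hocc1)
      have hbig : ∀ᶠ n : ℕ in atTop, max ((m0 : ℝ) + 1) (2 / ε + 1) ≤ n :=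
        tendsto_natCast_atTop_atTop.eventually_ge_atTop _
      filter_upwards [hbig] with n hn
      have hn1 : (m0 : ℝ) + 1 ≤ n := le_trans (le_max_left _ _) hn
      have hn2 : 2 / ε + 1 ≤ n := le_trans (le_max_right _ _) hn
      have hnpos : (0 : ℝ) < n := by
        have : (0 : ℝ) ≤ m0 := Nat.cast_nonneg _
        linarith
      set m : ℕ := ⌊(1 + ε) * n⌋₊ with hm
      have hmgt : (1 + ε) * n - 1 < m := by
        have := Nat.lt_floor_add_one ((1 + ε) * (n : ℝ))
        linarith
      have hmn : n ≤ m := by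
        rw [hm]
        apply Nat.le_floor
        nlinarith
      have hmm0 : m0 ≤ m := by
        have : (m0 : ℝ) ≤ n := by linarith
        exact le_trans (by exact_mod_cast this) hmn
      have hmpos : (0 : ℝ) < m := lt_of_lt_of_le hnpos (by exact_mod_cast hmn)
      have h1e : 0 < 1 - ε1 := by linarith
      have hεn : 2 < ε * n := by
        have h3 : 2 / ε < n := by linarith
        rw [div_lt_iff₀ hε] at h3
        linarith
      have hlt : (n : ℝ) < (1 - ε1) * m := by
        have h4 : (1 - ε1) * ((1 + ε) * n - 1) < (1 - ε1) * m :=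
          mul_lt_mul_of_pos_left hmgt h1e
        have h5 : (1 - ε1) * ((1 + ε) * n - 1) = (1 + ε / 2) * n - (1 - ε1) := by
          rw [← hprod]
          ring
        nlinarith
      set r : ℝ := (n : ℝ) / m / (1 - ε1) with hr
      have hr0 : 0 < r := by positivity
      have hr1 : r < 1 := by
        rw [hr, div_div, div_lt_one (by positivity)]
        linarith
      have hrx : r • x ∈ A := by
        have h6 := hconv.combo_interior_closure_mem_interior h0 hx (a := 1 - r) (b := r)
          (by linarith) hr0.le (by ring)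
        rw [smul_zero, zero_add] at h6
        exact interior_subset h6
      have h7 : (1 - ε1) • (r • x) ∈ (1 / (m : ℝ)) • bar {y | Rch gP w 0 m y} :=
        (hm0 m hmm0).1 (Set.smul_mem_smul_set hrx)
      obtain ⟨u, ⟨y, hy, hyu⟩, hu⟩ := h7
      have hune : ∀ i, u i = (n : ℝ) * x i := by
        intro i
        have h8 := congrFun hu i
        simp only [Pi.smul_apply, smul_eq_mul] at h8
        have h9 : (1 - ε1) * (r * x i) = (n : ℝ) / m * x i := by
          rw [hr]
          field_simp
        rw [h9] at h8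
        field_simp at h8
        linarith
      have hynear : y = near x n := by
        rw [← near_spec]
        intro i
        rw [← hune i]
        exact hyu i
      have hR : Rch gP w 0 m (near x n) := by
        rw [← hynear]
        exact hy
      simp only [Set.mem_empty_iff_false, iff_false]
      exact fun hc => hc.2 hR
    · refine Eventually.of_forall fun n => ?_
      simp only [Set.mem_empty_iff_false, iff_false]
      exact fun hc => hocc1 hc.1
  have := tendsto_measure_of_ae_tendsto_indicator_of_isFiniteMeasure (L := (atTop : Filter ℕ))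
    (μ := mu d ν p p') (A := (∅ : Set (Om d))) MeasurableSet.empty hmeas key
  simpa using this

end Pool.Agent.Helper61.LF
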