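import Pool.Agent.Helper61.LF.CFSum
import Pool.Agent.Helper61.LF.ShapeInner

/-!
Module LF-33 (CFree). If the mean number of frogs is less than `(2-p')/p'`, the shape of the fast
process does not touch the boundary of the unit ball of the `ℓ¹` norm.

* `self_avoid`: if `y` is reached from `0` within time `t` (clock `g`), there is such a chain with
  distinct switching sites: take a chain of minimal length among the chains `l` with `ok w 0 l`,
  `ep w 0 l = y`, `dur g w 0 l ≤ t`; if two switching sites coincide, cut out the loop between them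
  (`l.take i ++ l.drop i'`), which is shorter and not slower.
* `inner_lim_gen`: the proof of `inner_lim` works for every clock `g` (copy it).
* `no_contact`: let `mean = ∫ n dν < (2-p')/p'`. Choose `θ > 1` and `u ∈ (0,1)`, `θ u < 1`, such that
  `q = θ p' (1+u^2)/(2 (1 - (1-p') θ u)) < 1` and `mean * q/(1-q) < 1`: possible since
  `q → p'/2` as `θ → 1`, `u → 0`, and `mean * (p'/2)/(1-p'/2) = mean * p'/(2-p') < 1`. Then by `q_eq` and
  `chain_sum` the expected total weight is finite (`Σ_k q^(k+1) = q/(1-q)`), say `≤ M`, for every `s`.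
  Let `v ∈ closure A'` with `Σ |v i| ≥ 1`, so `= 1` by `ShapeI.le_one`. Let `s i = true` iff
  `0 ≤ v i`. Then `psi s (near v n) ≥ n - d` (each coordinate is within `1/2` of `n v i`). Let
  `0 < ε ≤ 1` with `u^ε θ > 1`, i.e. `ε log (1/u) < log θ`. If `Rch gQ w 0 ⌊(1+ε) n⌋₊ (near v n)`, there
  is a self-avoiding chain `l` to `near v n` of duration `D ≤ (1+ε) n`, and `D ≥ psi s (near v n) ≥ n - d`, so
  `wt s θ u D (near v n) = θ^D u^(D - psi) ≥ θ^(n-d) u^(ε n + d)` (for `n ≥ d`). By Markov's inequality the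
  probability of this event is at most `M θ^(d-n) u^(-ε n - d) → 0`. With `inner_lim_gen` the
  probability of `{1 ≤ (w 0).1}` would be `0`, against `occ_prob`.
-/

namespace Pool.Agent.Helper61.LF

open MeasureTheory Filter
open scoped Pointwise

private theorem uses_getElem {d : ℕ} (w : Om d) (l : List (ℕ × ℕ)) (x : Site d) (i : ℕ)
    (hi : i < l.length) : ((uses w x l).map Prod.fst)[i]? = some (ep w x (l.take i)) := by
  induction l generalizing x i with
  | nil => simp at hi
  | cons a l ih =>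
    cases i with
    | zero => rfl
    | succ i => exact ih (x + J ((w x).2 a.1) (a.2 + 1)) i (Nat.lt_of_succ_lt_succ hi)

theorem self_avoid {d : ℕ} (g : Ent d → ℕ) (w : Om d) (t : ℕ) (y : Site d)
    (h : Rch g w 0 t y) :
    ∃ l, ok w 0 l ∧ ((uses w 0 l).map Prod.fst).Nodup ∧ ep w 0 l = y ∧ dur g w 0 l ≤ t := by
  classical
  have hex : ∃ n : ℕ, ∃ l : List (ℕ × ℕ), l.length = n ∧ ok w 0 l ∧ ep w 0 l = y ∧
      dur g w 0 l ≤ t := by
    obtain ⟨l, h1, h2, h3⟩ := h
    exact ⟨_, l, rfl, h1, h2, h3⟩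
  obtain ⟨l, hlen, h1, h2, h3⟩ := Nat.find_spec hex
  refine ⟨l, h1, ?_, h2, h3⟩
  rw [List.nodup_iff_getElem?_ne_getElem?]
  intro i j hij hj heq
  rw [List.length_map, length_uses] at hj
  rw [uses_getElem w l 0 i (by omega), uses_getElem w l 0 j hj, Option.some.injEq] at heq
  have e1 : l = l.take j ++ l.drop j := (List.take_append_drop _ _).symm
  have e2 : l.take j = l.take i ++ (l.take j).drop i := take_split l hij.le
  have hok : ok w 0 (l.take j) ∧ ok w (ep w 0 (l.take j)) (l.drop j) := by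
    rw [e1, ok_append] at h1
    exact h1
  have hok2 : ok w 0 (l.take i) := by
    have := hok.1
    rw [e2, ok_append] at this
    exact this.1
  have hd1 : dur g w 0 l = dur g w 0 (l.take j) + dur g w (ep w 0 (l.take j)) (l.drop j) := by
    rw [← dur_append, ← e1]
  have hd2 : dur g w 0 (l.take j) =
      dur g w 0 (l.take i) + dur g w (ep w 0 (l.take i)) ((l.take j).drop i) := by
    rw [← dur_append, ← e2]
  have hmin : Nat.find hex ≤ (l.take i ++ l.drop j).length := by
    apply Nat.find_min' hex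
    refine ⟨l.take i ++ l.drop j, rfl, ?_, ?_, ?_⟩
    · rw [ok_append, heq]
      exact ⟨hok2, hok.2⟩
    · rw [ep_append, heq, ← ep_append, ← e1, h2]
    · rw [dur_append, heq]
      omega
  rw [List.length_append, List.length_take, List.length_drop] at hmin
  omega

theorem inner_lim_gen {d : ℕ} {ν : Measure ℕ} {p p' : ℝ} (h : Par d ν p p') (hν : ν {0} < 1)
    (g : Ent d → ℕ) {A : Set (Fin d → ℝ)} (hA : ShapeI g (mu d ν p p') A) {x : Fin d → ℝ}
    (hx : x ∈ closure A) {ε : ℝ} (hε : 0 < ε) :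
    Tendsto (fun n : ℕ => mu d ν p p' {w | 1 ≤ (w 0).1 ∧
      ¬ Rch g w 0 ⌊(1 + ε) * n⌋₊ (near x n)}) atTop (nhds 0) := by
  have : IsProbabilityMeasure (mu d ν p p') := h.isProb_mu
  have hocc : MeasurableSet {w : Om d | 1 ≤ (w 0).1} :=
    measurableSet_le measurable_const (measurable_pi_apply (0 : Site d)).fst
  have hmeas : ∀ n : ℕ, MeasurableSet {w : Om d | 1 ≤ (w 0).1 ∧
      ¬ Rch g w 0 ⌊(1 + ε) * n⌋₊ (near x n)} := fun n =>
    hocc.inter (measurableSet_Rch g 0 _ _).compl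
  have h0 : (0 : Fin d → ℝ) ∈ interior A := ShapeI.zero_mem h hν hA
  have hconv : Convex ℝ A := hA.2.1
  set ε1 : ℝ := ε / (2 * (1 + ε)) with hε1
  have hε1pos : 0 < ε1 := by positivity
  have hε1lt : ε1 < 1 := by
    rw [hε1, div_lt_one (by positivity)]
    linarith
  have hprod : (1 + ε) * (1 - ε1) = 1 + ε / 2 := by
    rw [hε1]
    field_simp
    ring
  have key : ∀ᵐ w ∂(mu d ν p p'), ∀ᶠ n : ℕ in atTop,
      (w ∈ {w : Om d | 1 ≤ (w 0).1 ∧ ¬ Rch g w 0 ⌊(1 + ε) * n⌋₊ (near x n)} ↔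
        w ∈ (∅ : Set (Om d))) := by
    filter_upwards [hA.2.2 ε1 ⟨hε1pos, hε1lt⟩] with w hw
    by_cases hocc1 : 1 ≤ (w 0).1
    · obtain ⟨m0, hm0⟩ := eventually_atTop.1 (hw hocc1)
      have hbig : ∀ᶠ n : ℕ in atTop, max ((m0 : ℝ) + 1) (2 / ε + 1) ≤ n :=
        tendsto_natCast_atTop_atTop.eventually_ge_atTop _
      filter_upwards [hbig] with n hn
      have hn1 : (m0 : ℝ) + 1 ≤ n := le_trans (le_max_left _ _) hn
      have hn2 : 2 / ε + 1 ≤ n := le_trans (le_max_right _ _) hn
      have hnpos : (0 : ℝ) < n := by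
        have : (0 : ℝ) ≤ m0 := Nat.cast_nonneg _
        linarith
      set m : ℕ := ⌊(1 + ε) * n⌋₊ with hm
      have hmgt : (1 + ε) * n - 1 < m := by
        have := Nat.lt_floor_add_one ((1 + ε) * (n : ℝ))
        linarith
      have hmn : n ≤ m := by
        rw [hm]
        apply Nat.le_floor
        nlinarith
      have hmm0 : m0 ≤ m := by
        have : (m0 : ℝ) ≤ n := by linarith
        exact le_trans (by exact_mod_cast this) hmn
      have hmpos : (0 : ℝ) < m := lt_of_lt_of_le hnpos (by exact_mod_cast hmn)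
      have h1e : 0 < 1 - ε1 := by linarith
      have hεn : 2 < ε * n := by
        have h3 : 2 / ε < n := by linarith
        rw [div_lt_iff₀ hε] at h3
        linarith
      have hlt : (n : ℝ) < (1 - ε1) * m := by
        have h4 : (1 - ε1) * ((1 + ε) * n - 1) < (1 - ε1) * m :=
          mul_lt_mul_of_pos_left hmgt h1e
        have h5 : (1 - ε1) * ((1 + ε) * n - 1) = (1 + ε / 2) * n - (1 - ε1) := by
          rw [← hprod]
          ring
        nlinarith
      set r : ℝ := (n : ℝ) / m / (1 - ε1) with hr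
      have hr0 : 0 < r := by positivity
      have hr1 : r < 1 := by
        rw [hr, div_div, div_lt_one (by positivity)]
        linarith
      have hrx : r • x ∈ A := by
        have h6 := hconv.combo_interior_closure_mem_interior h0 hx (a := 1 - r) (b := r)
          (by linarith) hr0.le (by ring)
        rw [smul_zero, zero_add] at h6
        exact interior_subset h6
      have h7 : (1 - ε1) • (r • x) ∈ (1 / (m : ℝ)) • bar {y | Rch g w 0 m y} :=
        (hm0 m hmm0).1 (Set.smul_mem_smul_set hrx)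
      obtain ⟨u, ⟨y, hy, hyu⟩, hu⟩ := h7
      have hune : ∀ i, u i = (n : ℝ) * x i := by
        intro i
        have h8 := congrFun hu i
        simp only [Pi.smul_apply, smul_eq_mul] at h8
        have h9 : (1 - ε1) * (r * x i) = (n : ℝ) / m * x i := by
          rw [hr]
          field_simp
        rw [h9] at h8
        field_simp at h8
        linarith
      have hynear : y = near x n := by
        rw [← near_spec]
        intro i
        rw [← hune i]
        exact hyu i
      have hR : Rch g w 0 m (near x n) := by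
        rw [← hynear]
        exact hy
      simp only [Set.mem_empty_iff_false, iff_false]
      exact fun hc => hc.2 hR
    · refine Eventually.of_forall fun n => ?_
      simp only [Set.mem_empty_iff_false, iff_false]
      exact fun hc => hocc1 hc.1
  have := tendsto_measure_of_ae_tendsto_indicator_of_isFiniteMeasure (L := (atTop : Filter ℕ))
    (μ := mu d ν p p') (A := (∅ : Set (Om d))) MeasurableSet.empty hmeas key
  simpa using this

private theorem exists_par {d : ℕ} {ν : Measure ℕ} {p p' : ℝ} (h : Par d ν p p')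
    (hmean : ∫⁻ n : ℕ, (n : ENNReal) ∂ν < ENNReal.ofReal ((2 - p') / p')) :
    ∃ θ u : ℝ, 1 < θ ∧ 0 < u ∧ u < 1 ∧ θ * u < 1 ∧ ∀ s : Fin d → Bool,
      (1 - (∫⁻ n : ℕ, (n : ENNReal) ∂ν) * ∑' k : ℕ, qw d p p' s θ u ^ (k + 1))⁻¹ ≠ ⊤ := by
  have hp'0 : 0 < p' := h.hp.trans h.hpp
  have hp'1 := h.hp'
  set m : ENNReal := ∫⁻ n : ℕ, (n : ENNReal) ∂ν with hm
  have hmtop : m ≠ ⊤ := (hmean.trans ENNReal.ofReal_lt_top).ne
  obtain ⟨r, hr⟩ : ∃ r : ℝ, r = m.toReal := ⟨_, rfl⟩
  have hr0 : 0 ≤ r := by rw [hr]; exact ENNReal.toReal_nonneg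
  have hmr : m = ENNReal.ofReal r := by rw [hr, ENNReal.ofReal_toReal hmtop]
  have hrlt : r < (2 - p') / p' := by
    rw [hmr] at hmean
    exact (ENNReal.ofReal_lt_ofReal_iff (div_pos (by linarith) hp'0)).1 hmean
  rw [lt_div_iff₀ hp'0] at hrlt
  -- the function
  have hcont : ContinuousAt (fun u : ℝ => (r + 1) * ((1 + u) * p' * (1 + u ^ 2) /
      (2 * (1 - (1 - p') * (1 + u) * u)))) 0 := by
    refine ContinuousAt.mul continuousAt_const (ContinuousAt.div (by fun_prop) (by fun_prop) ?_)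
    norm_num
  have hval : (fun u : ℝ => (r + 1) * ((1 + u) * p' * (1 + u ^ 2) /
      (2 * (1 - (1 - p') * (1 + u) * u)))) 0 < 1 := by
    norm_num
    nlinarith
  have hcont2 : ContinuousAt (fun u : ℝ => (1 + u) * u) 0 := by fun_prop
  have hval2 : (fun u : ℝ => (1 + u) * u) 0 < 1 := by norm_num
  have hev := (hcont.eventually_lt_const hval).and ((hcont2.eventually_lt_const hval2).and
    (eventually_lt_nhds (show (0 : ℝ) < 1 by norm_num)))
  have hev2 : ∀ᶠ u : ℝ in nhdsWithin 0 (Set.Ioi 0), 0 < u := eventually_mem_nhdsWithin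
  obtain ⟨u, ⟨hu1, hu2, hu3⟩, hu0⟩ := ((hev.filter_mono nhdsWithin_le_nhds).and hev2).exists
  refine ⟨1 + u, u, by linarith, hu0, hu3, hu2, fun s => ?_⟩
  rw [q_eq h s (by linarith) hu0 hu2]
  set q : ℝ := (1 + u) * p' * (1 + u ^ 2) / (2 * (1 - (1 - p') * (1 + u) * u)) with hq
  have hden : 0 < 1 - (1 - p') * (1 + u) * u := by
    have h1 : (1 - p') * ((1 + u) * u) ≤ 1 * ((1 + u) * u) :=
      mul_le_mul_of_nonneg_right (by linarith) (by positivity)
    nlinarith
  have hq0 : 0 < q := by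
    rw [hq]
    apply div_pos (by positivity) (by linarith)
  have hq1 : (r + 1) * q < 1 := hu1
  have hqlt : q < 1 := by nlinarith
  have htsum : ∑' k : ℕ, ENNReal.ofReal q ^ (k + 1) = ENNReal.ofReal (q / (1 - q)) := by
    have e1 : ∀ k : ℕ, ENNReal.ofReal q ^ (k + 1) = ENNReal.ofReal q * ENNReal.ofReal q ^ k :=
      fun k => pow_succ' _ _
    simp only [e1]
    rw [ENNReal.tsum_mul_left, ENNReal.tsum_geometric, ← ENNReal.ofReal_one,
      ← ENNReal.ofReal_sub _ hq0.le, ← ENNReal.ofReal_inv_of_pos (by linarith),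
      ← ENNReal.ofReal_mul hq0.le, div_eq_mul_inv]
  rw [htsum, hmr, ← ENNReal.ofReal_mul hr0, ENNReal.inv_ne_top]
  have hlt : r * (q / (1 - q)) < 1 := by
    rw [← mul_div_assoc, div_lt_one (by linarith)]
    linarith
  rw [Ne, tsub_eq_zero_iff_le, not_le, ← ENNReal.ofReal_one]
  exact (ENNReal.ofReal_lt_ofReal_iff one_pos).2 hlt

private theorem psi_near {d : ℕ} (v : Fin d → ℝ) (hv : ∑ i, |v i| = 1) (n : ℕ) :
    (n : ℤ) - d ≤ psi (fun i => decide (0 ≤ v i)) (near v n) := by
  have h1 : ((n : ℝ) - d) ≤ ((psi (fun i => decide (0 ≤ v i)) (near v n) : ℤ) : ℝ) := by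
    unfold psi
    push_cast
    have h2 : (n : ℝ) - d = ∑ i : Fin d, (n * |v i| - 1) := by
      rw [Finset.sum_sub_distrib, ← Finset.mul_sum, hv]
      simp
    rw [h2]
    refine Finset.sum_le_sum fun i _ => ?_
    have h3 := ((near_spec v n (near v n)).2 rfl) i
    by_cases h4 : 0 ≤ v i
    · simp only [h4, decide_true, if_true]
      rw [abs_of_nonneg h4]
      linarith [h3.2]
    · simp only [h4, decide_false]
      rw [if_neg (by simp), abs_of_neg (not_le.1 h4)]
      push_cast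
      linarith [h3.1]
  exact_mod_cast h1

private theorem wt_lower {d : ℕ} {θ u : ℝ} (hθ : 1 ≤ θ) (hu : 0 < u) (hu1 : u ≤ 1) {N : ℕ}
    (hN : 0 < N) (v : Fin d → ℝ) (hv : ∑ i, |v i| = 1) (n D : ℕ) (hD : nrm (near v n) ≤ D)
    (hD' : D ≤ ⌊(1 + 1 / (N : ℝ)) * n⌋₊) :
    ENNReal.ofReal ((θ ^ N * u) ^ (n / N) * (u ^ d * (θ ^ d)⁻¹)) ≤
      wt (fun i => decide (0 ≤ v i)) θ u D (near v n) := by
  unfold wt
  apply ENNReal.ofReal_le_ofReal
  have h1 := psi_near v hv n
  have h2 := (le_abs_self _).trans (psi_le (fun i => decide (0 ≤ v i)) (near v n))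
  have h3 : ⌊(1 + 1 / (N : ℝ)) * n⌋₊ = n + n / N := by
    have : (1 + 1 / (N : ℝ)) * n = (n : ℝ) / N + (n : ℝ) := by ring
    rw [this, Nat.floor_add_natCast (by positivity), Nat.floor_div_natCast, Nat.floor_natCast,
      add_comm]
  rw [h3] at hD'
  have h4 : (((D : ℤ) - psi (fun i => decide (0 ≤ v i)) (near v n)).toNat) ≤ n / N + d := by
    rw [Int.toNat_le]
    push_cast
    have : (D : ℤ) ≤ n + (n / N : ℕ) := by exact_mod_cast hD'
    push_cast at this
    linarith
  have h5 : n ≤ D + d := by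
    have : (nrm (near v n) : ℤ) ≤ D := by exact_mod_cast hD
    omega
  have hθ0 : 0 < θ := by linarith
  have h6 : θ ^ (N * (n / N)) * (θ ^ d)⁻¹ ≤ θ ^ D := by
    rw [← div_eq_mul_inv, div_le_iff₀ (by positivity), ← pow_add]
    exact pow_le_pow_right₀ hθ ((Nat.mul_div_le n N).trans h5)
  have h7 : u ^ (n / N + d) ≤ u ^ (((D : ℤ) - psi (fun i => decide (0 ≤ v i)) (near v n)).toNat) :=
    pow_le_pow_of_le_one hu.le hu1 h4
  calc (θ ^ N * u) ^ (n / N) * (u ^ d * (θ ^ d)⁻¹)
      = (θ ^ (N * (n / N)) * (θ ^ d)⁻¹) * u ^ (n / N + d) := by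
        rw [mul_pow, ← pow_mul, pow_add]
        ring
    _ ≤ θ ^ D * u ^ (((D : ℤ) - psi (fun i => decide (0 ≤ v i)) (near v n)).toNat) :=
        mul_le_mul h6 h7 (by positivity) (by positivity)

theorem no_contact {d : ℕ} {ν : Measure ℕ} {p p' : ℝ} (h : Par d ν p p') (hν : ν {0} < 1)
    (hmean : ∫⁻ n : ℕ, (n : ENNReal) ∂ν < ENNReal.ofReal ((2 - p') / p'))
    {A' : Set (Fin d → ℝ)} (hA' : ShapeI gQ (mu d ν p p') A') :
    ∀ v ∈ closure A', ∑ i, |v i| < 1 := by
  have : IsProbabilityMeasure (mu d ν p p') := h.isProb_mu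
  have hp'0 : 0 < p' := h.hp.trans h.hpp
  obtain ⟨θ, u, hθ, hu0, hu1, hθu, hM⟩ := exists_par (d := d) h hmean
  obtain ⟨N, hN⟩ := pow_unbounded_of_one_lt (1 / u) hθ
  have hB : 1 < θ ^ N * u := by
    rwa [div_lt_iff₀ hu0] at hN
  have hN0 : 0 < N := by
    rcases Nat.eq_zero_or_pos N with h0 | h0
    · rw [h0, pow_zero, one_mul] at hB
      linarith
    · exact h0
  intro v hv
  by_contra hcon
  push Not at hcon
  have hsum : ∑ i, |v i| = 1 := le_antisymm (ShapeI.le_one h hν hA' v hv) hcon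
  set s : Fin d → Bool := fun i => decide (0 ≤ v i) with hs
  set c : ℝ := u ^ d * (θ ^ d)⁻¹ with hc
  have hc0 : 0 < c := by positivity
  set M : ENNReal := (1 - (∫⁻ n : ℕ, (n : ENNReal) ∂ν) * ∑' k : ℕ, qw d p p' s θ u ^ (k + 1))⁻¹
    with hMdef
  have hMfin : M ≠ ⊤ := hM s
  have hε : (0 : ℝ) < 1 / N := by positivity
  -- bound of the probability
  have hprob : ∀ n : ℕ, mu d ν p p' {w | Rch gQ w 0 ⌊(1 + 1 / (N : ℝ)) * n⌋₊ (near v n)} ≤
      M / ENNReal.ofReal ((θ ^ N * u) ^ (n / N) * c) := by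
    intro n
    have hpos : 0 < (θ ^ N * u) ^ (n / N) * c := by positivity
    have hne : ENNReal.ofReal ((θ ^ N * u) ^ (n / N) * c) ≠ 0 := by
      rw [Ne, ENNReal.ofReal_eq_zero, not_le]
      exact hpos
    rw [ENNReal.le_div_iff_mul_le (Or.inl hne) (Or.inl ENNReal.ofReal_ne_top), mul_comm]
    have hms := measurableSet_Rch (gQ : Ent d → ℕ) 0 ⌊(1 + 1 / (N : ℝ)) * n⌋₊ (near v n)
    rw [← lintegral_indicator_const hms]
    refine le_trans (lintegral_mono ?_) (chain_sum h s hθ.le hu0)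
    intro w
    by_cases hw : w ∈ {w : Om d | Rch gQ w 0 ⌊(1 + 1 / (N : ℝ)) * n⌋₊ (near v n)}
    · rw [Set.indicator_of_mem hw]
      obtain ⟨l, l1, l2, l3, l4⟩ := self_avoid gQ w _ _ hw
      refine le_trans ?_ (ENNReal.le_tsum l)
      rw [if_pos ⟨l1, l2⟩, l3]
      exact wt_lower hθ.le hu0 hu1.le hN0 v hsum n _ (by
        rw [← l3]
        have := nrm_ep_sub_le gQ w 0 l
        rwa [sub_zero] at this) l4
    · rw [Set.indicator_of_notMem hw]
      exact zero_le
  have hlim1 : Tendsto (fun n : ℕ => M / ENNReal.ofReal ((θ ^ N * u) ^ (n / N) * c)) atTop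
      (nhds 0) := by
    have h1 : Tendsto (fun n : ℕ => (θ ^ N * u) ^ (n / N) * c) atTop atTop :=
      ((tendsto_pow_atTop_atTop_of_one_lt hB).comp
        (Nat.tendsto_div_const_atTop hN0.ne')).atTop_mul_const hc0
    have h2 := ENNReal.Tendsto.const_div (ENNReal.tendsto_ofReal_atTop.comp h1)
      (Or.inr hMfin : (⊤ : ENNReal) ≠ ⊤ ∨ M ≠ ⊤)
    rw [ENNReal.div_top] at h2
    exact h2
  have hlim2 := inner_lim_gen h hν gQ hA' hv hε
  have hlim3 := hlim2.add hlim1
  rw [add_zero] at hlim3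
  have hle : mu d ν p p' {w | 1 ≤ (w 0).1} ≤ 0 := by
    refine ge_of_tendsto' hlim3 fun n => ?_
    refine le_trans ?_ (add_le_add le_rfl (hprob n))
    refine le_trans (measure_mono ?_) (measure_union_le _ _)
    intro w hw
    by_cases hR : Rch gQ w 0 ⌊(1 + 1 / (N : ℝ)) * n⌋₊ (near v n)
    · exact Or.inr hR
    · exact Or.inl ⟨hw, hR⟩
  exact absurd (occ_prob h hν) (not_lt.2 hle)

end Pool.Agent.Helper61.LF
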