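import Pool.Agent.Helper61.LF.Defs

/-!
Module LF-01 (Chain). Basic deterministic facts on chains.

All proofs are inductions on the list `c` (generalising the start site `x`), or unfolding.
* `nrm_ep_sub_le`: `|J s (k+1)|_1 ≤ k+1 ≤ tau g s (k+1)` and the triangle inequality.
* `Rch_congr`: a chain of duration `≤ t` from `x` only looks at sites at `ℓ¹` distance `≤ t` of `x`
  (prove by induction on `c`, for all `x`, `t`: if `w` and `w'` agree at all sites `z` with
  `nrm (z - x) ≤ t`, `ok w x c` and `dur g w x c ≤ t`, then `ok w' x c`, `ep w' x c = ep w x c`,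
  `dur g w' x c = dur g w x c`; the next site `x + J` is at distance at most `tau` from `x` and the
  remaining duration is at most `t - tau`).
* `zs_succ`, `ts_succ`: `c.take (i+1) = c.take i ++ [c[i]]` and the lemmas on appended lists.
* `Rch_sub`: `c.take i' = c.take i ++ (c.take i').drop i`.
-/

namespace Pool.Agent.Helper61.LF

theorem ep_append {d : ℕ} (w : Om d) (x : Site d) (c c' : List (ℕ × ℕ)) :
    ep w x (c ++ c') = ep w (ep w x c) c' := by
  induction c generalizing x with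
  | nil => rfl
  | cons a c ih => exact ih _

theorem ok_append {d : ℕ} (w : Om d) (x : Site d) (c c' : List (ℕ × ℕ)) :
    ok w x (c ++ c') ↔ ok w x c ∧ ok w (ep w x c) c' := by
  induction c generalizing x with
  | nil => simp [ok, ep]
  | cons a c ih =>
    show (a.1 < (w x).1 ∧ ok w (x + J ((w x).2 a.1) (a.2 + 1)) (c ++ c')) ↔
      (a.1 < (w x).1 ∧ ok w (x + J ((w x).2 a.1) (a.2 + 1)) c) ∧
        ok w (ep w (x + J ((w x).2 a.1) (a.2 + 1)) c) c'
    rw [ih, and_assoc]

theorem dur_append {d : ℕ} (g : Ent d → ℕ) (w : Om d) (x : Site d) (c c' : List (ℕ × ℕ)) :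
    dur g w x (c ++ c') = dur g w x c + dur g w (ep w x c) c' := by
  induction c generalizing x with
  | nil => simp [dur, ep]
  | cons a c ih =>
    show tau g ((w x).2 a.1) (a.2 + 1) +
        dur g w (x + J ((w x).2 a.1) (a.2 + 1)) (c ++ c') =
      tau g ((w x).2 a.1) (a.2 + 1) + dur g w (x + J ((w x).2 a.1) (a.2 + 1)) c +
        dur g w (ep w (x + J ((w x).2 a.1) (a.2 + 1)) c) c'
    rw [ih, add_assoc]

theorem uses_append {d : ℕ} (w : Om d) (x : Site d) (c c' : List (ℕ × ℕ)) :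
    uses w x (c ++ c') = uses w x c ++ uses w (ep w x c) c' := by
  induction c generalizing x with
  | nil => rfl
  | cons a c ih =>
    show (x, a.1) :: uses w (x + J ((w x).2 a.1) (a.2 + 1)) (c ++ c') =
      (x, a.1) :: uses w (x + J ((w x).2 a.1) (a.2 + 1)) c ++
        uses w (ep w (x + J ((w x).2 a.1) (a.2 + 1)) c) c'
    rw [ih, List.cons_append]

theorem Rch_refl {d : ℕ} (g : Ent d → ℕ) (w : Om d) (x : Site d) (t : ℕ) : Rch g w x t x :=
  ⟨[], trivial, rfl, Nat.zero_le _⟩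

theorem Rch_mono {d : ℕ} {g : Ent d → ℕ} {w : Om d} {x y : Site d} {t t' : ℕ} (h : t ≤ t')
    (hr : Rch g w x t y) : Rch g w x t' y := by
  obtain ⟨c, h1, h2, h3⟩ := hr
  exact ⟨c, h1, h2, h3.trans h⟩

theorem Rch_trans {d : ℕ} {g : Ent d → ℕ} {w : Om d} {x y z : Site d} {t t' : ℕ}
    (h : Rch g w x t y) (h' : Rch g w y t' z) : Rch g w x (t + t') z := by
  obtain ⟨c, h1, h2, h3⟩ := h
  obtain ⟨c', h1', h2', h3'⟩ := h'
  refine ⟨c ++ c', ?_, ?_, ?_⟩
  · rw [ok_append, h2]; exact ⟨h1, h1'⟩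
  · rw [ep_append, h2, h2']
  · rw [dur_append, h2]; omega

theorem tau_gQ_le {d : ℕ} (s : Path d) (k : ℕ) : tau gQ s k ≤ tau gP s k := by
  unfold tau
  apply Finset.sum_le_sum
  intro i _
  unfold gQ gP
  omega

theorem dur_gQ_le {d : ℕ} (w : Om d) (x : Site d) (c : List (ℕ × ℕ)) :
    dur gQ w x c ≤ dur gP w x c := by
  induction c generalizing x with
  | nil => exact le_refl _
  | cons a c ih =>
    show _ + _ ≤ _ + _
    exact Nat.add_le_add (tau_gQ_le _ _) (ih _)

theorem Rch_gQ {d : ℕ} {w : Om d} {x y : Site d} {t : ℕ} (h : Rch gP w x t y) :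
    Rch gQ w x t y := by
  obtain ⟨c, h1, h2, h3⟩ := h
  exact ⟨c, h1, h2, (dur_gQ_le w x c).trans h3⟩

theorem nrm_add_le {d : ℕ} (x y : Site d) : nrm (x + y) ≤ nrm x + nrm y := by
  unfold nrm
  rw [← Finset.sum_add_distrib]
  apply Finset.sum_le_sum
  intro i _
  exact Int.natAbs_add_le _ _

theorem nrm_eq_zero {d : ℕ} {x : Site d} : nrm x = 0 ↔ x = 0 := by
  unfold nrm
  rw [Finset.sum_eq_zero_iff]
  constructor
  · intro h
    funext i
    exact Int.natAbs_eq_zero.1 (h i (Finset.mem_univ i))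
  · rintro rfl i _
    rfl

theorem nrm_vec {d : ℕ} (e : Fin d × Bool) : nrm (vec e) = 1 := by
  unfold nrm vec
  rw [Finset.sum_eq_single e.1]
  · rw [Pi.single_eq_same]
    split_ifs <;> rfl
  · intro b _ hb
    rw [Pi.single_eq_of_ne hb]
    rfl
  · intro h
    exact absurd (Finset.mem_univ _) h

theorem nrm_J_le {d : ℕ} (s : Path d) (k : ℕ) : nrm (J s k) ≤ k := by
  induction k with
  | zero =>
    have : J s 0 = 0 := by simp [J]
    rw [this, nrm_eq_zero.2 rfl]
  | succ k ih =>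
    have : J s (k + 1) = J s k + vec (s k).1 := by
      unfold J
      rw [Finset.sum_range_succ]
    rw [this]
    have h1 := nrm_add_le (J s k) (vec (s k).1)
    rw [nrm_vec] at h1
    omega

theorem le_tau {d : ℕ} (g : Ent d → ℕ) (s : Path d) (k : ℕ) : k ≤ tau g s k := by
  unfold tau
  rw [Finset.sum_add_distrib]
  simp

theorem nrm_ep_sub_le {d : ℕ} (g : Ent d → ℕ) (w : Om d) (x : Site d) (c : List (ℕ × ℕ)) :
    nrm (ep w x c - x) ≤ dur g w x c := by
  induction c generalizing x with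
  | nil =>
    show nrm (x - x) ≤ 0
    rw [sub_self, nrm_eq_zero.2 rfl]
  | cons a c ih =>
    have h1 := ih (x + J ((w x).2 a.1) (a.2 + 1))
    have h2 := nrm_J_le ((w x).2 a.1) (a.2 + 1)
    have h3 := le_tau g ((w x).2 a.1) (a.2 + 1)
    have h4 : ep w x (a :: c) - x = (ep w (x + J ((w x).2 a.1) (a.2 + 1)) c -
        (x + J ((w x).2 a.1) (a.2 + 1))) + J ((w x).2 a.1) (a.2 + 1) := by
      show ep w (x + J ((w x).2 a.1) (a.2 + 1)) c - x = _
      abel
    rw [h4]
    have h5 := nrm_add_le (ep w (x + J ((w x).2 a.1) (a.2 + 1)) c -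
        (x + J ((w x).2 a.1) (a.2 + 1))) (J ((w x).2 a.1) (a.2 + 1))
    have h6 : dur g w x (a :: c) = tau g ((w x).2 a.1) (a.2 + 1) +
      dur g w (x + J ((w x).2 a.1) (a.2 + 1)) c := rfl
    omega

theorem Rch_nrm {d : ℕ} {g : Ent d → ℕ} {w : Om d} {x y : Site d} {t : ℕ} (h : Rch g w x t y) :
    nrm (y - x) ≤ t := by
  obtain ⟨c, _, h2, h3⟩ := h
  rw [← h2]
  exact (nrm_ep_sub_le g w x c).trans h3

/-- If `y ≠ x` is reached from `x` then `x` has a frog. -/
theorem Rch_occ {d : ℕ} {g : Ent d → ℕ} {w : Om d} {x y : Site d} {t : ℕ} (h : Rch g w x t y)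
    (hxy : y ≠ x) : 1 ≤ (w x).1 := by
  obtain ⟨c, h1, h2, _⟩ := h
  cases c with
  | nil => exact absurd h2.symm hxy
  | cons a c =>
    have : a.1 < (w x).1 := h1.1
    omega

theorem length_le_dur {d : ℕ} (g : Ent d → ℕ) (w : Om d) (x : Site d) (c : List (ℕ × ℕ)) :
    c.length ≤ dur g w x c := by
  induction c generalizing x with
  | nil => exact le_refl _
  | cons a c ih =>
    have h1 := ih (x + J ((w x).2 a.1) (a.2 + 1))
    have h3 := le_tau g ((w x).2 a.1) (a.2 + 1)
    have h6 : dur g w x (a :: c) = tau g ((w x).2 a.1) (a.2 + 1) +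
      dur g w (x + J ((w x).2 a.1) (a.2 + 1)) c := rfl
    rw [List.length_cons]
    omega

theorem length_uses {d : ℕ} (w : Om d) (x : Site d) (c : List (ℕ × ℕ)) :
    (uses w x c).length = c.length := by
  induction c generalizing x with
  | nil => rfl
  | cons a c ih =>
    show (_ :: _ : List (Site d × ℕ)).length = _
    rw [List.length_cons, List.length_cons, ih]

theorem chain_congr {d : ℕ} {g : Ent d → ℕ} {w w' : Om d} {x : Site d} {t : ℕ}
    (h : ∀ z, nrm (z - x) ≤ t → w z = w' z) (c : List (ℕ × ℕ)) (h1 : ok w x c)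
    (h2 : dur g w x c ≤ t) :
    ok w' x c ∧ ep w' x c = ep w x c ∧ dur g w' x c = dur g w x c := by
  induction c generalizing x t with
  | nil => exact ⟨trivial, rfl, rfl⟩
  | cons a c ih =>
    have hx : w x = w' x := h x (by rw [sub_self, nrm_eq_zero.2 rfl]; exact Nat.zero_le _)
    have h3 := le_tau g ((w x).2 a.1) (a.2 + 1)
    have h4 := nrm_J_le ((w x).2 a.1) (a.2 + 1)
    have h6 : dur g w x (a :: c) = tau g ((w x).2 a.1) (a.2 + 1) +
      dur g w (x + J ((w x).2 a.1) (a.2 + 1)) c := rfl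
    obtain ⟨i1, i2, i3⟩ := ih (x := x + J ((w x).2 a.1) (a.2 + 1))
      (t := t - tau g ((w x).2 a.1) (a.2 + 1))
      (by
        intro z hz
        apply h
        have : z - x = (z - (x + J ((w x).2 a.1) (a.2 + 1))) + J ((w x).2 a.1) (a.2 + 1) := by
          abel
        rw [this]
        have h7 := nrm_add_le (z - (x + J ((w x).2 a.1) (a.2 + 1))) (J ((w x).2 a.1) (a.2 + 1))
        omega) h1.2 (by omega)
    refine ⟨⟨?_, ?_⟩, ?_, ?_⟩
    · rw [← hx]; exact h1.1
    · rw [← hx]; exact i1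
    · show ep w' (x + J ((w' x).2 a.1) (a.2 + 1)) c = _
      rw [← hx]; exact i2
    · show tau g ((w' x).2 a.1) (a.2 + 1) + dur g w' (x + J ((w' x).2 a.1) (a.2 + 1)) c = _
      rw [← hx, i3, h6]

theorem Rch_congr {d : ℕ} {g : Ent d → ℕ} {w w' : Om d} {x y : Site d} {t : ℕ}
    (h : ∀ z, nrm (z - x) ≤ t → w z = w' z) : Rch g w x t y ↔ Rch g w' x t y := by
  constructor
  · rintro ⟨c, h1, h2, h3⟩
    obtain ⟨h4, h5, h6⟩ := chain_congr h c h1 h3
    exact ⟨c, h4, h5.trans h2, h6.le.trans h3⟩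
  · rintro ⟨c, h1, h2, h3⟩
    obtain ⟨h4, h5, h6⟩ := chain_congr (fun z hz => (h z hz).symm) c h1 h3
    exact ⟨c, h4, h5.trans h2, h6.le.trans h3⟩

theorem chain_shift {d : ℕ} (g : Ent d → ℕ) (w : Om d) (a x : Site d) (c : List (ℕ × ℕ)) :
    (ok (shift a w) x c ↔ ok w (x + a) c) ∧ ep w (x + a) c = ep (shift a w) x c + a ∧
      dur g w (x + a) c = dur g (shift a w) x c := by
  induction c generalizing x with
  | nil => exact ⟨Iff.rfl, rfl, rfl⟩
  | cons b c ih =>
    have hx : shift a w x = w (x + a) := rfl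
    have hc : x + a + J ((w (x + a)).2 b.1) (b.2 + 1) =
        x + J ((w (x + a)).2 b.1) (b.2 + 1) + a := by abel
    obtain ⟨i1, i2, i3⟩ := ih (x + J ((w (x + a)).2 b.1) (b.2 + 1))
    refine ⟨?_, ?_, ?_⟩
    · show (_ ∧ ok (shift a w) (x + J ((w (x + a)).2 b.1) (b.2 + 1)) c) ↔
        (_ ∧ ok w (x + a + J ((w (x + a)).2 b.1) (b.2 + 1)) c)
      rw [i1, hc]
      rfl
    · show ep w (x + a + J ((w (x + a)).2 b.1) (b.2 + 1)) c = _
      rw [hc, i2]
      rfl
    · show _ + dur g w (x + a + J ((w (x + a)).2 b.1) (b.2 + 1)) c = _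
      rw [hc, i3]
      rfl

/-- Translation. -/
theorem Rch_shift {d : ℕ} (g : Ent d → ℕ) (w : Om d) (a x y : Site d) (t : ℕ) :
    Rch g (shift a w) x t y ↔ Rch g w (x + a) t (y + a) := by
  constructor
  · rintro ⟨c, h1, h2, h3⟩
    obtain ⟨h4, h5, h6⟩ := chain_shift g w a x c
    exact ⟨c, h4.1 h1, by rw [h5, h2], by rw [h6]; exact h3⟩
  · rintro ⟨c, h1, h2, h3⟩
    obtain ⟨h4, h5, h6⟩ := chain_shift g w a x c
    refine ⟨c, h4.2 h1, ?_, by rw [← h6]; exact h3⟩
    rw [h5] at h2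
    exact add_right_cancel h2

/-! ### Trajectory of a chain from the origin -/

theorem zs_zero {d : ℕ} (w : Om d) (l : List (ℕ × ℕ)) : zs w l 0 = 0 := by
  unfold zs
  rw [List.take_zero]
  rfl

theorem ts_zero {d : ℕ} (w : Om d) (l : List (ℕ × ℕ)) : ts w l 0 = 0 := by
  unfold ts
  rw [List.take_zero]
  rfl

theorem zs_len {d : ℕ} (w : Om d) (l : List (ℕ × ℕ)) : zs w l l.length = ep w 0 l := by
  unfold zs
  rw [List.take_length]

theorem ts_len {d : ℕ} (w : Om d) (l : List (ℕ × ℕ)) : ts w l l.length = dur gP w 0 l := by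
  unfold ts
  rw [List.take_length]

theorem zs_succ {d : ℕ} (w : Om d) (l : List (ℕ × ℕ)) (i : ℕ) (hi : i < l.length) :
    zs w l (i + 1) = zs w l i + J ((w (zs w l i)).2 (l[i]).1) ((l[i]).2 + 1) := by
  unfold zs
  rw [← List.take_append_getElem hi, ep_append]
  rfl

theorem ts_succ {d : ℕ} (w : Om d) (l : List (ℕ × ℕ)) (i : ℕ) (hi : i < l.length) :
    ts w l (i + 1) = ts w l i + tau gP ((w (zs w l i)).2 (l[i]).1) ((l[i]).2 + 1) := by
  unfold ts
  rw [← List.take_append_getElem hi, dur_append]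
  rfl

theorem ok_occ {d : ℕ} (w : Om d) (l : List (ℕ × ℕ)) (h : ok w 0 l) (i : ℕ) (hi : i < l.length) :
    (l[i]).1 < (w (zs w l i)).1 := by
  have h1 : ok w 0 (l.take (i + 1)) := by
    have h2 : l = l.take (i + 1) ++ l.drop (i + 1) := (List.take_append_drop _ _).symm
    rw [h2, ok_append] at h
    exact h.1
  rw [← List.take_append_getElem hi, ok_append] at h1
  exact h1.2.1

theorem ts_lt {d : ℕ} (w : Om d) (l : List (ℕ × ℕ)) (i : ℕ) (hi : i < l.length) :
    ts w l i < ts w l (i + 1) := by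
  rw [ts_succ w l i hi]
  have h3 := le_tau gP ((w (zs w l i)).2 (l[i]).1) ((l[i]).2 + 1)
  omega

theorem take_split {α : Type*} (l : List α) {i i' : ℕ} (h : i ≤ i') :
    l.take i' = l.take i ++ (l.take i').drop i := by
  have h1 := (List.take_append_drop i (l.take i')).symm
  rw [List.take_take, min_eq_left h] at h1
  exact h1

theorem ts_mono {d : ℕ} (w : Om d) (l : List (ℕ × ℕ)) {i i' : ℕ} (h : i ≤ i') :
    ts w l i ≤ ts w l i' := by
  have h2 : l.take i' = l.take i ++ (l.take i').drop i := take_split l h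
  unfold ts
  rw [h2, dur_append]
  exact Nat.le_add_right _ _

theorem Rch_sub {d : ℕ} (w : Om d) (l : List (ℕ × ℕ)) (h : ok w 0 l) {i i' : ℕ} (hi : i ≤ i')
    (hi' : i' ≤ l.length) : Rch gP w (zs w l i) (ts w l i' - ts w l i) (zs w l i') := by
  have h2 : l.take i' = l.take i ++ (l.take i').drop i := take_split l hi
  have h3 : ok w 0 (l.take i') := by
    have h4 : l = l.take i' ++ l.drop i' := (List.take_append_drop _ _).symm
    rw [h4, ok_append] at h
    exact h.1
  refine ⟨(l.take i').drop i, ?_, ?_, ?_⟩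
  · rw [h2, ok_append] at h3
    exact h3.2
  · unfold zs
    rw [← ep_append, ← h2]
  · have h5 : ts w l i' = ts w l i + dur gP w (zs w l i) ((l.take i').drop i) := by
      show dur gP w 0 (l.take i') = dur gP w 0 (l.take i) + dur gP w (ep w 0 (l.take i)) _
      rw [← dur_append, ← h2]
    omega

theorem nrm_zs_sub {d : ℕ} (w : Om d) (l : List (ℕ × ℕ)) {i i' : ℕ} (hi : i ≤ i') :
    nrm (zs w l i' - zs w l i) ≤ ts w l i' - ts w l i := by
  have h2 : l.take i' = l.take i ++ (l.take i').drop i := take_split l hi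
  have h5 : ts w l i' = ts w l i + dur gP w (zs w l i) ((l.take i').drop i) := by
    show dur gP w 0 (l.take i') = dur gP w 0 (l.take i) + dur gP w (ep w 0 (l.take i)) _
    rw [← dur_append, ← h2]
  have h6 : zs w l i' = ep w (zs w l i) ((l.take i').drop i) := by
    show ep w 0 (l.take i') = ep w (ep w 0 (l.take i)) _
    rw [← ep_append, ← h2]
  rw [h6, h5]
  have := nrm_ep_sub_le gP w (zs w l i) ((l.take i').drop i)
  omega

theorem mem_uses_iff {d : ℕ} (w : Om d) (l : List (ℕ × ℕ)) (x : Site d) (j : ℕ) :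
    (x, j) ∈ uses w 0 l ↔ ∃ i, ∃ h : i < l.length, zs w l i = x ∧ (l[i]).1 = j := by
  have key : ∀ (q : List (ℕ × ℕ)) (z : Site d), (x, j) ∈ uses w z q ↔
      ∃ i, ∃ h : i < q.length, ep w z (q.take i) = x ∧ (q[i]).1 = j := by
    intro q
    induction q with
    | nil =>
      intro z
      simp [uses]
    | cons a c ih =>
      intro z
      have h1 : (x, j) ∈ uses w z (a :: c) ↔ (x, j) = (z, a.1) ∨
          (x, j) ∈ uses w (z + J ((w z).2 a.1) (a.2 + 1)) c := List.mem_cons
      rw [h1, ih]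
      constructor
      · rintro (h | ⟨i, h, h2, h3⟩)
        · rw [Prod.mk.injEq] at h
          exact ⟨0, Nat.succ_pos _, h.1.symm, h.2.symm⟩
        · exact ⟨i + 1, Nat.succ_lt_succ h, h2, h3⟩
      · rintro ⟨i, h, h2, h3⟩
        cases i with
        | zero =>
          left
          rw [Prod.mk.injEq]
          exact ⟨h2.symm, h3.symm⟩
        | succ i =>
          right
          exact ⟨i, Nat.lt_of_succ_lt_succ h, h2, h3⟩
  exact key l 0

/-- The switching sites of an optimal chain are distinct, and different from the target. -/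
theorem opt_inj {d : ℕ} (w : Om d) (y : Site d) (l : List (ℕ × ℕ)) (h : Opt w 0 y l) {i i' : ℕ}
    (hi : i < i') (hi' : i' ≤ l.length) : zs w l i ≠ zs w l i' := by
  intro he
  obtain ⟨h1, h2, h3⟩ := h
  have e1 : l = l.take i' ++ l.drop i' := (List.take_append_drop _ _).symm
  have e2 : l.take i' = l.take i ++ (l.take i').drop i := take_split l hi.le
  have he' : ep w 0 (l.take i) = ep w 0 (l.take i') := he
  have hok : ok w 0 (l.take i') ∧ ok w (ep w 0 (l.take i')) (l.drop i') := by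
    rw [e1, ok_append] at h1
    exact h1
  have hok2 : ok w 0 (l.take i) := by
    have := hok.1
    rw [e2, ok_append] at this
    exact this.1
  have h4 := h3 (l.take i ++ l.drop i') (by
    rw [ok_append, he']
    exact ⟨hok2, hok.2⟩) (by
    rw [ep_append, he', ← ep_append, ← e1, h2])
  rw [dur_append, he'] at h4
  have h5 : dur gP w 0 l = dur gP w 0 (l.take i') + dur gP w (ep w 0 (l.take i')) (l.drop i') := by
    rw [← dur_append, ← e1]
  have h6 : ts w l i < ts w l (i + 1) := ts_lt w l i (by omega)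
  have h7 : ts w l (i + 1) ≤ ts w l i' := ts_mono w l hi
  unfold ts at h6 h7
  omega

theorem sel_spec {d : ℕ} (w : Om d) (y : Site d) (h : ∃ c, ok w 0 c ∧ ep w 0 c = y) :
    Opt w 0 y (sel y w) := by
  classical
  have hn : ∃ n : ℕ, ∃ c, ok w 0 c ∧ ep w 0 c = y ∧ dur gP w 0 c = n := by
    obtain ⟨c, h1, h2⟩ := h
    exact ⟨_, c, h1, h2, rfl⟩
  obtain ⟨c, h1, h2, h3⟩ := Nat.find_spec hn
  have hopt : Opt w 0 y c := by
    refine ⟨h1, h2, ?_⟩
    intro c' h4 h5
    rw [h3]
    exact Nat.find_min' hn ⟨c', h4, h5, rfl⟩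
  have hex : ∃ n : ℕ, ∃ c : List (ℕ × ℕ), Encodable.encode c = n ∧ Opt w 0 y c := ⟨_, c, rfl, hopt⟩
  unfold sel
  rw [dif_pos hex]
  exact (Nat.find_spec hex).choose_spec.2

end Pool.Agent.Helper61.LF
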