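import Pool.Agent.Helper61.LF.Model

/-!
Internal model for the proof. The path of a frog is a sequence of entries `(e, a, b)`: the
direction `e` of the next jump, its holding time `a` before the jump in the fast process
(parameter `p'`) and `a + b` in the slow process (parameter `p`).
-/

namespace Pool.Agent.Helper61.LF

open MeasureTheory

/-- One entry of a path: direction of the jump, holding time in the fast process, additional
holding time in the slow process. -/
abbrev Ent (d : ℕ) := (Fin d × Bool) × ℕ × ℕ

abbrev Path (d : ℕ) := ℕ → Ent d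

/-- State of a site: the number of frogs and their paths. -/
abbrev St (d : ℕ) := ℕ × (ℕ → Path d)

abbrev Om (d : ℕ) := Site d → St d

/-- Unit vector in a direction. -/
def vec {d : ℕ} (e : Fin d × Bool) : Site d := Pi.single e.1 (if e.2 then 1 else -1)

/-- The `ℓ¹` norm on the lattice. -/
def nrm {d : ℕ} (z : Site d) : ℕ := ∑ i, (z i).natAbs

/-- Displacement after `k` jumps. -/
def J {d : ℕ} (s : Path d) (k : ℕ) : Site d := ∑ i ∈ Finset.range k, vec (s i).1

/-- Clock of the slow process: holding time of an entry. -/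
def gP {d : ℕ} (e : Ent d) : ℕ := e.2.1 + e.2.2

/-- Clock of the fast process: holding time of an entry. -/
def gQ {d : ℕ} (e : Ent d) : ℕ := e.2.1

/-- Time of the `k`-th jump, for the clock `g`. -/
def tau {d : ℕ} (g : Ent d → ℕ) (s : Path d) (k : ℕ) : ℕ :=
  ∑ i ∈ Finset.range k, (g (s i) + 1)

/-- End of a chain started at `x`. A chain is a list of pairs `(j, k)`: take frog `j` of the
current site and follow it for `k + 1` jumps. -/
def ep {d : ℕ} (w : Om d) : Site d → List (ℕ × ℕ) → Site d
  | x, [] => x
  | x, (j, k) :: c => ep w (x + J ((w x).2 j) (k + 1)) c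

/-- All frogs used by the chain exist. -/
def ok {d : ℕ} (w : Om d) : Site d → List (ℕ × ℕ) → Prop
  | _, [] => True
  | x, (j, k) :: c => j < (w x).1 ∧ ok w (x + J ((w x).2 j) (k + 1)) c

/-- Duration of a chain. -/
def dur {d : ℕ} (g : Ent d → ℕ) (w : Om d) : Site d → List (ℕ × ℕ) → ℕ
  | _, [] => 0
  | x, (j, k) :: c => tau g ((w x).2 j) (k + 1) + dur g w (x + J ((w x).2 j) (k + 1)) c

/-- The pairs (site, frog) used by a chain. -/
def uses {d : ℕ} (w : Om d) : Site d → List (ℕ × ℕ) → List (Site d × ℕ)
  | _, [] => []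
  | x, (j, k) :: c => (x, j) :: uses w (x + J ((w x).2 j) (k + 1)) c

/-- `y` is reached from `x` within time `t` (clock `g`). -/
def Rch {d : ℕ} (g : Ent d → ℕ) (w : Om d) (x : Site d) (t : ℕ) (y : Site d) : Prop :=
  ∃ c, ok w x c ∧ ep w x c = y ∧ dur g w x c ≤ t

/-- An optimal chain from `x` to `y` for the slow clock. -/
def Opt {d : ℕ} (w : Om d) (x y : Site d) (c : List (ℕ × ℕ)) : Prop :=
  ok w x c ∧ ep w x c = y ∧ ∀ c', ok w x c' → ep w x c' = y → dur gP w x c ≤ dur gP w x c'

open Classical in
/-- The optimal chain from `0` to `y` of least code (the empty chain if there is none). -/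
noncomputable def sel {d : ℕ} (y : Site d) (w : Om d) : List (ℕ × ℕ) :=
  if h : ∃ n : ℕ, ∃ c : List (ℕ × ℕ), Encodable.encode c = n ∧ Opt w 0 y c
  then (Nat.find_spec h).choose else []

/-- `i`-th switching site of a chain from `0`. -/
def zs {d : ℕ} (w : Om d) (c : List (ℕ × ℕ)) (i : ℕ) : Site d := ep w 0 (c.take i)

/-- `i`-th switching time of a chain from `0`, slow clock. -/
def ts {d : ℕ} (w : Om d) (c : List (ℕ × ℕ)) (i : ℕ) : ℕ := dur gP w 0 (c.take i)

open Classical in
/-- Wasteful indices of a chain from `0`: some later switching site is reached in time at most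
`Kc` although its `ℓ¹` distance is smaller than that time by at least `2`. -/
noncomputable def wst {d : ℕ} (Kc : ℕ) (w : Om d) (l : List (ℕ × ℕ)) : Finset ℕ :=
  (Finset.range l.length).filter fun i => ∃ i', i < i' ∧ i' ≤ l.length ∧
    ts w l i' - ts w l i ≤ Kc ∧ nrm (zs w l i' - zs w l i) + 2 ≤ ts w l i' - ts w l i

/-- The selected chain uses frog `j` of the site `x`, and a later switching site is `x + v`,
reached from `x` in time at least `|v| + 2`. -/
def evA {d : ℕ} (y x : Site d) (j : ℕ) (v : Site d) (w : Om d) : Prop :=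
  ∃ i i', i < i' ∧ i' ≤ (sel y w).length ∧ ∃ h : i < (sel y w).length,
    zs w (sel y w) i = x ∧ ((sel y w)[i]).1 = j ∧ zs w (sel y w) i' = x + v ∧
      nrm v + 2 ≤ ts w (sel y w) i' - ts w (sel y w) i

/-- Every optimal chain from `0` to `y` uses frog `j` of `x`, and this frog has a positive
additional holding time in its first entry. -/
def evU {d : ℕ} (y x : Site d) (j : ℕ) (w : Om d) : Prop :=
  (∀ c, Opt w 0 y c → (x, j) ∈ uses w 0 c) ∧ 1 ≤ ((w x).2 j 0).2.2

/-- A site as a point of the real space. -/
def toR {d : ℕ} (z : Site d) : Fin d → ℝ := fun i => (z i : ℝ)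

/-- The linear functional with coefficients `f`. -/
def lin {d : ℕ} (f v : Fin d → ℝ) : ℝ := ∑ i, f i * v i

/-- The cell of side `s` that contains a site. -/
def cellOf {d : ℕ} (s : ℕ) (z : Site d) : Site d := fun i => z i / (s : ℤ)

/-- A good cell: it contains an occupied site `w0` from which all sites of the cell are reached
within time `L` and such that everything reached from `w0` by time `t` lies in
`w0 + (1 + δ) t C`, for all `t` between `K` and `Km`. -/
def Good {d : ℕ} (C : Set (Fin d → ℝ)) (δ : ℝ) (s L K Km : ℕ) (w : Om d) (c : Site d) : Prop :=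
  ∃ w0, cellOf s w0 = c ∧ 1 ≤ (w w0).1 ∧ (∀ z, cellOf s z = c → Rch gP w w0 L z) ∧
    ∀ t, K ≤ t → t ≤ Km → ∀ z, Rch gP w w0 t z → ∃ v ∈ C, toR (z - w0) = ((1 + δ) * t) • v

/-- Translation of a configuration. -/
def shift {d : ℕ} (a : Site d) (w : Om d) : Om d := fun x => w (x + a)

/-- Replace the path of frog `j` at the site `x`. -/
def upd {d : ℕ} (w : Om d) (x : Site d) (j : ℕ) (s : Path d) : Om d :=
  Function.update w x ((w x).1, Function.update (w x).2 j s)

/-! ### Laws -/

/-- Uniform law on the directions. -/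
noncomputable def dirLaw (d : ℕ) : Measure (Fin d × Bool) :=
  ∑ e : Fin d × Bool, ENNReal.ofReal (1 / (2 * d)) • Measure.dirac e

/-- Geometric law: weight `p (1-p)^k` at `k`. -/
noncomputable def geoLaw (p : ℝ) : Measure ℕ :=
  Measure.sum fun k : ℕ => ENNReal.ofReal (p * (1 - p) ^ k) • Measure.dirac k

/-- Law of the additional holding time: weight `p/p'` at `0` and
`(p/p') (p'-p) (1-p)^k` at `k+1`. -/
noncomputable def addLaw (p p' : ℝ) : Measure ℕ :=
  ENNReal.ofReal (p / p') • Measure.dirac 0 +
    Measure.sum fun k : ℕ => ENNReal.ofReal (p / p' * (p' - p) * (1 - p) ^ k) • Measure.dirac (k + 1)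

/-- Law of an entry. -/
noncomputable def entLaw (d : ℕ) (p p' : ℝ) : Measure (Ent d) :=
  (dirLaw d).prod ((geoLaw p').prod (addLaw p p'))

/-- Law of a path. -/
noncomputable def pathLaw (d : ℕ) (p p' : ℝ) : Measure (Path d) :=
  Measure.infinitePi fun _ : ℕ => entLaw d p p'

/-- Law of the state of a site. -/
noncomputable def stLaw (d : ℕ) (ν : Measure ℕ) (p p' : ℝ) : Measure (St d) :=
  ν.prod (Measure.infinitePi fun _ : ℕ => pathLaw d p p')

/-- Law of the internal configuration. -/
noncomputable def mu (d : ℕ) (ν : Measure ℕ) (p p' : ℝ) : Measure (Om d) :=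
  Measure.infinitePi fun _ : Site d => stLaw d ν p p'

/-- The steps (in time) of a path with the clock `g`: the walk makes its jump number `k` in the
time step number `tau (k+1) - 1`. -/
def steps {d : ℕ} (g : Ent d → ℕ) (s : Path d) (t : ℕ) : Site d :=
  ∑ k ∈ Finset.range (t + 1), if tau g s (k + 1) = t + 1 then vec (s k).1 else 0

/-- The configuration of the problem built from an internal configuration and a clock. -/
def toConf {d : ℕ} (g : Ent d → ℕ) (w : Om d) : Conf d :=
  fun x => ((w x).1, fun j => steps g ((w x).2 j))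

end Pool.Agent.Helper61.LF
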