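import Pool.Agent.Helper61.LF.Law

/-!
Module LF-04 (Expand). From (direction, holding time) sequences to steps in time.

Proof.
(1) Let `U = (Fin d × Bool) × ℕ`, `κ = (dirLaw d).prod (geoLaw r)` and, for `u : ℕ → U`,
`S u t = Σ_{k ≤ t} (if Σ_{i ≤ k} ((u i).2 + 1) = t + 1 then vec (u k).1 else 0)`.
Then `steps g s = S (fun k => ((s k).1, g (s k)))` and by `infinitePi_map_pi` the law of
`fun k => ((s k).1, g (s k))` is `infinitePi κ`.
(2) Let `cons x u : ℕ → α` be the sequence `x, u 0, u 1, …` (`Nat.rec`/`Nat.casesOn`). The image of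
`κ.prod (infinitePi κ)` under `cons` is `infinitePi κ` (`eq_infinitePi`, boxes).
(3) Pointwise: `S (cons (e, 0) u) = cons (vec e) (S u)` and
`S (cons (e, n + 1) u) = cons 0 (S (cons (e, n) u))`.
(4) Let `Q` be the image of `infinitePi κ` under `S`. Then `Q` is the image of
`(stepLaw d r).prod Q` under `cons`: for measurable `B`, `D` the mass of `{x | x 0 ∈ B, shift x ∈ D}`
under `Q` is, by (2), (3) and `geoLaw r {n+1} = (1-r) geoLaw r {n}`,
`r Σ_e (1/(2d)) 1[vec e ∈ B] Q D + (1 - r) 1[0 ∈ B] Q D = stepLaw d r B * Q D`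
(in the second term the law of `S (cons (e, n) u)` with `n` of law `geoLaw r` is again `Q`).
(5) A probability measure `Q` on `ℕ → Site d` which is the image of `σ.prod Q` under `cons`, `σ` a
probability measure, equals `infinitePi σ`: by induction on `N`,
`Q {x | ∀ i < N, x i ∈ t i} = Π_{i<N} σ (t i)`; a box over a finset `s ⊆ range N` is a box over
`range N` with `t i = univ` for the other `i`; conclude with `eq_infinitePi`.
-/

namespace Pool.Agent.Helper61.LF

open MeasureTheory

namespace Expand

/-- Prepend a term to a sequence. -/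
def cons {α : Type*} (x : α) (u : ℕ → α) : ℕ → α
  | 0 => x
  | n + 1 => u n

@[simp] theorem cons_zero {α : Type*} (x : α) (u : ℕ → α) : cons x u 0 = x := rfl

@[simp] theorem cons_succ {α : Type*} (x : α) (u : ℕ → α) (n : ℕ) : cons x u (n + 1) = u n := rfl

theorem measurable_cons {α : Type*} [MeasurableSpace α] :
    Measurable (fun q : α × (ℕ → α) => cons q.1 q.2) := by
  refine measurable_pi_iff.2 fun n => ?_
  cases n with
  | zero => exact measurable_fst
  | succ n => exact (measurable_pi_apply n).comp measurable_snd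

theorem measurable_cons' {α : Type*} [MeasurableSpace α] (x : α) :
    Measurable (fun u : ℕ → α => cons x u) := by
  exact measurable_cons.comp measurable_prodMk_left

/-- A measure on sequences is a product if its values on initial boxes are right. -/
theorem eq_infinitePi_of_range {α : Type*} [MeasurableSpace α] (σ : Measure α)
    [IsProbabilityMeasure σ] (Q : Measure (ℕ → α))
    (h : ∀ (N : ℕ) (t : ℕ → Set α), (∀ i, MeasurableSet (t i)) →
      Q {x | ∀ i < N, x i ∈ t i} = ∏ i ∈ Finset.range N, σ (t i)) :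
    Q = Measure.infinitePi fun _ : ℕ => σ := by
  classical
  refine Measure.eq_infinitePi _ fun s t ht => ?_
  have h1 := h (s.sup id + 1) (fun i => if i ∈ s then t i else Set.univ) (by
    intro i
    by_cases hi : i ∈ s
    · simpa [hi] using ht i
    · simp [hi])
  have h2 : {x : ℕ → α | ∀ i < s.sup id + 1, x i ∈ (if i ∈ s then t i else Set.univ)} =
      Set.pi (s : Set ℕ) t := by
    ext x
    constructor
    · intro hx i hi
      have hi' : i ∈ s := hi
      have := hx i (Nat.lt_succ_of_le (Finset.le_sup (f := id) hi'))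
      rw [if_pos hi'] at this
      exact this
    · intro hx i _
      by_cases hi : i ∈ s
      · rw [if_pos hi]; exact hx i hi
      · rw [if_neg hi]; trivial
  rw [h2] at h1
  rw [h1]
  have h3 : s ⊆ Finset.range (s.sup id + 1) := fun i hi =>
    Finset.mem_range.2 (Nat.lt_succ_of_le (Finset.le_sup (f := id) hi))
  rw [← Finset.prod_subset h3]
  · exact Finset.prod_congr rfl fun i hi => by rw [if_pos hi]
  · intro i _ hi
    rw [if_neg hi]
    exact measure_univ

theorem box_succ {α : Type*} (N : ℕ) (t : ℕ → Set α) :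
    (fun q : α × (ℕ → α) => cons q.1 q.2) ⁻¹' {x | ∀ i < N + 1, x i ∈ t i} =
      (t 0) ×ˢ {x : ℕ → α | ∀ i < N, x i ∈ t (i + 1)} := by
  ext ⟨y, x⟩
  simp only [Set.mem_preimage, Set.mem_ofPred_eq, Set.mem_prod]
  constructor
  · intro h
    exact ⟨h 0 (Nat.succ_pos N), fun i hi => h (i + 1) (Nat.succ_lt_succ hi)⟩
  · rintro ⟨h0, h1⟩ i hi
    cases i with
    | zero => exact h0
    | succ i => exact h1 i (Nat.lt_of_succ_lt_succ hi)

theorem measurableSet_box {α : Type*} [MeasurableSpace α] (N : ℕ) (t : ℕ → Set α)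
    (ht : ∀ i, MeasurableSet (t i)) : MeasurableSet {x : ℕ → α | ∀ i < N, x i ∈ t i} := by
  have : {x : ℕ → α | ∀ i < N, x i ∈ t i} = ⋂ i ∈ Finset.range N, (fun x : ℕ → α => x i) ⁻¹' t i := by
    ext x; simp
  rw [this]
  exact Finset.measurableSet_biInter _ fun i _ => measurable_pi_apply i (ht i)

/-- A fixed point of `Q ↦ σ ⊗ Q` is the product measure. -/
theorem eq_infinitePi_of_cons {α : Type*} [MeasurableSpace α] (σ : Measure α)
    [IsProbabilityMeasure σ] (Q : Measure (ℕ → α)) [IsProbabilityMeasure Q]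
    (h : Measure.map (fun q : α × (ℕ → α) => cons q.1 q.2) (σ.prod Q) = Q) :
    Q = Measure.infinitePi fun _ : ℕ => σ := by
  refine eq_infinitePi_of_range σ Q ?_
  intro N
  induction N with
  | zero =>
    intro t _
    simp
  | succ N ih =>
    intro t ht
    rw [← h, Measure.map_apply measurable_cons (measurableSet_box _ _ ht), box_succ,
      Measure.prod_prod, ih (fun i => t (i + 1)) (fun i => ht (i + 1)), Finset.prod_range_succ',
      mul_comm]

theorem map_cons_infinitePi {α : Type*} [MeasurableSpace α] (σ : Measure α)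
    [IsProbabilityMeasure σ] :
    Measure.map (fun q : α × (ℕ → α) => cons q.1 q.2)
      (σ.prod (Measure.infinitePi fun _ : ℕ => σ)) = Measure.infinitePi fun _ : ℕ => σ := by
  have hbox : ∀ (N : ℕ) (t : ℕ → Set α), (∀ i, MeasurableSet (t i)) →
      (Measure.infinitePi fun _ : ℕ => σ) {x | ∀ i < N, x i ∈ t i} =
        ∏ i ∈ Finset.range N, σ (t i) := by
    intro N t ht
    have : {x : ℕ → α | ∀ i < N, x i ∈ t i} = Set.pi (Finset.range N : Set ℕ) t := by
      ext x; simp [Set.mem_pi]
    rw [this, Measure.infinitePi_pi _ fun i _ => ht i]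
  refine eq_infinitePi_of_range σ _ fun N t ht => ?_
  cases N with
  | zero =>
    have : IsProbabilityMeasure (Measure.map (fun q : α × (ℕ → α) => cons q.1 q.2)
      (σ.prod (Measure.infinitePi fun _ : ℕ => σ))) :=
      Measure.isProbabilityMeasure_map measurable_cons.aemeasurable
    simp
  | succ N =>
    rw [Measure.map_apply measurable_cons (measurableSet_box _ _ ht), box_succ,
      Measure.prod_prod, hbox N (fun i => t (i + 1)) (fun i => ht (i + 1)),
      Finset.prod_range_succ', mul_comm]

/-- Steps in time from the sequence of directions and holding times. -/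
def SS {d : ℕ} (u : ℕ → (Fin d × Bool) × ℕ) (t : ℕ) : Site d :=
  ∑ k ∈ Finset.range (t + 1),
    if ∑ i ∈ Finset.range (k + 1), ((u i).2 + 1) = t + 1 then vec (u k).1 else 0

theorem SS_cons_zero {d : ℕ} (e : Fin d × Bool) (u : ℕ → (Fin d × Bool) × ℕ) :
    SS (cons (e, 0) u) = cons (vec e) (SS u) := by
  funext t
  cases t with
  | zero => simp [SS]
  | succ t =>
    rw [cons_succ]
    unfold SS
    rw [Finset.sum_range_succ']
    have h0 : ¬ (∑ i ∈ Finset.range (0 + 1), ((cons (e, 0) u i).2 + 1) = t + 1 + 1) := by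
      simp
    rw [if_neg h0, add_zero]
    refine Finset.sum_congr rfl fun k _ => ?_
    rw [Finset.sum_range_succ' _ (k + 1)]
    simp only [cons_succ, cons_zero]
    have : (∑ i ∈ Finset.range (k + 1), ((u i).2 + 1) + (0 + 1) = t + 1 + 1) ↔
        (∑ i ∈ Finset.range (k + 1), ((u i).2 + 1) = t + 1) := by omega
    simp only [this]

theorem SS_cons_succ {d : ℕ} (e : Fin d × Bool) (n : ℕ) (u : ℕ → (Fin d × Bool) × ℕ) :
    SS (cons (e, n + 1) u) = cons 0 (SS (cons (e, n) u)) := by
  have hsum : ∀ k, ∑ i ∈ Finset.range (k + 1), ((cons (e, n + 1) u i).2 + 1) =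
      ∑ i ∈ Finset.range (k + 1), ((cons (e, n) u i).2 + 1) + 1 := by
    intro k
    rw [Finset.sum_range_succ', Finset.sum_range_succ']
    simp only [cons_succ, cons_zero]
    omega
  have hlow : ∀ k, k + 1 ≤ ∑ i ∈ Finset.range (k + 1), ((cons (e, n) u i).2 + 1) := by
    intro k
    calc k + 1 = ∑ _i ∈ Finset.range (k + 1), 1 := by simp
      _ ≤ _ := Finset.sum_le_sum fun i _ => Nat.le_add_left 1 _
  funext t
  cases t with
  | zero =>
    rw [cons_zero]
    unfold SS
    rw [Finset.sum_range_one, hsum 0, if_neg]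
    have := hlow 0
    omega
  | succ t =>
    rw [cons_succ]
    unfold SS
    rw [Finset.sum_range_succ]
    have hlast : ¬ (∑ i ∈ Finset.range (t + 1 + 1), ((cons (e, n + 1) u i).2 + 1) = t + 1 + 1) := by
      rw [hsum (t + 1)]
      have := hlow (t + 1)
      omega
    rw [if_neg hlast, add_zero]
    refine Finset.sum_congr rfl fun k _ => ?_
    rw [hsum k]
    have h1 : (∑ i ∈ Finset.range (k + 1), ((cons (e, n) u i).2 + 1) + 1 = t + 1 + 1) ↔
        (∑ i ∈ Finset.range (k + 1), ((cons (e, n) u i).2 + 1) = t + 1) := by omega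
    have h2 : (cons (e, n + 1) u k).1 = (cons (e, n) u k).1 := by
      cases k with
      | zero => rfl
      | succ k => rfl
    simp only [h1, h2]

theorem measurable_SS {d : ℕ} : Measurable (SS : (ℕ → (Fin d × Bool) × ℕ) → ℕ → Site d) := by
  refine measurable_pi_iff.2 fun t => ?_
  unfold SS
  refine Finset.measurable_sum _ fun k _ => ?_
  refine Measurable.ite ?_ ?_ measurable_const
  · have h1 : Measurable fun u : ℕ → (Fin d × Bool) × ℕ =>
        ∑ i ∈ Finset.range (k + 1), ((u i).2 + 1) := by
      refine Finset.measurable_sum _ fun i _ => ?_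
      exact ((Measurable.of_discrete (f := fun q : (Fin d × Bool) × ℕ => q.2 + 1)).comp
        (measurable_pi_apply i))
    exact h1 (MeasurableSet.singleton (t + 1))
  · exact (Measurable.of_discrete (f := fun q : (Fin d × Bool) × ℕ => vec q.1)).comp
      (measurable_pi_apply k)

theorem lintegral_geoLaw {r : ℝ} (f : ℕ → ENNReal) :
    ∫⁻ n, f n ∂(geoLaw r) = ∑' n : ℕ, ENNReal.ofReal (r * (1 - r) ^ n) * f n := by
  rw [geoLaw, lintegral_sum_measure]
  refine tsum_congr fun n => ?_
  rw [lintegral_smul_measure, lintegral_dirac, smul_eq_mul]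

theorem lintegral_dirLaw {d : ℕ} (f : Fin d × Bool → ENNReal) :
    ∫⁻ e, f e ∂(dirLaw d) = ∑ e : Fin d × Bool, ENNReal.ofReal (1 / (2 * d)) * f e := by
  rw [dirLaw, lintegral_finsetSum_measure]
  refine Finset.sum_congr rfl fun n _ => ?_
  rw [lintegral_smul_measure, lintegral_dirac, smul_eq_mul]

theorem lintegral_stepLaw {d : ℕ} {r : ℝ} (f : Site d → ENNReal) :
    ∫⁻ y, f y ∂(stepLaw d r) = ENNReal.ofReal (1 - r) * f 0 +
      ∑ i : Fin d, ENNReal.ofReal (r / (2 * d)) * (f (Pi.single i 1) + f (Pi.single i (-1))) := by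
  rw [stepLaw, lintegral_add_measure, lintegral_smul_measure, lintegral_dirac, smul_eq_mul,
    lintegral_finsetSum_measure]
  congr 1
  refine Finset.sum_congr rfl fun n _ => ?_
  rw [lintegral_smul_measure, lintegral_add_measure, lintegral_dirac, lintegral_dirac, smul_eq_mul]

theorem lintegral_kappa {d : ℕ} (hd : 1 ≤ d) {r : ℝ} (hr : 0 < r) (hr' : r ≤ 1)
    (F : (Fin d × Bool) × ℕ → ENNReal) :
    ∫⁻ x, F x ∂((dirLaw d).prod (geoLaw r)) = ∑ e : Fin d × Bool, ENNReal.ofReal (1 / (2 * d)) *
      ∑' n : ℕ, ENNReal.ofReal (r * (1 - r) ^ n) * F (e, n) := by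
  have := isProb_dirLaw hd
  have := isProb_geoLaw hr hr'
  rw [lintegral_prod _ (Measurable.of_discrete).aemeasurable, lintegral_dirLaw]
  refine Finset.sum_congr rfl fun e _ => ?_
  rw [lintegral_geoLaw]

theorem map_SS {d : ℕ} (hd : 1 ≤ d) {r : ℝ} (hr : 0 < r) (hr' : r ≤ 1) :
    Measure.map SS (Measure.infinitePi fun _ : ℕ => (dirLaw d).prod (geoLaw r)) =
      Measure.infinitePi fun _ : ℕ => stepLaw d r := by
  have i1 := isProb_dirLaw hd
  have i2 := isProb_geoLaw hr hr'
  have i3 := isProb_stepLaw hd hr hr'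
  set P : Measure (ℕ → (Fin d × Bool) × ℕ) :=
    Measure.infinitePi fun _ : ℕ => (dirLaw d).prod (geoLaw r) with hP
  have i4 : IsProbabilityMeasure (Measure.map SS P) :=
    Measure.isProbabilityMeasure_map measurable_SS.aemeasurable
  refine eq_infinitePi_of_cons (stepLaw d r) _ ?_
  -- the value of `Q` on a set
  have hval : ∀ D : Set (ℕ → Site d), MeasurableSet D →
      Measure.map SS P D = ∑ e : Fin d × Bool, ENNReal.ofReal (1 / (2 * d)) *
        ∑' n : ℕ, ENNReal.ofReal (r * (1 - r) ^ n) * P {u | SS (cons (e, n) u) ∈ D} := by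
    intro D hD
    have e1 : Measure.map SS P D = P (SS ⁻¹' D) := Measure.map_apply measurable_SS hD
    have e2 : P (SS ⁻¹' D) = Measure.map (fun q : ((Fin d × Bool) × ℕ) × (ℕ → (Fin d × Bool) × ℕ) =>
        cons q.1 q.2) (((dirLaw d).prod (geoLaw r)).prod P) (SS ⁻¹' D) := by
      rw [hP, map_cons_infinitePi]
    rw [e1, e2, Measure.map_apply measurable_cons (measurable_SS hD),
      Measure.prod_apply (measurable_cons (measurable_SS hD)), lintegral_kappa hd hr hr']
    rfl
  refine Measure.ext fun D hD => ?_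
  have hD' : ∀ y : Site d, MeasurableSet {x : ℕ → Site d | cons y x ∈ D} := fun y =>
    measurable_cons' y hD
  rw [Measure.map_apply measurable_cons hD, Measure.prod_apply (measurable_cons hD),
    lintegral_stepLaw]
  symm
  rw [hval D hD]
  have key : ∀ e : Fin d × Bool,
      ∑' n : ℕ, ENNReal.ofReal (r * (1 - r) ^ n) * P {u | SS (cons (e, n) u) ∈ D} =
      ENNReal.ofReal r * Measure.map SS P {x | cons (vec e) x ∈ D} + ENNReal.ofReal (1 - r) *
        ∑' n : ℕ, ENNReal.ofReal (r * (1 - r) ^ n) *
          P {u | SS (cons (e, n) u) ∈ {x : ℕ → Site d | cons 0 x ∈ D}} := by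
    intro e
    rw [tsum_eq_zero_add' ENNReal.summable, ← ENNReal.tsum_mul_left]
    congr 1
    · rw [pow_zero, mul_one, Measure.map_apply measurable_SS (hD' _)]
      congr 2
      ext u
      simp only [Set.mem_ofPred_eq, Set.mem_preimage, SS_cons_zero]
    · refine tsum_congr fun n => ?_
      rw [← mul_assoc, ← ENNReal.ofReal_mul (by linarith)]
      congr 1
      · congr 1; ring
      · congr 1
        ext u
        simp only [Set.mem_ofPred_eq, SS_cons_succ]
  simp only [key, mul_add, Finset.sum_add_distrib]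
  rw [add_comm]
  congr 1
  · have h0 := hval _ (hD' 0)
    have : (Prod.mk (0 : Site d) ⁻¹' ((fun q : Site d × (ℕ → Site d) => cons q.1 q.2) ⁻¹' D)) =
      {x : ℕ → Site d | cons 0 x ∈ D} := rfl
    rw [this, h0, Finset.mul_sum]
    refine Finset.sum_congr rfl fun e _ => ?_
    ring
  · rw [Fintype.sum_prod_type, ← Finset.sum_add_distrib]
    refine Finset.sum_congr rfl fun i _ => ?_
    rw [Fintype.sum_bool]
    have hc : ENNReal.ofReal (r / (2 * d)) = ENNReal.ofReal (1 / (2 * d)) * ENNReal.ofReal r := by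
      rw [← ENNReal.ofReal_mul (by positivity)]
      congr 1
      ring
    rw [hc]
    have ht : vec ((i, true) : Fin d × Bool) = Pi.single i 1 := by simp [vec]
    have hf : vec ((i, false) : Fin d × Bool) = Pi.single i (-1) := by simp [vec]
    rw [ht, hf, ← mul_assoc, ← mul_assoc]
    rfl

end Expand

open Expand in
theorem map_steps {d : ℕ} (hd : 1 ≤ d) {r : ℝ} (hr : 0 < r) (hr' : r ≤ 1) (lam : Measure (Ent d))
    [IsProbabilityMeasure lam] (g : Ent d → ℕ)
    (hg : Measure.map (fun e : Ent d => (e.1, g e)) lam = (dirLaw d).prod (geoLaw r)) :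
    Measure.map (steps g) (Measure.infinitePi fun _ : ℕ => lam) =
      Measure.infinitePi fun _ : ℕ => stepLaw d r := by
  have hm : Measurable (fun e : Ent d => (e.1, g e)) := Measurable.of_discrete
  have h1 : (steps g : Path d → ℕ → Site d) =
      SS ∘ (fun (s : Path d) (k : ℕ) => ((s k).1, g (s k))) := rfl
  have hm2 : Measurable (fun (s : Path d) (k : ℕ) => ((s k).1, g (s k))) :=
    measurable_pi_iff.2 fun k => hm.comp (measurable_pi_apply k)
  rw [h1, ← Measure.map_map measurable_SS hm2]
  have h2 : Measure.map (fun (s : Path d) (k : ℕ) => ((s k).1, g (s k)))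
      (Measure.infinitePi fun _ : ℕ => lam) =
      Measure.infinitePi fun _ : ℕ => (dirLaw d).prod (geoLaw r) := by
    rw [← hg]
    exact Measure.infinitePi_map_pi (μ := fun _ : ℕ => lam)
      (f := fun (_ : ℕ) (e : Ent d) => (e.1, g e)) fun _ => hm
  rw [h2]
  exact map_SS hd hr hr'

end Pool.Agent.Helper61.LF
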