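import Pool.Agent.Helper61.LF.ResProb

/-!
Module LF-28 (Expect). Many wasteful indices for the slow process give a linear gain for the fast
process with positive probability.

Proof. Let `F = {w | Rch gP w 0 n' y}` and `V = {v : Site d | v ≠ 0 ∧ nrm v ≤ Kc}`, a finite set,
and `cK = (p/(2d))^Kc (p'-p) > 0`, so `cK ≤ (p/(2d))^(nrm v) (p'-p)` for `v ∈ V` (`p/(2d) ≤ 1`).
(1) For `w ∈ F` and `l = sel y w` (optimal by `sel_spec`) every `i ∈ wst Kc w l` gives
`x = zs w l i`, `j = (l[i]).1` and `v = zs w l i' - x ∈ V` with `evA y x j v w` (`v ≠ 0` by `opt_inj`,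
`nrm v ≤ Kc` because `nrm v + 2 ≤ ts i' - ts i ≤ Kc`), and different `i` give different `x`. So
`card (wst Kc w l) ≤ Σ'_{(x,j)} Σ_{v ∈ V} 1[evA y x j v w]`.
(2) Integrate over `F ∩ {c1 n ≤ card wst}` (measurable): `c1 n g0 ≤ Σ'_{(x,j)} Σ_{v∈V} mu (F ∩ evA)`
(`lintegral_tsum`). By `resample_prob`,
`cK c1 n g0 ≤ card V * Σ'_{(x,j)} mu (F ∩ evU y x j) = card V * ∫_F U dmu`, where
`U w = Σ'_{(x,j)} 1[evU y x j w]`. (If `V` is empty then the left side is `0`, impossible since
`n ≥ 1`; so `card V ≥ 1`.) Put `c2 = min (cK c1 g0 / card V) 1` and `c = c2/3`: `∫_F U ≥ c2 n`.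
(3) By `gain`, `U w ≤ n' ≤ 2 n` for `w ∈ F` (every finite set of pairs with `evU` has at most `n'`
elements). Let `E = {w ∈ F | c n ≤ U w}`: `c2 n ≤ ∫_F U ≤ c n + 2 n mu E`, so `mu E ≥ (c2 - c)/2 = c`.
(4) For `w ∈ E` there is a finite set `S` of pairs with `evU` and `c n ≤ card S`, so
`⌈c n⌉₊ ≤ card S`, and `gain` with `Rch_mono` gives `Rch gQ w 0 (n' - ⌈c n⌉₊) y`.
-/

namespace Pool.Agent.Helper61.LF

open MeasureTheory

private theorem finite_V {d : ℕ} (Kc : ℕ) : {v : Site d | v ≠ 0 ∧ nrm v ≤ Kc}.Finite := by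
  apply Set.Finite.subset
    (Fintype.piFinset fun _ : Fin d => Finset.Icc (-(Kc : ℤ)) Kc).finite_toSet
  intro v hv
  simp only [Finset.mem_coe, Fintype.mem_piFinset, Finset.mem_Icc]
  intro i
  have h1 : (v i).natAbs ≤ nrm v :=
    Finset.single_le_sum (f := fun i => (v i).natAbs) (fun _ _ => Nat.zero_le _)
      (Finset.mem_univ i)
  have h2 := hv.2
  omega

private theorem count_wst {d : ℕ} (Kc : ℕ) (w : Om d) (y : Site d) (V : Finset (Site d))
    (hV : ∀ v, v ∈ V ↔ v ≠ 0 ∧ nrm v ≤ Kc) (hw : ∃ c, ok w 0 c ∧ ep w 0 c = y) :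
    ((wst Kc w (sel y w)).card : ENNReal) ≤
      ∑' q : Site d × ℕ, ∑ v ∈ V,
        Set.indicator {w : Om d | evA y q.1 q.2 v w} (fun _ => (1 : ENNReal)) w := by
  classical
  have hl := sel_spec w y hw
  set l := sel y w with hldef
  let φ : ℕ → Site d × ℕ := fun i => (zs w l i, if h : i < l.length then (l[i]).1 else 0)
  have hlen : ∀ i ∈ wst Kc w l, i < l.length := by
    intro i hi
    unfold wst at hi
    simp only [Finset.mem_filter, Finset.mem_range] at hi
    exact hi.1
  have hinj : Set.InjOn φ (wst Kc w l : Set ℕ) := by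
    intro i hi i' hi' he
    have he1 : zs w l i = zs w l i' := congrArg Prod.fst he
    rcases lt_trichotomy i i' with h | h | h
    · exact absurd he1 (opt_inj w y l hl h (hlen i' hi').le)
    · exact h
    · exact absurd he1.symm (opt_inj w y l hl h (hlen i hi).le)
  rw [← Finset.card_image_of_injOn hinj]
  calc (((wst Kc w l).image φ).card : ENNReal) = ∑ q ∈ (wst Kc w l).image φ, (1 : ENNReal) := by
        simp
    _ ≤ ∑ q ∈ (wst Kc w l).image φ, ∑ v ∈ V,
        Set.indicator {w : Om d | evA y q.1 q.2 v w} (fun _ => (1 : ENNReal)) w := by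
        apply Finset.sum_le_sum
        intro q hq
        rw [Finset.mem_image] at hq
        obtain ⟨i, hi, rfl⟩ := hq
        have hil := hlen i hi
        unfold wst at hi
        simp only [Finset.mem_filter, Finset.mem_range] at hi
        obtain ⟨_, i', h1, h2, h3, h4⟩ := hi
        set v := zs w l i' - zs w l i with hv
        have hv0 : v ≠ 0 := by
          intro h0
          rw [hv, sub_eq_zero] at h0
          exact opt_inj w y l hl h1 h2 h0.symm
        have hvV : v ∈ V := (hV v).2 ⟨hv0, by omega⟩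
        have hev : evA y (φ i).1 (φ i).2 v w := by
          refine ⟨i, i', h1, h2, hil, rfl, ?_, ?_, h4⟩
          · show (l[i]).1 = (if h : i < l.length then (l[i]).1 else 0)
            rw [dif_pos hil]
          · show zs w l i' = zs w l i + v
            rw [hv]
            abel
        calc (1 : ENNReal) = Set.indicator {w : Om d | evA y (φ i).1 (φ i).2 v w}
              (fun _ => (1 : ENNReal)) w := by
              rw [Set.indicator_of_mem]
              exact hev
          _ ≤ _ := Finset.single_le_sum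
              (f := fun v => Set.indicator {w : Om d | evA y (φ i).1 (φ i).2 v w}
                (fun _ => (1 : ENNReal)) w) (fun _ _ => zero_le) hvV
    _ ≤ _ := ENNReal.sum_le_tsum _

/-- Number of essential pairs. -/
private noncomputable def U {d : ℕ} (y : Site d) (w : Om d) : ENNReal :=
  ∑' q : Site d × ℕ, Set.indicator {w : Om d | evU y q.1 q.2 w} (fun _ => (1 : ENNReal)) w

private theorem measurable_U {d : ℕ} (y : Site d) : Measurable (U y : Om d → ENNReal) := by
  unfold U
  exact Measurable.ennreal_tsum fun q => measurable_const.indicator (measurableSet_evU y q.1 q.2)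

open Classical in
private theorem sum_ind {d : ℕ} (y : Site d) (w : Om d) (T : Finset (Site d × ℕ)) :
    ∑ q ∈ T, Set.indicator {w : Om d | evU y q.1 q.2 w} (fun _ => (1 : ENNReal)) w =
      ((T.filter fun q => evU y q.1 q.2 w).card : ENNReal) := by
  rw [Finset.card_filter]
  push_cast
  apply Finset.sum_congr rfl
  intro q _
  rw [Set.indicator_apply]
  rfl

private theorem U_le {d : ℕ} (y : Site d) (w : Om d) (n' : ℕ) (hF : Rch gP w 0 n' y) :
    U y w ≤ n' := by
  classical
  unfold U
  rw [ENNReal.tsum_eq_iSup_sum]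
  apply iSup_le
  intro T
  rw [sum_ind]
  have := (gain w y n' hF (T.filter fun q => evU y q.1 q.2 w) (by
    intro q hq
    exact (Finset.mem_filter.1 hq).2)).1
  exact_mod_cast this

private theorem U_gt {d : ℕ} (y : Site d) (w : Om d) (n' : ℕ) (hF : Rch gP w 0 n' y) {r : ℝ}
    (h : ENNReal.ofReal r < U y w) : Rch gQ w 0 (n' - ⌈r⌉₊) y := by
  classical
  unfold U at h
  rw [ENNReal.tsum_eq_iSup_sum, lt_iSup_iff] at h
  obtain ⟨T, hT⟩ := h
  rw [sum_ind] at hT
  have h2 := (gain w y n' hF (T.filter fun q => evU y q.1 q.2 w) (by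
    intro q hq
    exact (Finset.mem_filter.1 hq).2)).2
  refine Rch_mono ?_ h2
  have h3 : r ≤ ((T.filter fun q => evU y q.1 q.2 w).card : ℝ) := by
    by_contra hcon
    push Not at hcon
    have h4 : ((T.filter fun q => evU y q.1 q.2 w).card : ENNReal) ≤ ENNReal.ofReal r := by
      rw [← ENNReal.ofReal_natCast]
      exact ENNReal.ofReal_le_ofReal hcon.le
    exact absurd hT (not_lt.2 h4)
  have h5 := Nat.ceil_le.2 h3
  omega

private theorem final_real {cK c1 g0 N c n n' m k : ℝ} (hk : 0 ≤ k) (hkN : N = k + 1)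
    (hn : 1 ≤ n) (hn0 : 0 ≤ n') (hn' : n' ≤ 2 * n) (hm : 0 ≤ m) (hc0 : 0 < c)
    (hc : c = cK * c1 * g0 / (3 * N)) (h : cK * (c1 * n * g0) ≤ k * (c * n + n' * m)) :
    c ≤ m := by
  have hN0 : 0 < N := by linarith
  have s9 : k * (c * n + n' * m) ≤ N * (c * n + 2 * n * m) := by
    apply mul_le_mul
    · linarith
    · nlinarith
    · positivity
    · exact hN0.le
  have s10 : cK * c1 * g0 = 3 * N * c := by
    rw [hc]
    field_simp
  have s11 : 3 * N * c * n ≤ N * (c * n + 2 * n * m) := by
    rw [← s10]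
    calc cK * c1 * g0 * n = cK * (c1 * n * g0) := by ring
      _ ≤ _ := h.trans s9
  have h1 : (N * n) * c ≤ (N * n) * m := by nlinarith
  exact le_of_mul_le_mul_left h1 (by positivity)

theorem expect {d : ℕ} {ν : Measure ℕ} {p p' : ℝ} (h : Par d ν p p') (Kc : ℕ) {c1 g0 : ℝ}
    (hc1 : 0 < c1) (hg0 : 0 < g0) :
    ∃ c : ℝ, 0 < c ∧ ∀ (y : Site d) (n n' : ℕ), 1 ≤ n → n' ≤ 2 * n →
      ENNReal.ofReal g0 ≤ mu d ν p p'
        {w | Rch gP w 0 n' y ∧ c1 * n ≤ ((wst Kc w (sel y w)).card : ℝ)} →
      ENNReal.ofReal c ≤ mu d ν p p' {w | Rch gQ w 0 (n' - ⌈c * n⌉₊) y} := by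
  classical
  haveI := h.isProb_mu
  have hd := h.hd
  have hp := h.hp
  have hpp := h.hpp
  have hp' := h.hp'
  have hdR : (1 : ℝ) ≤ d := by exact_mod_cast hd
  set V : Finset (Site d) := (finite_V (d := d) Kc).toFinset with hVdef
  have hV : ∀ v, v ∈ V ↔ v ≠ 0 ∧ nrm v ≤ Kc := by
    intro v
    rw [hVdef, Set.Finite.mem_toFinset]
    rfl
  set cK : ℝ := (p / (2 * d)) ^ Kc * (p' - p) with hcK
  have hq0 : 0 < p / (2 * d) := by positivity
  have hq1 : p / (2 * d) ≤ 1 := by
    rw [div_le_one (by positivity)]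
    linarith
  have hcK0 : 0 < cK := by
    rw [hcK]
    have : 0 < p' - p := by linarith
    positivity
  set N : ℝ := (V.card : ℝ) + 1 with hN
  have hN0 : 0 < N := by positivity
  set c : ℝ := cK * c1 * g0 / (3 * N) with hc
  have hc0 : 0 < c := by positivity
  refine ⟨c, hc0, ?_⟩
  intro y n n' hn hn' hmu
  have hnR : (1 : ℝ) ≤ n := by exact_mod_cast hn
  have hn'R : (n' : ℝ) ≤ 2 * n := by exact_mod_cast hn'
  have hc1n : (0 : ℝ) ≤ c1 * n := by positivity
  set μ := mu d ν p p' with hμ
  set F : Set (Om d) := {w | Rch gP w 0 n' y} with hF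
  set G : Set (Om d) := {w | Rch gP w 0 n' y ∧ c1 * n ≤ ((wst Kc w (sel y w)).card : ℝ)} with hG
  have hFm : MeasurableSet F := measurableSet_Rch gP 0 n' y
  have hGm : MeasurableSet G := hFm.inter (measurableSet_wasteful y Kc (c1 * n))
  have hGF : G ⊆ F := fun w hw => hw.1
  -- step 1 and 2
  have s1 : ENNReal.ofReal (c1 * n) * μ G ≤ ∑' q : Site d × ℕ, ∑ v ∈ V,
      μ {w | Rch gP w 0 n' y ∧ evA y q.1 q.2 v w} := by
    calc ENNReal.ofReal (c1 * n) * μ G = ∫⁻ w in G, ENNReal.ofReal (c1 * n) ∂μ := by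
          rw [setLIntegral_const]
      _ ≤ ∫⁻ w in G, ∑' q : Site d × ℕ, ∑ v ∈ V,
          Set.indicator {w : Om d | evA y q.1 q.2 v w} (fun _ => (1 : ENNReal)) w ∂μ := by
          apply setLIntegral_mono'  hGm
          intro w hw
          refine le_trans ?_ (count_wst Kc w y V hV ?_)
          · rw [← ENNReal.ofReal_natCast]
            exact ENNReal.ofReal_le_ofReal hw.2
          · obtain ⟨c, h1, h2, _⟩ := hw.1
            exact ⟨c, h1, h2⟩
      _ ≤ ∫⁻ w in F, ∑' q : Site d × ℕ, ∑ v ∈ V,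
          Set.indicator {w : Om d | evA y q.1 q.2 v w} (fun _ => (1 : ENNReal)) w ∂μ :=
          lintegral_mono_set hGF
      _ = ∑' q : Site d × ℕ, ∑ v ∈ V, μ {w | Rch gP w 0 n' y ∧ evA y q.1 q.2 v w} := by
          rw [lintegral_tsum]
          · congr 1
            funext q
            rw [lintegral_finsetSum]
            · apply Finset.sum_congr rfl
              intro v _
              rw [lintegral_indicator_const (measurableSet_evA y q.1 q.2 v), one_mul,
                Measure.restrict_apply (measurableSet_evA y q.1 q.2 v)]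
              congr 1
              ext w
              exact and_comm
            · intro v _
              exact measurable_const.indicator (measurableSet_evA y q.1 q.2 v)
          · intro q
            apply Measurable.aemeasurable
            apply Finset.measurable_fun_sum
            intro v _
            exact measurable_const.indicator (measurableSet_evA y q.1 q.2 v)
  have s2 : ∀ q : Site d × ℕ, ∀ v ∈ V, ENNReal.ofReal cK *
      μ {w | Rch gP w 0 n' y ∧ evA y q.1 q.2 v w} ≤ μ {w | Rch gP w 0 n' y ∧ evU y q.1 q.2 w} := by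
    intro q v hv
    obtain ⟨hv0, hvK⟩ := (hV v).1 hv
    refine le_trans ?_ (resample_prob h y n' q.1 q.2 hv0)
    gcongr
    rw [hcK]
    apply mul_le_mul_of_nonneg_right _ (by linarith)
    exact pow_le_pow_of_le_one hq0.le hq1 hvK
  have s3 : ∑' q : Site d × ℕ, μ {w | Rch gP w 0 n' y ∧ evU y q.1 q.2 w} = ∫⁻ w in F, U y w ∂μ := by
    unfold U
    rw [lintegral_tsum]
    · congr 1
      funext q
      rw [lintegral_indicator_const (measurableSet_evU y q.1 q.2), one_mul,
        Measure.restrict_apply (measurableSet_evU y q.1 q.2)]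
      congr 1
      ext w
      exact and_comm
    · intro q
      exact (measurable_const.indicator (measurableSet_evU y q.1 q.2)).aemeasurable
  have s4 : ENNReal.ofReal cK * (ENNReal.ofReal (c1 * n) * μ G) ≤
      (V.card : ENNReal) * ∫⁻ w in F, U y w ∂μ := by
    calc ENNReal.ofReal cK * (ENNReal.ofReal (c1 * n) * μ G) ≤ ENNReal.ofReal cK *
          ∑' q : Site d × ℕ, ∑ v ∈ V, μ {w | Rch gP w 0 n' y ∧ evA y q.1 q.2 v w} := by
          gcongr
      _ = ∑' q : Site d × ℕ, ∑ v ∈ V, ENNReal.ofReal cK *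
          μ {w | Rch gP w 0 n' y ∧ evA y q.1 q.2 v w} := by
          rw [← ENNReal.tsum_mul_left]
          congr 1
          funext q
          rw [Finset.mul_sum]
      _ ≤ ∑' q : Site d × ℕ, ∑ v ∈ V, μ {w | Rch gP w 0 n' y ∧ evU y q.1 q.2 w} := by
          apply ENNReal.tsum_le_tsum
          intro q
          exact Finset.sum_le_sum fun v hv => s2 q v hv
      _ = (V.card : ENNReal) * ∫⁻ w in F, U y w ∂μ := by
          rw [← s3, ← ENNReal.tsum_mul_left]
          congr 1
          funext q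
          rw [Finset.sum_const, nsmul_eq_mul]
  -- step 3
  set E : Set (Om d) := F ∩ {w | ENNReal.ofReal (c * n) < U y w} with hE
  have hEm : MeasurableSet E := hFm.inter (measurableSet_lt measurable_const (measurable_U y))
  have s5 : ∫⁻ w in F, U y w ∂μ ≤ ENNReal.ofReal (c * n) + (n' : ENNReal) * μ E := by
    calc ∫⁻ w in F, U y w ∂μ ≤ ∫⁻ w in F, (ENNReal.ofReal (c * n) +
          E.indicator (fun _ => (n' : ENNReal)) w) ∂μ := by
          apply setLIntegral_mono' hFm
          intro w hw
          by_cases hwE : w ∈ E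
          · rw [Set.indicator_of_mem hwE]
            exact le_trans (U_le y w n' hw) le_add_self
          · rw [Set.indicator_of_notMem hwE, add_zero]
            by_contra hcon
            exact hwE ⟨hw, not_le.1 hcon⟩
      _ ≤ ∫⁻ w, (ENNReal.ofReal (c * n) + E.indicator (fun _ => (n' : ENNReal)) w) ∂μ :=
          setLIntegral_le_lintegral _ _
      _ = ENNReal.ofReal (c * n) + (n' : ENNReal) * μ E := by
          rw [lintegral_add_left measurable_const, lintegral_const, measure_univ, mul_one,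
            lintegral_indicator_const hEm]
  have s6 : μ E ≤ μ {w | Rch gQ w 0 (n' - ⌈c * n⌉₊) y} := by
    apply measure_mono
    intro w hw
    exact U_gt y w n' hw.1 hw.2
  refine le_trans ?_ s6
  -- real numbers
  have hEtop : μ E ≠ ⊤ := measure_ne_top μ E
  set m : ℝ := (μ E).toReal with hm
  have hm0 : 0 ≤ m := ENNReal.toReal_nonneg
  have hmE : μ E = ENNReal.ofReal m := (ENNReal.ofReal_toReal hEtop).symm
  have s7 : ENNReal.ofReal (cK * (c1 * n * g0)) ≤
      ENNReal.ofReal (V.card * (c * n + n' * m)) := by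
    calc ENNReal.ofReal (cK * (c1 * n * g0)) = ENNReal.ofReal cK * (ENNReal.ofReal (c1 * n) *
          ENNReal.ofReal g0) := by
          rw [← ENNReal.ofReal_mul hc1n, ← ENNReal.ofReal_mul hcK0.le]
      _ ≤ ENNReal.ofReal cK * (ENNReal.ofReal (c1 * n) * μ G) := by
          gcongr
      _ ≤ (V.card : ENNReal) * (ENNReal.ofReal (c * n) + (n' : ENNReal) * μ E) := by
          refine le_trans s4 ?_
          gcongr
      _ = ENNReal.ofReal (V.card * (c * n + n' * m)) := by
          rw [hmE, ← ENNReal.ofReal_natCast n', ← ENNReal.ofReal_natCast V.card,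
            ← ENNReal.ofReal_mul (Nat.cast_nonneg n'),
            ← ENNReal.ofReal_add (mul_nonneg hc0.le (Nat.cast_nonneg n))
              (mul_nonneg (Nat.cast_nonneg n') hm0),
            ← ENNReal.ofReal_mul (Nat.cast_nonneg _)]
  have s8 : cK * (c1 * n * g0) ≤ V.card * (c * n + n' * m) := by
    rwa [ENNReal.ofReal_le_ofReal_iff (mul_nonneg (Nat.cast_nonneg _)
      (add_nonneg (mul_nonneg hc0.le (Nat.cast_nonneg _))
        (mul_nonneg (Nat.cast_nonneg _) hm0)))] at s7
  have s12 : c ≤ m := final_real (Nat.cast_nonneg _) hN hnR (Nat.cast_nonneg _) hn'R hm0 hc0 hc s8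
  rw [hmE]
  exact ENNReal.ofReal_le_ofReal s12

end Pool.Agent.Helper61.LF
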