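import Mathlib

/-!
Module LF-07 (HullCompact). In `Fin d → ℝ` the convex hull of a compact set is compact.

Proof (Caratheodory). By `convexHull_eq_union` / `eq_pos_convex_span_of_mem_convexHull` every point of
the hull is a convex combination of an affinely independent family of points of `s`, hence of at
most `d + 1` points, hence (pad with weight `0`, the set being nonempty) of the form
`Σ_{i : Fin (d+1)} a i • x i` with `a ∈ stdSimplex ℝ (Fin (d+1))` and `x i ∈ s`. So the hull is the
image of the compact set `stdSimplex ×ˢ (Set.univ.pi fun _ => s)` under a continuous map. The empty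
set is trivial.
-/

namespace Pool.Agent.Helper61.LF

theorem isCompact_hull {d : ℕ} {s : Set (Fin d → ℝ)} (hs : IsCompact s) :
    IsCompact (convexHull ℝ s) := by
  classical
  rcases s.eq_empty_or_nonempty with rfl | ⟨x0, hx0⟩
  · simp
  have hK : IsCompact ((stdSimplex ℝ (Fin (d + 1))) ×ˢ
      (Set.univ.pi fun _ : Fin (d + 1) => s)) :=
    (isCompact_stdSimplex ℝ _).prod (isCompact_univ_pi fun _ => hs)
  have hF : Continuous (fun q : (Fin (d + 1) → ℝ) × (Fin (d + 1) → (Fin d → ℝ)) =>
      ∑ i, q.1 i • q.2 i) := by fun_prop
  have himg : convexHull ℝ s = (fun q : (Fin (d + 1) → ℝ) × (Fin (d + 1) → (Fin d → ℝ)) =>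
      ∑ i, q.1 i • q.2 i) '' ((stdSimplex ℝ (Fin (d + 1))) ×ˢ
      (Set.univ.pi fun _ : Fin (d + 1) => s)) := by
    apply Set.Subset.antisymm
    · intro x hx
      obtain ⟨ι, _, z, w, hz, hind, hw, hw1, hwx⟩ := eq_pos_convex_span_of_mem_convexHull hx
      have hcard : Fintype.card ι ≤ d + 1 := by
        have h1 := hind.card_le_finrank_succ
        have h2 : Module.finrank ℝ (vectorSpan ℝ (Set.range z)) ≤ d := by
          have := Submodule.finrank_le (vectorSpan ℝ (Set.range z))
          simpa using this
        omega
      obtain ⟨e⟩ : Nonempty (ι ↪ Fin (d + 1)) :=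
        Function.Embedding.nonempty_of_card_le (by simpa using hcard)
      have hin := e.injective
      refine ⟨(Function.extend e w 0, Function.extend e z (fun _ => x0)), ⟨⟨?_, ?_⟩, ?_⟩, ?_⟩
      · intro j
        by_cases hj : ∃ i, e i = j
        · obtain ⟨i, rfl⟩ := hj
          simp only [hin.extend_apply]
          exact (hw i).le
        · simp only [Function.extend_apply' _ _ _ hj]
          exact le_refl _
      · rw [← hw1]
        symm
        apply Fintype.sum_of_injective e hin
        · intro j hj
          simp only [Set.mem_range] at hj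
          simp [Function.extend_apply' _ _ _ hj]
        · intro i
          simp only [hin.extend_apply]
      · intro j _
        by_cases hj : ∃ i, e i = j
        · obtain ⟨i, rfl⟩ := hj
          simp only [hin.extend_apply]
          exact hz ⟨i, rfl⟩
        · simp only [Function.extend_apply' _ _ _ hj]
          exact hx0
      · rw [← hwx]
        symm
        apply Fintype.sum_of_injective e hin
        · intro j hj
          simp only [Set.mem_range] at hj
          simp [Function.extend_apply' _ _ _ hj]
        · intro i
          simp only [hin.extend_apply]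
    · rintro x ⟨⟨a, y⟩, ⟨ha, hy⟩, rfl⟩
      refine (convex_convexHull ℝ s).sum_mem (fun i _ => ha.1 i) ha.2 (fun i _ => ?_)
      exact subset_convexHull ℝ s (hy i (Set.mem_univ i))
  rw [himg]
  exact hK.image hF

end Pool.Agent.Helper61.LF
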