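import Pool.Agent.Helper61.LF.Defs
import Pool.Agent.Helper61.LF.HullCompact

/-!
Module LF-08 (Geo). A supporting functional whose contact face stays away from the unit sphere of
the `ℓ¹` norm.

Proof. Let `S = {v | Σ |v i| = 1}` and `K0 = convexHull ℝ (C ∩ S) ⊆ C`, compact by
`isCompact_hull`. Take `x0 ∈ C \ K0`. If `K0` is nonempty, `geometric_hahn_banach_closed_point` gives a
linear functional `ψ` with `ψ v < u < ψ x0` for `v ∈ K0`; if `K0` is empty (then `C ∩ S` is empty)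
take for `ψ` any non-zero functional, for instance the coordinate `0` (`d ≥ 1`). In both cases `ψ`
is not zero, so `M := max_C ψ > 0` because `0` is in the interior of `C`. Put `f = ψ / M` as a
coefficient vector (`ψ v = Σ ψ (Pi.single i 1) v i`). Then `lin f v ≤ 1` on `C`, with equality at a
maximiser `x` (compactness), and a point `v ∈ C` with `lin f v = 1` is not in `S`: in the
first case `ψ v = M ≥ ψ x0 > u ≥ ψ` on `K0 ⊇ C ∩ S`, in the second case `C ∩ S` is empty.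
Existence of `σ, δ, κ`: otherwise for `σ = δ = κ = 1/(n+2)` there is `v n ∈ C` with
`1 - 1/(n+2) ≤ lin f ((1 + 1/(n+2)) • v n)` and `Σ |((1+1/(n+2)) • v n) i| > 1 - 1/(n+2)`; a
subsequence of `v n` converges to some `v ∈ C` with `lin f v ≥ 1` and `Σ |v i| ≥ 1`; hence
`lin f v = 1` and, by `hD`, `v ∈ S`, contradiction.
-/

namespace Pool.Agent.Helper61.LF

private theorem geo_lin_eq {d : ℕ} (ψ : (Fin d → ℝ) →L[ℝ] ℝ) (v : Fin d → ℝ) :
    ψ v = ∑ i, ψ (Pi.single i 1) * v i := by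
  have h : v = ∑ i, v i • (Pi.single i (1 : ℝ) : Fin d → ℝ) := by
    ext j
    simp [Finset.sum_apply, Pi.single_apply]
  conv_lhs => rw [h]
  rw [map_sum]
  refine Finset.sum_congr rfl fun i _ => ?_
  rw [map_smul, smul_eq_mul, mul_comm]

private theorem geo_smul {d : ℕ} (f v : Fin d → ℝ) (t : ℝ) : lin f (t • v) = t * lin f v := by
  unfold lin
  rw [Finset.mul_sum]
  refine Finset.sum_congr rfl fun i _ => ?_
  simp only [Pi.smul_apply, smul_eq_mul]
  ring

private theorem geo_cont {d : ℕ} (f : Fin d → ℝ) : Continuous (lin f) := by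
  unfold lin
  exact continuous_finsetSum _ fun i _ => continuous_const.mul (continuous_apply i)

/-- A non-zero functional whose maximum on `C` is positive and attained off the sphere. -/
private theorem geo_functional {d : ℕ} (hd : 1 ≤ d) (C : Set (Fin d → ℝ)) (hC : IsCompact C)
    (hconv : Convex ℝ C) (hne : C ≠ convexHull ℝ (C ∩ {v | ∑ i, |v i| = 1})) :
    ∃ ψ : (Fin d → ℝ) →L[ℝ] ℝ, ψ ≠ 0 ∧ ∃ x0 ∈ C, ∀ v ∈ C, ∑ i, |v i| = 1 → ψ v < ψ x0 := by
  have hsub : convexHull ℝ (C ∩ {v | ∑ i, |v i| = 1}) ⊆ C :=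
    convexHull_min Set.inter_subset_left hconv
  obtain ⟨x0, hx0, hx0'⟩ : ∃ x0 ∈ C, x0 ∉ convexHull ℝ (C ∩ {v | ∑ i, |v i| = 1}) := by
    by_contra hcon
    push Not at hcon
    exact hne (Set.Subset.antisymm hcon hsub)
  by_cases hemp : (C ∩ {v | ∑ i, |v i| = 1}).Nonempty
  · have hSc : IsClosed {v : Fin d → ℝ | ∑ i, |v i| = 1} :=
      isClosed_eq (continuous_finsetSum _ fun i _ => (continuous_apply i).abs) continuous_const
    have hK : IsCompact (convexHull ℝ (C ∩ {v | ∑ i, |v i| = 1})) :=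
      isCompact_hull (hC.inter_right hSc)
    obtain ⟨ψ, u, h1, h2⟩ := geometric_hahn_banach_closed_point (convex_convexHull ℝ _)
      hK.isClosed hx0'
    refine ⟨ψ, ?_, x0, hx0, fun v hv hv1 => (h1 v (subset_convexHull ℝ _ ⟨hv, hv1⟩)).trans h2⟩
    rintro rfl
    obtain ⟨w, hw⟩ := hemp
    have := (h1 w (subset_convexHull ℝ _ hw)).trans h2
    simp at this
  · have hno : ∀ v ∈ C, ¬ ∑ i, |v i| = 1 := fun v hv hv1 => hemp ⟨v, hv, hv1⟩
    refine ⟨ContinuousLinearMap.proj ⟨0, hd⟩, ?_, x0, hx0, fun v hv hv1 => absurd hv1 (hno v hv)⟩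
    intro hcon
    have := congrArg (fun φ : (Fin d → ℝ) →L[ℝ] ℝ => φ (Pi.single ⟨0, hd⟩ 1)) hcon
    simp at this

theorem geometry {d : ℕ} (hd : 1 ≤ d) (C : Set (Fin d → ℝ)) (hC : IsCompact C)
    (hconv : Convex ℝ C) (h0 : (0 : Fin d → ℝ) ∈ interior C) (hD : ∀ v ∈ C, ∑ i, |v i| ≤ 1)
    (hne : C ≠ convexHull ℝ (C ∩ {v | ∑ i, |v i| = 1})) :
    ∃ f x : Fin d → ℝ, x ∈ C ∧ lin f x = 1 ∧ (∀ v ∈ C, lin f v ≤ 1) ∧
      ∃ σ δ κ : ℝ, 0 < σ ∧ σ ≤ 1 / 2 ∧ 0 < δ ∧ δ ≤ 1 ∧ 0 < κ ∧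
        ∀ v ∈ C, 1 - σ ≤ lin f ((1 + δ) • v) → ∑ i, |((1 + δ) • v) i| ≤ 1 - κ := by
  obtain ⟨ψ, hψ, x0, hx0, hlt⟩ := geo_functional hd C hC hconv hne
  have hCne : C.Nonempty := ⟨x0, hx0⟩
  obtain ⟨x, hx, hmax⟩ := hC.exists_isMaxOn hCne ψ.continuous.continuousOn
  have hmax' : ∀ v ∈ C, ψ v ≤ ψ x := fun v hv => hmax hv
  have hpos : 0 < ψ x := by
    obtain ⟨w, hw⟩ : ∃ w, ψ w ≠ 0 := by
      by_contra hcon
      push Not at hcon
      exact hψ (ContinuousLinearMap.ext hcon)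
    obtain ⟨w, hw⟩ : ∃ w, 0 < ψ w := by
      rcases lt_or_gt_of_ne hw with h | h
      · exact ⟨-w, by simpa using h⟩
      · exact ⟨w, h⟩
    have hnhds : C ∈ nhds (0 : Fin d → ℝ) := mem_interior_iff_mem_nhds.1 h0
    have htend : Filter.Tendsto (fun t : ℝ => t • w) (nhdsWithin 0 (Set.Ioi 0)) (nhds 0) := by
      have h1 : Filter.Tendsto (fun t : ℝ => t • w) (nhds 0) (nhds ((0 : ℝ) • w)) :=
        (continuous_id.smul continuous_const).tendsto 0
      rw [zero_smul] at h1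
      exact h1.mono_left nhdsWithin_le_nhds
    have hev := htend.eventually hnhds
    obtain ⟨t, ht, ht0⟩ := (hev.and self_mem_nhdsWithin).exists
    have ht0' : (0 : ℝ) < t := ht0
    have := hmax' _ ht
    rw [map_smul, smul_eq_mul] at this
    exact lt_of_lt_of_le (mul_pos ht0' hw) this
  have hlin : ∀ v, lin (fun i => ψ (Pi.single i 1) / ψ x) v = ψ v / ψ x := by
    intro v
    rw [geo_lin_eq ψ v, Finset.sum_div]
    unfold lin
    refine Finset.sum_congr rfl fun i _ => ?_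
    ring
  set f : Fin d → ℝ := fun i => ψ (Pi.single i 1) / ψ x with hf
  have hle : ∀ v ∈ C, lin f v ≤ 1 := by
    intro v hv
    rw [hlin v]
    exact (div_le_one hpos).2 (hmax' v hv)
  refine ⟨f, x, hx, by rw [hlin x]; exact div_self hpos.ne', hle, ?_⟩
  have hcont : Continuous fun v : Fin d → ℝ => max (1 - lin f v) (1 - ∑ i, |v i|) := by
    refine (continuous_const.sub (geo_cont f)).max (continuous_const.sub ?_)
    exact continuous_finsetSum _ fun i _ => (continuous_apply i).abs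
  obtain ⟨y, hy, hmin⟩ := hC.exists_isMinOn hCne hcont.continuousOn
  have hgpos : ∀ v ∈ C, 0 < max (1 - lin f v) (1 - ∑ i, |v i|) := by
    intro v hv
    by_contra hcon
    push Not at hcon
    have h1 := (max_le_iff.1 hcon).1
    have h2 := (max_le_iff.1 hcon).2
    have h3 : ∑ i, |v i| = 1 := le_antisymm (hD v hv) (by linarith)
    have h4 := hlt v hv h3
    have h5 := hmax' x0 hx0
    have h6 : 1 ≤ lin f v := by linarith
    rw [hlin v, le_div_iff₀ hpos] at h6
    linarith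
  set η : ℝ := min 1 (max (1 - lin f y) (1 - ∑ i, |y i|)) with hη
  have hη0 : 0 < η := lt_min one_pos (hgpos y hy)
  have hη1 : η ≤ 1 := min_le_left _ _
  have hηle : ∀ v ∈ C, η ≤ max (1 - lin f v) (1 - ∑ i, |v i|) := fun v hv =>
    (min_le_right _ _).trans (hmin hv)
  refine ⟨η / 4, η / 4, η / 4, by positivity, by linarith, by positivity, by linarith,
    by positivity, ?_⟩
  intro v hv hlin1
  rw [geo_smul] at hlin1
  have hl1 := hle v hv
  have hs : ∑ i, |((1 + η / 4) • v) i| = (1 + η / 4) * ∑ i, |v i| := by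
    rw [Finset.mul_sum]
    refine Finset.sum_congr rfl fun i _ => ?_
    simp only [Pi.smul_apply, smul_eq_mul, abs_mul]
    rw [abs_of_pos (by positivity)]
  rw [hs]
  rcases le_max_iff.1 (hηle v hv) with h | h
  · exfalso
    nlinarith
  · nlinarith

end Pool.Agent.Helper61.LF
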