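import Pool.Agent.Helper61.LF.ShapeLocal

/-!
Module LF-13 (GoodProb). Translation invariance, and a cell is good with high probability at a
large scale.

* `mu_shift`: `shift a w = fun x => w (x + a)`; `map_infinitePi_infinitePi_of_inj` (or
  `infinitePi_map_piCongrLeft`).
* `Good_shift`: with `a = s • c` (coordinates `s c i`) the cell `c` is the translate by `a` of the
  cell `0`: `(z i + s c i) / s = z i / s + c i` (`Int.add_mul_ediv_right`, `s ≥ 1`), `Rch_shift`,
  and differences are translation invariant.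
* `good_lim`: Let `ρ0` be given by `local_lim`. Fix `ρ ≤ ρ0`, `s = ⌊ρ K⌋₊`. Let `M ≥ 1` and
  `Q_M = {z | ∀ i, 0 ≤ z i < M}` (a finite set with `M^d` elements), contained in the cell `0`
  if `s ≥ M`. If some `w0 ∈ Q_M` is occupied (`1 ≤ (w w0).1`) and the event
  `¬ LocOK (closure A) δ ρ K (shift w0 w)` does not occur for it, then the cell `0` is good: for
  `z` in the cell `|z i - w0 i| ≤ s - 1 ≤ ⌊ρ K⌋₊`, so `Rch gP (shift w0 w) 0 ⌊δ K⌋₊ (z - w0)`, that is,
  `Rch gP w w0 ⌊δ K⌋₊ z` (`Rch_shift`), and the same for the outer control. Hence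
  `mu {¬ Good … 0} ≤ mu {no occupied site in Q_M} + Σ_{w0 ∈ Q_M} mu {1 ≤ (w w0).1 ∧
  ¬ LocOK … (shift w0 w)} ≤ (ν {0})^(M^d) + M^d * f K`, where `f K → 0` is the measure of `local_lim`
  (`mu_shift`). Given `η > 0` choose `M` with `(ν {0})^(M^d) < η/2` (`ν {0} < 1`, `d ≥ 1`), then `K`
  large. (In the proof below only the `M` sites `(m, ..., m)`, `m < M`, are used.)
-/

namespace Pool.Agent.Helper61.LF

open MeasureTheory Filter

theorem mu_shift {d : ℕ} {ν : Measure ℕ} {p p' : ℝ} (h : Par d ν p p') (a : Site d) :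
    Measure.map (shift a) (mu d ν p p') = mu d ν p p' := by
  have := h.isProb_stLaw
  have hinj : Function.Injective fun x : Site d => x + a := fun x y hxy => by simpa using hxy
  have := Measure.map_infinitePi_infinitePi_of_inj (P := fun _ : Site d => stLaw d ν p p') hinj
  exact this

private theorem shift_apply {d : ℕ} (a x : Site d) (w : Om d) : shift a w x = w (x + a) := rfl

private theorem cellOf_add {d : ℕ} {s : ℕ} (hs : 1 ≤ s) (c z : Site d) :
    cellOf s (z + fun i => (s : ℤ) * c i) = cellOf s z + c := by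
  funext i
  have hs' : (s : ℤ) ≠ 0 := by positivity
  simp only [cellOf, Pi.add_apply]
  exact Int.add_mul_ediv_left _ _ hs'

theorem Good_shift {d : ℕ} (C : Set (Fin d → ℝ)) (δ : ℝ) {s : ℕ} (hs : 1 ≤ s) (L K Km : ℕ)
    (w : Om d) (c : Site d) :
    Good C δ s L K Km (shift (fun i => (s : ℤ) * c i) w) 0 ↔ Good C δ s L K Km w c := by
  set a : Site d := fun i => (s : ℤ) * c i with ha
  have hc : ∀ z : Site d, cellOf s (z + a) = cellOf s z + c := fun z => cellOf_add hs c z
  constructor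
  · rintro ⟨w0, h1, h2, h3, h4⟩
    refine ⟨w0 + a, ?_, ?_, ?_, ?_⟩
    · rw [hc, h1, zero_add]
    · exact h2
    · intro z hz
      have e : cellOf s (z - a) = 0 := by
        have := hc (z - a)
        rw [sub_add_cancel, hz] at this
        have h5 : c + 0 = c + cellOf s (z - a) := by rw [add_zero, add_comm]; exact this
        exact (add_left_cancel h5).symm
      have := (Rch_shift gP w a w0 (z - a) L).1 (h3 _ e)
      rwa [sub_add_cancel] at this
    · intro t ht ht' z hz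
      have h5 : Rch gP (shift a w) w0 t (z - a) := by
        rw [Rch_shift, sub_add_cancel]; exact hz
      obtain ⟨v, hv, hv'⟩ := h4 t ht ht' _ h5
      refine ⟨v, hv, ?_⟩
      rw [← hv']
      congr 1
      abel
  · rintro ⟨w0, h1, h2, h3, h4⟩
    refine ⟨w0 - a, ?_, ?_, ?_, ?_⟩
    · have := hc (w0 - a)
      rw [sub_add_cancel, h1] at this
      have h5 : c + 0 = c + cellOf s (w0 - a) := by rw [add_zero, add_comm]; exact this
      exact (add_left_cancel h5).symm
    · rw [shift_apply, sub_add_cancel]; exact h2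
    · intro z hz
      rw [Rch_shift, sub_add_cancel]
      refine h3 _ ?_
      rw [hc, hz, zero_add]
    · intro t ht ht' z hz
      rw [Rch_shift, sub_add_cancel] at hz
      obtain ⟨v, hv, hv'⟩ := h4 t ht ht' _ hz
      refine ⟨v, hv, ?_⟩
      rw [← hv']
      congr 1
      abel

/-- the diagonal sites -/
private def dia (d : ℕ) (m : ℕ) : Site d := fun _ => (m : ℤ)

private theorem good_of {d : ℕ} {C : Set (Fin d → ℝ)} {δ ρ : ℝ} {K Km m : ℕ} {w : Om d}
    (hm : m < ⌊ρ * K⌋₊) (h1 : 1 ≤ (w (dia d m)).1) (h2 : LocOK C δ ρ K (shift (dia d m) w)) :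
    Good C δ ⌊ρ * K⌋₊ ⌊δ * K⌋₊ K Km w 0 := by
  have hs : 0 < ((⌊ρ * K⌋₊ : ℕ) : ℤ) := by
    have := Nat.zero_lt_of_lt hm
    exact_mod_cast this
  refine ⟨dia d m, ?_, h1, ?_, ?_⟩
  · funext i
    have hm' : (m : ℤ) < (⌊ρ * K⌋₊ : ℕ) := by exact_mod_cast hm
    exact Int.ediv_eq_zero_of_lt (by simp [dia]) hm'
  · intro z hz
    have h3 : ∀ i, 0 ≤ z i ∧ z i < (⌊ρ * K⌋₊ : ℕ) := by
      intro i
      have := congrFun hz i
      simp only [cellOf, Pi.zero_apply] at this
      exact ⟨by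
        by_contra hneg
        push Not at hneg
        have := Int.ediv_neg_of_neg_of_pos hneg hs
        omega, by
        have h4 := Int.lt_ediv_add_one_mul_self (z i) hs
        rw [this] at h4
        simpa using h4⟩
    have h4 := h2.1 (z - dia d m) (fun i => by
      have := h3 i
      have hm' : (m : ℤ) < (⌊ρ * K⌋₊ : ℕ) := by exact_mod_cast hm
      simp only [Pi.sub_apply, dia]
      rw [abs_le]
      constructor <;> omega)
    rw [Rch_shift, zero_add, sub_add_cancel] at h4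
    exact h4
  · intro t ht _ z hz
    refine h2.2 t ht (z - dia d m) ?_
    rw [Rch_shift, zero_add, sub_add_cancel]
    exact hz

private theorem meas_empty {d : ℕ} {ν : Measure ℕ} {p p' : ℝ} (h : Par d ν p p') (M : ℕ) :
    mu d ν p p' {w | ∀ m < M, (w (dia d m)).1 = 0} = (ν {0}) ^ M := by
  have := h.hν
  have := h.isProb_pathLaw
  have := h.isProb_stLaw
  have hinj : Function.Injective (dia d) := by
    intro m m' hmm
    have h0 : 0 < d := h.hd
    have := congrFun hmm ⟨0, h0⟩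
    simpa [dia] using this
  have hst : stLaw d ν p p' {st | st.1 = 0} = ν {0} := by
    have e : ({st | st.1 = 0} : Set (St d)) = {0} ×ˢ Set.univ := by
      ext st; simp
    rw [e, stLaw, Measure.prod_prod, measure_univ, mul_one]
  have e : ({w | ∀ m < M, (w (dia d m)).1 = 0} : Set (Om d)) =
      Set.pi (((Finset.range M).image (dia d) : Finset (Site d)) : Set (Site d))
        (fun _ => {st : St d | st.1 = 0}) := by
    ext w
    simp [Set.mem_pi]
  rw [e, mu, Measure.infinitePi_pi]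
  · rw [Finset.prod_image (fun x _ y _ hxy => hinj hxy)]
    simp [hst]
  · intro x _
    exact measurable_fst (measurableSet_singleton 0)

theorem good_lim {d : ℕ} {ν : Measure ℕ} {p p' : ℝ} (h : Par d ν p p') (hν : ν {0} < 1)
    {A : Set (Fin d → ℝ)} (hA : ShapeI gP (mu d ν p p') A) {δ : ℝ} (hδ : 0 < δ) (hδ' : δ < 1)
    (hh : ℕ) :
    ∃ ρ0 : ℝ, 0 < ρ0 ∧ ∀ ρ : ℝ, 0 < ρ → ρ ≤ ρ0 →
      Tendsto (fun K : ℕ => mu d ν p p'
        {w | ¬ Good (closure A) δ ⌊ρ * K⌋₊ ⌊δ * K⌋₊ K (hh * K) w 0}) atTop (nhds 0) := by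
  obtain ⟨ρ0, hρ0, hloc⟩ := local_lim h hν hA hδ hδ'
  refine ⟨ρ0, hρ0, fun ρ hρ hρ' => ?_⟩
  have hf := hloc ρ hρ hρ'
  have hmeas : ∀ K : ℕ, MeasurableSet {w : Om d | 1 ≤ (w 0).1 ∧ ¬ LocOK (closure A) δ ρ K w} := by
    intro K
    refine MeasurableSet.inter ?_ (measurableSet_LocOK _ _ _ _).compl
    have : Measurable fun w : Om d => (w 0).1 := measurable_fst.comp (measurable_pi_apply 0)
    exact this measurableSet_Ici
  have hbd : ∀ M K : ℕ, M ≤ ⌊ρ * K⌋₊ → mu d ν p p'
      {w | ¬ Good (closure A) δ ⌊ρ * K⌋₊ ⌊δ * K⌋₊ K (hh * K) w 0} ≤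
      (ν {0}) ^ M + M * mu d ν p p' {w | 1 ≤ (w 0).1 ∧ ¬ LocOK (closure A) δ ρ K w} := by
    intro M K hMK
    have hsub : {w : Om d | ¬ Good (closure A) δ ⌊ρ * K⌋₊ ⌊δ * K⌋₊ K (hh * K) w 0} ⊆
        {w | ∀ m < M, (w (dia d m)).1 = 0} ∪ ⋃ m ∈ Finset.range M,
          shift (dia d m) ⁻¹' {w | 1 ≤ (w 0).1 ∧ ¬ LocOK (closure A) δ ρ K w} := by
      intro w hw
      by_contra hcon
      rw [Set.mem_union, not_or] at hcon
      obtain ⟨hc1, hc2⟩ := hcon
      rw [Set.mem_ofPred_eq] at hc1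
      push Not at hc1
      obtain ⟨m, hm, hm'⟩ := hc1
      simp only [Set.mem_iUnion, Set.mem_preimage, Set.mem_ofPred_eq, not_exists, not_and,
        not_not, Finset.mem_range] at hc2
      have h1 : 1 ≤ (w (dia d m)).1 := Nat.one_le_iff_ne_zero.2 hm'
      have h2 := hc2 m hm (by rw [shift_apply, zero_add]; exact h1)
      exact hw (good_of (hm.trans_le hMK) h1 h2)
    refine (measure_mono hsub).trans ((measure_union_le _ _).trans ?_)
    rw [meas_empty h]
    refine add_le_add le_rfl ((measure_biUnion_finset_le _ _).trans ?_)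
    have : ∀ m ∈ Finset.range M, mu d ν p p' (shift (dia d m) ⁻¹'
        {w | 1 ≤ (w 0).1 ∧ ¬ LocOK (closure A) δ ρ K w}) =
        mu d ν p p' {w | 1 ≤ (w 0).1 ∧ ¬ LocOK (closure A) δ ρ K w} := by
      intro m _
      rw [← Measure.map_apply (measurable_shift _) (hmeas K), mu_shift h]
    rw [Finset.sum_congr rfl this]
    simp
  rw [ENNReal.tendsto_nhds_zero]
  intro ε hε
  have hε2 : 0 < ε / 2 := ENNReal.half_pos hε.ne'
  have hpow : Tendsto (fun M : ℕ => (ν {0}) ^ M) atTop (nhds 0) :=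
    ENNReal.tendsto_pow_atTop_nhds_zero_of_lt_one hν
  obtain ⟨M, hM⟩ := ((ENNReal.tendsto_nhds_zero.1 hpow) (ε / 2) hε2).exists
  have hmul : Tendsto (fun K : ℕ => (M : ENNReal) *
      mu d ν p p' {w | 1 ≤ (w 0).1 ∧ ¬ LocOK (closure A) δ ρ K w}) atTop (nhds 0) := by
    have := ENNReal.Tendsto.const_mul (a := (M : ENNReal)) hf (Or.inr (ENNReal.natCast_ne_top M))
    simpa using this
  have hfloor : Tendsto (fun K : ℕ => ⌊ρ * (K : ℝ)⌋₊) atTop atTop :=
    tendsto_nat_floor_atTop.comp (tendsto_natCast_atTop_atTop.const_mul_atTop hρ)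
  filter_upwards [(ENNReal.tendsto_nhds_zero.1 hmul) (ε / 2) hε2, hfloor.eventually_ge_atTop M]
    with K hK1 hK2
  refine (hbd M K hK2).trans ?_
  calc (ν {0}) ^ M + M * mu d ν p p' {w | 1 ≤ (w 0).1 ∧ ¬ LocOK (closure A) δ ρ K w}
      ≤ ε / 2 + ε / 2 := add_le_add hM hK1
    _ = ε := ENNReal.add_halves ε

end Pool.Agent.Helper61.LF
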