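import Pool.Agent.Helper61.LF.Chain

/-!
Module LF-23 (GoodUse). Displacement from a site of a good cell.

Proof. Let `w0` be given by `Good`. `Rch gP w w0 L x`, so `Rch gP w w0 (L + t) y` (`Rch_trans`) and
`K ≤ L + t ≤ Km`, hence `toR (y - w0) = ((1+δ)(L+t)) • v1` with `v1 ∈ C`. Both `x` and `w0` are in
the cell `cellOf s x`, so `|w0 i - x i| ≤ s` and `toR (w0 - x) = (δ t) • v2` with
`|v2 i| ≤ s/(δ t) ≤ b` (as `s ≤ δ b K ≤ δ b t`, `t > 0` because `1 ≤ s`), so `v2 ∈ C`.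
`toR (y - x) = a1 • v1 + a2 • v2` with `a1 = (1+δ)(L+t) ≤ (1+δ)^2 t ≤ (1+3δ) t`, `a2 = δ t`, and
`a1 + a2 ≤ (1+4δ) t`. As `0 ∈ C` and `C` is convex, `v = (a1/T) v1 + (a2/T) v2 ∈ C` for
`T = (1+4δ) t > 0`.
-/

namespace Pool.Agent.Helper61.LF

theorem good_use {d : ℕ} {C : Set (Fin d → ℝ)} (hconv : Convex ℝ C) (h0 : (0 : Fin d → ℝ) ∈ C)
    {b : ℝ} (hb : 0 < b) (hbox : ∀ v : Fin d → ℝ, (∀ i, |v i| ≤ b) → v ∈ C) {δ : ℝ} (hδ : 0 < δ)
    (hδ' : δ ≤ 1) {s L K Km : ℕ} (hs1 : 1 ≤ s) (hL : (L : ℝ) ≤ δ * K) (hs : (s : ℝ) ≤ δ * b * K)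
    {w : Om d} {x y : Site d} {t : ℕ} (hG : Good C δ s L K Km w (cellOf s x))
    (hR : Rch gP w x t y) (hK : K ≤ t) (hKm : L + t ≤ Km) :
    ∃ v ∈ C, toR (y - x) = ((1 + 4 * δ) * t) • v := by
  obtain ⟨w0, hc, _, hall, huse⟩ := hG
  have h1 : Rch gP w w0 L x := hall x rfl
  have h2 : Rch gP w w0 (L + t) y := Rch_trans h1 hR
  obtain ⟨v1, hv1, e1⟩ := huse (L + t) (by omega) hKm y h2
  have hs1' : (1 : ℝ) ≤ (s : ℝ) := by exact_mod_cast hs1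
  have hKt : (K : ℝ) ≤ (t : ℝ) := by exact_mod_cast hK
  have hdb : 0 < δ * b := mul_pos hδ hb
  have hK0 : (0 : ℝ) < (K : ℝ) := by
    by_contra hcon
    have h3 : (K : ℝ) ≤ 0 := not_lt.1 hcon
    have h4 : δ * b * (K : ℝ) ≤ 0 := mul_nonpos_of_nonneg_of_nonpos hdb.le h3
    linarith
  have ht : (0 : ℝ) < (t : ℝ) := lt_of_lt_of_le hK0 hKt
  have hδt : 0 < δ * (t : ℝ) := mul_pos hδ ht
  have hsδ : (s : ℝ) ≤ b * (δ * (t : ℝ)) := by
    have h5 : δ * b * (K : ℝ) ≤ δ * b * (t : ℝ) := mul_le_mul_of_nonneg_left hKt hdb.le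
    calc (s : ℝ) ≤ δ * b * K := hs
      _ ≤ δ * b * t := h5
      _ = b * (δ * t) := by ring
  have hdiff : ∀ i, |((w0 i : ℝ) - (x i : ℝ))| ≤ (s : ℝ) := by
    intro i
    have h6 : w0 i / (s : ℤ) = x i / (s : ℤ) := congrFun hc i
    have hspos : (0 : ℤ) < (s : ℤ) := by exact_mod_cast hs1
    have h7 := Int.emod_add_mul_ediv (w0 i) (s : ℤ)
    have h8 := Int.emod_add_mul_ediv (x i) (s : ℤ)
    have h9 := Int.emod_nonneg (w0 i) hspos.ne'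
    have h10 := Int.emod_lt_of_pos (w0 i) hspos
    have h11 := Int.emod_nonneg (x i) hspos.ne'
    have h12 := Int.emod_lt_of_pos (x i) hspos
    rw [h6] at h7
    have h13 : |w0 i - x i| ≤ (s : ℤ) := by
      rw [abs_le]
      constructor <;> linarith
    exact_mod_cast h13
  set v2 : Fin d → ℝ := fun i => ((w0 i : ℝ) - (x i : ℝ)) / (δ * t) with hv2def
  have hv2 : v2 ∈ C := by
    apply hbox
    intro i
    rw [hv2def]
    show |((w0 i : ℝ) - (x i : ℝ)) / (δ * t)| ≤ b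
    rw [abs_div, abs_of_pos hδt, div_le_iff₀ hδt]
    exact (hdiff i).trans hsδ
  set a1 : ℝ := (1 + δ) * ((L + t : ℕ) : ℝ) with ha1
  set a2 : ℝ := δ * (t : ℝ) with ha2
  have ha1' : 0 ≤ a1 := by
    rw [ha1]
    positivity
  have ha1le : a1 ≤ (1 + 3 * δ) * t := by
    rw [ha1]
    push_cast
    have h14 : (L : ℝ) ≤ δ * t := hL.trans (mul_le_mul_of_nonneg_left hKt hδ.le)
    have h15 : (1 + δ) * ((L : ℝ) + t) ≤ (1 + δ) * (δ * t + t) :=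
      mul_le_mul_of_nonneg_left (by linarith) (by linarith)
    have h16 : δ * δ ≤ δ * 1 := mul_le_mul_of_nonneg_left hδ' hδ.le
    have h17 : δ * δ * t ≤ δ * 1 * t := mul_le_mul_of_nonneg_right h16 ht.le
    calc (1 + δ) * ((L : ℝ) + t) ≤ (1 + δ) * (δ * t + t) := h15
      _ = t + 2 * δ * t + δ * δ * t := by ring
      _ ≤ t + 2 * δ * t + δ * 1 * t := by linarith
      _ = (1 + 3 * δ) * t := by ring
  have hS : 0 < a1 + a2 := by linarith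
  have hT : 0 < (1 + 4 * δ) * (t : ℝ) := by positivity
  have hST : a1 + a2 ≤ (1 + 4 * δ) * (t : ℝ) := by
    have h18 : (1 + 4 * δ) * (t : ℝ) = (1 + 3 * δ) * t + δ * t := by ring
    rw [h18]
    linarith
  have hu : (a1 / (a1 + a2)) • v1 + (a2 / (a1 + a2)) • v2 ∈ C :=
    hconv hv1 hv2 (div_nonneg ha1' hS.le) (div_nonneg hδt.le hS.le)
      (by rw [← add_div, div_self hS.ne'])
  have hv : ((a1 + a2) / ((1 + 4 * δ) * (t : ℝ))) •
      ((a1 / (a1 + a2)) • v1 + (a2 / (a1 + a2)) • v2) ∈ C :=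
    hconv.smul_mem_of_zero_mem h0 hu
      ⟨div_nonneg hS.le hT.le, (div_le_one hT).2 hST⟩
  refine ⟨_, hv, ?_⟩
  funext i
  have e1i : ((y i : ℝ) - (w0 i : ℝ)) = a1 * v1 i := by
    have h19 := congrFun e1 i
    simp only [toR, Pi.sub_apply, Int.cast_sub, Pi.smul_apply, smul_eq_mul] at h19
    rw [ha1]
    exact h19
  have e2i : ((w0 i : ℝ) - (x i : ℝ)) = a2 * v2 i := by
    rw [hv2def, ha2]
    show ((w0 i : ℝ) - (x i : ℝ)) = δ * t * (((w0 i : ℝ) - (x i : ℝ)) / (δ * t))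
    field_simp
  simp only [toR, Pi.sub_apply, Int.cast_sub, Pi.smul_apply, Pi.add_apply, smul_eq_mul]
  have hSne := hS.ne'
  have hTne := hT.ne'
  have h20 : (1 + 4 * δ) * (t : ℝ) * ((a1 + a2) / ((1 + 4 * δ) * (t : ℝ)) *
      (a1 / (a1 + a2) * v1 i + a2 / (a1 + a2) * v2 i)) = a1 * v1 i + a2 * v2 i := by
    have h21 : (1 + 4 * δ) * (t : ℝ) * ((a1 + a2) / ((1 + 4 * δ) * (t : ℝ)) *
      (a1 / (a1 + a2) * v1 i + a2 / (a1 + a2) * v2 i)) =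
      ((1 + 4 * δ) * (t : ℝ) / ((1 + 4 * δ) * (t : ℝ))) * (((a1 + a2) / (a1 + a2)) *
        (a1 * v1 i + a2 * v2 i)) := by ring
    rw [h21, div_self hTne, div_self hSne, one_mul, one_mul]
  rw [h20, ← e1i, ← e2i]
  ring

end Pool.Agent.Helper61.LF
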