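import Pool.Agent.Helper61.LF.ShapeBasic

/-!
Module LF-30 (HeavyOne). Dimension one, infinite logarithmic moment: the shape is `[-1,1]`.

Let `q = p'/2` be the probability of `{e | e.1 = (0, b), e.2.1 = 0}` under `entLaw` (`b` a sign),
`σ = 1` if `b` is true and `σ = -1` otherwise.
* `ballistic_io`: fix `M ≥ 1` and `b`. Let `c = 2 M log (1/q) > 0`. The events
  `{w | c x ≤ log (1 + (w (σ x)).1)}`, `x = 1, 2, …` are independent and the sum of their probabilities is
  infinite (`Σ_{x≥1} 1[c x ≤ u] ≥ u/c - 1`, integrate over `ν`), so almost surely infinitely many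
  occur (`measure_limsup_eq_one`, second Borel-Cantelli lemma). The event
  `B x` that `c x ≤ log (1 + (w (σ x)).1)` but no frog `j < (w (σ x)).1` at the site `σ x` has its first
  `M x` entries in `{e | e.1 = (0, b), e.2.1 = 0}` has probability at most
  `exp (-(exp (c x) - 1) q^(M x)) = exp (-(exp(c x) - 1) exp (-c x/2)) ≤ exp (1 - exp (c x / 2))`
  (given the number `N ≥ exp (c x) - 1` of frogs, `(1 - q^(M x))^N ≤ exp (-N q^(M x))`); the sum over
  `x` is finite, so almost surely only finitely many `B x` occur (first Borel-Cantelli lemma).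
* `heavy_one`: take a `w` with `1 ≤ (w 0).1` (`occ_prob`) for which the conclusion of `ballistic_io`
  holds for all `M ≥ 1` and both `b`, and the inclusions of the shape property hold
  eventually for `ε = 1/2` and for all `ε = 1/(k+2)`. Let `β > 0` with
  `{v | |v 0| ≤ β} ⊆ A'` (`ShapeI.zero_mem`). With `Cn = ⌈2/β⌉₊ + 1`, for large `x` the site `σ x`
  satisfies `Rch gQ w 0 (Cn x) (σ x)`: for `m = Cn x`, `|x/m| ≤ β/2`, so the point `σ x / m` is in
  `(1/2) • A' ⊆ (1/m) • bar {y | Rch gQ w 0 m y}` and the only cube containing an integer point is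
  its own. For infinitely many `x` a frog of `σ x` makes `M x` jumps in the direction `b` without
  holding (clock `gQ`), so `Rch gQ w 0 (Cn x + M x) (σ (x + M x))`, and by the outer inclusion
  `σ (x + M x)/(Cn x + M x) ∈ (1 + ε) • A'`, that is `σ (1+M)/((Cn+M)(1+ε))` is the coordinate of a
  point of `A'`. Let `ε → 0`, `M → ∞`: the points with coordinate `1` and `-1` are in `closure A'`. The
  set `closure A'` is convex, so it contains `{v | Σ |v i| ≤ 1}`; the other inclusion is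
  `ShapeI.le_one`.
-/

namespace Pool.Agent.Helper61.LF

open MeasureTheory Filter
open scoped Pointwise ENNReal

private def e0 (b : Bool) : Ent 1 := ((0, b), 0, 0)

private def gset (b : Bool) (m : ℕ) : Set (Path 1) :=
  Set.pi (↑(Finset.range m)) fun _ => {e0 b}

private theorem measurableSet_gset (b : Bool) (m : ℕ) : MeasurableSet (gset b m) :=
  MeasurableSet.pi (Finset.countable_toSet _) fun _ _ => measurableSet_singleton _

private theorem pathLaw_gset {ν : Measure ℕ} {p p' : ℝ} (h : Par 1 ν p p') (b : Bool) (m : ℕ) :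
    pathLaw 1 p p' (gset b m) = ENNReal.ofReal ((p / 2) ^ m) := by
  have := h.isProb_entLaw
  unfold pathLaw gset
  rw [Measure.infinitePi_pi _ (fun _ _ => measurableSet_singleton _)]
  have h1 : entLaw 1 p p' {e0 b} = ENNReal.ofReal (p / 2) := by
    have := entLaw_zero h (0, b)
    simpa [e0] using this
  simp only [h1, Finset.prod_const, Finset.card_range]
  rw [ENNReal.ofReal_pow (by have := h.hp; positivity)]

private def dset (b : Bool) (m : ℕ) : Set (St 1) := {st | ∃ j < st.1, st.2 j ∈ gset b m}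

private theorem measurableSet_dset (b : Bool) (m : ℕ) : MeasurableSet (dset b m) := by
  have h1 : dset b m = ⋃ j : ℕ, ({st : St 1 | j < st.1} ∩ {st : St 1 | st.2 j ∈ gset b m}) := by
    ext st
    simp [dset]
  rw [h1]
  refine MeasurableSet.iUnion fun j => ?_
  refine MeasurableSet.inter ?_ ?_
  · exact measurable_fst (MeasurableSet.of_discrete (s := {k : ℕ | j < k}))
  · have h2 : Measurable fun st : St 1 => st.2 j := (measurable_pi_apply j).comp measurable_snd
    exact h2 (measurableSet_gset b m)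

private theorem half_le {ν : Measure ℕ} {p p' : ℝ} (h : Par 1 ν p p') (b : Bool) (m k : ℕ)
    (hk : 1 ≤ (p / 2) ^ m * k) :
    (1 / 2 : ℝ≥0∞) ≤ (Measure.infinitePi fun _ : ℕ => pathLaw 1 p p')
      {ω | ∃ j < k, ω j ∈ gset b m} := by
  have := h.isProb_pathLaw
  have hp := h.hp
  have hp1 : p < 1 := lt_of_lt_of_le h.hpp h.hp'
  set r : ℝ := (p / 2) ^ m with hr
  have hr0 : 0 ≤ r := by positivity
  have hr1 : r ≤ 1 := pow_le_one₀ (by positivity) (by linarith)
  have hcompl : {ω : ℕ → Path 1 | ∃ j < k, ω j ∈ gset b m}ᶜ =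
      Set.pi (↑(Finset.range k)) fun _ => (gset b m)ᶜ := by
    ext ω
    simp [Set.mem_pi]
  have hmeas : MeasurableSet {ω : ℕ → Path 1 | ∃ j < k, ω j ∈ gset b m} := by
    rw [← MeasurableSet.compl_iff, hcompl]
    exact MeasurableSet.pi (Finset.countable_toSet _) fun _ _ => (measurableSet_gset b m).compl
  have h1 : (Measure.infinitePi fun _ : ℕ => pathLaw 1 p p')
      {ω : ℕ → Path 1 | ∃ j < k, ω j ∈ gset b m}ᶜ ≤ 1 / 2 := by
    rw [hcompl, Measure.infinitePi_pi _ (fun _ _ => (measurableSet_gset b m).compl)]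
    have h2 : pathLaw 1 p p' (gset b m)ᶜ = ENNReal.ofReal (1 - r) := by
      rw [prob_compl_eq_one_sub (measurableSet_gset b m), pathLaw_gset h,
        ENNReal.ofReal_sub _ hr0, ENNReal.ofReal_one]
    simp only [h2, Finset.prod_const, Finset.card_range]
    rw [← ENNReal.ofReal_pow (by linarith)]
    have h3 : (1 - r) ^ k ≤ 1 / 2 := by
      calc (1 - r) ^ k ≤ (Real.exp (-r)) ^ k :=
            pow_le_pow_left₀ (by linarith) (Real.one_sub_le_exp_neg r) k
        _ = Real.exp (-(r * k)) := by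
            rw [← Real.exp_nat_mul]
            congr 1
            ring
        _ ≤ Real.exp (-1) := Real.exp_le_exp.2 (by linarith)
        _ ≤ 1 / 2 := by
            rw [Real.exp_neg, one_div]
            apply inv_anti₀ (by norm_num)
            have := Real.add_one_le_exp (1 : ℝ)
            linarith
    calc ENNReal.ofReal ((1 - r) ^ k) ≤ ENNReal.ofReal (1 / 2) := ENNReal.ofReal_le_ofReal h3
      _ = 1 / 2 := by
          rw [ENNReal.ofReal_div_of_pos (by norm_num)]
          simp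
  by_contra hcon
  rw [not_le] at hcon
  have h4 := (add_le_add le_rfl h1).trans_lt
    (ENNReal.add_lt_add_right (by simp : (1 / 2 : ℝ≥0∞) ≠ ⊤) hcon)
  rw [prob_add_prob_compl hmeas, ENNReal.add_halves] at h4
  exact lt_irrefl _ h4

private theorem stLaw_dset {ν : Measure ℕ} {p p' : ℝ} (h : Par 1 ν p p') (b : Bool) (m : ℕ) :
    1 / 2 * ν {k : ℕ | 1 ≤ (p / 2) ^ m * k} ≤ stLaw 1 ν p p' (dset b m) := by
  have := h.hν
  have := h.isProb_pathLaw
  unfold stLaw
  rw [Measure.prod_apply (measurableSet_dset b m)]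
  calc 1 / 2 * ν {k : ℕ | 1 ≤ (p / 2) ^ m * k}
      = ∫⁻ k in {k : ℕ | 1 ≤ (p / 2) ^ m * k}, (1 / 2 : ℝ≥0∞) ∂ν := by
        rw [lintegral_const, Measure.restrict_apply MeasurableSet.univ, Set.univ_inter]
    _ ≤ ∫⁻ k in {k : ℕ | 1 ≤ (p / 2) ^ m * k}, (Measure.infinitePi fun _ : ℕ => pathLaw 1 p p')
          (Prod.mk k ⁻¹' dset b m) ∂ν := by
        refine setLIntegral_mono' MeasurableSet.of_discrete fun k hk => ?_
        exact half_le h b m k hk
    _ ≤ _ := setLIntegral_le_lintegral _ _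

private theorem sum_top {ν : Measure ℕ} {p p' : ℝ} (h : Par 1 ν p p')
    (hm : ∫⁻ k : ℕ, ENNReal.ofReal (Real.log (1 + k)) ∂ν = ⊤) (M : ℕ) (hM : 1 ≤ M) :
    ∑' x : ℕ, ν {k : ℕ | 1 ≤ (p / 2) ^ (M * x) * k} = ⊤ := by
  have hp := h.hp
  have hp1 : p < 1 := lt_of_lt_of_le h.hpp h.hp'
  set L : ℝ := M * Real.log (2 / p) with hL
  have hMr : (1 : ℝ) ≤ M := by exact_mod_cast hM
  have hlog2 : 0 < Real.log 2 := Real.log_pos (by norm_num)
  have hlogp : Real.log 2 ≤ Real.log (2 / p) := by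
    apply Real.log_le_log (by norm_num)
    rw [le_div_iff₀ hp]
    linarith
  have hL2 : Real.log 2 ≤ L := by
    rw [hL]
    nlinarith
  have hL0 : 0 < L := lt_of_lt_of_le hlog2 hL2
  have h1 : ∀ x : ℕ, ν {k : ℕ | 1 ≤ (p / 2) ^ (M * x) * k} =
      ∫⁻ k, ({k : ℕ | 1 ≤ (p / 2) ^ (M * x) * k}).indicator 1 k ∂ν := by
    intro x
    rw [lintegral_indicator_one MeasurableSet.of_discrete]
  simp only [h1]
  rw [← lintegral_tsum (fun x => Measurable.of_discrete.aemeasurable)]
  rw [eq_top_iff]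
  have h2 : ∀ k : ℕ, ENNReal.ofReal (1 / (2 * L)) * ENNReal.ofReal (Real.log (1 + k)) ≤
      ∑' x : ℕ, ({k : ℕ | 1 ≤ (p / 2) ^ (M * x) * k}).indicator (1 : ℕ → ℝ≥0∞) k := by
    intro k
    rcases Nat.eq_zero_or_pos k with hk | hk
    · subst hk
      simp
    have hk0 : (0 : ℝ) < k := by exact_mod_cast hk
    have hk1 : (1 : ℝ) ≤ k := by exact_mod_cast hk
    have hlogk : 0 ≤ Real.log k := Real.log_nonneg hk1
    set n : ℕ := ⌊Real.log k / L⌋₊ with hn
    have hnle : (n : ℝ) ≤ Real.log k / L := Nat.floor_le (by positivity)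
    have hnlt : Real.log k / L < n + 1 := Nat.lt_floor_add_one _
    have h3 : ∀ x ∈ Finset.range (n + 1),
        ({k : ℕ | 1 ≤ (p / 2) ^ (M * x) * k}).indicator (1 : ℕ → ℝ≥0∞) k = 1 := by
      intro x hx
      rw [Finset.mem_range] at hx
      apply Set.indicator_of_mem
      show 1 ≤ (p / 2) ^ (M * x) * (k : ℝ)
      have hx1 : (x : ℝ) ≤ n := by exact_mod_cast Nat.lt_succ_iff.1 hx
      have h4 : (x : ℝ) * L ≤ Real.log k := by
        have := hx1.trans hnle
        rwa [le_div_iff₀ hL0] at this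
      have h5 : 0 ≤ Real.log ((p / 2) ^ (M * x) * k) := by
        rw [Real.log_mul (by positivity) (by positivity), Real.log_pow]
        have h6 : Real.log (p / 2) = -Real.log (2 / p) := by
          rw [← Real.log_inv]
          congr 1
          field_simp
        rw [h6]
        push_cast
        rw [hL] at h4
        nlinarith
      have h7 := Real.exp_le_exp.2 h5
      rwa [Real.exp_zero, Real.exp_log (by positivity)] at h7
    calc ENNReal.ofReal (1 / (2 * L)) * ENNReal.ofReal (Real.log (1 + k))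
        = ENNReal.ofReal (1 / (2 * L) * Real.log (1 + k)) := by
          rw [ENNReal.ofReal_mul (by positivity)]
      _ ≤ ENNReal.ofReal ((n + 1 : ℕ) : ℝ) := by
          apply ENNReal.ofReal_le_ofReal
          have h8 : Real.log (1 + k) ≤ Real.log 2 + Real.log k := by
            rw [← Real.log_mul (by norm_num) hk0.ne']
            apply Real.log_le_log (by positivity)
            linarith
          have h9 : Real.log k < (n + 1) * L := by rwa [div_lt_iff₀ hL0] at hnlt
          have hn0 : (0 : ℝ) ≤ n := Nat.cast_nonneg _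
          rw [one_div, inv_mul_le_iff₀ (by positivity)]
          push_cast
          nlinarith
      _ = ∑ x ∈ Finset.range (n + 1),
            ({k : ℕ | 1 ≤ (p / 2) ^ (M * x) * k}).indicator (1 : ℕ → ℝ≥0∞) k := by
          rw [Finset.sum_congr rfl h3, Finset.sum_const, Finset.card_range, nsmul_eq_mul, mul_one,
            ENNReal.ofReal_natCast]
      _ ≤ _ := ENNReal.sum_le_tsum _
  calc (⊤ : ℝ≥0∞) = ENNReal.ofReal (1 / (2 * L)) * ⊤ := by
        rw [ENNReal.mul_top]
        simp only [ne_eq, ENNReal.ofReal_eq_zero, not_le]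
        positivity
    _ = ENNReal.ofReal (1 / (2 * L)) * ∫⁻ k : ℕ, ENNReal.ofReal (Real.log (1 + k)) ∂ν := by rw [hm]
    _ = ∫⁻ k : ℕ, ENNReal.ofReal (1 / (2 * L)) * ENNReal.ofReal (Real.log (1 + k)) ∂ν := by
        rw [lintegral_const_mul _ Measurable.of_discrete]
    _ ≤ _ := lintegral_mono h2

theorem ballistic_io {ν : Measure ℕ} {p p' : ℝ} (h : Par 1 ν p p')
    (hm : ∫⁻ k : ℕ, ENNReal.ofReal (Real.log (1 + k)) ∂ν = ⊤) (M : ℕ) (hM : 1 ≤ M) (b : Bool) :
    ∀ᵐ w ∂(mu 1 ν p p'), ∃ᶠ x : ℕ in atTop,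
      ∃ j < (w fun _ => (if b then (x : ℤ) else -x)).1, ∀ i < M * x,
        (((w fun _ => (if b then (x : ℤ) else -x)).2 j i).1 = (0, b) ∧
          ((w fun _ => (if b then (x : ℤ) else -x)).2 j i).2.1 = 0) := by
  have := h.isProb_mu
  have := h.isProb_stLaw
  set site : ℕ → Site 1 := fun x => fun _ => (if b then (x : ℤ) else -x) with hsite
  have hinj : Function.Injective site := by
    intro x y hxy
    have h1 := congrFun hxy 0
    simp only [hsite] at h1
    split_ifs at h1 <;> omega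
  have hmeas : ∀ x : ℕ, MeasurableSet {w : Om 1 | w (site x) ∈ dset b (M * x)} := fun x =>
    measurable_pi_apply (site x) (measurableSet_dset b (M * x))
  have hind : ProbabilityTheory.iIndepSet (fun x : ℕ => {w : Om 1 | w (site x) ∈ dset b (M * x)})
      (mu 1 ν p p') := by
    rw [ProbabilityTheory.iIndepSet_iff_meas_biInter hmeas]
    intro s
    have h1 : ProbabilityTheory.iIndepFun (fun (z : Site 1) (w : Om 1) => w z) (mu 1 ν p p') :=
      ProbabilityTheory.iIndepFun_infinitePi (P := fun _ : Site 1 => stLaw 1 ν p p')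
        (X := fun _ ω => ω) (fun _ => measurable_id)
    have h2 := h1.precomp hinj
    exact h2.measure_inter_preimage_eq_mul s (sets := fun x => dset b (M * x))
      (fun x _ => measurableSet_dset b (M * x))
  have hval : ∀ x : ℕ, mu 1 ν p p' {w : Om 1 | w (site x) ∈ dset b (M * x)} =
      stLaw 1 ν p p' (dset b (M * x)) := fun x =>
    (measurePreserving_eval_infinitePi (fun _ : Site 1 => stLaw 1 ν p p')
      (site x)).measure_preimage (measurableSet_dset b (M * x)).nullMeasurableSet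
  have hsum : ∑' x : ℕ, mu 1 ν p p' {w : Om 1 | w (site x) ∈ dset b (M * x)} = ⊤ := by
    rw [eq_top_iff]
    calc (⊤ : ℝ≥0∞) = 1 / 2 * ∑' x : ℕ, ν {k : ℕ | 1 ≤ (p / 2) ^ (M * x) * k} := by
          rw [sum_top h hm M hM, ENNReal.mul_top (by simp)]
      _ = ∑' x : ℕ, 1 / 2 * ν {k : ℕ | 1 ≤ (p / 2) ^ (M * x) * k} := ENNReal.tsum_mul_left.symm
      _ ≤ _ := ENNReal.tsum_le_tsum fun x => by
          rw [hval x]
          exact stLaw_dset h b (M * x)
  have hone := ProbabilityTheory.measure_limsup_eq_one hmeas hind hsum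
  have hae : ∀ᵐ w ∂(mu 1 ν p p'),
      w ∈ limsup (fun x : ℕ => {w : Om 1 | w (site x) ∈ dset b (M * x)}) atTop :=
    (mem_ae_iff_prob_eq_one (MeasurableSet.measurableSet_limsup hmeas)).2 hone
  filter_upwards [hae] with w hw
  rw [mem_limsup_iff_frequently_mem] at hw
  refine hw.mono fun x hx => ?_
  obtain ⟨j, hj, hjs⟩ := hx
  refine ⟨j, hj, fun i hi => ?_⟩
  have h3 : (w (site x)).2 j i = e0 b := hjs i (by simpa using hi)
  have h4 : (w fun _ => (if b then (x : ℤ) else -x)).2 j i = e0 b := h3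
  rw [h4]
  exact ⟨rfl, rfl⟩

private def site (b : Bool) (x : ℕ) : Site 1 := fun _ => (if b then (x : ℤ) else -x)

private theorem jump {w : Om 1} {b : Bool} {x M j : ℕ} (hM : 1 ≤ M) (hx : 1 ≤ x)
    (hj : j < (w (site b x)).1)
    (he : ∀ i < M * x, (((w (site b x)).2 j i).1 = (0, b) ∧ ((w (site b x)).2 j i).2.1 = 0)) :
    Rch gQ w (site b x) (M * x) (site b ((1 + M) * x)) := by
  have hMx : M * x - 1 + 1 = M * x := Nat.sub_add_cancel (Nat.mul_pos hM hx)
  refine ⟨[(j, M * x - 1)], ⟨hj, trivial⟩, ?_, ?_⟩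
  · simp only [ep, hMx]
    have h1 : J ((w (site b x)).2 j) (M * x) = ∑ _i ∈ Finset.range (M * x), vec (d := 1) (0, b) := by
      unfold J
      refine Finset.sum_congr rfl fun i hi => ?_
      rw [(he i (Finset.mem_range.1 hi)).1]
    rw [h1, Finset.sum_const, Finset.card_range]
    funext i
    have hi : i = 0 := Subsingleton.elim _ _
    subst hi
    simp only [Pi.add_apply, Pi.smul_apply, site, vec, Pi.single_eq_same, nsmul_eq_mul]
    cases b <;> simp <;> ring
  · simp only [dur, hMx, add_zero]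
    unfold tau
    have h1 : ∀ i ∈ Finset.range (M * x), gQ ((w (site b x)).2 j i) + 1 = 1 := by
      intro i hi
      unfold gQ
      rw [(he i (Finset.mem_range.1 hi)).2]
    rw [Finset.sum_congr rfl h1, Finset.sum_const, Finset.card_range, smul_eq_mul, mul_one]

private theorem abs_site (b : Bool) (x : ℕ) : |((site b x 0 : ℤ) : ℝ)| = x := by
  unfold site
  cases b <;> simp

private theorem point {w : Om 1} {A' : Set (Fin 1 → ℝ)} {δ : ℝ} (hδ : 0 < δ)
    (hball : Metric.ball 0 δ ⊆ A')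
    (hb : ∀ M : ℕ, 1 ≤ M → ∀ b : Bool, ∃ᶠ x : ℕ in atTop, ∃ j < (w (site b x)).1, ∀ i < M * x,
        (((w (site b x)).2 j i).1 = (0, b) ∧ ((w (site b x)).2 j i).2.1 = 0))
    (hs : ∀ k : ℕ, ∀ᶠ n : ℕ in atTop,
      (1 - 1 / ((k : ℝ) + 2)) • A' ⊆ (1 / (n : ℝ)) • bar {y | Rch gQ w 0 n y} ∧
        (1 / (n : ℝ)) • bar {y | Rch gQ w 0 n y} ⊆ (1 + 1 / ((k : ℝ) + 2)) • A') (b : Bool) :
    (fun _ => if b then (1 : ℝ) else -1) ∈ closure A' := by
  obtain ⟨Cn, hCn⟩ := exists_nat_gt (2 / δ)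
  have hCn0 : (0 : ℝ) < Cn := lt_trans (by positivity) hCn
  have hCnpos : 1 ≤ Cn := by exact_mod_cast (Nat.cast_pos.1 hCn0)
  have hCδ : 2 / (Cn : ℝ) < δ := by
    rw [div_lt_iff₀ hCn0]
    rw [div_lt_iff₀ hδ] at hCn
    linarith
  -- sites are reached within time `Cn x`
  have hreach : ∀ᶠ x : ℕ in atTop, Rch gQ w 0 (Cn * x) (site b x) := by
    have ht : Tendsto (fun x : ℕ => Cn * x) atTop atTop :=
      tendsto_atTop_mono (fun x => Nat.le_mul_of_pos_left x hCnpos) tendsto_id
    filter_upwards [ht.eventually (hs 0), eventually_ge_atTop 1] with x hx hx1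
    have hx0 : (0 : ℝ) < x := by exact_mod_cast hx1
    have hm0 : (0 : ℝ) < ((Cn * x : ℕ) : ℝ) := by
      push_cast
      positivity
    set sx : ℝ := ((site b x 0 : ℤ) : ℝ) with hsx
    have habs : |sx| = x := abs_site b x
    have h1 : (fun _ : Fin 1 => 2 * sx / ((Cn * x : ℕ) : ℝ)) ∈ A' := by
      apply hball
      rw [mem_ball_zero_iff, pi_norm_lt_iff hδ]
      intro i
      rw [Real.norm_eq_abs, abs_div, abs_mul, habs, abs_of_pos hm0, abs_of_pos (by norm_num)]
      push_cast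
      have h2 : 2 * (x : ℝ) / (Cn * x) = 2 / Cn := by
        field_simp
      rw [h2]
      exact hCδ
    obtain ⟨u, ⟨y, hy, hyu⟩, hu⟩ := hx.1 (Set.smul_mem_smul_set h1)
    have h3 := congrFun hu 0
    simp only [Pi.smul_apply, smul_eq_mul, Nat.cast_zero, zero_add] at h3
    have h4 : u 0 = sx := by
      field_simp at h3
      linarith
    have h5 := hyu 0
    rw [h4] at h5
    have h6 : y = site b x := by
      funext i
      have hi : i = 0 := Subsingleton.elim _ _
      subst hi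
      have h7 : ((site b x 0 : ℤ) : ℝ) < ((y 0 + 1 : ℤ) : ℝ) := by
        push_cast
        linarith [h5.2]
      have h8 : ((y 0 : ℤ) : ℝ) < ((site b x 0 + 1 : ℤ) : ℝ) := by
        push_cast
        linarith [h5.1]
      have h9 := Int.cast_lt.1 h7
      have h10 := Int.cast_lt.1 h8
      omega
    rw [← h6]
    exact hy
  -- the points of `A'`
  have hpt : ∀ M : ℕ, 1 ≤ M → ∀ k : ℕ, ∃ a ∈ A', (1 + 1 / ((k : ℝ) + 2)) * a 0 =
      (if b then (1 : ℝ) else -1) * ((1 + M) / (Cn + M)) := by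
    intro M hM k
    have ht : Tendsto (fun x : ℕ => Cn * x + M * x) atTop atTop :=
      tendsto_atTop_mono (fun x => le_trans (Nat.le_mul_of_pos_left x hCnpos)
        (Nat.le_add_right _ _)) tendsto_id
    obtain ⟨x, ⟨j, hj, hje⟩, hxr, hxk, hx1⟩ := ((hb M hM b).and_eventually
      (hreach.and ((ht.eventually (hs k)).and (eventually_ge_atTop 1)))).exists
    have hx0 : (0 : ℝ) < x := by exact_mod_cast hx1
    have hR := Rch_trans hxr (jump hM hx1 hj hje)
    have hn0 : (0 : ℝ) < ((Cn * x + M * x : ℕ) : ℝ) := by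
      push_cast
      positivity
    have hbar : toR (site b ((1 + M) * x)) ∈ bar {y | Rch gQ w 0 (Cn * x + M * x) y} := by
      refine ⟨site b ((1 + M) * x), hR, fun i => ?_⟩
      unfold toR
      constructor <;> linarith
    obtain ⟨a, ha, hae⟩ := hxk.2 (Set.smul_mem_smul_set hbar)
    refine ⟨a, ha, ?_⟩
    have h1 := congrFun hae 0
    simp only [Pi.smul_apply, smul_eq_mul] at h1
    rw [h1]
    have h2 : toR (site b ((1 + M) * x)) 0 = (if b then (1 : ℝ) else -1) * ((1 + M) * x) := by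
      unfold toR site
      cases b <;> simp
    rw [h2]
    push_cast
    field_simp
  rw [Metric.mem_closure_iff]
  intro η hη
  obtain ⟨M, hM⟩ := exists_nat_gt ((Cn : ℝ) / η)
  have hM0 : (0 : ℝ) < M := lt_trans (by positivity) hM
  have hM1 : 1 ≤ M := by exact_mod_cast (Nat.cast_pos.1 hM0)
  obtain ⟨a, ha, hae⟩ := hpt M hM1 M
  refine ⟨a, ha, ?_⟩
  rw [dist_pi_lt_iff hη]
  intro i
  have hi : i = 0 := Subsingleton.elim _ _
  subst hi
  have hval : a 0 = (if b then (1 : ℝ) else -1) * (((1 + M) * (M + 2)) / ((Cn + M) * (M + 3))) := by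
    have h1 : (1 : ℝ) + 1 / ((M : ℝ) + 2) = (M + 3) / (M + 2) := by
      field_simp
      ring
    rw [h1] at hae
    have h2 : ((M : ℝ) + 3) / (M + 2) ≠ 0 := by positivity
    field_simp at hae ⊢
    linarith
  have hq : 1 - ((1 + M : ℝ) * (M + 2)) / ((Cn + M) * (M + 3)) =
      (Cn * (M + 3) - 2) / ((Cn + M) * (M + 3)) := by
    field_simp
    ring
  have hCn1 : (1 : ℝ) ≤ Cn := by exact_mod_cast hCnpos
  have hq0 : 0 ≤ 1 - ((1 + M : ℝ) * (M + 2)) / ((Cn + M) * (M + 3)) := by
    rw [hq]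
    apply div_nonneg _ (by positivity)
    nlinarith
  have hq1 : 1 - ((1 + M : ℝ) * (M + 2)) / ((Cn + M) * (M + 3)) < η := by
    rw [hq, div_lt_iff₀ (by positivity)]
    have h3 : (Cn : ℝ) < M * η := by rwa [div_lt_iff₀ hη] at hM
    have h4 : (Cn : ℝ) * (M + 3) < M * η * (M + 3) := by
      apply mul_lt_mul_of_pos_right h3
      positivity
    have h5 : 0 ≤ η * Cn * (M + 3) := by positivity
    nlinarith
  rw [Real.dist_eq, hval]
  cases b
  · simp only [Bool.false_eq_true, if_false]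
    rw [show (-1 : ℝ) - -1 * (((1 + M) * (M + 2)) / ((Cn + M) * (M + 3))) =
      -(1 - ((1 + M : ℝ) * (M + 2)) / ((Cn + M) * (M + 3))) by ring, abs_neg, abs_of_nonneg hq0]
    exact hq1
  · simp only [if_true]
    rw [one_mul, abs_of_nonneg hq0]
    exact hq1

theorem heavy_one {ν : Measure ℕ} {p p' : ℝ} (h : Par 1 ν p p') (hν : ν {0} < 1)
    (hm : ∫⁻ k : ℕ, ENNReal.ofReal (Real.log (1 + k)) ∂ν = ⊤) {A' : Set (Fin 1 → ℝ)}
    (hA' : ShapeI gQ (mu 1 ν p p') A') : closure A' = {v | ∑ i, |v i| ≤ 1} := by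
  have h1 : ∀ᵐ w ∂(mu 1 ν p p'), ∀ M : ℕ, ∀ b : Bool, 1 ≤ M → ∃ᶠ x : ℕ in atTop,
      ∃ j < (w (site b x)).1, ∀ i < M * x,
        (((w (site b x)).2 j i).1 = (0, b) ∧ ((w (site b x)).2 j i).2.1 = 0) := by
    refine ae_all_iff.2 fun M => ae_all_iff.2 fun b => ?_
    by_cases hM : 1 ≤ M
    · exact (ballistic_io h hm M hM b).mono fun w hw _ => hw
    · exact ae_of_all _ fun w hc => absurd hc hM
  have h2 : ∀ᵐ w ∂(mu 1 ν p p'), ∀ k : ℕ, 1 ≤ (w 0).1 → ∀ᶠ n : ℕ in atTop,
      (1 - 1 / ((k : ℝ) + 2)) • A' ⊆ (1 / (n : ℝ)) • bar {y | Rch gQ w 0 n y} ∧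
        (1 / (n : ℝ)) • bar {y | Rch gQ w 0 n y} ⊆ (1 + 1 / ((k : ℝ) + 2)) • A' := by
    refine ae_all_iff.2 fun k => hA'.2.2 (1 / ((k : ℝ) + 2)) ⟨by positivity, ?_⟩
    have hk : (0 : ℝ) ≤ k := Nat.cast_nonneg _
    rw [div_lt_one (by positivity)]
    linarith
  have h3 : ∃ w : Om 1, 1 ≤ (w 0).1 ∧ (∀ M : ℕ, ∀ b : Bool, 1 ≤ M → ∃ᶠ x : ℕ in atTop,
      ∃ j < (w (site b x)).1, ∀ i < M * x,
        (((w (site b x)).2 j i).1 = (0, b) ∧ ((w (site b x)).2 j i).2.1 = 0)) ∧
      ∀ k : ℕ, 1 ≤ (w 0).1 → ∀ᶠ n : ℕ in atTop,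
      (1 - 1 / ((k : ℝ) + 2)) • A' ⊆ (1 / (n : ℝ)) • bar {y | Rch gQ w 0 n y} ∧
        (1 / (n : ℝ)) • bar {y | Rch gQ w 0 n y} ⊆ (1 + 1 / ((k : ℝ) + 2)) • A' := by
    by_contra hcon
    have h4 : ∀ᵐ w ∂(mu 1 ν p p'), ¬ (1 ≤ (w 0).1) := by
      filter_upwards [h1, h2] with w hw1 hw2 hc
      exact hcon ⟨w, hc, hw1, hw2⟩
    rw [ae_iff] at h4
    have h5 := occ_prob h hν
    have h6 : {w : Om 1 | ¬ ¬ (1 ≤ (w 0).1)} = {w | 1 ≤ (w 0).1} := by
      ext w
      simp only [Set.mem_setOf_eq, not_not]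
    rw [h6] at h4
    rw [h4] at h5
    exact lt_irrefl _ h5
  obtain ⟨w, hocc, hb, hs⟩ := h3
  have hint := ShapeI.zero_mem h hν hA'
  rw [mem_interior_iff_mem_nhds, Metric.mem_nhds_iff] at hint
  obtain ⟨δ, hδ, hball⟩ := hint
  have hpt := fun b => point hδ hball (fun M hM b => hb M b hM) (fun k => hs k hocc) b
  apply Set.Subset.antisymm
  · exact fun v hv => ShapeI.le_one h hν hA' v hv
  · intro v hv
    simp only [Set.mem_setOf_eq, Finset.univ_unique, Fin.default_eq_zero, Fin.isValue,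
      Finset.sum_singleton] at hv
    have hv1 := (abs_le.1 hv).1
    have hv2 := (abs_le.1 hv).2
    have hconv : Convex ℝ (closure A') := hA'.2.1.closure
    have h7 := hconv (hpt true) (hpt false) (a := (1 + v 0) / 2) (b := (1 - v 0) / 2)
      (by linarith) (by linarith) (by ring)
    have h8 : (((1 + v 0) / 2) • (fun _ : Fin 1 => if true then (1 : ℝ) else -1) +
        ((1 - v 0) / 2) • (fun _ : Fin 1 => if false then (1 : ℝ) else -1)) = v := by
      funext i
      have hi : i = 0 := Subsingleton.elim _ _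
      subst hi
      simp
      ring
    rw [← h8]
    simpa using h7

end Pool.Agent.Helper61.LF
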