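import Pool.Agent.Helper61.LF.ShapeInner

/-!
Module LF-12 (ShapeOuter). Outer bound for the fast process, and inclusion of the shapes.

Proof of `outer_contra`. Choose `ε ∈ (0,1)` with `(1 - θ) (1 + ε) < 1`. For almost every `w` with
`1 ≤ (w 0).1` there is `m0` with `(1/m) • bar {y | Rch gQ w 0 m y} ⊆ (1+ε) • A'` for `m ≥ m0`. Let
`m = ⌊(1-θ) n⌋₊ ≥ max m0 1` and `near x n ≠ 0` (true for large `n` since `lin f x = 1`, so some
`x i ≠ 0`). If `Rch gQ w 0 m (near x n)`, then `1 ≤ (w 0).1` by `Rch_occ`, and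
`n • x ∈ bar {y | Rch gQ w 0 m y}` (`near_spec`), so `(n/m) • x ∈ (1+ε) • A'` and, applying
`lin f`, `n/m ≤ 1+ε`, so `n ≤ (1+ε) m ≤ (1+ε)(1-θ) n < n`, a contradiction. So almost every `w` is
in `E n = {w | Rch gQ w 0 ⌊(1-θ) n⌋₊ (near x n)}` for finitely many `n` only, and `mu (E n) → 0`.
Proof of `shape_subset`. Let `0 < ε < 1`. There is `w` with `1 ≤ (w 0).1` (`occ_prob`) and `n ≥ 1`
with `(1-ε) • A ⊆ (1/n) • bar {y | Rch gP w 0 n y} ⊆ (1/n) • bar {y | Rch gQ w 0 n y} ⊆ (1+ε) • A'`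
(`Rch_gQ`). So `((1-ε)/(1+ε)) • v ∈ A'` for `v ∈ A`, and `v ∈ closure A'` by letting `ε → 0`.
-/

namespace Pool.Agent.Helper61.LF

open MeasureTheory Filter
open scoped Pointwise Topology

private theorem lin_smul {d : ℕ} (f v : Fin d → ℝ) (a : ℝ) : lin f (a • v) = a * lin f v := by
  unfold lin
  rw [Finset.mul_sum]
  refine Finset.sum_congr rfl fun i _ => ?_
  simp only [Pi.smul_apply, smul_eq_mul]
  ring

theorem outer_contra {d : ℕ} {ν : Measure ℕ} {p p' : ℝ} (h : Par d ν p p') (hν : ν {0} < 1)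
    {A' : Set (Fin d → ℝ)} (hA' : ShapeI gQ (mu d ν p p') A') {x f : Fin d → ℝ}
    (hfx : lin f x = 1) (hle : ∀ v ∈ closure A', lin f v ≤ 1) {θ c : ℝ} (hθ : 0 < θ) (hθ' : θ < 1)
    (hc : 0 < c) :
    ¬ ∀ᶠ n : ℕ in atTop, ENNReal.ofReal c ≤
      mu d ν p p' {w | Rch gQ w 0 ⌊(1 - θ) * n⌋₊ (near x n)} := by
  have _ := hν
  have : IsProbabilityMeasure (mu d ν p p') := h.isProb_mu
  intro hcon
  have hmeas : ∀ n : ℕ, MeasurableSet {w : Om d | Rch gQ w 0 ⌊(1 - θ) * n⌋₊ (near x n)} :=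
    fun n => measurableSet_Rch gQ 0 _ _
  have hε0 : 0 < θ / 2 := by linarith
  have hε1 : θ / 2 < 1 := by linarith
  have hprod : (1 + θ / 2) * (1 - θ) < 1 := by nlinarith
  have key : ∀ᵐ w ∂(mu d ν p p'), ∀ᶠ n : ℕ in atTop,
      (w ∈ {w : Om d | Rch gQ w 0 ⌊(1 - θ) * n⌋₊ (near x n)} ↔ w ∈ (∅ : Set (Om d))) := by
    filter_upwards [hA'.2.2 (θ / 2) ⟨hε0, hε1⟩] with w hw
    by_cases hocc1 : 1 ≤ (w 0).1
    · obtain ⟨m0, hm0⟩ := eventually_atTop.1 (hw hocc1)
      have hbig : ∀ᶠ n : ℕ in atTop, ((m0 : ℝ) + 1) / (1 - θ) ≤ n :=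
        tendsto_natCast_atTop_atTop.eventually_ge_atTop _
      filter_upwards [hbig] with n hn
      have h1θ : 0 < 1 - θ := by linarith
      have hn1 : (m0 : ℝ) + 1 ≤ (1 - θ) * n := by
        rw [div_le_iff₀ h1θ] at hn
        linarith
      simp only [Set.mem_empty_iff_false, iff_false]
      intro hR
      set m : ℕ := ⌊(1 - θ) * n⌋₊ with hm
      have hmle : (m : ℝ) ≤ (1 - θ) * n := Nat.floor_le (by
        have : (0 : ℝ) ≤ m0 := Nat.cast_nonneg _
        linarith)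
      have hmge : m0 + 1 ≤ m := by
        rw [hm]
        apply Nat.le_floor
        push_cast
        exact hn1
      have hmpos : (0 : ℝ) < m := by
        have : 0 < m := by omega
        exact_mod_cast this
      have hnpos : (0 : ℝ) < n := by
        by_contra hcc
        push Not at hcc
        have : (1 - θ) * (n : ℝ) ≤ 0 := mul_nonpos_of_nonneg_of_nonpos h1θ.le hcc
        linarith
      have hmem : (n : ℝ) • x ∈ bar {y | Rch gQ w 0 m y} :=
        ⟨near x n, hR, fun i => by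
          have := (near_spec x n (near x n)).2 rfl i
          simpa [Pi.smul_apply, smul_eq_mul] using this⟩
      obtain ⟨v, hv, hvx⟩ := (hm0 m (by omega)).2 (Set.smul_mem_smul_set hmem)
      have h1 : (1 + θ / 2) * lin f v = 1 / (m : ℝ) * (n * 1) := by
        rw [← lin_smul]
        have h2 : (1 + θ / 2) • v = (1 / (m : ℝ)) • (n : ℝ) • x := hvx
        rw [h2, lin_smul, lin_smul, hfx]
      have h2 : lin f v ≤ 1 := hle v (subset_closure hv)
      have h3 : 1 / (m : ℝ) * (n * 1) ≤ 1 + θ / 2 := by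
        rw [← h1]
        nlinarith
      have h4 : (n : ℝ) ≤ (1 + θ / 2) * m := by
        rw [mul_one, one_div, inv_mul_le_iff₀ hmpos] at h3
        linarith
      have h5 : (1 + θ / 2) * (m : ℝ) ≤ (1 + θ / 2) * ((1 - θ) * n) :=
        mul_le_mul_of_nonneg_left hmle (by linarith)
      have h6 : (1 + θ / 2) * ((1 - θ) * n) < n := by
        have : (1 + θ / 2) * (1 - θ) * (n : ℝ) < 1 * n := mul_lt_mul_of_pos_right hprod hnpos
        linarith
      linarith
    · have hbig : ∀ᶠ n : ℕ in atTop, (∑ i, |f i|) + 1 ≤ (n : ℝ) :=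
        tendsto_natCast_atTop_atTop.eventually_ge_atTop _
      filter_upwards [hbig] with n hn
      simp only [Set.mem_empty_iff_false, iff_false]
      intro hR
      have h0 : near x n = 0 := by
        by_contra hne
        exact hocc1 (Rch_occ hR hne)
      have h1 : ∀ i, |(n : ℝ) * x i| ≤ 1 := by
        intro i
        have h2 := (near_spec x n (near x n)).2 rfl i
        rw [h0] at h2
        simp only [Pi.zero_apply, Int.cast_zero] at h2
        rw [abs_le]
        constructor <;> linarith [h2.1, h2.2]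
      have h2 : (n : ℝ) = ∑ i, f i * ((n : ℝ) * x i) := by
        calc (n : ℝ) = n * lin f x := by rw [hfx, mul_one]
          _ = ∑ i, f i * ((n : ℝ) * x i) := by
              unfold lin
              rw [Finset.mul_sum]
              exact Finset.sum_congr rfl fun i _ => by ring
      have h3 : ∑ i, f i * ((n : ℝ) * x i) ≤ ∑ i, |f i| := by
        refine Finset.sum_le_sum fun i _ => ?_
        calc f i * ((n : ℝ) * x i) ≤ |f i * ((n : ℝ) * x i)| := le_abs_self _
          _ = |f i| * |(n : ℝ) * x i| := abs_mul _ _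
          _ ≤ |f i| * 1 := mul_le_mul_of_nonneg_left (h1 i) (abs_nonneg _)
          _ = |f i| := mul_one _
      rw [← h2] at h3
      linarith
  have hlim := tendsto_measure_of_ae_tendsto_indicator_of_isFiniteMeasure (L := (atTop : Filter ℕ))
    (μ := mu d ν p p') (A := (∅ : Set (Om d))) MeasurableSet.empty hmeas key
  rw [measure_empty] at hlim
  have h1 : ENNReal.ofReal c ≤ 0 := ge_of_tendsto hlim hcon
  rw [nonpos_iff_eq_zero, ENNReal.ofReal_eq_zero] at h1
  linarith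

theorem shape_subset {d : ℕ} {ν : Measure ℕ} {p p' : ℝ} (h : Par d ν p p') (hν : ν {0} < 1)
    {A A' : Set (Fin d → ℝ)} (hA : ShapeI gP (mu d ν p p') A)
    (hA' : ShapeI gQ (mu d ν p p') A') : closure A ⊆ closure A' := by
  have key : ∀ ε ∈ Set.Ioo (0 : ℝ) 1, ∀ v ∈ A, ((1 - ε) / (1 + ε)) • v ∈ A' := by
    intro ε hε v hv
    obtain ⟨w, hw⟩ : ∃ w : Om d, ∀ᶠ n : ℕ in atTop,
        (1 - ε) • A ⊆ (1 / (n : ℝ)) • bar {y | Rch gP w 0 n y} ∧
        (1 / (n : ℝ)) • bar {y | Rch gQ w 0 n y} ⊆ (1 + ε) • A' := by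
      by_contra hcon
      have h1 : ∀ᵐ w ∂(mu d ν p p'), ¬ (1 ≤ (w 0).1) := by
        filter_upwards [hA.2.2 ε hε, hA'.2.2 ε hε] with w hw hw' h2
        refine hcon ⟨w, ?_⟩
        filter_upwards [hw h2, hw' h2] with n h3 h4
        exact ⟨h3.1, h4.2⟩
      rw [ae_iff] at h1
      have h2 := occ_prob h hν
      have h3 : {w : Om d | ¬ ¬ (1 ≤ (w 0).1)} = {w | 1 ≤ (w 0).1} := by
        ext w
        simp only [Set.mem_ofPred_eq, not_not]
      rw [h3] at h1
      rw [h1] at h2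
      exact lt_irrefl _ h2
    obtain ⟨n, hn⟩ := hw.exists
    have hsub : (1 / (n : ℝ)) • bar {y | Rch gP w 0 n y} ⊆
        (1 / (n : ℝ)) • bar {y | Rch gQ w 0 n y} := by
      apply Set.smul_set_mono
      rintro u ⟨y, hy, hyu⟩
      exact ⟨y, Rch_gQ hy, hyu⟩
    obtain ⟨v', hv', hvv⟩ := hn.2 (hsub (hn.1 (Set.smul_mem_smul_set hv)))
    have h1 : (0 : ℝ) < 1 + ε := by linarith [hε.1]
    have h2 : (1 + ε) • v' = (1 - ε) • v := hvv
    have h3 : ((1 - ε) / (1 + ε)) • v = v' := by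
      rw [div_eq_inv_mul, mul_smul, ← h2, smul_smul, inv_mul_cancel₀ h1.ne', one_smul]
    rw [h3]
    exact hv'
  refine closure_minimal (fun v hv => ?_) isClosed_closure
  have ht : Tendsto (fun n : ℕ => ((1 - 1 / ((n : ℝ) + 2)) / (1 + 1 / ((n : ℝ) + 2))) • v) atTop
      (𝓝 v) := by
    have h1 : Tendsto (fun n : ℕ => 1 / ((n : ℝ) + 2)) atTop (𝓝 0) := by
      have h2 : Tendsto (fun n : ℕ => (n : ℝ) + 2) atTop atTop :=
        tendsto_atTop_add_const_right _ _ tendsto_natCast_atTop_atTop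
      simp only [one_div]
      exact h2.inv_tendsto_atTop
    have h2 : Tendsto (fun n : ℕ => (1 - 1 / ((n : ℝ) + 2)) / (1 + 1 / ((n : ℝ) + 2))) atTop
        (𝓝 ((1 - 0) / (1 + 0))) :=
      (tendsto_const_nhds.sub h1).div (tendsto_const_nhds.add h1) (by norm_num)
    have h3 : ((1 : ℝ) - 0) / (1 + 0) = 1 := by norm_num
    rw [h3] at h2
    have h4 := h2.smul_const v
    rwa [one_smul] at h4
  refine mem_closure_of_tendsto ht (Eventually.of_forall fun n => ?_)
  refine key _ ⟨by positivity, ?_⟩ v hv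
  rw [div_lt_one (by positivity)]
  have : (0 : ℝ) ≤ n := Nat.cast_nonneg _
  linarith

end Pool.Agent.Helper61.LF
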