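import Pool.Agent.Helper61.LF.Bridge
import Pool.Agent.Helper61.LF.Geo
import Pool.Agent.Helper61.LF.ShapeOuter
import Pool.Agent.Helper61.LF.BadCells
import Pool.Agent.Helper61.LF.Ball
import Pool.Agent.Helper61.LF.GoodUse
import Pool.Agent.Helper61.LF.Acc
import Pool.Agent.Helper61.LF.Expect

/-!
Assembly of the theorem.
-/

namespace Pool.Agent.Helper61.LF

open MeasureTheory Filter

/-- Deterministic step: on the good event there are linearly many wasteful indices. -/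
theorem many_wasteful {d : ℕ} {C : Set (Fin d → ℝ)} (hconv : Convex ℝ C)
    (h0 : (0 : Fin d → ℝ) ∈ C) {b : ℝ} (hb : 0 < b)
    (hbox : ∀ v : Fin d → ℝ, (∀ i, |v i| ≤ b) → v ∈ C)
    {f x : Fin d → ℝ} {σ δ κ Φ ρ ε : ℝ} {H K : ℕ} (hσ : 0 < σ) (hσ' : σ ≤ 1 / 2) (hδ : 0 < δ)
    (hδ' : δ ≤ 1) (hκ : 0 < κ) (hΦ : 1 ≤ Φ) (hf : ∀ i, |f i| ≤ Φ) (hH : 4 * Φ ≤ H)
    (hK : 1 < κ * K) (hC : ∀ v ∈ C, lin f v ≤ 1) (hfx : lin f x = 1)
    (hmod : ∀ v ∈ C, 1 - σ ≤ lin f ((1 + δ) • v) → ∑ i, |((1 + δ) • v) i| ≤ 1 - κ)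
    (hρ1 : 1 ≤ ρ * K) (hρb : ρ ≤ δ / 4 * b) (hρ : ρ ≤ 1) (hε : 0 ≤ ε) (hε' : ε ≤ σ / 4)
    (w : Om d) (n : ℕ) (hF : Rch gP w 0 ⌊(1 + ε) * n⌋₊ (near x n))
    (hbad : ¬ σ / (8 * Φ * (H + 1 + d)) * n ≤
      K * ((badC C (δ / 4) ⌊ρ * K⌋₊ ⌊δ / 4 * K⌋₊ K ((H + 2) * K) w
        (sel (near x n) w)).card : ℝ))
    (hbal : ¬ σ / (8 * Φ) * n ≤ balSum (1 / (4 * Φ)) (H * K) w (sel (near x n) w))
    (hn : 4 * Φ * (K + d) ≤ σ * n) :
    σ / (4 * (σ + δ) * ((H + 1) * K)) * n ≤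
      ((wst ((H + 1) * K) w (sel (near x n) w)).card : ℝ) := by
  have hK0 : (0 : ℝ) < K := by
    by_contra hcon
    have : (K : ℝ) ≤ 0 := not_lt.mp hcon
    nlinarith
  have hKpos : 1 ≤ K := by
    have : (0 : ℝ) < (K : ℝ) := hK0
    exact_mod_cast this
  set l := sel (near x n) w with hl
  set y := near x n with hy
  obtain ⟨c, hc1, hc2, hc3⟩ := hF
  have hopt : Opt w 0 y l := sel_spec w y ⟨c, hc1, hc2⟩
  have hdur : dur gP w 0 l ≤ ⌊(1 + ε) * n⌋₊ := (hopt.2.2 c hc1 hc2).trans hc3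
  have hs1 : 1 ≤ ⌊ρ * (K : ℝ)⌋₊ := Nat.le_floor (by simpa using hρ1)
  have hρ0 : 0 < ρ := by
    by_contra hcon
    have : ρ ≤ 0 := not_lt.mp hcon
    nlinarith
  have hsK : ((⌊ρ * (K : ℝ)⌋₊ : ℕ) : ℝ) ≤ ρ * K := Nat.floor_le (by positivity)
  have hLK : ((⌊δ / 4 * (K : ℝ)⌋₊ : ℕ) : ℝ) ≤ δ / 4 * K := Nat.floor_le (by positivity)
  have hLK' : ⌊δ / 4 * (K : ℝ)⌋₊ ≤ K := by
    have : ((⌊δ / 4 * (K : ℝ)⌋₊ : ℕ) : ℝ) ≤ K := by nlinarith
    exact_mod_cast this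
  have hgood : ∀ i i', i < i' → i' ≤ l.length →
      Good C (δ / 4) ⌊ρ * (K : ℝ)⌋₊ ⌊δ / 4 * (K : ℝ)⌋₊ K ((H + 2) * K) w
        (cellOf ⌊ρ * (K : ℝ)⌋₊ (zs w l i)) →
      K ≤ ts w l i' - ts w l i → ts w l i' - ts w l i < (H + 1) * K →
        ∃ v ∈ C, toR (zs w l i' - zs w l i) =
          ((1 + δ) * ((ts w l i' - ts w l i : ℕ) : ℝ)) • v := by
    intro i i' hii hi' hG h1 h2
    have hR := Rch_sub w l hopt.1 hii.le hi'
    have := good_use hconv h0 hb hbox (δ := δ / 4) (by positivity) (by linarith) hs1 hLK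
      (by nlinarith [mul_le_mul_of_nonneg_right hρb hK0.le]) hG hR h1 (by nlinarith)
    obtain ⟨v, hv, hv'⟩ := this
    refine ⟨v, hv, ?_⟩
    rw [hv']
    congr 2
    ring
  have hacc := accounting (C := C) (f := f) (σ := σ) (δ := δ) (κ := κ) (Φ := Φ) (δg := δ / 4)
    (H := H) (K := K) (s := ⌊ρ * (K : ℝ)⌋₊) (L := ⌊δ / 4 * (K : ℝ)⌋₊) (Km := (H + 2) * K)
    hσ hσ' hδ hδ' hκ hΦ hf hH hK hs1 hC hmod w l hgood
  rw [zs_len, ts_len, hopt.2.1] at hacc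
  have hnear := near_lin f x Φ hf n
  rw [hfx, mul_one, ← hy] at hnear
  have hnear' : (n : ℝ) - Φ * d ≤ lin f (toR y) := by
    have := (abs_le.mp hnear).1
    linarith
  have hdur' : ((dur gP w 0 l : ℕ) : ℝ) ≤ (1 + ε) * n := by
    have h1 : ((dur gP w 0 l : ℕ) : ℝ) ≤ ((⌊(1 + ε) * n⌋₊ : ℕ) : ℝ) := by exact_mod_cast hdur
    exact h1.trans (Nat.floor_le (by positivity))
  push Not at hbad hbal
  set W : ℝ := ((wst ((H + 1) * K) w l).card : ℝ) with hW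
  set Bc : ℝ := ((badC C (δ / 4) ⌊ρ * (K : ℝ)⌋₊ ⌊δ / 4 * (K : ℝ)⌋₊ K ((H + 2) * K) w l).card : ℝ)
    with hBc
  have hBc0 : 0 ≤ Bc := by positivity
  have hW0 : 0 ≤ W := by positivity
  set Ls := balSum (1 / (4 * Φ)) (H * K) w l with hLs
  have hn0 : (0 : ℝ) ≤ n := by positivity
  -- bound of the bad cells term
  have hHd : (0 : ℝ) < (H : ℝ) + 1 + d := by positivity
  have hΦ0 : 0 < Φ := by linarith
  have hterm1 : Φ * (((H : ℝ) + 1) * K + d * ((⌊ρ * (K : ℝ)⌋₊ : ℕ) : ℝ)) * Bc ≤ σ / 8 * n := by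
    have h1 : ((⌊ρ * (K : ℝ)⌋₊ : ℕ) : ℝ) ≤ K := by nlinarith
    have h2 : Φ * (((H : ℝ) + 1) * K + d * ((⌊ρ * (K : ℝ)⌋₊ : ℕ) : ℝ)) * Bc ≤
        Φ * (((H : ℝ) + 1 + d) * K) * Bc := by
      have h3 : ((H : ℝ) + 1) * K + d * ((⌊ρ * (K : ℝ)⌋₊ : ℕ) : ℝ) ≤ ((H : ℝ) + 1 + d) * K := by
        have : (d : ℝ) * ((⌊ρ * (K : ℝ)⌋₊ : ℕ) : ℝ) ≤ d * K :=
          mul_le_mul_of_nonneg_left h1 (by positivity)
        linarith
      exact mul_le_mul_of_nonneg_right (mul_le_mul_of_nonneg_left h3 hΦ0.le) hBc0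
    refine h2.trans ?_
    have h4 : (K : ℝ) * Bc ≤ σ / (8 * Φ * (H + 1 + d)) * n := hbad.le
    calc Φ * (((H : ℝ) + 1 + d) * K) * Bc = Φ * ((H : ℝ) + 1 + d) * (K * Bc) := by ring
      _ ≤ Φ * ((H : ℝ) + 1 + d) * (σ / (8 * Φ * (H + 1 + d)) * n) :=
        mul_le_mul_of_nonneg_left h4 (by positivity)
      _ = σ / 8 * n := by field_simp
  have hterm2 : Φ * Ls ≤ σ / 8 * n := by
    calc Φ * Ls ≤ Φ * (σ / (8 * Φ) * n) := mul_le_mul_of_nonneg_left hbal.le hΦ0.le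
      _ = σ / 8 * n := by field_simp
  have hterm0 : (1 - σ) * ((dur gP w 0 l : ℕ) : ℝ) ≤ (1 - σ) * ((1 + σ / 4) * n) := by
    apply mul_le_mul_of_nonneg_left _ (by linarith)
    exact hdur'.trans (by nlinarith)
  have key : σ / 4 * n ≤ (σ + δ) * (((H : ℝ) + 1) * K) * W := by
    have hexp : (1 - σ) * ((1 + σ / 4) * n) ≤ n - 3 * σ / 4 * n := by
      have : 0 ≤ σ ^ 2 * (n : ℝ) := by positivity
      nlinarith
    have h6 : Φ * d + Φ * K ≤ σ / 4 * n := by nlinarith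
    linarith
  have hpos : 0 < (σ + δ) * (((H : ℝ) + 1) * K) := by positivity
  have : σ / (4 * (σ + δ) * (((H : ℝ) + 1) * K)) * n = (σ / 4 * n) / ((σ + δ) * (((H : ℝ) + 1) * K)) := by
    field_simp
  rw [this, div_le_iff₀ hpos]
  linarith

/-- A box inside a set with the origin in its interior. -/
theorem exists_box {d : ℕ} {C : Set (Fin d → ℝ)} (h0 : (0 : Fin d → ℝ) ∈ interior C) :
    ∃ b : ℝ, 0 < b ∧ ∀ v : Fin d → ℝ, (∀ i, |v i| ≤ b) → v ∈ C := by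
  obtain ⟨r, hr, hb⟩ := Metric.mem_nhds_iff.mp (mem_interior_iff_mem_nhds.mp h0)
  refine ⟨r / 2, by positivity, fun v hv => hb ?_⟩
  rw [Metric.mem_ball, dist_zero_right]
  refine lt_of_le_of_lt ((pi_norm_le_iff_of_nonneg (by positivity)).mpr fun i => ?_)
    (half_lt_self hr)
  simpa using hv i

/-- The long ballistic segments of chains have small total duration. -/
def BallLim {d : ℕ} (m : Measure (Om d)) : Prop :=
  ∀ κ : ℝ, 0 < κ → ∀ θ : ℝ, 0 < θ → ∃ R0 : ℕ, ∀ R : ℕ, R0 ≤ R →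
    Tendsto (fun n : ℕ => m {w | ∃ l, ok w 0 l ∧
      (∀ i i', i < i' → i' < l.length → zs w l i ≠ zs w l i') ∧ dur gP w 0 l ≤ 2 * n ∧
        θ * n ≤ balSum κ R w l}) atTop (nhds 0)

theorem main_internal {d : ℕ} {ν : Measure ℕ} {p p' : ℝ} (h : Par d ν p p') (hν : ν {0} < 1)
    (hball : BallLim (mu d ν p p')) {A A' : Set (Fin d → ℝ)} (hA : ShapeI gP (mu d ν p p') A)
    (hA' : ShapeI gQ (mu d ν p p') A')
    (hne : closure A' ≠ convexHull ℝ (closure A' ∩ {v | ∑ i, |v i| = 1})) :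
    closure A ≠ closure A' := by
  intro hEq
  have := h.isProb_mu
  have hconv : Convex ℝ (closure A) := hA.2.1.closure
  have hcomp : IsCompact (closure A) :=
    Metric.isCompact_of_isClosed_isBounded isClosed_closure (ShapeI.bounded h hν hA).closure
  have h0 : (0 : Fin d → ℝ) ∈ interior (closure A) :=
    interior_mono subset_closure (ShapeI.zero_mem h hν hA)
  have hD := ShapeI.le_one h hν hA
  have hneC : closure A ≠ convexHull ℝ (closure A ∩ {v | ∑ i, |v i| = 1}) := by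
    rw [hEq]; exact hne
  obtain ⟨f, x, hx, hfx, hle, σ, δ, κ, hσ, hσ', hδ, hδ', hκ, hmod⟩ :=
    geometry h.hd (closure A) hcomp hconv h0 hD hneC
  obtain ⟨b, hb, hbox⟩ := exists_box h0
  obtain ⟨Φ, hΦ, hf⟩ : ∃ Φ : ℝ, 1 ≤ Φ ∧ ∀ i, |f i| ≤ Φ := by
    refine ⟨1 + ∑ i, |f i|, ?_, fun i => ?_⟩
    · have : 0 ≤ ∑ i, |f i| := Finset.sum_nonneg fun i _ => abs_nonneg _
      linarith
    · have := Finset.single_le_sum (f := fun i => |f i|) (fun i _ => abs_nonneg _)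
        (Finset.mem_univ i)
      linarith
  have hΦ0 : 0 < Φ := by linarith
  set H : ℕ := ⌈4 * Φ⌉₊ with hHdef
  have hH : 4 * Φ ≤ H := Nat.le_ceil _
  have hδ4 : 0 < δ / 4 := by positivity
  obtain ⟨ρ0, hρ0, hbadlim⟩ := badcells_lim h hν hA (δ := δ / 4) hδ4 (by linarith)
    (hh := H + 2) (by omega)
  set ρ : ℝ := min ρ0 (min (δ / 4 * b) 1) with hρdef
  have hρpos : 0 < ρ := by
    simp only [hρdef, lt_min_iff]; exact ⟨hρ0, by positivity, one_pos⟩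
  have hρ1 : ρ ≤ 1 := (min_le_right _ _).trans (min_le_right _ _)
  have hρb : ρ ≤ δ / 4 * b := (min_le_right _ _).trans (min_le_left _ _)
  have hθ1 : 0 < σ / (8 * Φ * ((H : ℝ) + 1 + d)) := by positivity
  have hθ2 : 0 < σ / (8 * Φ) := by positivity
  obtain ⟨K0, hK0⟩ := hbadlim ρ hρpos (min_le_left _ _) _ hθ1
  obtain ⟨R0, hR0⟩ := hball (1 / (4 * Φ)) (by positivity) _ hθ2
  obtain ⟨K, hK1, hK2, hK3, hK4⟩ : ∃ K : ℕ, K0 ≤ K ∧ R0 ≤ K ∧ 1 < κ * K ∧ 1 ≤ ρ * K := by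
    obtain ⟨a, ha⟩ := exists_nat_gt (1 / κ)
    obtain ⟨a', ha'⟩ := exists_nat_gt (1 / ρ)
    refine ⟨K0 + R0 + a + a', by omega, by omega, ?_, ?_⟩
    · rw [div_lt_iff₀ hκ] at ha
      push_cast
      have : (0 : ℝ) ≤ K0 := by positivity
      have : (0 : ℝ) ≤ R0 := by positivity
      have : (0 : ℝ) ≤ a' := by positivity
      nlinarith
    · rw [div_lt_iff₀ hρpos] at ha'
      push_cast
      have : (0 : ℝ) ≤ K0 := by positivity
      have : (0 : ℝ) ≤ R0 := by positivity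
      have : (0 : ℝ) ≤ a := by positivity
      nlinarith
  have hKpos : (0 : ℝ) < K := by
    by_contra hcon
    have : (K : ℝ) ≤ 0 := not_lt.mp hcon
    nlinarith
  have hH1 : 1 ≤ H := by
    have : (1 : ℝ) ≤ H := by linarith
    exact_mod_cast this
  have hbad := hK0 K hK1
  have hbal := hR0 (H * K) (hK2.trans (Nat.le_mul_of_pos_left K hH1))
  -- the probability of an occupied origin
  have hocc := occ_prob h hν
  set g0 : ℝ := (mu d ν p p' {w | 1 ≤ (w 0).1}).toReal / 2 with hg0def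
  have hocc' : 0 < (mu d ν p p' {w | 1 ≤ (w 0).1}).toReal :=
    ENNReal.toReal_pos hocc.ne' (measure_ne_top _ _)
  have hg0 : 0 < g0 := by positivity
  set c1 : ℝ := σ / (4 * (σ + δ) * (((H : ℝ) + 1) * K)) with hc1def
  have hc1 : 0 < c1 := by positivity
  obtain ⟨c, hc, hexp⟩ := expect h ((H + 1) * K) hc1 hg0
  set ε : ℝ := min (σ / 4) (c / 2) with hεdef
  have hε0 : 0 < ε := by simp only [hεdef, lt_min_iff]; exact ⟨by positivity, by positivity⟩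
  have hε1 : ε ≤ σ / 4 := min_le_left _ _
  have hε2 : ε ≤ c / 2 := min_le_right _ _
  set θ : ℝ := min (c / 2) (1 / 2) with hθdef
  have hθ0 : 0 < θ := by simp only [hθdef, lt_min_iff]; exact ⟨by positivity, by norm_num⟩
  have hθ3 : θ < 1 := lt_of_le_of_lt (min_le_right _ _) (by norm_num)
  have hin := inner_lim h hν hA hx hε0
  refine outer_contra h hν hA' hfx (fun v hv => hle v (hEq ▸ hv)) hθ0 hθ3 hc ?_
  -- smallness of the three exceptional events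
  have hsum : Tendsto (fun n : ℕ => mu d ν p p' {w | 1 ≤ (w 0).1 ∧
        ¬ Rch gP w 0 ⌊(1 + ε) * n⌋₊ (near x n)} +
      (mu d ν p p' {w | ∃ l, ok w 0 l ∧ dur gP w 0 l ≤ 2 * n ∧
        σ / (8 * Φ * ((H : ℝ) + 1 + d)) * n ≤
          K * ((badC (closure A) (δ / 4) ⌊ρ * K⌋₊ ⌊δ / 4 * K⌋₊ K ((H + 2) * K) w l).card : ℝ)} +
      mu d ν p p' {w | ∃ l, ok w 0 l ∧
        (∀ i i', i < i' → i' < l.length → zs w l i ≠ zs w l i') ∧ dur gP w 0 l ≤ 2 * n ∧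
          σ / (8 * Φ) * n ≤ balSum (1 / (4 * Φ)) (H * K) w l})) atTop (nhds 0) := by
    have := hin.add (hbad.add hbal)
    simpa using this
  have hsmall := (hsum.eventually (gt_mem_nhds (show (0 : ENNReal) < ENNReal.ofReal g0 from
    ENNReal.ofReal_pos.mpr hg0)))
  have hlarge : ∀ᶠ n : ℕ in atTop, 4 * Φ * (K + d) ≤ σ * n := by
    have : Tendsto (fun n : ℕ => σ * (n : ℝ)) atTop atTop :=
      tendsto_natCast_atTop_atTop.const_mul_atTop hσ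
    exact this.eventually_ge_atTop _
  filter_upwards [hsmall, hlarge, eventually_ge_atTop 1] with n hn1 hn2 hn3
  have hn' : ⌊(1 + ε) * n⌋₊ ≤ 2 * n := by
    have h1 : ((⌊(1 + ε) * n⌋₊ : ℕ) : ℝ) ≤ (1 + ε) * n := Nat.floor_le (by positivity)
    have h2 : (1 + ε) * (n : ℝ) ≤ 2 * n := by
      apply mul_le_mul_of_nonneg_right _ (by positivity)
      linarith
    have h3 : ((⌊(1 + ε) * n⌋₊ : ℕ) : ℝ) ≤ ((2 * n : ℕ) : ℝ) := by push_cast; linarith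
    exact_mod_cast h3
  have hG : ENNReal.ofReal g0 ≤ mu d ν p p' {w | Rch gP w 0 ⌊(1 + ε) * n⌋₊ (near x n) ∧
      c1 * n ≤ ((wst ((H + 1) * K) w (sel (near x n) w)).card : ℝ)} := by
    have hcover : {w : Om d | 1 ≤ (w 0).1} ⊆
        {w | Rch gP w 0 ⌊(1 + ε) * n⌋₊ (near x n) ∧
          c1 * n ≤ ((wst ((H + 1) * K) w (sel (near x n) w)).card : ℝ)} ∪
        ({w | 1 ≤ (w 0).1 ∧ ¬ Rch gP w 0 ⌊(1 + ε) * n⌋₊ (near x n)} ∪
        ({w | ∃ l, ok w 0 l ∧ dur gP w 0 l ≤ 2 * n ∧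
          σ / (8 * Φ * ((H : ℝ) + 1 + d)) * n ≤
          K * ((badC (closure A) (δ / 4) ⌊ρ * K⌋₊ ⌊δ / 4 * K⌋₊ K ((H + 2) * K) w l).card : ℝ)} ∪
        {w | ∃ l, ok w 0 l ∧
          (∀ i i', i < i' → i' < l.length → zs w l i ≠ zs w l i') ∧ dur gP w 0 l ≤ 2 * n ∧
          σ / (8 * Φ) * n ≤ balSum (1 / (4 * Φ)) (H * K) w l})) := by
      intro w hw
      simp only [Set.mem_union, Set.mem_ofPred_eq] at hw ⊢
      by_cases hR : Rch gP w 0 ⌊(1 + ε) * n⌋₊ (near x n)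
      swap
      · exact Or.inr (Or.inl ⟨hw, hR⟩)
      obtain ⟨c', hc'1, hc'2, hc'3⟩ := hR
      have hopt := sel_spec w (near x n) ⟨c', hc'1, hc'2⟩
      have hdur : dur gP w 0 (sel (near x n) w) ≤ 2 * n :=
        ((hopt.2.2 c' hc'1 hc'2).trans hc'3).trans hn'
      by_cases hB1 : σ / (8 * Φ * ((H : ℝ) + 1 + d)) * n ≤
          K * ((badC (closure A) (δ / 4) ⌊ρ * K⌋₊ ⌊δ / 4 * K⌋₊ K ((H + 2) * K) w
            (sel (near x n) w)).card : ℝ)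
      · exact Or.inr (Or.inr (Or.inl ⟨_, hopt.1, hdur, hB1⟩))
      by_cases hB2 : σ / (8 * Φ) * n ≤ balSum (1 / (4 * Φ)) (H * K) w (sel (near x n) w)
      · exact Or.inr (Or.inr (Or.inr ⟨_, hopt.1,
          fun i i' hi hi' => opt_inj w _ _ hopt hi hi'.le, hdur, hB2⟩))
      exact Or.inl ⟨⟨c', hc'1, hc'2, hc'3⟩,
        many_wasteful hconv (interior_subset h0) hb hbox hσ hσ' hδ hδ' hκ hΦ hf hH hK3 hle hfx
          hmod hK4 hρb hρ1 hε0.le hε1 w n ⟨c', hc'1, hc'2, hc'3⟩ hB1 hB2 hn2⟩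
    have hmeas := (measure_mono (μ := mu d ν p p') hcover).trans
      ((measure_union_le _ _).trans (add_le_add le_rfl
        ((measure_union_le _ _).trans (add_le_add le_rfl (measure_union_le _ _)))))
    have h2 : mu d ν p p' {w | 1 ≤ (w 0).1} = ENNReal.ofReal g0 + ENNReal.ofReal g0 := by
      rw [← ENNReal.ofReal_add hg0.le hg0.le, hg0def, add_halves,
        ENNReal.ofReal_toReal (measure_ne_top _ _)]
    rw [h2] at hmeas
    by_contra hcon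
    push Not at hcon
    have := ENNReal.add_lt_add hcon hn1
    exact absurd hmeas (not_le.mpr this)
  refine (hexp (near x n) n _ hn3 hn' hG).trans (measure_mono fun w hw => ?_)
  refine Rch_mono ?_ hw
  apply Nat.le_floor
  have h1 : ((⌊(1 + ε) * n⌋₊ : ℕ) : ℝ) ≤ (1 + ε) * n := Nat.floor_le (by positivity)
  have h2 : c * n ≤ ((⌈c * n⌉₊ : ℕ) : ℝ) := Nat.le_ceil _
  have hnn : (0 : ℝ) ≤ n := by positivity
  have h4 : (1 + ε - c) * (n : ℝ) ≤ (1 - θ) * n := by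
    apply mul_le_mul_of_nonneg_right _ hnn
    have : θ ≤ c / 2 := min_le_left _ _
    linarith
  have h5 : 0 ≤ (1 - θ) * (n : ℝ) := mul_nonneg (by linarith) hnn
  rcases le_total ⌈c * n⌉₊ ⌊(1 + ε) * n⌋₊ with h3 | h3
  · rw [Nat.cast_sub h3]
    nlinarith
  · rw [Nat.sub_eq_zero_of_le h3]
    simpa using h5

/-- The theorem for the model of the problem. -/
theorem main_result {d : ℕ} (hd : 1 ≤ d) (ν : Measure ℕ) [IsProbabilityMeasure ν]
    (hν : ν {0} < 1) {δ : ℝ} (hδ : (d : ℝ) < δ)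
    (hm : ∫⁻ k : ℕ, ENNReal.ofReal (Real.log (1 + k) ^ δ) ∂ν < ⊤) {p p' : ℝ} (hp : 0 < p)
    (hpp : p < p') (hp' : p' ≤ 1) {A A' : Set (Fin d → ℝ)} (hA : IsShape ν p A)
    (hA' : IsShape ν p' A')
    (hne : closure A' ≠ convexHull ℝ (closure A' ∩ {v | ∑ i, |v i| = 1})) :
    closure A ⊂ closure A' := by
  have h : Par d ν p p' := ⟨hd, inferInstance, hp, hpp, hp'⟩
  have h1 := shapeI_P h hA
  have h2 := shapeI_Q h hA'
  refine (shape_subset h hν h1 h2).ssubset_of_ne (main_internal h hν ?_ h1 h2 hne)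
  exact fun κ hκ θ hθ => ball_lim h hδ hm hκ hθ

end Pool.Agent.Helper61.LF
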