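import Pool.Agent.Helper61.LF.Main
import Pool.Agent.Helper61.LF.BallM

/-!
The theorem under the integral condition.
-/

namespace Pool.Agent.Helper61.LF

open MeasureTheory Filter

theorem main_integral {d : ℕ} (hd : 1 ≤ d) (ν : Measure ℕ) [IsProbabilityMeasure ν]
    (hν : ν {0} < 1)
    (hm : ∫⁻ r in Set.Ioi (0 : ℝ), (ν {k : ℕ | r ≤ Real.log (1 + k)}) ^ (1 / (d : ℝ)) < ⊤)
    {p p' : ℝ} (hp : 0 < p) (hpp : p < p') (hp' : p' ≤ 1) {A A' : Set (Fin d → ℝ)}
    (hA : IsShape ν p A) (hA' : IsShape ν p' A')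
    (hne : closure A' ≠ convexHull ℝ (closure A' ∩ {v | ∑ i, |v i| = 1})) :
    closure A ⊂ closure A' := by
  have h : Par d ν p p' := ⟨hd, inferInstance, hp, hpp, hp'⟩
  have h1 := shapeI_P h hA
  have h2 := shapeI_Q h hA'
  refine (shape_subset h hν h1 h2).ssubset_of_ne (main_internal h hν ?_ h1 h2 hne)
  exact fun κ hκ θ hθ => ball_lim_m h hm hκ hθ

end Pool.Agent.Helper61.LF
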