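import Pool.Agent.Helper61.LF.Main
import Pool.Agent.Helper61.LF.CFree

/-!
The statement for laws of small mean.
-/

namespace Pool.Agent.Helper61.LF

open MeasureTheory Filter

/-- A finite mean gives a finite logarithmic moment of every order. -/
theorem log_moment {ν : Measure ℕ} [IsProbabilityMeasure ν]
    (hmean : ∫⁻ n : ℕ, (n : ENNReal) ∂ν < ⊤) {δ : ℝ} (hδ : 0 < δ) :
    ∫⁻ k : ℕ, ENNReal.ofReal (Real.log (1 + k) ^ δ) ∂ν < ⊤ := by
  have hle : ∀ k : ℕ, ENNReal.ofReal (Real.log (1 + k) ^ δ) ≤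
      ENNReal.ofReal (δ ^ δ) * (1 + (k : ENNReal)) := by
    intro k
    have h1 : Real.log (1 + k) ≤ (1 + (k : ℝ)) ^ (1 / δ) / (1 / δ) :=
      Real.log_le_rpow_div (by positivity) (by positivity)
    have h0 : 0 ≤ Real.log (1 + (k : ℝ)) := Real.log_nonneg (by linarith [Nat.cast_nonneg (α := ℝ) k])
    have h2 : Real.log (1 + k) ^ δ ≤ δ ^ δ * (1 + (k : ℝ)) := by
      calc Real.log (1 + k) ^ δ ≤ ((1 + (k : ℝ)) ^ (1 / δ) / (1 / δ)) ^ δ :=
            Real.rpow_le_rpow h0 h1 hδ.le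
        _ = δ ^ δ * (1 + (k : ℝ)) := by
          rw [Real.div_rpow (by positivity) (by positivity), ← Real.rpow_mul (by positivity),
            one_div_mul_cancel hδ.ne', Real.rpow_one, one_div, Real.inv_rpow hδ.le, div_inv_eq_mul,
            mul_comm]
    calc ENNReal.ofReal (Real.log (1 + k) ^ δ) ≤ ENNReal.ofReal (δ ^ δ * (1 + (k : ℝ))) :=
          ENNReal.ofReal_le_ofReal h2
      _ = ENNReal.ofReal (δ ^ δ) * (1 + (k : ENNReal)) := by
        rw [ENNReal.ofReal_mul (by positivity), ENNReal.ofReal_add zero_le_one (by positivity),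
          ENNReal.ofReal_one, ENNReal.ofReal_natCast]
  refine (lintegral_mono hle).trans_lt ?_
  rw [lintegral_const_mul _ (measurable_of_countable _), lintegral_add_left measurable_const,
    lintegral_const, measure_univ, one_mul]
  exact ENNReal.mul_lt_top ENNReal.ofReal_lt_top (ENNReal.add_lt_top.mpr ⟨ENNReal.one_lt_top, hmean⟩)

theorem main_mean {d : ℕ} (hd : 1 ≤ d) (ν : Measure ℕ) [IsProbabilityMeasure ν]
    (hν : ν {0} < 1) {p p' : ℝ} (hp : 0 < p) (hpp : p < p') (hp' : p' ≤ 1)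
    (hmean : ∫⁻ n : ℕ, (n : ENNReal) ∂ν < ENNReal.ofReal ((2 - p') / p'))
    {A A' : Set (Fin d → ℝ)} (hA : IsShape ν p A) (hA' : IsShape ν p' A') :
    closure A ⊂ closure A' := by
  have h : Par d ν p p' := ⟨hd, inferInstance, hp, hpp, hp'⟩
  have h2 := shapeI_Q h hA'
  have hnc := no_contact h hν hmean h2
  refine main_result hd ν hν (δ := d + 1) (by linarith)
    (log_moment (hmean.trans ENNReal.ofReal_lt_top) (by positivity)) hp hpp hp' hA hA' ?_
  intro hcon
  have hemp : closure A' ∩ {v | ∑ i, |v i| = 1} = ∅ := by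
    rw [Set.eq_empty_iff_forall_notMem]
    rintro v ⟨hv, hv'⟩
    exact (hnc v hv).ne hv'
  rw [hemp, convexHull_empty] at hcon
  have h0 := interior_subset (interior_mono subset_closure (ShapeI.zero_mem h hν h2))
  rw [hcon] at h0
  exact h0

end Pool.Agent.Helper61.LF
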