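import Pool.Agent.Helper61.LF.Main
import Pool.Agent.Helper61.LF.BallOne
import Pool.Agent.Helper61.LF.HeavyOne

/-!
The complete statement in dimension one.
-/

namespace Pool.Agent.Helper61.LF

open MeasureTheory Filter

/-- In dimension one a convex set in `[-1,1]` with the origin in its interior that is the convex
hull of its intersection with `{-1,1}` is `[-1,1]`. -/
theorem hull_one {C : Set (Fin 1 → ℝ)} (h0 : (0 : Fin 1 → ℝ) ∈ interior C)
    (hD : ∀ v ∈ C, ∑ i, |v i| ≤ 1)
    (hull : C = convexHull ℝ (C ∩ {v | ∑ i, |v i| = 1})) : C = {v | ∑ i, |v i| ≤ 1} := by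
  have h0C : (0 : Fin 1 → ℝ) ∈ C := interior_subset h0
  have key : ∀ s : ℝ, s = 1 ∨ s = -1 → (fun _ => s : Fin 1 → ℝ) ∈ C := by
    intro s hs
    by_contra hcon
    have hsub : C ∩ {v | ∑ i, |v i| = 1} ⊆ {(fun _ => -s : Fin 1 → ℝ)} := by
      rintro v ⟨hv, hv'⟩
      simp only [Set.mem_ofPred_eq, Finset.univ_unique, Fin.default_eq_zero, Fin.isValue,
        Finset.sum_singleton] at hv'
      rw [Set.mem_singleton_iff]
      funext i
      have hi : i = 0 := Subsingleton.elim _ _
      subst hi
      by_contra hne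
      apply hcon
      have hvs : v = fun _ => s := by
        funext i
        have hi : i = 0 := Subsingleton.elim _ _
        subst hi
        rcases (abs_eq (by norm_num : (0:ℝ) ≤ 1)).mp hv' with h1 | h1
        · rcases hs with hs | hs
          · rw [h1, hs]
          · exact absurd (by rw [h1, hs]; norm_num) hne
        · rcases hs with hs | hs
          · exact absurd (by rw [h1, hs]) hne
          · rw [h1, hs]
      rw [← hvs]
      exact hv
    have h1 : (0 : Fin 1 → ℝ) ∈ convexHull ℝ ({(fun _ => -s)} : Set (Fin 1 → ℝ)) := by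
      rw [hull] at h0C
      exact convexHull_mono hsub h0C
    rw [convexHull_singleton, Set.mem_singleton_iff] at h1
    have h2 := congrFun h1 0
    simp only [Pi.zero_apply, zero_eq_neg] at h2
    rcases hs with hs | hs <;> rw [hs] at h2 <;> norm_num at h2
  have hconv : Convex ℝ C := by
    rw [hull]
    exact convex_convexHull ℝ _
  refine Set.Subset.antisymm (fun v hv => hD v hv) fun v hv => ?_
  simp only [Set.mem_ofPred_eq, Finset.univ_unique, Fin.default_eq_zero, Fin.isValue,
    Finset.sum_singleton] at hv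
  have hv1 := abs_le.mp hv
  have := hconv (key 1 (Or.inl rfl)) (key (-1) (Or.inr rfl)) (a := (1 + v 0) / 2)
    (b := (1 - v 0) / 2) (by linarith) (by linarith) (by ring)
  convert this using 1
  funext i
  have hi : i = 0 := Subsingleton.elim _ _
  subst hi
  simp only [Pi.add_apply, Pi.smul_apply, smul_eq_mul]
  ring

theorem main_one (ν : Measure ℕ) [IsProbabilityMeasure ν] (hν : ν {0} < 1) {p p' : ℝ}
    (hp : 0 < p) (hpp : p < p') (hp' : p' ≤ 1) {A A' : Set (Fin 1 → ℝ)} (hA : IsShape ν p A)
    (hA' : IsShape ν p' A') (hne : closure A' ≠ {v | ∑ i, |v i| ≤ 1}) :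
    closure A ⊂ closure A' := by
  have h : Par 1 ν p p' := ⟨le_rfl, inferInstance, hp, hpp, hp'⟩
  have h1 := shapeI_P h hA
  have h2 := shapeI_Q h hA'
  have hm : ∫⁻ k : ℕ, ENNReal.ofReal (Real.log (1 + k)) ∂ν < ⊤ := by
    by_contra hcon
    exact hne (heavy_one h hν (not_lt_top_iff.mp hcon) h2)
  refine (shape_subset h hν h1 h2).ssubset_of_ne (main_internal h hν ?_ h1 h2 ?_)
  · exact fun κ hκ θ hθ => ball_lim_one h hm hκ hθ
  · exact fun hull => hne (hull_one
      (interior_mono subset_closure (ShapeI.zero_mem h hν h2)) (ShapeI.le_one h hν h2) hull)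

end Pool.Agent.Helper61.LF
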