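import Mathlib

/-!
The frog model with lazy walks, as in the problem file.
-/

namespace Pool.Agent.Helper61.LF

open MeasureTheory Filter
open scoped Pointwise

/-- The sites of the lattice. -/
abbrev Site (d : ℕ) := Fin d → ℤ

/-- The law of one step of the lazy walk: with probability `1 - p` the particle stays where it is,
and with probability `p` it jumps to a uniformly chosen one of the `2d` nearest neighbours. -/
noncomputable def stepLaw (d : ℕ) (p : ℝ) : Measure (Site d) :=
  ENNReal.ofReal (1 - p) • Measure.dirac 0 +
    ∑ i : Fin d, ENNReal.ofReal (p / (2 * d)) •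
      (Measure.dirac (Pi.single i 1 : Site d) + Measure.dirac (Pi.single i (-1) : Site d))

/-- A configuration: every site has a number of particles and, for every particle, the sequence
of the steps that it makes after it has been woken. -/
abbrev Conf (d : ℕ) := Site d → ℕ × (ℕ → ℕ → Site d)

/-- The law of the configuration: the numbers of particles have law `ν`, the steps have the law
`stepLaw d p`, and everything is independent. -/
noncomputable def law (d : ℕ) (ν : Measure ℕ) (p : ℝ) : Measure (Conf d) :=
  Measure.infinitePi fun _ : Site d =>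
    ν.prod (Measure.infinitePi fun _ : ℕ => Measure.infinitePi fun _ : ℕ => stepLaw d p)

/-- Position of particle `j` of the site `x` at `t` time steps after it has been woken. -/
def pos {d : ℕ} (w : Conf d) (x : Site d) (j t : ℕ) : Site d :=
  x + ∑ i ∈ Finset.range t, (w x).2 j i

/-- `Disc w n y`: the site `y` has been discovered by time `n`. The origin is discovered at
time `0`; if `x` is discovered by time `m`, then its particles are active from time `m` on at the
latest, and the site where such a particle is `t` time steps after its activation is discovered by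
time `m + t`. -/
inductive Disc {d : ℕ} (w : Conf d) : ℕ → Site d → Prop
  | zero (n : ℕ) : Disc w n 0
  | step {m : ℕ} {x : Site d} (j t : ℕ) : Disc w m x → j < (w x).1 → Disc w (m + t) (pos w x j t)

/-- The union of the half open unit cubes around the sites of a set. -/
def bar {d : ℕ} (S : Set (Site d)) : Set (Fin d → ℝ) :=
  {v | ∃ x ∈ S, ∀ i, (x i : ℝ) - 1 / 2 < v i ∧ v i ≤ x i + 1 / 2}

/-- The defining property of the shape: a non-empty convex set `A` such that for every
`ε` in `(0,1)`, almost surely given that the origin has a particle,
`(1 - ε) A ⊆ (1/n) bar(ξ_n) ⊆ (1 + ε) A` for all large `n`. -/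
def IsShape {d : ℕ} (ν : Measure ℕ) (p : ℝ) (A : Set (Fin d → ℝ)) : Prop :=
  A.Nonempty ∧ Convex ℝ A ∧ ∀ ε ∈ Set.Ioo (0 : ℝ) 1, ∀ᵐ w ∂(law d ν p), 1 ≤ (w 0).1 →
    ∀ᶠ n : ℕ in atTop, (1 - ε) • A ⊆ (1 / (n : ℝ)) • bar {y | Disc w n y} ∧
      (1 / (n : ℝ)) • bar {y | Disc w n y} ⊆ (1 + ε) • A

end Pool.Agent.Helper61.LF
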