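import Pool.Agent.Helper61.LF.Upd

/-!
Module LF-26 (ResDet). Effect of a straight path of a used frog.

* `upd_chain`: induction on `c`. If `(a, j0) ≠ (x, j)` then `(upd w x j s a).2 j0 = (w a).2 j0`, and
  `(upd w x j s a).1 = (w a).1` always.
* `resample_det`: let `x = zs w l i`, `j = (l[i]).1`, `w' = upd w x j s`, `m = nrm v`. By `opt_inj`
  all `zs w l a`, `a ≤ l.length`, are distinct; in particular `v ≠ 0`, `m ≥ 1`. The chain
  `c1 = l.take i ++ [(j, m - 1)] ++ l.drop i'` is valid in `w'`, goes from `0` to `y` and has duration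
  `ts i + (m + 1) + (ts l.length - ts i') ≤ dur gP w 0 l - 1`: the first piece uses only sites
  `zs a`, `a < i`, which are not `x` (`mem_uses_iff` for `l.take i`), so `upd_chain` applies; then
  frog `j` of `x` with `m` jumps leads to `x + v = zs i'` in time `m + 1` (`straight_tau`); the last
  piece starts at `zs i'` and uses only the sites `zs a`, `a ≥ i'`, again not `x`.
  Let `c` be optimal for `w'`. Its duration is at most that of `c1`, so it is `< dur gP w 0 l`. If
  `(x, j) ∉ uses w' 0 c` then by `upd_chain` `c` is valid for `w`, leads to `y`, and has the same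
  duration for `w`, contradicting the optimality of `l`. Finally `(w' x).2 j = s` and `(s 0).2 = (0, 1)`.
-/

namespace Pool.Agent.Helper61.LF

private theorem upd_fst {d : ℕ} (w : Om d) (x : Site d) (j : ℕ) (s : Path d) (a : Site d) :
    (upd w x j s a).1 = (w a).1 := by
  unfold upd
  by_cases h : a = x
  · subst h; rw [Function.update_self]
  · rw [Function.update_of_ne h]

private theorem upd_snd {d : ℕ} (w : Om d) (x : Site d) (j : ℕ) (s : Path d) (a : Site d) (j0 : ℕ)
    (h : (x, j) ≠ (a, j0)) : (upd w x j s a).2 j0 = (w a).2 j0 := by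
  unfold upd
  by_cases h1 : a = x
  · subst h1
    rw [Function.update_self]
    have h2 : j0 ≠ j := fun e => h (by rw [e])
    show Function.update (w a).2 j s j0 = _
    rw [Function.update_of_ne h2]
  · rw [Function.update_of_ne h1]

private theorem upd_same {d : ℕ} (w : Om d) (x : Site d) (j : ℕ) (s : Path d) :
    (upd w x j s x).2 j = s := by
  unfold upd
  rw [Function.update_self]
  exact Function.update_self _ _ _

private theorem upd_back {d : ℕ} (w : Om d) (x : Site d) (j : ℕ) (s : Path d) :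
    upd (upd w x j s) x j ((w x).2 j) = w := by
  unfold upd
  rw [Function.update_self, Function.update_idem]
  simp only [Function.update_idem, Function.update_eq_self, Prod.mk.eta]

theorem upd_chain {d : ℕ} (g : Ent d → ℕ) (w : Om d) (x : Site d) (j : ℕ) (s : Path d)
    (a : Site d) (c : List (ℕ × ℕ)) (hc : (x, j) ∉ uses w a c) :
    (ok (upd w x j s) a c ↔ ok w a c) ∧ ep (upd w x j s) a c = ep w a c ∧
      dur g (upd w x j s) a c = dur g w a c ∧ uses (upd w x j s) a c = uses w a c := by
  induction c generalizing a with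
  | nil => exact ⟨Iff.rfl, rfl, rfl, rfl⟩
  | cons b c ih =>
    obtain ⟨j0, k⟩ := b
    have hc' : (x, j) ∉ (a, j0) :: uses w (a + J ((w a).2 j0) (k + 1)) c := hc
    rw [List.mem_cons, not_or] at hc'
    obtain ⟨i1, i2, i3, i4⟩ := ih _ hc'.2
    have e1 := upd_fst w x j s a
    have e2 := upd_snd w x j s a j0 hc'.1
    refine ⟨?_, ?_, ?_, ?_⟩
    · show (j0 < (upd w x j s a).1 ∧
        ok (upd w x j s) (a + J ((upd w x j s a).2 j0) (k + 1)) c) ↔
        (j0 < (w a).1 ∧ ok w (a + J ((w a).2 j0) (k + 1)) c)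
      rw [e1, e2, i1]
    · show ep (upd w x j s) (a + J ((upd w x j s a).2 j0) (k + 1)) c =
        ep w (a + J ((w a).2 j0) (k + 1)) c
      rw [e2, i2]
    · show tau g ((upd w x j s a).2 j0) (k + 1) +
          dur g (upd w x j s) (a + J ((upd w x j s a).2 j0) (k + 1)) c =
        tau g ((w a).2 j0) (k + 1) + dur g w (a + J ((w a).2 j0) (k + 1)) c
      rw [e2, i3]
    · show (a, j0) :: uses (upd w x j s) (a + J ((upd w x j s a).2 j0) (k + 1)) c =
        (a, j0) :: uses w (a + J ((w a).2 j0) (k + 1)) c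
      rw [e2, i4]

theorem upd_chain' {d : ℕ} (g : Ent d → ℕ) (w : Om d) (x : Site d) (j : ℕ) (s : Path d)
    (a : Site d) (c : List (ℕ × ℕ)) (hc : (x, j) ∉ uses (upd w x j s) a c) :
    (ok (upd w x j s) a c ↔ ok w a c) ∧ ep (upd w x j s) a c = ep w a c ∧
      dur g (upd w x j s) a c = dur g w a c ∧ uses (upd w x j s) a c = uses w a c := by
  have h := upd_chain g (upd w x j s) x j ((w x).2 j) a c hc
  rw [upd_back] at h
  exact ⟨h.1.symm, h.2.1.symm, h.2.2.1.symm, h.2.2.2.symm⟩

private theorem mem_uses_gen {d : ℕ} (w : Om d) (x : Site d) (j : ℕ) :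
    ∀ (q : List (ℕ × ℕ)) (z : Site d), (x, j) ∈ uses w z q →
      ∃ n, n < q.length ∧ ep w z (q.take n) = x := by
  intro q
  induction q with
  | nil =>
    intro z h
    simp [uses] at h
  | cons a c ih =>
    intro z h
    have h' : (x, j) ∈ (z, a.1) :: uses w (z + J ((w z).2 a.1) (a.2 + 1)) c := h
    rcases List.mem_cons.1 h' with h1 | h1
    · rw [Prod.mk.injEq] at h1
      exact ⟨0, Nat.succ_pos _, h1.1.symm⟩
    · obtain ⟨n, hn, h2⟩ := ih _ h1
      exact ⟨n + 1, Nat.succ_lt_succ hn, h2⟩

theorem resample_det {d : ℕ} (w : Om d) (y : Site d) (l : List (ℕ × ℕ)) (hl : Opt w 0 y l)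
    (i i' : ℕ) (hi : i < i') (hi' : i' ≤ l.length) (hil : i < l.length) (v : Site d)
    (hv : zs w l i' = zs w l i + v) (hn : nrm v + 2 ≤ ts w l i' - ts w l i) (s : Path d)
    (hs : Straight v s) :
    Rch gP (upd w (zs w l i) (l[i]).1 s) 0 (dur gP w 0 l - 1) y ∧
      evU y (zs w l i) (l[i]).1 (upd w (zs w l i) (l[i]).1 s) := by
  set x := zs w l i with hx
  set j := (l[i]).1 with hj
  set w' := upd w x j s with hw'
  have hv0 : v ≠ 0 := by
    rintro rfl
    exact opt_inj w y l hl hi hi' (by rw [hv, add_zero])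
  have hm : 1 ≤ nrm v := by
    rcases Nat.eq_zero_or_pos (nrm v) with h | h
    · exact absurd (nrm_eq_zero.1 h) hv0
    · exact h
  have hm1 : nrm v - 1 + 1 = nrm v := Nat.sub_add_cancel hm
  have e1 : l = l.take i' ++ l.drop i' := (List.take_append_drop _ _).symm
  have e0 : l = l.take i ++ l.drop i := (List.take_append_drop _ _).symm
  have hok := hl.1
  have hok1 : ok w 0 (l.take i) := by
    have := hok
    rw [e0, ok_append] at this
    exact this.1
  have hok2 : ok w (zs w l i') (l.drop i') := by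
    have := hok
    rw [e1, ok_append] at this
    exact this.2
  have hep2 : ep w (zs w l i') (l.drop i') = y := by
    have := hl.2.1
    rw [e1, ep_append] at this
    exact this
  have hdur2 : dur gP w 0 l = ts w l i' + dur gP w (zs w l i') (l.drop i') := by
    conv_lhs => rw [e1]
    rw [dur_append]
    rfl
  -- the first piece
  have hu1 : (x, j) ∉ uses w 0 (l.take i) := by
    intro h
    obtain ⟨n, hn1, hn2⟩ := mem_uses_gen w x j _ _ h
    rw [List.length_take] at hn1
    have hni : n < i := lt_of_lt_of_le hn1 (min_le_left _ _)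
    rw [List.take_take, min_eq_left hni.le] at hn2
    exact opt_inj w y l hl hni hil.le hn2
  have hu2 : (x, j) ∉ uses w (zs w l i') (l.drop i') := by
    intro h
    obtain ⟨n, hn1, hn2⟩ := mem_uses_gen w x j _ _ h
    rw [List.length_drop] at hn1
    have h3 : zs w l (i' + n) = x := by
      rw [← hn2]
      unfold zs
      rw [List.take_add, ep_append]
    exact opt_inj w y l hl (i := i) (i' := i' + n) (by omega) (by omega) h3.symm
  obtain ⟨a1, a2, a3, -⟩ := upd_chain gP w x j s 0 (l.take i) hu1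
  obtain ⟨b1, b2, b3, -⟩ := upd_chain gP w x j s (zs w l i') (l.drop i') hu2
  have a2' : ep w' 0 (l.take i) = x := a2
  have hsx : (w' x).2 j = s := upd_same w x j s
  have hend : x + J ((w' x).2 j) (nrm v - 1 + 1) = zs w l i' := by
    rw [hsx, hm1, hs.1, hv]
  have c_ok : ok w' 0 (l.take i ++ (j, nrm v - 1) :: l.drop i') := by
    rw [ok_append, a2']
    refine ⟨a1.2 hok1, ?_, ?_⟩
    · show j < (w' x).1
      rw [hw', upd_fst]
      exact ok_occ w l hok i hil
    · show ok w' (x + J ((w' x).2 j) (nrm v - 1 + 1)) (l.drop i')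
      rw [hend]
      exact b1.2 hok2
  have c_ep : ep w' 0 (l.take i ++ (j, nrm v - 1) :: l.drop i') = y := by
    rw [ep_append, a2']
    show ep w' (x + J ((w' x).2 j) (nrm v - 1 + 1)) (l.drop i') = y
    rw [hend, b2, hep2]
  have c_dur : dur gP w' 0 (l.take i ++ (j, nrm v - 1) :: l.drop i') ≤ dur gP w 0 l - 1 ∧
      1 ≤ dur gP w 0 l := by
    rw [dur_append, a2', a3]
    have h5 : dur gP w' x ((j, nrm v - 1) :: l.drop i') =
        tau gP ((w' x).2 j) (nrm v - 1 + 1) +
          dur gP w' (x + J ((w' x).2 j) (nrm v - 1 + 1)) (l.drop i') := rfl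
    rw [h5, hend, b3, hsx, hm1, straight_tau hv0 hs]
    have h6 : dur gP w 0 (l.take i) = ts w l i := rfl
    rw [h6, hdur2]
    omega
  refine ⟨⟨_, c_ok, c_ep, c_dur.1⟩, ?_, ?_⟩
  · intro c hc
    by_contra hcon
    obtain ⟨d1, d2, d3, -⟩ := upd_chain' gP w x j s 0 c hcon
    have h1 := hl.2.2 c (d1.1 hc.1) (by rw [← d2]; exact hc.2.1)
    have h2 := hc.2.2 _ c_ok c_ep
    have h3 := c_dur.1
    have h4 := c_dur.2
    rw [d3] at h2
    omega
  · rw [hsx, hs.2.1]

end Pool.Agent.Helper61.LF
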