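import Pool.Agent.Helper61.LF.ResDet

/-!
Module LF-27 (ResProb). The resampling inequality, and the gain of the fast process.

* `resample_prob`: by `upd_law`, the right side is the `(mu).prod pathLaw` measure of the set of `(w, s)`
  with `upd w x j s` in the set `{Rch … ∧ evU …}` (measurable: `measurableSet_Rch`,
  `measurableSet_evU`, `measurable_upd`). It contains the product of `{w | Rch gP w 0 n' y ∧
  evA y x j v w}` and `{s | Straight v s}`: there `sel y w` is optimal (`sel_spec`), of duration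
  `≤ n'`, and `resample_det` applies. Use `straight_prob` and the measure of a product set.
* `gain`: let `l = sel y w`, optimal, so `dur gP w 0 l ≤ n'`. By induction on a chain `c`,
  `dur gQ w a c + #{q ∈ uses w a c : 1 ≤ ((w q.1).2 q.2 0).2.2} ≤ dur gP w a c` (number of positions
  in the list; the additional holding time of the first entry of a used frog counts at least once).
  All elements of `S` occur in `uses w 0 l` (`evU` for `c = l`), so `S.card` is at most
  this number.
-/

namespace Pool.Agent.Helper61.LF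

open MeasureTheory

theorem resample_prob {d : ℕ} {ν : Measure ℕ} {p p' : ℝ} (h : Par d ν p p') (y : Site d)
    (n' : ℕ) (x : Site d) (j : ℕ) {v : Site d} (hv : v ≠ 0) :
    ENNReal.ofReal ((p / (2 * d)) ^ nrm v * (p' - p)) *
        mu d ν p p' {w | Rch gP w 0 n' y ∧ evA y x j v w} ≤
      mu d ν p p' {w | Rch gP w 0 n' y ∧ evU y x j w} := by
  have := h.isProb_mu
  have := h.isProb_pathLaw
  have hE : MeasurableSet {w : Om d | Rch gP w 0 n' y ∧ evU y x j w} :=
    (measurableSet_Rch gP 0 n' y).inter (measurableSet_evU y x j)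
  have h1 : mu d ν p p' {w | Rch gP w 0 n' y ∧ evU y x j w} =
      ((mu d ν p p').prod (pathLaw d p p'))
        ((fun q : Om d × Path d => upd q.1 x j q.2) ⁻¹' {w | Rch gP w 0 n' y ∧ evU y x j w}) := by
    rw [← Measure.map_apply (measurable_upd x j) hE, upd_law h x j]
  have h2 : {w : Om d | Rch gP w 0 n' y ∧ evA y x j v w} ×ˢ {s : Path d | Straight v s} ⊆
      ((fun q : Om d × Path d => upd q.1 x j q.2) ⁻¹' {w | Rch gP w 0 n' y ∧ evU y x j w}) := by
    rintro ⟨w, s⟩ ⟨⟨hR, i, i', hi, hi', hil, hx, hj, hv', hn⟩, hs⟩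
    obtain ⟨c, hc1, hc2, hc3⟩ := hR
    have hopt : Opt w 0 y (sel y w) := sel_spec w y ⟨c, hc1, hc2⟩
    have hd : dur gP w 0 (sel y w) ≤ n' := (hopt.2.2 c hc1 hc2).trans hc3
    have hres := resample_det w y (sel y w) hopt i i' hi hi' hil v (by rw [hv', hx]) hn s hs
    rw [hx, hj] at hres
    exact ⟨Rch_mono (by omega) hres.1, hres.2⟩
  rw [h1]
  refine le_trans ?_ (measure_mono h2)
  rw [Measure.prod_prod, mul_comm]
  exact mul_le_mul' le_rfl (straight_prob h hv)

private theorem tau_gain {d : ℕ} (s : Path d) (k : ℕ) (b : ℕ) (hb : b ≤ 1) (hb' : b ≤ (s 0).2.2) :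
    tau gQ s (k + 1) + b ≤ tau gP s (k + 1) := by
  unfold tau
  rw [Finset.sum_range_succ', Finset.sum_range_succ']
  have h1 : ∑ i ∈ Finset.range k, (gQ (s (i + 1)) + 1) ≤
      ∑ i ∈ Finset.range k, (gP (s (i + 1)) + 1) := by
    refine Finset.sum_le_sum fun i _ => ?_
    unfold gQ gP
    omega
  have h2 : gQ (s 0) + b ≤ gP (s 0) := by
    unfold gQ gP
    omega
  omega

private theorem dur_gain {d : ℕ} (w : Om d) (a : Site d) (c : List (ℕ × ℕ)) :
    dur gQ w a c + ((uses w a c).filter
      (fun q => decide (1 ≤ ((w q.1).2 q.2 0).2.2))).length ≤ dur gP w a c := by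
  induction c generalizing a with
  | nil => exact le_refl _
  | cons b c ih =>
    obtain ⟨j, k⟩ := b
    have h1 := ih (a + J ((w a).2 j) (k + 1))
    have h2 : dur gQ w a ((j, k) :: c) = tau gQ ((w a).2 j) (k + 1) +
      dur gQ w (a + J ((w a).2 j) (k + 1)) c := rfl
    have h3 : dur gP w a ((j, k) :: c) = tau gP ((w a).2 j) (k + 1) +
      dur gP w (a + J ((w a).2 j) (k + 1)) c := rfl
    have h4 : uses w a ((j, k) :: c) = (a, j) :: uses w (a + J ((w a).2 j) (k + 1)) c := rfl
    rw [h2, h3, h4, List.filter_cons]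
    by_cases hb : 1 ≤ ((w a).2 j 0).2.2
    · have h5 := tau_gain ((w a).2 j) k 1 le_rfl hb
      simp only [hb, decide_true, if_true, List.length_cons]
      omega
    · have h5 := tau_gain ((w a).2 j) k 0 (Nat.zero_le _) (Nat.zero_le _)
      simp only [hb, decide_false, Bool.false_eq_true, if_false]
      omega

theorem gain {d : ℕ} (w : Om d) (y : Site d) (n' : ℕ) (hF : Rch gP w 0 n' y)
    (S : Finset (Site d × ℕ)) (hS : ∀ q ∈ S, evU y q.1 q.2 w) :
    S.card ≤ n' ∧ Rch gQ w 0 (n' - S.card) y := by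
  classical
  obtain ⟨c, hc1, hc2, hc3⟩ := hF
  have hopt : Opt w 0 y (sel y w) := sel_spec w y ⟨c, hc1, hc2⟩
  have hd : dur gP w 0 (sel y w) ≤ n' := (hopt.2.2 c hc1 hc2).trans hc3
  have hg := dur_gain w 0 (sel y w)
  have hcard : S.card ≤ ((uses w 0 (sel y w)).filter
      (fun q => decide (1 ≤ ((w q.1).2 q.2 0).2.2))).length := by
    refine le_trans (Finset.card_le_card ?_) (List.toFinset_card_le _)
    intro q hq
    rw [List.mem_toFinset, List.mem_filter]
    exact ⟨(hS q hq).1 _ hopt, by simpa using (hS q hq).2⟩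
  refine ⟨by omega, sel y w, hopt.1, hopt.2.1, by omega⟩

end Pool.Agent.Helper61.LF
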