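import Pool.Agent.Helper61.LF.Shape
import Pool.Agent.Helper61.LF.Meas

/-!
Module LF-09 (ShapeBasic). First consequences of the shape property.

There is `w` with `1 ≤ (w 0).1` for which the two inclusions hold eventually (for countably many
`ε` at once, if wanted), because `mu {1 ≤ (w 0).1} = ν {k | 1 ≤ k} = 1 - ν {0} > 0` (`occ_prob`:
`measurePreserving_eval_infinitePi` and the marginal of a product; the last factor is a probability
measure).
* `0 ∈ interior A`: with `ε = 1/2` and such a `w`, for some `n ≥ 1`,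
  `(1/n) • bar {y | Rch g w 0 n y} ⊆ (3/2) • A`, and `bar` contains the cube
  `{v | ∀ i, -1/2 < v i ≤ 1/2}` of the site `0` (`Rch_refl`); so `A` contains a neighbourhood of `0`.
* bounded: `(1/2) • A ⊆ (1/n) • bar {y | Rch g w 0 n y}`, and `nrm y ≤ n` there (`Rch_nrm`).
* `closure A ⊆ {Σ |v i| ≤ 1}`: for every `ε` and large `n`, `v ∈ A` gives
  `(1-ε) v = (1/n) u` with `Σ |u i| ≤ n + d/2`, so `Σ |v i| ≤ (1 + d/(2n))/(1-ε)`; let
  `n → ∞`, then `ε → 0`; the set on the right is closed.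
-/

namespace Pool.Agent.Helper61.LF

open MeasureTheory Filter
open scoped Pointwise Topology

theorem occ_prob {d : ℕ} {ν : Measure ℕ} {p p' : ℝ} (h : Par d ν p p') (hν : ν {0} < 1) :
    0 < mu d ν p p' {w | 1 ≤ (w 0).1} := by
  haveI := h.hν
  haveI := h.isProb_pathLaw
  haveI := h.isProb_stLaw
  have hms : MeasurableSet {s : St d | 1 ≤ s.1} :=
    measurable_fst (MeasurableSet.of_discrete (s := {k : ℕ | 1 ≤ k}))
  have h1 : mu d ν p p' {w | 1 ≤ (w 0).1} = stLaw d ν p p' {s | 1 ≤ s.1} := by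
    have h2 := (measurePreserving_eval_infinitePi (fun _ : Site d => stLaw d ν p p') 0)
    exact h2.measure_preimage hms.nullMeasurableSet
  have h2 : stLaw d ν p p' {s | 1 ≤ s.1} = ν {k | 1 ≤ k} := by
    have h3 : {s : St d | 1 ≤ s.1} = {k : ℕ | 1 ≤ k} ×ˢ Set.univ := by
      ext s
      simp
    rw [h3]
    unfold stLaw
    rw [Measure.prod_prod, measure_univ, mul_one]
  rw [h1, h2]
  have h4 : {k : ℕ | 1 ≤ k} = ({0} : Set ℕ)ᶜ := by
    ext k
    simp only [Set.mem_setOf_eq, Set.mem_compl_iff, Set.mem_singleton_iff]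
    omega
  rw [h4, measure_compl (MeasurableSet.singleton 0) (measure_ne_top ν _), measure_univ]
  exact tsub_pos_of_lt hν

private theorem exists_w {d : ℕ} {ν : Measure ℕ} {p p' : ℝ} (h : Par d ν p p') (hν : ν {0} < 1)
    {g : Ent d → ℕ} {A : Set (Fin d → ℝ)} (hA : ShapeI g (mu d ν p p') A) (ε : ℝ)
    (hε : ε ∈ Set.Ioo (0 : ℝ) 1) : ∃ w : Om d,
      ∀ᶠ n : ℕ in atTop, (1 - ε) • A ⊆ (1 / (n : ℝ)) • bar {y | Rch g w 0 n y} ∧
      (1 / (n : ℝ)) • bar {y | Rch g w 0 n y} ⊆ (1 + ε) • A := by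
  by_contra hcon
  have h1 : ∀ᵐ w ∂(mu d ν p p'), ¬ (1 ≤ (w 0).1) := by
    refine (hA.2.2 ε hε).mono fun w hw h2 => ?_
    exact hcon ⟨w, hw h2⟩
  rw [ae_iff] at h1
  have h2 := occ_prob h hν
  have h3 : {w : Om d | ¬ ¬ (1 ≤ (w 0).1)} = {w | 1 ≤ (w 0).1} := by
    ext w
    simp only [Set.mem_setOf_eq, not_not]
  rw [h3] at h1
  rw [h1] at h2
  exact lt_irrefl _ h2

private theorem sum_abs_le {d : ℕ} {g : Ent d → ℕ} {w : Om d} {n : ℕ} {u : Fin d → ℝ}
    (hu : u ∈ bar {y | Rch g w 0 n y}) : ∑ i, |u i| ≤ n + (d : ℝ) / 2 := by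
  obtain ⟨x, hx, hxu⟩ := hu
  have h1 : nrm x ≤ n := by
    have := Rch_nrm (show Rch g w 0 n x from hx)
    simpa using this
  have h2 : ∑ i, |(x i : ℝ)| = (nrm x : ℝ) := by
    unfold nrm
    rw [Nat.cast_sum]
    refine Finset.sum_congr rfl fun i _ => ?_
    rw [Nat.cast_natAbs, Int.cast_abs]
  have h3 : ∀ i, |u i| ≤ |(x i : ℝ)| + 1 / 2 := by
    intro i
    obtain ⟨h4, h5⟩ := hxu i
    have h6 : u i = (x i : ℝ) + (u i - x i) := by ring
    rw [h6]
    refine (abs_add_le _ _).trans ?_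
    have h7 : |u i - x i| ≤ 1 / 2 := by
      rw [abs_le]
      constructor <;> linarith
    linarith
  calc ∑ i, |u i| ≤ ∑ i : Fin d, (|(x i : ℝ)| + 1 / 2) := Finset.sum_le_sum fun i _ => h3 i
    _ = (nrm x : ℝ) + (d : ℝ) / 2 := by
        rw [Finset.sum_add_distrib, h2]
        simp
        ring
    _ ≤ n + (d : ℝ) / 2 := by
        have : (nrm x : ℝ) ≤ n := by exact_mod_cast h1
        linarith

private theorem sum_abs_shape {d : ℕ} {g : Ent d → ℕ} {w : Om d} {n : ℕ} (hn : 1 ≤ n) {ε : ℝ}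
    (hε : ε ∈ Set.Ioo (0 : ℝ) 1) {A : Set (Fin d → ℝ)}
    (hsub : (1 - ε) • A ⊆ (1 / (n : ℝ)) • bar {y | Rch g w 0 n y}) {v : Fin d → ℝ} (hv : v ∈ A) :
    (1 - ε) * ∑ i, |v i| ≤ 1 + ((d : ℝ) / 2) / n := by
  have hn0 : (0 : ℝ) < n := by exact_mod_cast hn
  obtain ⟨u, hu, huv⟩ := hsub (Set.smul_mem_smul_set hv)
  have h1 := sum_abs_le hu
  have h2 : (1 - ε) * ∑ i, |v i| = (1 / (n : ℝ)) * ∑ i, |u i| := by
    rw [Finset.mul_sum, Finset.mul_sum]
    refine Finset.sum_congr rfl fun i _ => ?_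
    have h3 := congrFun huv i
    simp only [Pi.smul_apply, smul_eq_mul] at h3
    have h4 : |(1 / (n : ℝ)) * u i| = |(1 - ε) * v i| := by rw [h3]
    rw [abs_mul, abs_mul, abs_of_pos (by positivity : (0 : ℝ) < 1 / n),
      abs_of_pos (by linarith [hε.2] : (0 : ℝ) < 1 - ε)] at h4
    exact h4.symm
  rw [h2]
  calc 1 / (n : ℝ) * ∑ i, |u i| ≤ 1 / (n : ℝ) * (n + (d : ℝ) / 2) :=
        mul_le_mul_of_nonneg_left h1 (by positivity)
    _ = 1 + ((d : ℝ) / 2) / n := by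
        field_simp

theorem ShapeI.zero_mem {d : ℕ} {ν : Measure ℕ} {p p' : ℝ} (h : Par d ν p p') (hν : ν {0} < 1)
    {g : Ent d → ℕ} {A : Set (Fin d → ℝ)} (hA : ShapeI g (mu d ν p p') A) :
    (0 : Fin d → ℝ) ∈ interior A := by
  obtain ⟨w, hw⟩ := exists_w h hν hA (1 / 2) ⟨by norm_num, by norm_num⟩
  obtain ⟨n, hn, hn1⟩ := (hw.and (eventually_ge_atTop 1)).exists
  have hn0 : (0 : ℝ) < n := by exact_mod_cast hn1
  rw [mem_interior_iff_mem_nhds, Metric.mem_nhds_iff]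
  refine ⟨1 / (3 * n), by positivity, fun v hv => ?_⟩
  rw [mem_ball_zero_iff] at hv
  have h1 : (1 + 1 / 2 : ℝ) • v ∈ (1 + 1 / 2 : ℝ) • A := by
    apply hn.2
    refine ⟨((n : ℝ) * (3 / 2)) • v, ⟨0, Rch_refl g w 0 n, fun i => ?_⟩, ?_⟩
    · have h2 : |v i| < 1 / (3 * n) := lt_of_le_of_lt (norm_le_pi_norm v i) hv
      have h3 : |((n : ℝ) * (3 / 2)) * v i| < 1 / 2 := by
        rw [abs_mul, abs_of_pos (by positivity : (0 : ℝ) < (n : ℝ) * (3 / 2))]
        calc (n : ℝ) * (3 / 2) * |v i| < (n : ℝ) * (3 / 2) * (1 / (3 * n)) :=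
              mul_lt_mul_of_pos_left h2 (by positivity)
          _ = 1 / 2 := by
              field_simp
      rw [abs_lt] at h3
      simp only [Pi.smul_apply, smul_eq_mul, Pi.zero_apply, Int.cast_zero]
      constructor <;> linarith [h3.1, h3.2]
    · show (1 / (n : ℝ)) • (((n : ℝ) * (3 / 2)) • v) = (1 + 1 / 2 : ℝ) • v
      rw [smul_smul]
      congr 1
      field_simp
      norm_num
  rwa [Set.smul_mem_smul_set_iff₀ (by norm_num)] at h1

theorem ShapeI.bounded {d : ℕ} {ν : Measure ℕ} {p p' : ℝ} (h : Par d ν p p') (hν : ν {0} < 1)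
    {g : Ent d → ℕ} {A : Set (Fin d → ℝ)} (hA : ShapeI g (mu d ν p p') A) :
    Bornology.IsBounded A := by
  obtain ⟨w, hw⟩ := exists_w h hν hA (1 / 2) ⟨by norm_num, by norm_num⟩
  obtain ⟨n, hn, hn1⟩ := (hw.and (eventually_ge_atTop 1)).exists
  have hn0 : (0 : ℝ) < n := by exact_mod_cast hn1
  refine (Metric.isBounded_closedBall (x := (0 : Fin d → ℝ))
    (r := 2 * (1 + ((d : ℝ) / 2) / n))).subset fun v hv => ?_
  have h1 := sum_abs_shape hn1 ⟨by norm_num, by norm_num⟩ hn.1 hv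
  rw [mem_closedBall_zero_iff, pi_norm_le_iff_of_nonneg (by positivity)]
  intro i
  have h2 : |v i| ≤ ∑ i, |v i| :=
    Finset.single_le_sum (f := fun i => |v i|) (fun i _ => abs_nonneg _) (Finset.mem_univ i)
  rw [Real.norm_eq_abs]
  linarith

theorem ShapeI.le_one {d : ℕ} {ν : Measure ℕ} {p p' : ℝ} (h : Par d ν p p') (hν : ν {0} < 1)
    {g : Ent d → ℕ} {A : Set (Fin d → ℝ)} (hA : ShapeI g (mu d ν p p') A) :
    ∀ v ∈ closure A, ∑ i, |v i| ≤ 1 := by
  have hcl : IsClosed {v : Fin d → ℝ | ∑ i, |v i| ≤ 1} :=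
    isClosed_le (by fun_prop) continuous_const
  intro v hv
  refine closure_minimal (s := A) (t := {v : Fin d → ℝ | ∑ i, |v i| ≤ 1}) (fun v hv => ?_) hcl hv
  show ∑ i, |v i| ≤ 1
  by_contra hcon
  push Not at hcon
  obtain ⟨S, hS⟩ : ∃ S : ℝ, S = ∑ i, |v i| := ⟨_, rfl⟩
  rw [← hS] at hcon
  have hS0 : 0 < S := by linarith
  have hε : (S - 1) / (2 * S) ∈ Set.Ioo (0 : ℝ) 1 := by
    constructor
    · apply div_pos <;> linarith
    · rw [div_lt_one (by linarith)]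
      linarith
  obtain ⟨w, hw⟩ := exists_w h hν hA _ hε
  have ht : Tendsto (fun n : ℕ => 1 + ((d : ℝ) / 2) / n) atTop (𝓝 (1 + 0)) :=
    tendsto_const_nhds.add (tendsto_const_div_atTop_nhds_zero_nat ((d : ℝ) / 2))
  rw [add_zero] at ht
  have h1 : (1 - (S - 1) / (2 * S)) * S ≤ 1 := by
    refine ge_of_tendsto ht ?_
    filter_upwards [hw, eventually_ge_atTop 1] with n hn hn1
    have h2 := sum_abs_shape hn1 hε hn.1 hv
    rwa [← hS] at h2
  have h2 : (1 - (S - 1) / (2 * S)) * S = (S + 1) / 2 := by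
    field_simp
    ring
  rw [h2] at h1
  linarith

end Pool.Agent.Helper61.LF
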