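import Pool.Agent.Helper61.LF.ShapeBasic

/-!
Module LF-11 (ShapeLocal). Local control around an occupied origin at a large scale.

Proof. Let `b > 0` with `{v | ∀ i, |v i| ≤ b} ⊆ A` (`0 ∈ interior A`) and `ρ0 = δ b / 4`.
For almost every `w` with `1 ≤ (w 0).1` there is `m0 ≥ 1` such that for all `m ≥ m0`:
`(1/2) • A ⊆ (1/m) • bar {y | Rch gP w 0 m y}` and `(1/m) • bar {…} ⊆ (1 + δ) • A`. Let `K` be so
large that `⌊δ K⌋₊ ≥ m0`, `⌊δ K⌋₊ ≥ δ K / 2` and `K ≥ m0`. If `|z i| ≤ ρ K` for all `i`, then with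
`m = ⌊δ K⌋₊` one has `|2 z i / m| ≤ 4 ρ / δ ≤ b`, so `z/m ∈ (1/2) • A`, so the point `z` is in
`bar {y | Rch gP w 0 m y}`; the only cube that contains the point `z` is the one of the site `z`
itself (an integer strictly between `-1` and `1` is `0`), hence `Rch gP w 0 m z`. If `t ≥ K` and
`Rch gP w 0 t z`, then the point `z` is in `bar`, so `(1/t) z ∈ (1+δ) • A ⊆ (1+δ) • closure A`.
So almost every `w` with `1 ≤ (w 0).1` satisfies `LocOK` for all large `K`; the sets are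
measurable (countable intersections of the sets `{w | Rch gP w 0 t z}`), and the measures tend to `0`.
-/

namespace Pool.Agent.Helper61.LF

open MeasureTheory Filter
open scoped Pointwise Topology

theorem measurableSet_LocOK {d : ℕ} (C : Set (Fin d → ℝ)) (δ ρ : ℝ) (K : ℕ) :
    MeasurableSet {w : Om d | LocOK C δ ρ K w} := by
  have h1 : {w : Om d | LocOK C δ ρ K w} =
      (⋂ z : Site d, ⋂ _ : (∀ i, |z i| ≤ (⌊ρ * K⌋₊ : ℤ)), {w : Om d | Rch gP w 0 ⌊δ * K⌋₊ z}) ∩
      ⋂ t : ℕ, ⋂ _ : K ≤ t, ⋂ z : Site d,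
        ({w : Om d | Rch gP w 0 t z}ᶜ ∪ {_w : Om d | ∃ v ∈ C, toR z = ((1 + δ) * t) • v}) := by
    ext w
    simp only [Set.mem_setOf_eq, Set.mem_inter_iff, Set.mem_iInter, Set.mem_union,
      Set.mem_compl_iff]
    unfold LocOK
    constructor
    · rintro ⟨h1, h2⟩
      refine ⟨h1, fun t ht z => ?_⟩
      by_cases h : Rch gP w 0 t z
      · exact Or.inr (h2 t ht z h)
      · exact Or.inl h
    · rintro ⟨h1, h2⟩
      exact ⟨h1, fun t ht z h => (h2 t ht z).resolve_left (not_not.mpr h)⟩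
  rw [h1]
  refine MeasurableSet.inter ?_ ?_
  · exact MeasurableSet.iInter fun z => MeasurableSet.iInter fun _ => measurableSet_Rch _ _ _ _
  · exact MeasurableSet.iInter fun t => MeasurableSet.iInter fun _ => MeasurableSet.iInter
      fun z => (measurableSet_Rch _ _ _ _).compl.union (MeasurableSet.const _)

private theorem toR_mem_bar {d : ℕ} {S : Set (Site d)} {z : Site d} : toR z ∈ bar S ↔ z ∈ S := by
  constructor
  · rintro ⟨x, hx, hxz⟩
    have : x = z := by
      funext i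
      obtain ⟨h1, h2⟩ := hxz i
      unfold toR at h1 h2
      have h3 : ((x i - z i : ℤ) : ℝ) < 1 := by push_cast; linarith
      have h4 : (-1 : ℝ) < ((x i - z i : ℤ) : ℝ) := by push_cast; linarith
      have h5 : x i - z i < 1 := by exact_mod_cast h3
      have h6 : -1 < x i - z i := by exact_mod_cast h4
      omega
    rwa [← this]
  · intro hz
    refine ⟨z, hz, fun i => ?_⟩
    unfold toR
    constructor <;> linarith

theorem local_lim {d : ℕ} {ν : Measure ℕ} {p p' : ℝ} (h : Par d ν p p') (hν : ν {0} < 1)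
    {A : Set (Fin d → ℝ)} (hA : ShapeI gP (mu d ν p p') A) {δ : ℝ} (hδ : 0 < δ) (hδ' : δ < 1) :
    ∃ ρ0 : ℝ, 0 < ρ0 ∧ ∀ ρ : ℝ, 0 < ρ → ρ ≤ ρ0 →
      Tendsto (fun K : ℕ => mu d ν p p' {w | 1 ≤ (w 0).1 ∧ ¬ LocOK (closure A) δ ρ K w})
        atTop (nhds 0) := by
  have h0 := hA.zero_mem h hν
  rw [mem_interior_iff_mem_nhds, Metric.mem_nhds_iff] at h0
  obtain ⟨r, hr, hrA⟩ := h0
  refine ⟨δ * (r / 2) / 4, by positivity, fun ρ hρ hρ0 => ?_⟩
  haveI := h.isProb_mu
  have hmeas : ∀ K : ℕ, MeasurableSet {w : Om d | 1 ≤ (w 0).1 ∧ ¬ LocOK (closure A) δ ρ K w} := by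
    intro K
    have h1 : MeasurableSet {w : Om d | 1 ≤ (w 0).1} := by
      have : Measurable fun w : Om d => (w 0).1 := measurable_fst.comp (measurable_pi_apply 0)
      exact this (MeasurableSet.of_discrete (s := {k : ℕ | 1 ≤ k}))
    exact h1.inter (measurableSet_LocOK (closure A) δ ρ K).compl
  have key : ∀ᵐ w ∂(mu d ν p p'), ∀ᶠ K : ℕ in atTop,
      w ∈ {w : Om d | 1 ≤ (w 0).1 ∧ ¬ LocOK (closure A) δ ρ K w} ↔ w ∈ (∅ : Set (Om d)) := by
    filter_upwards [hA.2.2 (1 / 2) ⟨by norm_num, by norm_num⟩, hA.2.2 δ ⟨hδ, hδ'⟩] with w hw1 hw2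
    by_cases hocc : 1 ≤ (w 0).1
    swap
    · exact Eventually.of_forall fun K => by simp [hocc]
    have e1 := hw1 hocc
    have e2 := hw2 hocc
    obtain ⟨m1, hm1⟩ := eventually_atTop.mp e1
    obtain ⟨m2, hm2⟩ := eventually_atTop.mp e2
    have hfl : Tendsto (fun K : ℕ => ⌊δ * K⌋₊) atTop atTop :=
      tendsto_nat_floor_atTop.comp (tendsto_natCast_atTop_atTop.const_mul_atTop hδ)
    filter_upwards [hfl.eventually_ge_atTop (m1 + 1), eventually_ge_atTop (m2 + 1)] with K hK1 hK2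
    simp only [Set.mem_setOf_eq, Set.mem_empty_iff_false, iff_false, not_and, not_not]
    intro _
    have hm0 : (0 : ℝ) < (⌊δ * K⌋₊ : ℝ) := by
      have : 0 < ⌊δ * K⌋₊ := by omega
      exact_mod_cast this
    have hm1' : (1 : ℝ) ≤ (⌊δ * K⌋₊ : ℝ) := by
      have : 1 ≤ ⌊δ * K⌋₊ := by omega
      exact_mod_cast this
    have hKpos : (0 : ℝ) < K := by
      have : 0 < K := by omega
      exact_mod_cast this
    have hfl2 : δ * K / 2 ≤ (⌊δ * K⌋₊ : ℝ) := by
      have := Nat.lt_floor_add_one (δ * (K : ℝ))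
      linarith
    refine ⟨fun z hz => ?_, fun t ht z hz => ?_⟩
    · have h1 : (2 / (⌊δ * K⌋₊ : ℝ)) • toR z ∈ A := by
        apply hrA
        rw [mem_ball_zero_iff, pi_norm_lt_iff hr]
        intro i
        have h2 : |(z i : ℝ)| ≤ ρ * K := by
          have h3 : ((|z i| : ℤ) : ℝ) ≤ ((⌊ρ * K⌋₊ : ℤ) : ℝ) := by exact_mod_cast hz i
          have h4 : (⌊ρ * K⌋₊ : ℝ) ≤ ρ * K := Nat.floor_le (by positivity)
          push_cast at h3
          linarith
        simp only [Pi.smul_apply, smul_eq_mul, toR, Real.norm_eq_abs, abs_mul]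
        rw [abs_of_pos (by positivity : (0 : ℝ) < 2 / (⌊δ * K⌋₊ : ℝ)), div_mul_eq_mul_div,
          div_lt_iff₀ hm0]
        have h5 : ρ * K ≤ δ * (r / 2) / 4 * K := by gcongr
        have h6 : r * (δ * K / 2) ≤ r * (⌊δ * K⌋₊ : ℝ) := by gcongr
        have h7 : 0 < r * δ * K := by positivity
        nlinarith
      have h2 := (hm1 _ (by omega : m1 ≤ ⌊δ * K⌋₊)).1 (Set.smul_mem_smul_set h1)
      obtain ⟨u, hu, huz⟩ := h2
      have h3 : u = toR z := by
        have h4 : (1 / (⌊δ * K⌋₊ : ℝ)) • u = (1 / (⌊δ * K⌋₊ : ℝ)) • toR z := by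
          have h5 : (1 / (⌊δ * K⌋₊ : ℝ)) • u =
            (1 - 1 / 2 : ℝ) • (2 / (⌊δ * K⌋₊ : ℝ)) • toR z := huz
          rw [h5, smul_smul]
          congr 1
          field_simp
          norm_num
        have h6 : (1 / (⌊δ * K⌋₊ : ℝ)) ≠ 0 := by positivity
        exact smul_right_injective _ h6 h4
      rw [h3] at hu
      exact toR_mem_bar.mp hu
    · have ht0 : (0 : ℝ) < t := by
        have : 0 < t := by omega
        exact_mod_cast this
      have h1 : (1 / (t : ℝ)) • toR z ∈ (1 / (t : ℝ)) • bar {y | Rch gP w 0 t y} :=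
        Set.smul_mem_smul_set (toR_mem_bar.mpr hz)
      obtain ⟨v, hv, hvz⟩ := (hm2 t (by omega)).2 h1
      refine ⟨v, subset_closure hv, ?_⟩
      have h2 : (1 + δ) • v = (1 / (t : ℝ)) • toR z := hvz
      rw [mul_comm (1 + δ) (t : ℝ), mul_smul, h2, smul_smul, mul_one_div_cancel ht0.ne', one_smul]
  have := tendsto_measure_of_ae_tendsto_indicator_of_isFiniteMeasure atTop MeasurableSet.empty hmeas key
  simpa using this

end Pool.Agent.Helper61.LF
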