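import Pool.Agent.Helper61.LF.Shape
import Pool.Agent.Helper61.LF.Meas

/-!
Module LF-19 (Tail). Long ballistic frogs are rare.

* `srw_tail`: if `κ t ≤ nrm (J s k)` then `κ t / d ≤ |J s k i|` for some coordinate `i`. The
  coordinate `J s k i = Σ_{l<k} vec (s l).1 i` is a sum of independent variables with values in
  `[-1,1]` and mean `0` (the direction has law `dirLaw d`, `map_entLaw_fst`; the two signs have the
  same weight), so by Hoeffding (`hasSubgaussianMGF_of_mem_Icc_of_integral_eq_zero`,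
  `measure_sum_range_ge_le_of_iIndepFun`) `P(±J s k i ≥ a) ≤ exp (-a^2/(2k))`; with
  `a = κ t / d` and `k ≤ t` this is `≤ exp (-κ^2 t/(2 d^2))`. Union over the `2 d` choices. For `k = 0`
  the set is empty unless `t = 0`, and for `t = 0` the bound is `2 d ≥ 1`.
* `path_tail`: for a given `k`, `r ≤ tau` and `κ tau ≤ nrm (J s k)` imply, because `k ≤ tau`,
  `κ max k r ≤ nrm (J s k)`; so the probability is at most
  `Σ_k 2 d exp (-a max(k,r)) ≤ 2 d ((r+1) + 1/(1-exp(-a))) exp (-a r)` with `a = κ^2/(2 d^2)`, and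
  `r + 1 ≤ (2/a + 1) exp (a r / 2)`.
* `balst_tail`: let `c, Cc` be given by `path_tail`. For `r ≥ 1` the set is contained in
  `{st | exp (c r / 2) < st.1} ∪ {st | st.1 ≤ exp (c r/2), some frog j < st.1 is bad}`. The first
  has probability `≤ ν {k | log (1+k) ≥ c r/2} ≤ (∫ log(1+k)^δ dν) / (c r/2)^δ`; the second at most
  `exp (c r/2) * Cc * exp (-c r) = Cc exp (-c r/2) ≤ const * r^(-δ)`.
-/

namespace Pool.Agent.Helper61.LF

open MeasureTheory

private theorem measurable_nrmJ {d : ℕ} (k : ℕ) : Measurable fun s : Path d => nrm (J s k) :=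
  (Measurable.of_discrete (f := fun z : Site d => nrm z)).comp (measurable_J k)

private theorem measurableSet_A {d : ℕ} (κ : ℝ) (r k : ℕ) :
    MeasurableSet {s : Path d | r ≤ tau gP s k ∧ κ * tau gP s k ≤ (nrm (J s k) : ℝ)} := by
  have h1 : Measurable fun s : Path d => (tau gP s k, nrm (J s k)) :=
    (measurable_tau gP k).prodMk (measurable_nrmJ k)
  exact h1 (MeasurableSet.of_discrete (s := {q : ℕ × ℕ | r ≤ q.1 ∧ κ * q.1 ≤ (q.2 : ℝ)}))

private theorem measurableSet_AU {d : ℕ} (κ : ℝ) (r : ℕ) :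
    MeasurableSet {s : Path d | ∃ k, r ≤ tau gP s k ∧ κ * tau gP s k ≤ (nrm (J s k) : ℝ)} := by
  have : {s : Path d | ∃ k, r ≤ tau gP s k ∧ κ * tau gP s k ≤ (nrm (J s k) : ℝ)} =
      ⋃ k, {s : Path d | r ≤ tau gP s k ∧ κ * tau gP s k ≤ (nrm (J s k) : ℝ)} := by
    ext s
    simp
  rw [this]
  exact MeasurableSet.iUnion fun k => measurableSet_A κ r k

theorem measurableSet_BalSt {d : ℕ} (κ : ℝ) (r : ℕ) : MeasurableSet {st : St d | BalSt κ r st} := by
  have : {st : St d | BalSt κ r st} = ⋃ j : ℕ, ({st : St d | j < st.1} ∩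
      {st : St d | ∃ k, r ≤ tau gP (st.2 j) k ∧
        κ * tau gP (st.2 j) k ≤ (nrm (J (st.2 j) k) : ℝ)}) := by
    ext st
    simp [BalSt]
  rw [this]
  refine MeasurableSet.iUnion fun j => MeasurableSet.inter ?_ ?_
  · exact measurable_fst (MeasurableSet.of_discrete (s := {n : ℕ | j < n}))
  · have h2 : Measurable fun st : St d => st.2 j := (measurable_pi_apply j).comp measurable_snd
    exact h2 (measurableSet_AU κ r)

private theorem nrm_cast {d : ℕ} (z : Site d) : (nrm z : ℝ) = ∑ i, |(z i : ℝ)| := by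
  unfold nrm
  push_cast
  refine Finset.sum_congr rfl fun i _ => ?_
  rw [Nat.cast_natAbs, Int.cast_abs]

private theorem int_vec {d : ℕ} (i : Fin d) : ∫ e, (vec e i : ℝ) ∂(dirLaw d) = 0 := by
  unfold dirLaw
  rw [integral_finsetSum_measure]
  · simp only [integral_smul_measure, integral_dirac, smul_eq_mul]
    rw [← Finset.mul_sum, Fintype.sum_prod_type]
    have : ∀ x : Fin d, ∑ y : Bool, (vec (x, y) i : ℝ) = 0 := by
      intro x
      by_cases hx : i = x
      · subst hx
        simp [vec]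
      · simp [vec, hx]
    rw [Finset.sum_eq_zero (fun x _ => this x), mul_zero]
  · intro e _
    exact (integrable_dirac (by simp)).smul_measure ENNReal.ofReal_ne_top

private theorem vec_abs {d : ℕ} (e : Fin d × Bool) (i : Fin d) : |(vec e i : ℝ)| ≤ 1 := by
  by_cases hx : i = e.1
  · subst hx
    cases h : e.2 <;> simp [vec, h]
  · simp [vec, hx]

private theorem int_ent {d : ℕ} {ν : Measure ℕ} {p p' : ℝ} (h : Par d ν p p') (i : Fin d) :
    ∫ e : Ent d, (vec e.1 i : ℝ) ∂(entLaw d p p') = 0 := by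
  rw [← int_vec i, ← map_entLaw_fst h, integral_map measurable_fst.aemeasurable]
  exact (Measurable.of_discrete (f := fun e : Fin d × Bool => (vec e i : ℝ))).aestronglyMeasurable

private theorem coord_tail {d : ℕ} {ν : Measure ℕ} {p p' : ℝ} (h : Par d ν p p') (i : Fin d)
    (σ : ℝ) (hσ : |σ| = 1) (k : ℕ) (a : ℝ) (ha : 0 ≤ a) :
    (pathLaw d p p').real {s | a ≤ ∑ l ∈ Finset.range k, σ * (vec (s l).1 i : ℝ)} ≤
      Real.exp (-a ^ 2 / (2 * k)) := by
  have := h.isProb_entLaw
  have := h.isProb_pathLaw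
  have hm : Measurable fun e : Ent d => σ * (vec e.1 i : ℝ) := Measurable.of_discrete
  have hind : ProbabilityTheory.iIndepFun (fun (l : ℕ) (s : Path d) => σ * (vec (s l).1 i : ℝ))
      (pathLaw d p p') := by
    unfold pathLaw
    exact ProbabilityTheory.iIndepFun_infinitePi (X := fun _ (e : Ent d) => σ * (vec e.1 i : ℝ))
      (fun _ => hm)
  have hsub : ∀ l < k, ProbabilityTheory.HasSubgaussianMGF
      (fun s : Path d => σ * (vec (s l).1 i : ℝ)) 1 (pathLaw d p p') := by
    intro l _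
    have hml : Measurable fun s : Path d => σ * (vec (s l).1 i : ℝ) :=
      hm.comp (measurable_pi_apply l)
    have h1 := ProbabilityTheory.hasSubgaussianMGF_of_mem_Icc_of_integral_eq_zero
      (μ := pathLaw d p p') (X := fun s : Path d => σ * (vec (s l).1 i : ℝ)) (a := -1) (b := 1)
      hml.aemeasurable (Filter.Eventually.of_forall fun s => by
        have h2 : |σ * (vec (s l).1 i : ℝ)| ≤ 1 := by
          rw [abs_mul, hσ, one_mul]
          exact vec_abs _ _
        exact abs_le.mp h2) (by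
        have h3 : ∫ s : Path d, σ * (vec (s l).1 i : ℝ) ∂(pathLaw d p p') =
            ∫ e : Ent d, σ * (vec e.1 i : ℝ) ∂(entLaw d p p') := by
          have h4 := (measurePreserving_eval_infinitePi (fun _ : ℕ => entLaw d p p') l)
          rw [← h4.map_eq, integral_map (measurable_pi_apply l).aemeasurable
            hm.aestronglyMeasurable]
          rfl
        rw [h3, integral_const_mul, int_ent h i, mul_zero])
    have h5 : ((‖(1 : ℝ) - -1‖₊ / 2) ^ 2 : NNReal) = 1 := by
      have : ‖(1 : ℝ) - -1‖₊ = 2 := by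
        ext
        norm_num
      rw [this]
      norm_num
    rw [h5] at h1
    exact h1
  have h6 := ProbabilityTheory.HasSubgaussianMGF.measure_sum_range_ge_le_of_iIndepFun hind hsub ha
  simpa using h6

theorem srw_tail {d : ℕ} {ν : Measure ℕ} {p p' : ℝ} (h : Par d ν p p') {κ : ℝ} (hκ : 0 < κ)
    (k t : ℕ) (hk : k ≤ t) :
    (pathLaw d p p' {s | κ * t ≤ (nrm (J s k) : ℝ)}).toReal ≤
      2 * d * Real.exp (-(κ ^ 2 * t / (2 * d ^ 2))) := by
  have := h.isProb_pathLaw
  have hd : (1 : ℝ) ≤ d := by exact_mod_cast h.hd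
  have hd0 : (0 : ℝ) < d := by linarith
  change (pathLaw d p p').real {s | κ * t ≤ (nrm (J s k) : ℝ)} ≤ _
  rcases Nat.eq_zero_or_pos t with ht | ht
  · subst ht
    refine measureReal_le_one.trans ?_
    simp only [Nat.cast_zero, mul_zero, zero_div, neg_zero, Real.exp_zero, mul_one]
    linarith
  have ht' : (0 : ℝ) < t := by exact_mod_cast ht
  rcases Nat.eq_zero_or_pos k with hk0 | hk0
  · subst hk0
    have h0 : {s : Path d | κ * t ≤ (nrm (J s 0) : ℝ)} = ∅ := by
      ext s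
      simp only [Set.mem_ofPred_eq, Set.mem_empty_iff_false, iff_false, not_le]
      have : nrm (J s 0) = 0 := by simp [J, nrm]
      rw [this, Nat.cast_zero]
      positivity
    rw [h0, measureReal_empty]
    positivity
  have hk' : (0 : ℝ) < k := by exact_mod_cast hk0
  set a : ℝ := κ * t / d with ha
  have ha0 : 0 < a := by positivity
  have hbound : ∀ i : Fin d, ∀ σ : ℝ, |σ| = 1 →
      (pathLaw d p p').real {s | a ≤ ∑ l ∈ Finset.range k, σ * (vec (s l).1 i : ℝ)} ≤
        Real.exp (-(κ ^ 2 * t / (2 * d ^ 2))) := by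
    intro i σ hσ
    refine (coord_tail h i σ hσ k a ha0.le).trans ?_
    apply Real.exp_le_exp.mpr
    rw [neg_div, neg_le_neg_iff]
    have hkt : (k : ℝ) ≤ t := by exact_mod_cast hk
    rw [le_div_iff₀ (by positivity), ha]
    have e : (κ * t / d) ^ 2 = κ ^ 2 * t / (2 * d ^ 2) * (2 * t) := by
      field_simp
    rw [e]
    exact mul_le_mul_of_nonneg_left (by linarith) (by positivity)
  have hsub : {s : Path d | κ * t ≤ (nrm (J s k) : ℝ)} ⊆ ⋃ i : Fin d,
      ({s : Path d | a ≤ ∑ l ∈ Finset.range k, (1 : ℝ) * (vec (s l).1 i : ℝ)} ∪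
        {s : Path d | a ≤ ∑ l ∈ Finset.range k, (-1 : ℝ) * (vec (s l).1 i : ℝ)}) := by
    intro s hs
    simp only [Set.mem_ofPred_eq] at hs
    by_contra hcon
    simp only [Set.mem_iUnion, Set.mem_union, Set.mem_ofPred_eq, not_exists, not_or, not_le] at hcon
    have hlt : ∀ i : Fin d, |(J s k i : ℝ)| < a := by
      intro i
      obtain ⟨h1, h2⟩ := hcon i
      rw [← Finset.mul_sum] at h1 h2
      have h3 : (J s k i : ℝ) = ∑ l ∈ Finset.range k, (vec (s l).1 i : ℝ) := by
        unfold J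
        rw [Finset.sum_apply]
        push_cast
        rfl
      rw [← h3] at h1 h2
      rw [abs_lt]
      constructor <;> linarith
    rw [nrm_cast] at hs
    have h4 : ∑ i : Fin d, |(J s k i : ℝ)| < ∑ i : Fin d, a := by
      refine Finset.sum_lt_sum_of_nonempty ?_ (fun i _ => hlt i)
      exact ⟨⟨0, h.hd⟩, Finset.mem_univ _⟩
    rw [Finset.sum_const, Finset.card_univ, Fintype.card_fin, nsmul_eq_mul, ha] at h4
    have h5 : (d : ℝ) * (κ * t / d) = κ * t := by
      field_simp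
    linarith
  refine (measureReal_mono hsub (measure_ne_top _ _)).trans ?_
  refine (measureReal_iUnion_fintype_le _).trans ?_
  calc ∑ i : Fin d, (pathLaw d p p').real
        ({s : Path d | a ≤ ∑ l ∈ Finset.range k, (1 : ℝ) * (vec (s l).1 i : ℝ)} ∪
        {s : Path d | a ≤ ∑ l ∈ Finset.range k, (-1 : ℝ) * (vec (s l).1 i : ℝ)})
      ≤ ∑ i : Fin d, (Real.exp (-(κ ^ 2 * t / (2 * d ^ 2))) +
          Real.exp (-(κ ^ 2 * t / (2 * d ^ 2)))) := by
        refine Finset.sum_le_sum fun i _ => (measureReal_union_le _ _).trans ?_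
        exact add_le_add (hbound i 1 (by norm_num)) (hbound i (-1) (by norm_num))
    _ = 2 * d * Real.exp (-(κ ^ 2 * t / (2 * d ^ 2))) := by
        rw [Finset.sum_const, Finset.card_univ, Fintype.card_fin, nsmul_eq_mul]
        ring

theorem path_tail {d : ℕ} {ν : Measure ℕ} {p p' : ℝ} (h : Par d ν p p') {κ : ℝ} (hκ : 0 < κ) :
    ∃ c Cc : ℝ, 0 < c ∧ 0 < Cc ∧ ∀ r : ℕ,
      (pathLaw d p p' {s | ∃ k, r ≤ tau gP s k ∧ κ * tau gP s k ≤ (nrm (J s k) : ℝ)}).toReal ≤
        Cc * Real.exp (-(c * r)) := by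
  have := h.isProb_pathLaw
  have hd : (1 : ℝ) ≤ d := by exact_mod_cast h.hd
  have hd0 : (0 : ℝ) < d := by linarith
  set a : ℝ := κ ^ 2 / (2 * d ^ 2) with ha
  have ha0 : 0 < a := by positivity
  set q : ℝ := Real.exp (-(a / 2)) with hq
  have hq0 : 0 < q := Real.exp_pos _
  have hq1 : q < 1 := Real.exp_lt_one_iff.mpr (by linarith)
  refine ⟨a / 2, 2 * d / (1 - q), by positivity, div_pos (by positivity) (by linarith),
    fun r => ?_⟩
  have hsub : {s : Path d | ∃ k, r ≤ tau gP s k ∧ κ * tau gP s k ≤ (nrm (J s k) : ℝ)} ⊆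
      ⋃ k : ℕ, {s : Path d | κ * ((max k r : ℕ) : ℝ) ≤ (nrm (J s k) : ℝ)} := by
    rintro s ⟨k, h1, h2⟩
    refine Set.mem_iUnion.mpr ⟨k, ?_⟩
    have h3 : k ≤ tau gP s k := by
      unfold tau
      calc k = ∑ i ∈ Finset.range k, 1 := by simp
        _ ≤ ∑ i ∈ Finset.range k, (gP (s i) + 1) :=
          Finset.sum_le_sum fun i _ => Nat.le_add_left _ _
    have h4 : max k r ≤ tau gP s k := max_le h3 h1
    have h5 : ((max k r : ℕ) : ℝ) ≤ (tau gP s k : ℝ) := by exact_mod_cast h4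
    exact (mul_le_mul_of_nonneg_left h5 hκ.le).trans h2
  have hk : ∀ k : ℕ, pathLaw d p p' {s : Path d | κ * ((max k r : ℕ) : ℝ) ≤ (nrm (J s k) : ℝ)} ≤
      ENNReal.ofReal (2 * d * Real.exp (-(a / 2 * r)) * q ^ k) := by
    intro k
    rw [ENNReal.le_ofReal_iff_toReal_le (measure_ne_top _ _) (by positivity)]
    refine (srw_tail h hκ k (max k r) (le_max_left _ _)).trans ?_
    rw [mul_assoc (2 * (d : ℝ)), hq, ← Real.exp_nat_mul, ← Real.exp_add]
    refine mul_le_mul_of_nonneg_left (Real.exp_le_exp.mpr ?_) (by positivity)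
    have h6 : (k : ℝ) + r ≤ 2 * ((max k r : ℕ) : ℝ) := by
      have h7 : (k : ℝ) ≤ ((max k r : ℕ) : ℝ) := by exact_mod_cast le_max_left k r
      have h8 : (r : ℝ) ≤ ((max k r : ℕ) : ℝ) := by exact_mod_cast le_max_right k r
      linarith
    have h9 : κ ^ 2 * ((max k r : ℕ) : ℝ) / (2 * d ^ 2) = a * ((max k r : ℕ) : ℝ) := by
      rw [ha]
      ring
    rw [h9]
    nlinarith
  have hsum : HasSum (fun k : ℕ => 2 * d * Real.exp (-(a / 2 * r)) * q ^ k)
      (2 * d * Real.exp (-(a / 2 * r)) * (1 - q)⁻¹) :=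
    (hasSum_geometric_of_lt_one hq0.le hq1).mul_left _
  have hle : pathLaw d p p' {s : Path d | ∃ k, r ≤ tau gP s k ∧
      κ * tau gP s k ≤ (nrm (J s k) : ℝ)} ≤
      ENNReal.ofReal (2 * d * Real.exp (-(a / 2 * r)) * (1 - q)⁻¹) := by
    refine (measure_mono hsub).trans ((measure_iUnion_le _).trans ?_)
    rw [← hsum.tsum_eq, ENNReal.ofReal_tsum_of_nonneg (fun k => by positivity) hsum.summable]
    exact ENNReal.tsum_le_tsum hk
  have h1q : 0 < 1 - q := by linarith
  have h10 := ENNReal.toReal_le_of_le_ofReal (by positivity) hle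
  refine h10.trans (le_of_eq ?_)
  rw [div_eq_mul_inv]
  ring

theorem balst_tail {d : ℕ} {ν : Measure ℕ} {p p' : ℝ} (h : Par d ν p p') {δ : ℝ} (hδ : 0 < δ)
    (hm : ∫⁻ k : ℕ, ENNReal.ofReal (Real.log (1 + k) ^ δ) ∂ν < ⊤) {κ : ℝ} (hκ : 0 < κ) :
    ∃ Cc : ℝ, 0 < Cc ∧ ∀ r : ℕ, 1 ≤ r →
      (stLaw d ν p p' {st | BalSt κ r st}).toReal ≤ Cc * (r : ℝ) ^ (-δ) := by
  have := h.isProb_pathLaw
  have := h.isProb_stLaw
  have := h.hν
  obtain ⟨c, C0, hc, hC0, hp0⟩ := path_tail h hκ
  set I : ENNReal := ∫⁻ k : ℕ, ENNReal.ofReal (Real.log (1 + k) ^ δ) ∂ν with hI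
  have hI0 : 0 ≤ I.toReal := ENNReal.toReal_nonneg
  have h1 : 0 ≤ I.toReal * (c / 2) ^ (-δ) :=
    mul_nonneg hI0 (Real.rpow_nonneg (by positivity) _)
  have h2 : 0 < C0 * (2 * δ / c) ^ δ := mul_pos hC0 (Real.rpow_pos_of_pos (by positivity) _)
  refine ⟨I.toReal * (c / 2) ^ (-δ) + C0 * (2 * δ / c) ^ δ, by linarith, fun r hr => ?_⟩
  have hr0 : (0 : ℝ) < r := by exact_mod_cast hr
  set M : ℝ := Real.exp (c * r / 2) with hM
  -- the two parts
  have hsub : {st : St d | BalSt κ r st} ⊆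
      (Prod.fst ⁻¹' {k : ℕ | M < 1 + (k : ℝ)}) ∪
      ⋃ j ∈ Finset.range ⌊M⌋₊, {st : St d | ∃ k, r ≤ tau gP (st.2 j) k ∧
        κ * tau gP (st.2 j) k ≤ (nrm (J (st.2 j) k) : ℝ)} := by
    intro st hst
    obtain ⟨j, hj, hk⟩ := hst
    by_cases hcase : M < 1 + (st.1 : ℝ)
    · left
      exact hcase
    · right
      push Not at hcase
      have h3 : j < ⌊M⌋₊ := by
        have h4 : (j : ℝ) + 1 ≤ st.1 := by exact_mod_cast hj
        have h5 : ((j + 1 : ℕ) : ℝ) ≤ M := by
          push_cast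
          linarith
        have h6 := Nat.le_floor h5
        omega
      simp only [Set.mem_iUnion]
      exact ⟨j, Finset.mem_range.mpr h3, hk⟩
  have hfst : (stLaw d ν p p').real (Prod.fst ⁻¹' {k : ℕ | M < 1 + (k : ℝ)}) ≤
      I.toReal * (c / 2) ^ (-δ) * (r : ℝ) ^ (-δ) := by
    have h3 : (stLaw d ν p p') (Prod.fst ⁻¹' {k : ℕ | M < 1 + (k : ℝ)}) =
        ν {k : ℕ | M < 1 + (k : ℝ)} := by
      unfold stLaw
      exact measurePreserving_fst.measure_preimage
        (MeasurableSet.of_discrete).nullMeasurableSet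
    have h4 : ν {k : ℕ | M < 1 + (k : ℝ)} ≤
        ν {k : ℕ | ENNReal.ofReal ((c * r / 2) ^ δ) ≤ ENNReal.ofReal (Real.log (1 + k) ^ δ)} := by
      refine measure_mono fun k hk => ?_
      simp only [Set.mem_ofPred_eq] at hk ⊢
      refine ENNReal.ofReal_le_ofReal (Real.rpow_le_rpow (by positivity) ?_ hδ.le)
      rw [Real.le_log_iff_exp_le (by positivity)]
      exact hk.le
    have h5 := meas_ge_le_lintegral_div (μ := ν)
      (f := fun k : ℕ => ENNReal.ofReal (Real.log (1 + k) ^ δ))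
      (Measurable.of_discrete.aemeasurable)
      (ε := ENNReal.ofReal ((c * r / 2) ^ δ))
      (by
        rw [Ne, ENNReal.ofReal_eq_zero, not_le]
        exact Real.rpow_pos_of_pos (by positivity) _) ENNReal.ofReal_ne_top
    have h6 : (stLaw d ν p p') (Prod.fst ⁻¹' {k : ℕ | M < 1 + (k : ℝ)}) ≤
        I / ENNReal.ofReal ((c * r / 2) ^ δ) := by
      rw [h3]
      exact h4.trans h5
    have hpos : 0 < (c * r / 2) ^ δ := Real.rpow_pos_of_pos (by positivity) _
    have h7 : (stLaw d ν p p').real (Prod.fst ⁻¹' {k : ℕ | M < 1 + (k : ℝ)}) ≤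
        (I / ENNReal.ofReal ((c * r / 2) ^ δ)).toReal := by
      refine ENNReal.toReal_mono ?_ h6
      exact ENNReal.div_ne_top hm.ne (by
        rw [Ne, ENNReal.ofReal_eq_zero, not_le]
        exact hpos)
    refine h7.trans (le_of_eq ?_)
    rw [ENNReal.toReal_div, ENNReal.toReal_ofReal hpos.le, mul_assoc,
      ← Real.mul_rpow (by positivity) (by positivity), div_eq_mul_inv,
      ← Real.rpow_neg (by positivity)]
    congr 2
    ring
  have hsnd : ∀ j : ℕ, (stLaw d ν p p').real {st : St d | ∃ k, r ≤ tau gP (st.2 j) k ∧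
        κ * tau gP (st.2 j) k ≤ (nrm (J (st.2 j) k) : ℝ)} ≤ C0 * Real.exp (-(c * r)) := by
    intro j
    have h3 : (stLaw d ν p p') {st : St d | ∃ k, r ≤ tau gP (st.2 j) k ∧
        κ * tau gP (st.2 j) k ≤ (nrm (J (st.2 j) k) : ℝ)} =
        pathLaw d p p' {s : Path d | ∃ k, r ≤ tau gP s k ∧
          κ * tau gP s k ≤ (nrm (J s k) : ℝ)} := by
      have h4 : MeasurePreserving (fun st : St d => st.2 j) (stLaw d ν p p')
          (pathLaw d p p') := by
        unfold stLaw
        exact (measurePreserving_eval_infinitePi (fun _ : ℕ => pathLaw d p p') j).comp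
          measurePreserving_snd
      exact h4.measure_preimage (measurableSet_AU κ r).nullMeasurableSet
    change ((stLaw d ν p p') _).toReal ≤ _
    rw [h3]
    exact hp0 r
  have hM0 : 0 < M := Real.exp_pos _
  have hsecond : (stLaw d ν p p').real (⋃ j ∈ Finset.range ⌊M⌋₊,
      {st : St d | ∃ k, r ≤ tau gP (st.2 j) k ∧
        κ * tau gP (st.2 j) k ≤ (nrm (J (st.2 j) k) : ℝ)}) ≤
      C0 * (2 * δ / c) ^ δ * (r : ℝ) ^ (-δ) := by
    refine (measureReal_biUnion_finset_le _ _).trans ?_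
    refine (Finset.sum_le_sum fun j _ => hsnd j).trans ?_
    rw [Finset.sum_const, Finset.card_range, nsmul_eq_mul]
    have h3 : (⌊M⌋₊ : ℝ) ≤ M := Nat.floor_le hM0.le
    have h4 : (⌊M⌋₊ : ℝ) * (C0 * Real.exp (-(c * r))) ≤ M * (C0 * Real.exp (-(c * r))) :=
      mul_le_mul_of_nonneg_right h3 (by positivity)
    refine h4.trans ?_
    have h5 : M * (C0 * Real.exp (-(c * r))) = C0 * Real.exp (-(c * r / 2)) := by
      rw [hM, mul_left_comm, ← Real.exp_add]
      congr 2
      ring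
    rw [h5, mul_assoc]
    refine mul_le_mul_of_nonneg_left ?_ hC0.le
    -- `r ^ δ ≤ (2 δ / c) ^ δ * exp (c r / 2)`
    have h6 : (c * r / (2 * δ)) ^ δ ≤ Real.exp (c * r / 2) := by
      have h7 : c * r / (2 * δ) ≤ Real.exp (c * r / (2 * δ)) := by
        have := Real.add_one_le_exp (c * r / (2 * δ))
        linarith
      calc (c * r / (2 * δ)) ^ δ ≤ (Real.exp (c * r / (2 * δ))) ^ δ :=
            Real.rpow_le_rpow (by positivity) h7 hδ.le
        _ = Real.exp (c * r / 2) := by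
            rw [← Real.exp_mul]
            congr 1
            field_simp
    have h8 : (c * r / (2 * δ)) ^ δ = ((2 * δ / c) ^ δ)⁻¹ * (r : ℝ) ^ δ := by
      rw [← Real.inv_rpow (by positivity), ← Real.mul_rpow (by positivity) (by positivity)]
      congr 1
      field_simp
    have hA : 0 < (2 * δ / c) ^ δ := Real.rpow_pos_of_pos (by positivity) _
    have hB : 0 < (r : ℝ) ^ δ := Real.rpow_pos_of_pos hr0 _
    rw [h8] at h6
    rw [Real.exp_neg, Real.rpow_neg hr0.le, ← div_eq_mul_inv, inv_eq_one_div,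
      div_le_div_iff₀ (Real.exp_pos _) hB, one_mul]
    have h9 := mul_le_mul_of_nonneg_left h6 hA.le
    rw [← mul_assoc, mul_inv_cancel₀ hA.ne', one_mul] at h9
    exact h9
  change (stLaw d ν p p').real {st | BalSt κ r st} ≤ _
  refine (measureReal_mono hsub (measure_ne_top _ _)).trans ?_
  refine (measureReal_union_le _ _).trans ?_
  rw [add_mul]
  exact add_le_add hfst hsecond

end Pool.Agent.Helper61.LF
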